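import Mathlib

/-!
Adapted coordinates for pairs of subspaces with a small intersection, and projections which do not
increase the dimensions of the intersections.
-/

set_option autoImplicit false

namespace Pool.Agent.W943.Nis

open Module

variable {F : Type*} [Field F]

theorem basis_isCompl {V : Type*} [AddCommGroup V] [Module F V]
    (p q : Submodule F V) (h : IsCompl p q) {ι κ : Type*} (bp : Basis ι F p) (bq : Basis κ F q) :
    ∃ b : Basis (ι ⊕ κ) F V,
      (∀ (x : V) (hx : x ∈ p), (∀ i, b.repr x (Sum.inl i) = bp.repr ⟨x, hx⟩ i) ∧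
        ∀ j, b.repr x (Sum.inr j) = 0) ∧
      (∀ (x : V) (hx : x ∈ q), (∀ i, b.repr x (Sum.inl i) = 0) ∧
        ∀ j, b.repr x (Sum.inr j) = bq.repr ⟨x, hx⟩ j) := by
  refine ⟨(bp.prod bq).map (Submodule.prodEquivOfIsCompl p q h), fun x hx => ?_, fun x hx => ?_⟩
  · have h4 : (Submodule.prodEquivOfIsCompl p q h).symm x = ((⟨x, hx⟩ : p), (0 : q)) :=
      Submodule.prodEquivOfIsCompl_symm_apply_left p q h ⟨x, hx⟩
    constructor
    · intro i
      simp [h4]
    · intro j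
      simp [h4]
  · have h4 : (Submodule.prodEquivOfIsCompl p q h).symm x = ((0 : p), (⟨x, hx⟩ : q)) :=
      Submodule.prodEquivOfIsCompl_symm_apply_right p q h ⟨x, hx⟩
    constructor
    · intro i
      simp [h4]
    · intro j
      simp [h4]

theorem basis_sub {V : Type*} [AddCommGroup V] [Module F V] [FiniteDimensional F V]
    (I : Submodule F V) :
    ∃ (m : ℕ) (b : Basis (Fin (finrank F I) ⊕ Fin m) F V),
      ∀ (x : V) (_ : x ∈ I) (j : Fin m), b.repr x (Sum.inr j) = 0 := by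
  obtain ⟨G, hG⟩ := Submodule.exists_isCompl I
  obtain ⟨b, h1, -⟩ := basis_isCompl I G hG (finBasis F I) (finBasis F G)
  exact ⟨finrank F G, b, fun x hx j => (h1 x hx).2 j⟩

theorem adapt_aux {N w : ℕ} (U' W' I : Submodule F (Fin N → F)) (hc : IsCompl U' W')
    (hI : I ≤ W') (hw : finrank F I ≤ w) :
    ∃ (P : Matrix (Fin N) (Fin N) F) (A J : Finset (Fin N)), P.det ≠ 0 ∧ J.card ≤ w ∧
      (∀ u ∈ U' ⊔ I, ∀ i, i ∉ A ∪ J → P.mulVec u i = 0) ∧
      (∀ v ∈ W', ∀ i ∈ A, P.mulVec v i = 0) := by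
  classical
  obtain ⟨m, b2, hb2⟩ := basis_sub (I.comap W'.subtype)
  obtain ⟨b, hb1, hb3⟩ := basis_isCompl U' W' hc (finBasis F U') b2
  let e := b.indexEquiv (Pi.basisFun F (Fin N))
  let b' := b.reindex e
  have hrepr : ∀ u i, (b'.toMatrix (Pi.basisFun F (Fin N))).mulVec u i = b.repr u (e.symm i) := by
    intro u i
    have := Basis.toMatrix_mulVec_repr (Pi.basisFun F (Fin N)) b' u
    rw [← Basis.repr_reindex_apply, ← this]
    rfl
  refine ⟨b'.toMatrix (Pi.basisFun F (Fin N)), Finset.univ.image fun k => e (Sum.inl k),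
    Finset.univ.image fun k => e (Sum.inr (Sum.inl k)), ?_, ?_, ?_, ?_⟩
  · have : IsUnit (b'.toMatrix (Pi.basisFun F (Fin N))).det := by
      let _ := b'.invertibleToMatrix (Pi.basisFun F (Fin N))
      exact Matrix.isUnit_det_of_invertible _
    exact this.ne_zero
  · refine Finset.card_image_le.trans ?_
    rw [Finset.card_univ, Fintype.card_fin]
    refine le_trans (le_of_eq ?_) hw
    exact (Submodule.comapSubtypeEquivOfLe hI).finrank_eq
  · intro u hu i hi
    rw [hrepr]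
    obtain ⟨k, hk⟩ : ∃ k, e.symm i = Sum.inr (Sum.inr k) := by
      rcases h : e.symm i with k | k | k
      · exact absurd (Finset.mem_union_left _ (Finset.mem_image.2
          ⟨k, Finset.mem_univ _, by rw [← h, Equiv.apply_symm_apply]⟩)) hi
      · exact absurd (Finset.mem_union_right _ (Finset.mem_image.2
          ⟨k, Finset.mem_univ _, by rw [← h, Equiv.apply_symm_apply]⟩)) hi
      · exact ⟨k, rfl⟩
    rw [hk]
    obtain ⟨x, hx, y, hy, rfl⟩ := Submodule.mem_sup.1 hu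
    have h7 : b.repr x (Sum.inr (Sum.inr k)) = 0 := (hb1 x hx).2 _
    have h8 : b.repr y (Sum.inr (Sum.inr k)) = 0 := by
      rw [(hb3 y (hI hy)).2]
      exact hb2 _ hy k
    rw [map_add, Finsupp.add_apply, h7, h8, add_zero]
  · intro v hv i hi
    rw [hrepr]
    obtain ⟨k, _, rfl⟩ := Finset.mem_image.1 hi
    rw [Equiv.symm_apply_apply]
    exact (hb3 v hv).1 k

/-- adapted coordinates for a pair of subspaces -/
theorem adapt {N w : ℕ} (U W : Submodule F (Fin N → F)) (hw : finrank F ↥(U ⊓ W) ≤ w) :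
    ∃ (P : Matrix (Fin N) (Fin N) F) (A J : Finset (Fin N)), P.det ≠ 0 ∧ J.card ≤ w ∧
      (∀ u ∈ U, ∀ i, i ∉ A ∪ J → P.mulVec u i = 0) ∧ (∀ v ∈ W, ∀ i ∈ A, P.mulVec v i = 0) := by
  classical
  obtain ⟨C, hC⟩ := Submodule.exists_isCompl (U ⊓ W)
  have h1 : (U ⊓ C) ⊔ (U ⊓ W) = U := by
    rw [inf_sup_assoc_of_le _ inf_le_left, sup_comm, hC.sup_eq_top, inf_top_eq]
  have h2 : Disjoint (U ⊓ C) W := by
    rw [disjoint_iff, inf_right_comm]
    exact hC.inf_eq_bot
  obtain ⟨D, hD⟩ := Submodule.exists_isCompl ((U ⊓ C) ⊔ W)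
  have hc : IsCompl (U ⊓ C) (W ⊔ D) := by
    constructor
    · exact h2.disjoint_sup_right_of_disjoint_sup_left hD.disjoint
    · rw [codisjoint_iff, ← sup_assoc, hD.sup_eq_top]
  obtain ⟨P, A, J, h3, h4, h5, h6⟩ := adapt_aux (U ⊓ C) (W ⊔ D) (U ⊓ W) hc
    (inf_le_right.trans le_sup_left) hw
  refine ⟨P, A, J, h3, h4, fun u hu => h5 u (by rwa [h1]), fun v hv => h6 v ?_⟩
  exact (le_sup_left : W ≤ W ⊔ D) hv

/-- projections along lines which do not increase intersections -/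
theorem map_inf_le {V V' : Type*} [AddCommGroup V] [Module F V] [AddCommGroup V'] [Module F V']
    (P : V →ₗ[F] V') (U W : Submodule F V)
    (h : LinearMap.ker P ≤ U ∨ LinearMap.ker P ≤ W ∨ LinearMap.ker P ⊓ (U ⊔ W) = ⊥) :
    U.map P ⊓ W.map P ≤ (U ⊓ W).map P := by
  rintro _ ⟨⟨u, hu, rfl⟩, ⟨v, hv, hvu⟩⟩
  have hk : u - v ∈ LinearMap.ker P := by
    rw [LinearMap.mem_ker, map_sub, hvu, sub_self]
  rcases h with h | h | h
  · have h1 := h hk
    have h2 : v ∈ U := by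
      have := U.sub_mem hu h1
      rwa [sub_sub_cancel] at this
    exact ⟨v, ⟨h2, hv⟩, hvu⟩
  · have h1 := h hk
    have h2 : u ∈ W := by
      have := W.add_mem h1 hv
      rwa [sub_add_cancel] at this
    exact ⟨u, ⟨hu, h2⟩, rfl⟩
  · have h1 : u - v ∈ LinearMap.ker P ⊓ (U ⊔ W) := ⟨hk, Submodule.sub_mem _
      ((le_sup_left : U ≤ U ⊔ W) hu) ((le_sup_right : W ≤ U ⊔ W) hv)⟩
    rw [h, Submodule.mem_bot, sub_eq_zero] at h1
    subst h1
    exact ⟨u, ⟨hu, hv⟩, rfl⟩

end Pool.Agent.W943.Nis
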