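import Mathlib

/-!
The determinant of a sum of two matrices with small cuts is a short sum of products.
-/

set_option autoImplicit false

namespace Pool.Agent.W943.Nis

section det

variable {F A ι : Type*} [CommRing F] [CommRing A] [Algebra F A] [Fintype ι] [DecidableEq ι]

theorem det_mem (S : Subalgebra F A) (Z : Matrix ι ι A) (h : ∀ i j, Z i j ∈ S) : Z.det ∈ S := by
  rw [Matrix.det_apply']
  exact Subalgebra.sum_mem _ fun σ _ => Subalgebra.mul_mem _ (Subalgebra.intCast_mem _ _)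
    (Subalgebra.prod_mem _ fun i _ => h _ _)

theorem det_zero_of_card (Z : Matrix ι ι A) (S T : Finset ι)
    (h1 : ∀ j ∈ T, ∀ i, i ∉ S → Z j i = 0) (h2 : ∀ j, j ∉ T → ∀ i ∈ S, Z j i = 0)
    (hc : S.card ≠ T.card) : Z.det = 0 := by
  rw [Matrix.det_apply]
  refine Finset.sum_eq_zero fun σ _ => ?_
  suffices ∃ i, Z (σ i) i = 0 by
    obtain ⟨i, hi⟩ := this
    have h0 : ∏ i, Z (σ i) i = 0 := Finset.prod_eq_zero (Finset.mem_univ i) hi
    rw [h0, smul_zero]
  by_contra hcon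
  push Not at hcon
  apply hc
  rw [← Finset.card_map σ.toEmbedding]
  congr 1
  ext j
  rw [Finset.mem_map]
  constructor
  · rintro ⟨i, hi, rfl⟩
    by_contra hj
    exact hcon i (h2 _ hj i hi)
  · intro hj
    refine ⟨σ.symm j, ?_, σ.apply_symm_apply j⟩
    by_contra hi
    refine hcon (σ.symm j) ?_
    rw [σ.apply_symm_apply]
    exact h1 j hj _ hi

theorem det_block (S1 S2 : Subalgebra F A) (Z : Matrix ι ι A) (p : ι → Prop) [DecidablePred p]
    (h2 : ∀ j, ¬ p j → ∀ i, p i → Z j i = 0)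
    (h3 : ∀ j, p j → ∀ i, p i → Z j i ∈ S1) (h4 : ∀ j, ¬ p j → ∀ i, ¬ p i → Z j i ∈ S2) :
    ∃ g ∈ S1, ∃ h ∈ S2, Z.det = g * h :=
  ⟨(Z.toSquareBlockProp p).det, det_mem S1 _ fun i j => h3 _ i.2 _ j.2,
    (Z.toSquareBlockProp (fun j => ¬ p j)).det, det_mem S2 _ fun i j => h4 _ i.2 _ j.2,
    Matrix.twoBlockTriangular_det Z p h2⟩

theorem det_split (S1 S2 : Subalgebra F A) (Z : Matrix ι ι A) (S T : Finset ι)
    (h1 : ∀ j ∈ T, ∀ i, i ∉ S → Z j i = 0) (h2 : ∀ j, j ∉ T → ∀ i ∈ S, Z j i = 0)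
    (h3 : ∀ j ∈ T, ∀ i ∈ S, Z j i ∈ S1) (h4 : ∀ j, j ∉ T → ∀ i, i ∉ S → Z j i ∈ S2) :
    ∃ g ∈ S1, ∃ h ∈ S2, Z.det = g * h := by
  by_cases hc : S.card = T.card
  · obtain ⟨σ, hσ1, hσ2⟩ : ∃ σ : Equiv.Perm ι, (∀ j ∈ T, σ j ∈ S) ∧ ∀ j, j ∉ T → σ j ∉ S := by
      let e : {x // x ∈ T} ≃ {x // x ∈ S} := Finset.equivOfCardEq hc.symm
      exact ⟨e.extendSubtype, fun j hj => e.extendSubtype_mem j hj,
        fun j hj => e.extendSubtype_not_mem j hj⟩
    have h5 := Matrix.det_permute' σ Z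
    obtain ⟨g, hg, h, hh, hgh⟩ := det_block S1 S2 (Z.submatrix id σ) (fun j => j ∈ T)
      (fun j hj i hi => h2 j hj _ (hσ1 i hi)) (fun j hj i hi => h3 j hj _ (hσ1 i hi))
      (fun j hj i hi => h4 j hj _ (hσ2 i hi))
    refine ⟨g, hg, (((Equiv.Perm.sign σ : ℤˣ) : ℤ) : A) * h,
      Subalgebra.mul_mem _ (Subalgebra.intCast_mem _ _) hh, ?_⟩
    rw [mul_left_comm, ← hgh, h5, ← mul_assoc, ← Int.cast_mul, ← Units.val_mul]
    rw [Int.units_mul_self, Units.val_one, Int.cast_one, one_mul]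
  · exact ⟨0, S1.zero_mem, 0, S2.zero_mem, by rw [det_zero_of_card Z S T h1 h2 hc, mul_zero]⟩

/-- the mixed matrices -/
def mix (X Y : Matrix ι ι A) (S T : Finset ι) : Matrix ι ι A :=
  fun j i => if j ∈ T then (if i ∈ S then X i j else 0) else (if i ∈ S then 0 else Y i j)

theorem det_add_eq (X Y : Matrix ι ι A) :
    (X + Y).det = ∑ S : Finset ι, ∑ T : Finset ι, (mix X Y S T).det := by
  have h1 : ∀ X Y : Matrix ι ι A, (X + Y).det = ∑ S : Finset ι,
      Matrix.det (S.piecewise X Y : Matrix ι ι A) := by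
    intro X Y
    exact (Matrix.detRowAlternating (n := ι) (R := A)).toMultilinearMap.map_add_univ X Y
  rw [h1]
  refine Finset.sum_congr rfl fun S _ => ?_
  have h2 : Matrix.transpose (S.piecewise X Y : Matrix ι ι A) =
      (Matrix.of fun j i => if i ∈ S then X i j else 0) +
        (Matrix.of fun j i => if i ∈ S then 0 else Y i j) := by
    ext j i
    by_cases hi : i ∈ S
    · simp [hi]
    · simp [hi]
  rw [← Matrix.det_transpose, h2, h1]
  refine Finset.sum_congr rfl fun T _ => ?_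
  congr 1
  ext j i
  by_cases hj : j ∈ T
  · simp [hj, mix]
  · simp [hj, mix]

theorem det_cut (S1 S2 : Subalgebra F A) (X Y : Matrix ι ι A) (hX : ∀ i j, X i j ∈ S1)
    (hY : ∀ i j, Y i j ∈ S2) (a I b J : Finset ι)
    (hX1 : ∀ i, i ∉ a ∪ I → ∀ j, X i j = 0) (hX2 : ∀ j, j ∉ b ∪ J → ∀ i, X i j = 0)
    (hY1 : ∀ i ∈ a, ∀ j, Y i j = 0) (hY2 : ∀ j ∈ b, ∀ i, Y i j = 0) :
    ∃ g h : Finset ι × Finset ι → A, (∀ p, g p ∈ S1) ∧ (∀ p, h p ∈ S2) ∧
      (X + Y).det = ∑ p ∈ (Finset.Icc a (a ∪ I)) ×ˢ (Finset.Icc b (b ∪ J)), g p * h p := by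
  have h1 : ∀ p : Finset ι × Finset ι, ∃ g ∈ S1, ∃ h ∈ S2, (mix X Y p.1 p.2).det = g * h := by
    intro p
    refine det_split S1 S2 (mix X Y p.1 p.2) p.1 p.2 ?_ ?_ ?_ ?_
    · intro j hj i hi
      simp [mix, hj, hi]
    · intro j hj i hi
      simp [mix, hj, hi]
    · intro j hj i hi
      simp only [mix, hj, hi, if_true]
      exact hX _ _
    · intro j hj i hi
      simp only [mix, hj, hi, if_false]
      exact hY _ _
  choose g hg h hh hgh using h1
  refine ⟨g, h, hg, hh, ?_⟩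
  rw [det_add_eq, ← Finset.sum_product', ← Finset.sum_congr rfl fun p _ => hgh p]
  symm
  apply Finset.sum_subset
  · intro p _
    rw [Finset.mem_product]
    exact ⟨Finset.mem_univ _, Finset.mem_univ _⟩
  · intro p _ hp
    rw [Finset.mem_product, Finset.mem_Icc, Finset.mem_Icc] at hp
    by_cases h2 : a ≤ p.1
    · by_cases h3 : p.1 ≤ a ∪ I
      · by_cases h4 : b ≤ p.2
        · by_cases h5 : p.2 ≤ b ∪ J
          · exact absurd ⟨⟨h2, h3⟩, h4, h5⟩ hp
          · obtain ⟨j, hj, hj'⟩ := Finset.not_subset.1 h5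
            refine Matrix.det_eq_zero_of_row_eq_zero j fun i => ?_
            simp [mix, hj, hX2 j hj' i]
        · obtain ⟨j, hj, hj'⟩ := Finset.not_subset.1 h4
          refine Matrix.det_eq_zero_of_row_eq_zero j fun i => ?_
          simp [mix, hj', hY2 j hj i]
      · obtain ⟨i, hi, hi'⟩ := Finset.not_subset.1 h3
        refine Matrix.det_eq_zero_of_column_eq_zero i fun j => ?_
        simp [mix, hi, hX1 i hi' j]
    · obtain ⟨i, hi, hi'⟩ := Finset.not_subset.1 h2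
      refine Matrix.det_eq_zero_of_column_eq_zero i fun j => ?_
      simp [mix, hi', hY1 i hi j]

omit [Fintype ι] in
theorem card_Icc_union (a I : Finset ι) : (Finset.Icc a (a ∪ I)).card ≤ 2 ^ I.card := by
  rw [Finset.card_Icc_finset Finset.subset_union_left]
  refine Nat.pow_le_pow_right (by norm_num) ?_
  have := Finset.card_union_le a I
  omega

end det

end Pool.Agent.W943.Nis
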