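import Mathlib
import Pool.Agent.H530R2.Jet1

/-!
Chains of prime ideals of a polynomial ring which lose one step under differentiation, and the
ideals obtained from them by making the variables of a finite set free.
-/

namespace Pool.Agent.W943

open MvPolynomial Pool.Agent.H530R2

section leib

variable {R : Type*} [CommRing R] {F : Type*} [CommRing F] [Algebra F R]

/-- multiplication by `c` and iterated derivatives modulo an ideal -/
theorem iter_mul_sub (δ : Derivation F R R) (P : Ideal R) (k : ℕ) :
    ∀ c Q : R, (∀ a < k, (δ^[a]) Q ∈ P) → (δ^[k]) (c * Q) - c * (δ^[k]) Q ∈ P := by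
  induction k with
  | zero => intro c Q _; simp
  | succ k ih =>
    intro c Q h
    have h1 := ih (δ c) Q (fun a ha => h a (by omega))
    have h2 := ih c (δ Q) (fun a ha => by
      have := h (a + 1) (by omega)
      rwa [Function.iterate_succ_apply] at this)
    have h3 : (δ^[k]) Q ∈ P := h k (by omega)
    have h4 : δ (c * Q) = δ c * Q + c * δ Q := by
      rw [Derivation.leibniz, smul_eq_mul, smul_eq_mul]; ring
    have h5 : ∀ (m : ℕ) (x y : R), (δ^[m]) (x + y) = (δ^[m]) x + (δ^[m]) y := by
      intro m
      induction m with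
      | zero => intro x y; rfl
      | succ m ihm =>
        intro x y
        rw [Function.iterate_succ_apply, Function.iterate_succ_apply, Function.iterate_succ_apply,
          map_add, ihm]
    rw [Function.iterate_succ_apply, Function.iterate_succ_apply, h4, h5]
    have h6 : (δ^[k]) (δ c * Q) ∈ P := by
      have := P.add_mem h1 (P.mul_mem_left (δ c) h3)
      rwa [sub_add_cancel] at this
    have h7 := P.add_mem h6 h2
    rwa [← add_sub_assoc] at h7

theorem iter_add (δ : Derivation F R R) (m : ℕ) : ∀ (x y : R),
    (δ^[m]) (x + y) = (δ^[m]) x + (δ^[m]) y := by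
  induction m with
  | zero => intro x y; rfl
  | succ m ihm =>
    intro x y
    rw [Function.iterate_succ_apply, Function.iterate_succ_apply, Function.iterate_succ_apply,
      map_add, ihm]

/-- the leading term of an iterated derivative of a product -/
theorem iter_lead (δ : Derivation F R R) (P : Ideal R) (N : ℕ) :
    ∀ (a b : ℕ) (Q Q' : R), a + b = N → (∀ c < a, (δ^[c]) Q ∈ P) → (∀ c < b, (δ^[c]) Q' ∈ P) →
      (δ^[N]) (Q * Q') - (N.choose a : R) * ((δ^[a]) Q * (δ^[b]) Q') ∈ P := by
  induction N with
  | zero =>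
    intro a b Q Q' hab _ _
    have ha : a = 0 := by omega
    have hb : b = 0 := by omega
    subst ha; subst hb
    simp
  | succ N ih =>
    intro a b Q Q' hab hQ hQ'
    have h4 : δ (Q * Q') = δ Q * Q' + Q * δ Q' := by
      rw [Derivation.leibniz, smul_eq_mul, smul_eq_mul]; ring
    rw [Function.iterate_succ_apply, h4, iter_add]
    have hs : ∀ (k : ℕ) (x : R), (δ^[k]) (δ x) = (δ^[k + 1]) x := fun k x =>
      (Function.iterate_succ_apply _ _ _).symm
    rcases Nat.eq_zero_or_pos a with ha | ha
    · subst ha
      have hb : b = N + 1 := by omega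
      subst hb
      have h1 := ih 0 N (δ Q) Q' (by omega) (fun c hc => by omega)
        (fun c hc => hQ' c (by omega))
      have h2 := ih 0 N Q (δ Q') (by omega) (fun c hc => by omega)
        (fun c hc => by rw [hs]; exact hQ' (c + 1) (by omega))
      have h3 : (δ^[N]) (δ Q * Q') ∈ P := by
        have h5 : ((N.choose 0 : ℕ) : R) * ((δ^[0]) (δ Q) * (δ^[N]) Q') ∈ P :=
          P.mul_mem_left _ (P.mul_mem_left _ (hQ' N (by omega)))
        have := P.add_mem h1 h5
        rwa [sub_add_cancel] at this
      have h6 := P.add_mem h3 h2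
      rw [hs] at h6
      rw [Nat.choose_zero_right] at h6 ⊢
      rwa [← add_sub_assoc] at h6
    · rcases Nat.eq_zero_or_pos b with hb | hb
      · subst hb
        have ha' : a = N + 1 := by omega
        subst ha'
        have h1 := ih N 0 (δ Q) Q' (by omega)
          (fun c hc => by rw [hs]; exact hQ (c + 1) (by omega)) (fun c hc => by omega)
        have h2 := ih N 0 Q (δ Q') (by omega) (fun c hc => hQ c (by omega))
          (fun c hc => by omega)
        have h3 : (δ^[N]) (Q * δ Q') ∈ P := by
          have h5 : ((N.choose N : ℕ) : R) * ((δ^[N]) Q * (δ^[0]) (δ Q')) ∈ P :=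
            P.mul_mem_left _ (P.mul_mem_right _ (hQ N (by omega)))
          have := P.add_mem h2 h5
          rwa [sub_add_cancel] at this
        have h6 := P.add_mem h1 h3
        rw [hs] at h6
        rw [Nat.choose_self] at h6 ⊢
        rwa [sub_add_eq_add_sub] at h6
      · obtain ⟨a', rfl⟩ : ∃ a', a = a' + 1 := ⟨a - 1, by omega⟩
        obtain ⟨b', rfl⟩ : ∃ b', b = b' + 1 := ⟨b - 1, by omega⟩
        have h1 := ih a' (b' + 1) (δ Q) Q' (by omega)
          (fun c hc => by rw [hs]; exact hQ (c + 1) (by omega)) hQ'
        have h2 := ih (a' + 1) b' Q (δ Q') (by omega) hQ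
          (fun c hc => by rw [hs]; exact hQ' (c + 1) (by omega))
        have h6 := P.add_mem h1 h2
        rw [hs, hs] at h6
        have h7 : (((N + 1).choose (a' + 1) : ℕ) : R) = ((N.choose a' : ℕ) : R) +
            ((N.choose (a' + 1) : ℕ) : R) := by
          rw [Nat.choose_succ_succ]; push_cast; ring
        rw [h7]
        have h8 : (δ^[N]) (δ Q * Q') - (N.choose a' : R) * ((δ^[a' + 1]) Q * (δ^[b' + 1]) Q') +
            ((δ^[N]) (Q * δ Q') - (N.choose (a' + 1) : R) *
              ((δ^[a' + 1]) Q * (δ^[b' + 1]) Q')) =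
            (δ^[N]) (δ Q * Q') + (δ^[N]) (Q * δ Q') - ((N.choose a' : R) +
              (N.choose (a' + 1) : R)) * ((δ^[a' + 1]) Q * (δ^[b' + 1]) Q') := by ring
        rwa [h8] at h6

/-- the core of a prime ideal with respect to a derivation is prime -/
theorem core_prime (δ : Derivation F R R) (P : Ideal R) (hP : P.IsPrime)
    (hn : ∀ m : ℕ, m ≠ 0 → (m : R) ∉ P) {Q Q' : R} (h : ∀ k, (δ^[k]) (Q * Q') ∈ P) :
    (∀ k, (δ^[k]) Q ∈ P) ∨ (∀ k, (δ^[k]) Q' ∈ P) := by
  classical
  by_contra hcon
  push Not at hcon
  obtain ⟨h1, h2⟩ := hcon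
  have a1 := Nat.find_spec h1
  have a2 := Nat.find_spec h2
  have b1 : ∀ c < Nat.find h1, (δ^[c]) Q ∈ P := fun c hc => by
    have := Nat.find_min h1 hc
    push Not at this
    exact this
  have b2 : ∀ c < Nat.find h2, (δ^[c]) Q' ∈ P := fun c hc => by
    have := Nat.find_min h2 hc
    push Not at this
    exact this
  have h3 := iter_lead δ P _ _ _ Q Q' rfl b1 b2
  have h4 := P.sub_mem (h (Nat.find h1 + Nat.find h2)) h3
  rw [sub_sub_cancel] at h4
  rcases hP.mem_or_mem h4 with h5 | h5
  · exact hn _ (Nat.choose_pos (Nat.le_add_right _ _)).ne' h5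
  · rcases hP.mem_or_mem h5 with h6 | h6
    · exact a1 h6
    · exact a2 h6

end leib

section dl

variable {F : Type*} [Field F] {n : ℕ}

/-- iterated partial derivative along a list of variables -/
noncomputable def dl : List (Fin n) → MvPolynomial (Fin n) F → MvPolynomial (Fin n) F
  | [], Q => Q
  | i :: L, Q => dl L (pderiv i Q)

theorem dl_nil (Q : MvPolynomial (Fin n) F) : dl [] Q = Q := rfl

theorem dl_cons (i : Fin n) (L : List (Fin n)) (Q : MvPolynomial (Fin n) F) :
    dl (i :: L) Q = dl L (pderiv i Q) := rfl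

theorem dl_add (L : List (Fin n)) (P Q : MvPolynomial (Fin n) F) :
    dl L (P + Q) = dl L P + dl L Q := by
  induction L generalizing P Q with
  | nil => rfl
  | cons i L ih => rw [dl_cons, dl_cons, dl_cons, map_add, ih]

theorem dl_zero (L : List (Fin n)) : dl L (0 : MvPolynomial (Fin n) F) = 0 := by
  induction L with
  | nil => rfl
  | cons i L ih => rw [dl_cons, map_zero, ih]

theorem dl_append (L L' : List (Fin n)) (Q : MvPolynomial (Fin n) F) :
    dl (L ++ L') Q = dl L' (dl L Q) := by
  induction L generalizing Q with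
  | nil => rfl
  | cons i L ih => rw [List.cons_append, dl_cons, dl_cons, ih]

theorem dl_pderiv (L : List (Fin n)) (i : Fin n) (Q : MvPolynomial (Fin n) F) :
    dl L (pderiv i Q) = pderiv i (dl L Q) := by
  induction L generalizing Q with
  | nil => rfl
  | cons k L ih => rw [dl_cons, dl_cons, pderiv_comm', ih]

theorem dl_replicate (k : ℕ) (i : Fin n) (Q : MvPolynomial (Fin n) F) :
    dl (List.replicate k i) Q = ((pderiv i : Derivation F _ _)^[k]) Q := by
  induction k generalizing Q with
  | zero => rfl
  | succ k ih => rw [List.replicate_succ, dl_cons, ih, Function.iterate_succ_apply]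

theorem iter_comm (k : ℕ) (i l : Fin n) (Q : MvPolynomial (Fin n) F) :
    ((pderiv i : Derivation F _ _)^[k]) (pderiv l Q) =
      pderiv l (((pderiv i : Derivation F _ _)^[k]) Q) := by
  rw [← dl_replicate, dl_pderiv, dl_replicate]

end dl

/-- A decreasing chain of prime ideals which loses one step under differentiation. -/
structure DChain (F : Type*) [Field F] (n : ℕ) where
  /-- the ideals -/
  I : ℕ → Ideal (MvPolynomial (Fin n) F)
  prime : ∀ j, (I j).IsPrime
  anti : ∀ j, I (j + 1) ≤ I j
  der : ∀ j i Q, Q ∈ I (j + 1) → pderiv i Q ∈ I j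

section H

variable {F : Type*} [Field F] {n : ℕ} (V : DChain F n)

theorem DChain.mono {j j' : ℕ} (h : j ≤ j') : V.I j' ≤ V.I j := by
  induction j', h using Nat.le_induction with
  | base => exact le_rfl
  | succ m _ ih => exact (V.anti m).trans ih

theorem DChain.const_mem {j : ℕ} {c : F} (h : C c ∈ V.I j) : c = 0 := by
  by_contra hc
  apply (V.prime j).ne_top
  rw [Ideal.eq_top_iff_one]
  have : (1 : MvPolynomial (Fin n) F) = C c⁻¹ * C c := by
    rw [← map_mul, inv_mul_cancel₀ hc, map_one]
  rw [this]
  exact Ideal.mul_mem_left _ _ h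

/-- the ideal at level `j` with the variables of `Z` made free -/
def DChain.H (j : ℕ) (Z : Finset (Fin n)) : Ideal (MvPolynomial (Fin n) F) where
  carrier := {Q | ∀ L : List (Fin n), (∀ k ∈ L, k ∈ Z) → dl L Q ∈ V.I j}
  zero_mem' := by
    intro L _
    rw [dl_zero]
    exact (V.I j).zero_mem
  add_mem' := by
    intro P Q hP hQ L hL
    rw [dl_add]
    exact (V.I j).add_mem (hP L hL) (hQ L hL)
  smul_mem' := by
    have key : ∀ (L : List (Fin n)), (∀ k ∈ L, k ∈ Z) → ∀ c Q : MvPolynomial (Fin n) F,
        (∀ L : List (Fin n), (∀ k ∈ L, k ∈ Z) → dl L Q ∈ V.I j) → dl L (c * Q) ∈ V.I j := by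
      intro L
      induction L with
      | nil =>
        intro _ c Q hQ
        rw [dl_nil]
        exact (V.I j).mul_mem_left _ (hQ [] (by simp))
      | cons i L ih =>
        intro hL c Q hQ
        have hL' : ∀ k ∈ L, k ∈ Z := fun k hk => hL k (List.mem_cons_of_mem _ hk)
        rw [dl_cons, pderiv_mul, dl_add]
        refine (V.I j).add_mem (ih hL' _ _ hQ) (ih hL' _ _ ?_)
        intro L' hL''
        rw [← dl_cons]
        apply hQ
        intro k hk
        rcases List.mem_cons.1 hk with rfl | hk
        · exact hL _ List.mem_cons_self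
        · exact hL'' k hk
    intro c Q hQ L hL
    exact key L hL c Q hQ

theorem DChain.mem_H {j : ℕ} {Z : Finset (Fin n)} {Q : MvPolynomial (Fin n) F} :
    Q ∈ V.H j Z ↔ ∀ L : List (Fin n), (∀ k ∈ L, k ∈ Z) → dl L Q ∈ V.I j := Iff.rfl

theorem DChain.H_le (j : ℕ) (Z : Finset (Fin n)) : V.H j Z ≤ V.I j :=
  fun _ h => h [] (by simp)

theorem DChain.H_empty (j : ℕ) : V.H j ∅ = V.I j := by
  apply le_antisymm (V.H_le j ∅)
  intro Q hQ L hL
  cases L with
  | nil => exact hQ
  | cons i L => exact absurd (hL i List.mem_cons_self) (Finset.notMem_empty i)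

theorem DChain.H_mono {j j' : ℕ} (h : j ≤ j') (Z : Finset (Fin n)) : V.H j' Z ≤ V.H j Z :=
  fun _ hQ L hL => V.mono h (hQ L hL)

theorem DChain.H_anti {j : ℕ} {Z Z' : Finset (Fin n)} (h : Z ⊆ Z') : V.H j Z' ≤ V.H j Z :=
  fun _ hQ L hL => hQ L fun k hk => h (hL k hk)

/-- stability under derivatives in free directions -/
theorem DChain.H_stable {j : ℕ} {Z : Finset (Fin n)} {Q : MvPolynomial (Fin n) F}
    (h : Q ∈ V.H j Z) {k : Fin n} (hk : k ∈ Z) : pderiv k Q ∈ V.H j Z := by
  intro L hL
  rw [← dl_cons]
  apply h
  intro l hl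
  rcases List.mem_cons.1 hl with rfl | hl
  · exact hk
  · exact hL l hl

/-- loss of one step under arbitrary derivatives -/
theorem DChain.H_der {j : ℕ} {Z : Finset (Fin n)} {Q : MvPolynomial (Fin n) F}
    (h : Q ∈ V.H (j + 1) Z) (k : Fin n) : pderiv k Q ∈ V.H j Z := by
  intro L hL
  rw [dl_pderiv]
  exact V.der _ _ _ (h L hL)

theorem DChain.mem_H_insert {j : ℕ} {Z : Finset (Fin n)} {i : Fin n}
    {Q : MvPolynomial (Fin n) F} :
    Q ∈ V.H j (insert i Z) ↔ ∀ k, ((pderiv i : Derivation F _ _)^[k]) Q ∈ V.H j Z := by
  constructor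
  · intro h k L hL
    rw [← dl_replicate, ← dl_append]
    apply h
    intro l hl
    rcases List.mem_append.1 hl with hl | hl
    · rw [List.eq_of_mem_replicate hl]; exact Finset.mem_insert_self _ _
    · exact Finset.mem_insert_of_mem (hL l hl)
  · intro h L
    induction L generalizing Q with
    | nil => intro _; exact V.H_le j Z (h 0)
    | cons a L ih =>
      intro hL
      have hL' : ∀ k ∈ L, k ∈ insert i Z := fun k hk => hL k (List.mem_cons_of_mem _ hk)
      rw [dl_cons]
      refine ih ?_ hL'
      intro k
      by_cases ha : a = i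
      · subst ha
        have := h (k + 1)
        rwa [Function.iterate_succ_apply] at this
      · have haZ : a ∈ Z := by
          rcases Finset.mem_insert.1 (hL a List.mem_cons_self) with h1 | h1
          · exact absurd h1 ha
          · exact h1
        rw [iter_comm]
        exact V.H_stable (h k) haZ

theorem DChain.natCast_notMem [CharZero F] (j m : ℕ) (Z : Finset (Fin n)) (hm : m ≠ 0) :
    ((m : ℕ) : MvPolynomial (Fin n) F) ∉ V.H j Z := by
  intro h
  have h1 := V.H_le j Z h
  have h2 : ((m : ℕ) : MvPolynomial (Fin n) F) = C (m : F) := by rw [map_natCast]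
  rw [h2] at h1
  exact hm (by exact_mod_cast V.const_mem h1)

theorem DChain.H_prime [CharZero F] (j : ℕ) (Z : Finset (Fin n)) : (V.H j Z).IsPrime := by
  classical
  induction Z using Finset.induction_on with
  | empty => rw [V.H_empty]; exact V.prime j
  | insert i Z _ ih =>
    refine ⟨?_, ?_⟩
    · intro htop
      have := V.natCast_notMem j 1 (insert i Z) one_ne_zero
      rw [htop] at this
      exact this trivial
    · intro Q Q' h
      rw [V.mem_H_insert] at h
      rw [V.mem_H_insert, V.mem_H_insert]
      exact core_prime _ _ ih (fun m hm => V.natCast_notMem j m Z hm) h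

/-- A first order linear differential relation frees a variable at no cost, if its leading
coefficient does not vanish. -/
theorem DChain.H_lossless [CharZero F] (j : ℕ) {Z : Finset (Fin n)} {i0 : Fin n}
    {Q μ : MvPolynomial (Fin n) F} {ρ : ℕ} (κ : Fin ρ → Fin n) (hκ : ∀ p, κ p ∈ Z)
    (m : Fin ρ → MvPolynomial (Fin n) F)
    (hpde : μ * pderiv i0 Q = ∑ p, m p * pderiv (κ p) Q)
    (hQ : Q ∈ V.H j Z) (hμ : μ ∉ V.H j Z) : Q ∈ V.H j (insert i0 Z) := by
  have hP := V.H_prime j Z
  have key : ∀ k, ∀ a ≤ k, ((pderiv i0 : Derivation F _ _)^[a]) Q ∈ V.H j Z := by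
    intro k
    induction k with
    | zero =>
      intro a ha
      have : a = 0 := by omega
      subst this
      exact hQ
    | succ k ih =>
      intro a ha
      rcases Nat.lt_or_ge a (k + 1) with h | h
      · exact ih a (by omega)
      · have hak : a = k + 1 := by omega
        subst hak
        have h1 := iter_mul_sub (pderiv i0 : Derivation F _ _) (V.H j Z) k μ (pderiv i0 Q)
          (fun a ha => by
            rw [← Function.iterate_succ_apply]
            exact ih (a + 1) (by omega))
        rw [← Function.iterate_succ_apply (n := k)] at h1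
        have h2 : ((pderiv i0 : Derivation F _ _)^[k]) (μ * pderiv i0 Q) ∈ V.H j Z := by
          rw [hpde]
          have hsum : ∀ (s : Finset (Fin ρ)), ((pderiv i0 : Derivation F _ _)^[k])
              (∑ p ∈ s, m p * pderiv (κ p) Q) ∈ V.H j Z := by
            intro s
            classical
            induction s using Finset.induction_on with
            | empty =>
              rw [Finset.sum_empty, ← dl_replicate, dl_zero]
              exact (V.H j Z).zero_mem
            | insert p s hp ihs =>
              rw [Finset.sum_insert hp, iter_add]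
              refine (V.H j Z).add_mem ?_ ihs
              have h3 := iter_mul_sub (pderiv i0 : Derivation F _ _) (V.H j Z) k (m p)
                (pderiv (κ p) Q) (fun a ha => by
                  rw [iter_comm]
                  exact V.H_stable (ih a (by omega)) (hκ p))
              have h4 : ((pderiv i0 : Derivation F _ _)^[k]) (pderiv (κ p) Q) ∈ V.H j Z := by
                rw [iter_comm]
                exact V.H_stable (ih k le_rfl) (hκ p)
              have := (V.H j Z).add_mem h3 ((V.H j Z).mul_mem_left (m p) h4)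
              rwa [sub_add_cancel] at this
          exact hsum Finset.univ
        have h3 := (V.H j Z).sub_mem h2 h1
        rw [sub_sub_cancel] at h3
        rcases hP.mem_or_mem h3 with h4 | h4
        · exact absurd h4 hμ
        · exact h4
  rw [V.mem_H_insert]
  exact fun k => key k k le_rfl

theorem eq_C_of_pderiv [CharZero F] {Q : MvPolynomial (Fin n) F} (h : ∀ k, pderiv k Q = 0) :
    Q = C (coeff 0 Q) := by
  ext m
  rw [coeff_C]
  split_ifs with hm
  · rw [← hm]
  · obtain ⟨i, hi⟩ : ∃ i, m i ≠ 0 := by
      by_contra hc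
      push Not at hc
      apply hm
      ext i
      rw [hc i]; rfl
    set m' := m - Finsupp.single i 1 with hm'
    have h1 : m' + Finsupp.single i 1 = m := by
      rw [hm']
      apply tsub_add_cancel_of_le
      rw [Finsupp.single_le_iff]
      omega
    have h2 := coeff_pderiv (i := i) Q m'
    rw [h i, coeff_zero, h1] at h2
    rcases mul_eq_zero.1 h2.symm with h3 | h3
    · exact h3
    · exfalso
      have : ((m' i + 1 : ℕ) : F) = 0 := by push_cast; exact h3
      exact Nat.succ_ne_zero (m' i) (by exact_mod_cast this)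

theorem totalDegree_pderiv_le (i : Fin n) (Q : MvPolynomial (Fin n) F) :
    (pderiv i Q).totalDegree ≤ Q.totalDegree - 1 := by
  unfold totalDegree
  refine Finset.sup_le fun m hm => ?_
  rw [mem_support_iff, coeff_pderiv] at hm
  have h1 : coeff (m + Finsupp.single i 1) Q ≠ 0 := left_ne_zero_of_mul hm
  have h2 := le_totalDegree (mem_support_iff.2 h1)
  have h3 : ((m + Finsupp.single i 1).sum fun _ e => e) = (m.sum fun _ e => e) + 1 := by
    rw [Finsupp.sum_add_index' (fun _ => rfl) (fun _ _ _ => rfl), Finsupp.sum_single_index rfl]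
  rw [h3] at h2
  unfold totalDegree at h2
  omega

/-- polynomials in the free variables -/
theorem DChain.H_supp [CharZero F] (j : ℕ) (Z : Finset (Fin n)) (d : ℕ) :
    ∀ Q : MvPolynomial (Fin n) F, Q.totalDegree ≤ d → Q ∈ supported F (Z : Set (Fin n)) →
      Q ∈ V.H j Z → Q = 0 := by
  induction d with
  | zero =>
    intro Q hd _ hQ
    have h1 := totalDegree_eq_zero_iff_eq_C.1 (Nat.le_zero.1 hd)
    have h2 := V.H_le j Z hQ
    rw [h1] at h2 ⊢
    rw [V.const_mem h2, map_zero]
  | succ d ih =>
    intro Q hd hs hQ
    have h1 : ∀ k, pderiv k Q = 0 := by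
      intro k
      by_cases hk : k ∈ Z
      · refine ih _ ?_ (pderiv_mem_supported k hs) (V.H_stable hQ hk)
        have := totalDegree_pderiv_le k Q
        omega
      · apply pderiv_eq_zero_of_notMem_vars
        intro hkv
        exact hk (by exact_mod_cast (mem_supported.1 hs) hkv)
    have h2 := eq_C_of_pderiv h1
    have h3 := V.H_le j Z hQ
    rw [h2] at h3 ⊢
    rw [V.const_mem h3, map_zero]

end H

end Pool.Agent.W943
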