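import Mathlib
import Pool.Agent.W943.Orb1

/-!
Freeing one variable in a chain of primes which loses one step under differentiation, for
polynomials of bounded rank in that variable.
-/

namespace Pool.Agent.W943

open MvPolynomial Pool.Agent.H530R2

section wr

variable {F : Type*} [Field F] [CharZero F]

/-- Polynomials with vanishing Wronskian are proportional. -/
theorem wr_zero {a b : Polynomial F} (ha : a ≠ 0)
    (h : a * Polynomial.derivative b - Polynomial.derivative a * b = 0) :
    ∃ μ : F, b = Polynomial.C μ * a := by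
  classical
  set g := EuclideanDomain.gcd a b with hg
  obtain ⟨u, hu⟩ := EuclideanDomain.gcd_dvd_left a b
  obtain ⟨v, hv⟩ := EuclideanDomain.gcd_dvd_right a b
  rw [← hg] at hu hv
  have hg0 : g ≠ 0 := by
    intro h0
    rw [h0, zero_mul] at hu
    exact ha hu
  have hcop : IsCoprime u v := by
    have h1 := EuclideanDomain.gcd_eq_gcd_ab a b
    rw [← hg] at h1
    refine ⟨EuclideanDomain.gcdA a b, EuclideanDomain.gcdB a b, ?_⟩
    apply mul_left_cancel₀ hg0
    rw [mul_one]
    conv_rhs => rw [h1]
    conv_rhs => rw [hu]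
    have : g * (EuclideanDomain.gcdA a b * u + EuclideanDomain.gcdB a b * v) =
        (g * u) * EuclideanDomain.gcdA a b + (g * v) * EuclideanDomain.gcdB a b := by ring
    rw [this, ← hv, ← hu]
  have hW : Polynomial.wronskian u v = 0 := by
    have h1 : g * g * Polynomial.wronskian u v = 0 := by
      rw [hu, hv, Polynomial.derivative_mul, Polynomial.derivative_mul] at h
      rw [Polynomial.wronskian]
      rw [← h]
      ring
    rcases mul_eq_zero.1 h1 with h2 | h2
    · exact absurd h2 (mul_ne_zero hg0 hg0)
    · exact h2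
  obtain ⟨h1, h2⟩ := hcop.wronskian_eq_zero_iff.1 hW
  have h3 := Polynomial.eq_C_of_natDegree_eq_zero
    (Polynomial.derivative_eq_zero.1 h1)
  have h4 := Polynomial.eq_C_of_natDegree_eq_zero
    (Polynomial.derivative_eq_zero.1 h2)
  set c := u.coeff 0 with hc
  set d := v.coeff 0 with hd
  have hc0 : c ≠ 0 := by
    intro h0
    rw [h0, map_zero] at h3
    rw [h3, mul_zero] at hu
    exact ha hu
  refine ⟨d / c, ?_⟩
  rw [hu, hv, h3, h4]
  have : Polynomial.C d = Polynomial.C (d / c) * Polynomial.C c := by
    rw [← map_mul, div_mul_cancel₀ d hc0]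
  rw [this]
  ring

end wr

section free

variable {F : Type*} [Field F] {n : ℕ} (V : DChain F n)

theorem pderiv_aeval_X (i : Fin n) (b : Polynomial F) :
    pderiv i (Polynomial.aeval (X i : MvPolynomial (Fin n) F) b) =
      Polynomial.aeval (X i) (Polynomial.derivative b) := by
  induction b using Polynomial.induction_on' with
  | add p q hp hq => rw [map_add, map_add, hp, hq, Polynomial.derivative_add, map_add]
  | monomial k c =>
    rw [Polynomial.aeval_monomial, Polynomial.derivative_monomial, Polynomial.aeval_monomial,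
      pderiv_mul, pderiv_pow, pderiv_X_self]
    have : pderiv i ((algebraMap F (MvPolynomial (Fin n) F)) c) = 0 := pderiv_C
    rw [this, zero_mul, zero_add, map_mul]
    have h2 : (algebraMap F (MvPolynomial (Fin n) F)) (k : F) = (k : MvPolynomial (Fin n) F) :=
      map_natCast _ _
    rw [h2]
    ring

/-- Nonzero univariate polynomials are not in the first ideal. -/
theorem DChain.uni [CharZero F] (i : Fin n) {b : Polynomial F} (hb : b ≠ 0) {j : ℕ}
    (hj : 1 ≤ j) (Z : Finset (Fin n)) :
    Polynomial.aeval (X i : MvPolynomial (Fin n) F) b ∉ V.H j Z := by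
  intro hmem
  have h1 : Polynomial.aeval (X i : MvPolynomial (Fin n) F) b ∈ V.I 1 :=
    V.mono hj (V.H_le j Z hmem)
  set J : Ideal (Polynomial F) :=
    Ideal.comap (Polynomial.aeval (X i : MvPolynomial (Fin n) F)) (V.I 1) with hJ
  have hprime := V.prime 1
  have hJp : J.IsPrime := Ideal.IsPrime.comap _
  have hbJ : b ∈ J := h1
  have hJ0 : J ≠ ⊥ := by
    intro h0
    rw [h0] at hbJ
    exact hb ((Submodule.mem_bot _).1 hbJ)
  set p := Submodule.IsPrincipal.generator J with hp
  have hpJ : p ∈ J := Submodule.IsPrincipal.generator_mem J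
  have hirr : Irreducible p :=
    (Submodule.IsPrincipal.prime_generator_of_isPrime J hJ0).irreducible
  obtain ⟨u, v, huv⟩ := hirr.separable
  have h2 : Polynomial.aeval (X i : MvPolynomial (Fin n) F) p ∈ V.I 1 := hpJ
  have h3 : Polynomial.aeval (X i : MvPolynomial (Fin n) F) p ∈ V.I 0 := V.anti 0 h2
  have h4 : Polynomial.aeval (X i : MvPolynomial (Fin n) F) (Polynomial.derivative p) ∈ V.I 0 := by
    rw [← pderiv_aeval_X]
    exact V.der 0 i _ h2
  have h5 := congrArg (Polynomial.aeval (X i : MvPolynomial (Fin n) F)) huv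
  rw [map_add, map_mul, map_mul, map_one] at h5
  apply (V.prime 0).ne_top
  rw [Ideal.eq_top_iff_one, ← h5]
  exact (V.I 0).add_mem ((V.I 0).mul_mem_left _ h3) ((V.I 0).mul_mem_left _ h4)

/-- the elimination of linearly independent coefficient functions -/
theorem DChain.free_aux [CharZero F] (Z : Finset (Fin n)) (i : Fin n) (r : ℕ) :
    ∀ (j : ℕ), 1 ≤ j → ∀ (b : Fin (r + 1) → Polynomial F), LinearIndependent F b →
      ∀ c : Fin (r + 1) → MvPolynomial (Fin n) F, (∀ α, pderiv i (c α) = 0) →
      ∑ α, Polynomial.aeval (X i) (b α) * c α ∈ V.H (j + r) Z → ∀ α, c α ∈ V.H j Z := by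
  induction r with
  | zero =>
    intro j hj b hb c _ h α
    rw [Fin.sum_univ_one] at h
    have hα : α = 0 := Fin.ext (by have := α.isLt; simp)
    subst hα
    rcases (V.H_prime j Z).mem_or_mem h with h1 | h1
    · exact absurd h1 (V.uni i (hb.ne_zero 0) hj Z)
    · exact h1
  | succ r ih =>
    intro j hj b hb c hc h
    have hb0 : b 0 ≠ 0 := hb.ne_zero 0
    set Q := ∑ α, Polynomial.aeval (X i) (b α) * c α with hQ
    have hdQ : pderiv i Q =
        ∑ α, Polynomial.aeval (X i) (Polynomial.derivative (b α)) * c α := by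
      rw [hQ, map_sum]
      apply Finset.sum_congr rfl
      intro α _
      rw [pderiv_mul, hc, mul_zero, add_zero, pderiv_aeval_X]
    have h1 : pderiv i Q ∈ V.H (j + r) Z := V.H_der h i
    have h2 : Q ∈ V.H (j + r) Z := V.H_mono (by omega) Z h
    set b' : Fin (r + 1) → Polynomial F := fun α =>
      b 0 * Polynomial.derivative (b α.succ) - Polynomial.derivative (b 0) * b α.succ with hb'
    have hrel : Polynomial.aeval (X i : MvPolynomial (Fin n) F) (b 0) * pderiv i Q -
        Polynomial.aeval (X i) (Polynomial.derivative (b 0)) * Q =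
        ∑ α : Fin (r + 1), Polynomial.aeval (X i) (b' α) * c α.succ := by
      rw [hdQ, hQ, Fin.sum_univ_succ, Fin.sum_univ_succ (f := fun α =>
        Polynomial.aeval (X i) (b α) * c α), mul_add, mul_add, Finset.mul_sum, Finset.mul_sum]
      have h3 : ∀ (x y z w z' w' : MvPolynomial (Fin n) F), x * (y * z) + w - (y * (x * z) + w') =
        w - w' := by intros; ring
      rw [h3 _ _ _ _ 0 _, ← Finset.sum_sub_distrib]
      · apply Finset.sum_congr rfl
        intro α _
        simp only [hb', map_sub, map_mul]
        ring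
    have h4 : ∑ α : Fin (r + 1), Polynomial.aeval (X i) (b' α) * c α.succ ∈ V.H (j + r) Z := by
      rw [← hrel]
      exact (V.H (j + r) Z).sub_mem ((V.H (j + r) Z).mul_mem_left _ h1)
        ((V.H (j + r) Z).mul_mem_left _ h2)
    have hli : LinearIndependent F b' := by
      rw [Fintype.linearIndependent_iff]
      intro g hg
      set B : Polynomial F := ∑ α : Fin (r + 1), g α • b α.succ with hB
      have hW : b 0 * Polynomial.derivative B - Polynomial.derivative (b 0) * B = 0 := by
        rw [← hg, hB, map_sum, Finset.mul_sum, Finset.mul_sum, ← Finset.sum_sub_distrib]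
        apply Finset.sum_congr rfl
        intro α _
        simp only [hb', Polynomial.derivative_smul, smul_sub, mul_smul_comm]
      obtain ⟨μ, hμ⟩ := wr_zero hb0 hW
      have h5 := (Fintype.linearIndependent_iff.1 hb) (Fin.cons (-μ) g) (by
        rw [Fin.sum_univ_succ]
        simp only [Fin.cons_zero, Fin.cons_succ]
        rw [← hB, hμ, Polynomial.smul_eq_C_mul, map_neg]
        ring)
      intro α
      have := h5 α.succ
      simpa using this
    have h6 := ih j hj b' hli (fun α => c α.succ) (fun α => hc _) h4
    intro α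
    refine Fin.cases ?_ (fun α => h6 α) α
    have h7 : Polynomial.aeval (X i : MvPolynomial (Fin n) F) (b 0) * c 0 ∈ V.H j Z := by
      have h8 : Polynomial.aeval (X i : MvPolynomial (Fin n) F) (b 0) * c 0 =
          Q - ∑ α : Fin (r + 1), Polynomial.aeval (X i) (b α.succ) * c α.succ := by
        rw [hQ, Fin.sum_univ_succ]; ring
      rw [h8]
      exact (V.H j Z).sub_mem (V.H_mono (by omega) Z h)
        ((V.H j Z).sum_mem fun α _ => (V.H j Z).mul_mem_left _ (h6 α))
    rcases (V.H_prime j Z).mem_or_mem h7 with h9 | h9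
    · exact absurd h9 (V.uni i hb0 hj Z)
    · exact h9

/-- `Q` has rank at most `r` as a polynomial in the variable `i` and the other variables. -/
def Bd (i : Fin n) (r : ℕ) (Q : MvPolynomial (Fin n) F) : Prop :=
  ∃ (b : Fin r → Polynomial F) (c : Fin r → MvPolynomial (Fin n) F),
    (∀ α, c α ∈ supported F {k : Fin n | k ≠ i}) ∧
      Q = ∑ α, Polynomial.aeval (X i) (b α) * c α

theorem pderiv_supported_ne {i : Fin n} {c : MvPolynomial (Fin n) F}
    (h : c ∈ supported F {k : Fin n | k ≠ i}) : pderiv i c = 0 := by
  apply pderiv_eq_zero_of_notMem_vars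
  intro hi
  exact (mem_supported.1 h) (by exact_mod_cast hi) rfl

theorem Bd.free [CharZero F] {i : Fin n} {r : ℕ} {Q : MvPolynomial (Fin n) F} (hQ : Bd i r Q)
    {j : ℕ} (hj : 1 ≤ j) {Z : Finset (Fin n)} (h : Q ∈ V.H (j + r) Z) :
    Q ∈ V.H j (insert i Z) := by
  classical
  have hex : ∃ r, Bd i r Q := ⟨r, hQ⟩
  set r' := Nat.find hex with hr'
  have h1 : Bd i r' Q := Nat.find_spec hex
  have h2 : r' ≤ r := Nat.find_min' hex hQ
  have h3 : ∀ s, s < r' → ¬ Bd i s Q := fun s hs => Nat.find_min hex hs
  clear_value r'
  obtain ⟨b, c, hc, hQ'⟩ := h1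
  rcases Nat.eq_zero_or_pos r' with h0 | h0
  · subst h0
    rw [hQ']
    simp
  · obtain ⟨s, rfl⟩ : ∃ s, r' = s + 1 := ⟨r' - 1, by omega⟩
    have hli : LinearIndependent F b := by
      by_contra hdep
      rw [Fintype.not_linearIndependent_iff] at hdep
      obtain ⟨g, hg, α0, hα0⟩ := hdep
      apply h3 s (by omega)
      refine ⟨fun β => b (α0.succAbove β),
        fun β => c (α0.succAbove β) - C (g (α0.succAbove β) / g α0) * c α0, ?_, ?_⟩
      · intro β
        exact Subalgebra.sub_mem _ (hc _) (Subalgebra.mul_mem _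
          (Subalgebra.algebraMap_mem (supported F {k : Fin n | k ≠ i}) _) (hc _))
      · have h5 : Polynomial.aeval (X i : MvPolynomial (Fin n) F) (b α0) =
            - ∑ β : Fin s, C (g (α0.succAbove β) / g α0) *
              Polynomial.aeval (X i) (b (α0.succAbove β)) := by
          rw [Fin.sum_univ_succAbove _ α0] at hg
          have h6 : b α0 = - ∑ β : Fin s, (g (α0.succAbove β) / g α0) • b (α0.succAbove β) := by
            have h7 : g α0 • b α0 = - ∑ β : Fin s, g (α0.succAbove β) • b (α0.succAbove β) :=
              eq_neg_of_add_eq_zero_left hg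
            have h8 := congrArg (fun x => (g α0)⁻¹ • x) h7
            simp only [smul_smul, inv_mul_cancel₀ hα0, one_smul, smul_neg, Finset.smul_sum] at h8
            rw [h8]
            congr 1
            apply Finset.sum_congr rfl
            intro β _
            rw [div_eq_inv_mul]
          rw [h6, map_neg, map_sum]
          congr 1
          apply Finset.sum_congr rfl
          intro β _
          rw [map_smul, Algebra.smul_def]
          rfl
        rw [hQ', Fin.sum_univ_succAbove _ α0, h5, neg_mul, Finset.sum_mul, neg_add_eq_sub,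
          ← Finset.sum_sub_distrib]
        apply Finset.sum_congr rfl
        intro β _
        ring
    have h5 : ∀ α, c α ∈ V.H j Z := by
      apply V.free_aux Z i s j hj b hli c (fun α => pderiv_supported_ne (hc α))
      rw [← hQ']
      exact V.H_mono (by omega) Z h
    rw [hQ']
    refine Ideal.sum_mem _ fun α _ => Ideal.mul_mem_left _ _ ?_
    rw [V.mem_H_insert]
    intro k
    cases k with
    | zero => exact h5 α
    | succ k =>
      rw [Function.iterate_succ_apply, pderiv_supported_ne (hc α), ← dl_replicate, dl_zero]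
      exact (V.H j Z).zero_mem

end free

end Pool.Agent.W943
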