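import Mathlib
import Pool.Agent.H530R2.Lin

/-!
The decoupling theorem for products of matrices in separate variables over an abstract system of
conditions in which the variable `i` can be freed for the polynomials of a class `G i` only.
-/

namespace Pool.Agent.W943

open Module Pool.Agent.H530R2

/-- A decreasing system of conditions `van j Z Q` (level `j`, free variables `Z`). -/
structure VanG (F : Type*) [Field F] (n : ℕ) (G : Fin n → MvPolynomial (Fin n) F → Prop) where
  /-- the conditions -/
  van : ℕ → Finset (Fin n) → MvPolynomial (Fin n) F → Prop
  mono1 : ∀ j Z Q, van (j + 1) Z Q → van j Z Q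
  free : ∀ j Z i Q, G i Q → van (j + 1) Z Q → van j (insert i Z) Q
  lossless : ∀ j (Z : Finset (Fin n)) (i0 : Fin n), i0 ∉ Z →
    ∀ (Q μ : MvPolynomial (Fin n) F) (ρ : ℕ) (κ : Fin ρ → Fin n), (∀ p, κ p ∈ Z) →
    ∀ m : Fin ρ → MvPolynomial (Fin n) F,
      μ * MvPolynomial.pderiv i0 Q = ∑ p, m p * MvPolynomial.pderiv (κ p) Q →
    van j Z Q → ¬ van j Z μ → van j (insert i0 Z) Q
  supp : ∀ j (Z : Finset (Fin n)) (Q : MvPolynomial (Fin n) F),
    Q ∈ MvPolynomial.supported F (Z : Set (Fin n)) → van j Z Q → Q = 0

theorem VanG.mono {F : Type*} [Field F] {n : ℕ} {G : Fin n → MvPolynomial (Fin n) F → Prop}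
    (V : VanG F n G) {j j' : ℕ} (hj : j ≤ j')
    (Z : Finset (Fin n)) {Q : MvPolynomial (Fin n) F} (h : V.van j' Z Q) : V.van j Z Q := by
  induction j', hj using Nat.le_induction with
  | base => exact h
  | succ m _ ih => exact ih (V.mono1 m Z Q h)

section

variable {F : Type*} [Field F] {n : ℕ} {w : ℕ}

/-- The decoupling theorem for products of matrices, with polynomial cost. -/
theorem VanG.lin_dec {G : Fin n → MvPolynomial (Fin n) F → Prop} (V : VanG F n G)
    (σ : Equiv.Perm (Fin n)) (N : ℕ → Matrix (Fin w) (Fin w) (Polynomial F))
    (hG : ∀ (a' m ρ : ℕ) (κ : Fin ρ → Fin n) (g : Fin ρ → Fin w × Fin w), ρ ≤ w * w → ∀ i,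
      G i (Matrix.of fun q l => MvPolynomial.pderiv (κ q) (en (F := F) σ N a' m (g l))).det)
    (s : ℕ) (hs : s ≤ w) :
    ∀ a' b : ℕ, a' ≤ b → b ≤ n →
      (a' = b ∨ w + 1 ≤ rk (pv σ : ℕ → MvPolynomial (Fin n) F) N a' (b - a') + s) →
      ∀ Q : MvPolynomial (Fin n) F, (∀ i ∈ Zs σ b \ Zs σ a', G i Q) →
      Ctrl ((Zs σ b \ Zs σ a' : Finset (Fin n)) : Set (Fin n)) (en σ N a' (b - a')) Q →
      ∀ j, V.van (j + lcost w s) (Zs σ a') Q → V.van j (Zs σ b) Q := by
  classical
  induction s with
  | zero =>
    intro a' b hab hbn hor Q hGQ hQ j h0
    rcases hor with rfl | h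
    · exact V.mono (Nat.le_add_right _ _) _ h0
    · exfalso
      have h2 : rk (pv σ : ℕ → MvPolynomial (Fin n) F) N a' (b - a') ≤ w := by
        rw [rk_eq]
        refine (Matrix.rank_le_card_width _).trans ?_
        rw [Fintype.card_fin]
      omega
  | succ s ih =>
    have ih' := ih (by omega)
    clear ih
    intro a' b hab hbn hor Q hGQ hQ j h0
    by_cases hA : a' = b ∨ w + 1 ≤ rk (pv σ : ℕ → MvPolynomial (Fin n) F) N a' (b - a') + s
    · exact ih' a' b hab hbn hA Q hGQ hQ j
        (V.mono (Nat.add_le_add_left (lcost_le_succ w s) j) _ h0)
    push Not at hA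
    obtain ⟨hne, hlt⟩ := hA
    have hr : rk (pv σ : ℕ → MvPolynomial (Fin n) F) N a' (b - a') + s = w := by
      rcases hor with h | h
      · exact absurd h hne
      · omega
    have claim : ∀ d t : ℕ, t + d = b → a' ≤ t → ∀ j,
        V.van (j + (lcost w s + 2) + (w * (w - s) - er (Zs σ t \ Zs σ a')
          (en (F := F) σ N a' (b - a')))) (Zs σ t) Q → V.van j (Zs σ b) Q := by
      intro d
      induction d with
      | zero =>
        intro t htb hat j h
        have : t = b := by omega
        subst this
        exact V.mono (by omega) _ h
      | succ d ihd =>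
        intro t htb hat j h
        have htn : t < n := by omega
        set i0 := σ ⟨t, htn⟩ with hi0
        have hZ : Zs σ (t + 1) = insert i0 (Zs σ t) := Zs_succ σ htn
        have hi0Z : i0 ∉ Zs σ t := not_mem_Zs σ htn le_rfl
        have hi0Za : i0 ∉ Zs σ a' := not_mem_Zs σ htn hat
        have hi0b : i0 ∈ Zs σ b := by
          rw [mem_Zs, hi0]; simp; omega
        have hsplit : b - a' = (t + 1 - a') + (b - (t + 1)) := by omega
        have hat1 : a' + (t + 1 - a') = t + 1 := by omega
        by_cases hA' : t + 1 = b ∨
            w + 1 ≤ rk (pv σ : ℕ → MvPolynomial (Fin n) F) N (t + 1) (b - (t + 1)) + s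
        · have h1 : V.van (j + lcost w s) (Zs σ (t + 1)) Q := by
            rw [hZ]
            apply V.free _ _ _ _ (hGQ i0 (Finset.mem_sdiff.2 ⟨hi0b, hi0Za⟩))
            exact V.mono (by omega) _ h
          refine ih' (t + 1) b (by omega) hbn hA' Q (fun i hi => hGQ i ?_) ?_ j h1
          · rw [Finset.mem_sdiff] at hi ⊢
            exact ⟨hi.1, fun hc => hi.2 (Zs_mono (by omega) hc)⟩
          refine Ctrl.trans (J' := en σ N a' (b - a')) ?_ (hQ.mono ?_)
          · intro q
            rw [hsplit]
            have := ctrl_of_adjoin (en_split_right (F := F) σ N a' (t + 1 - a')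
              (b - (t + 1)) q)
            rw [hat1] at this
            refine this.mono ?_
            intro k hk
            rw [Finset.mem_coe, Finset.mem_sdiff] at hk
            simpa using hk.2
          · intro k hk
            rw [Finset.mem_coe, Finset.mem_sdiff] at hk ⊢
            exact ⟨hk.1, fun hc => hk.2 (Zs_mono (by omega) hc)⟩
        push Not at hA'
        obtain ⟨htb1, hlt1⟩ := hA'
        have hge1 : rk (pv σ : ℕ → MvPolynomial (Fin n) F) N a' (b - a') ≤
            rk (pv σ : ℕ → MvPolynomial (Fin n) F) N (t + 1) (b - (t + 1)) := by
          have := rk_le_right (pv σ : ℕ → MvPolynomial (Fin n) F) N a' (t + 1 - a')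
            (b - (t + 1))
          rwa [← hsplit, hat1] at this
        have her1 : rk (pv σ : ℕ → MvPolynomial (Fin n) F) N (t + 1) (b - (t + 1)) + s = w := by
          omega
        have hrw : rk (pv σ : ℕ → MvPolynomial (Fin n) F) N (t + 1) (b - (t + 1)) = w - s := by
          omega
        by_cases hB : dv (en (F := F) σ N a' (b - a')) i0 ∈
            sp (Zs σ t \ Zs σ a') (en (F := F) σ N a' (b - a'))
        swap
        · -- a jump
          have hlt2 : er (Zs σ t \ Zs σ a') (en (F := F) σ N a' (b - a')) <
              er (Zs σ (t + 1) \ Zs σ a') (en (F := F) σ N a' (b - a')) := by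
            unfold er
            apply Submodule.finrank_lt_finrank_of_lt
            rw [SetLike.lt_iff_le_and_exists]
            refine ⟨?_, dv (en (F := F) σ N a' (b - a')) i0, ?_, hB⟩
            · unfold sp
              apply Submodule.span_mono
              apply Set.image_mono
              intro k hk
              rw [Finset.mem_coe, Finset.mem_sdiff] at hk ⊢
              exact ⟨Zs_mono (by omega) hk.1, hk.2⟩
            · apply Submodule.subset_span
              refine ⟨i0, ?_, rfl⟩
              rw [Finset.mem_coe, Finset.mem_sdiff, hZ]
              exact ⟨Finset.mem_insert_self _ _, hi0Za⟩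
          have hle2 : er (Zs σ (t + 1) \ Zs σ a') (en (F := F) σ N a' (b - a')) ≤
              w * (w - s) := by
            rw [← hrw, hsplit]
            have := er_en_le (F := F) σ N a' (t + 1 - a') (b - (t + 1))
              (S := Zs σ (t + 1) \ Zs σ a') (by rw [hat1]; exact Finset.sdiff_subset)
            rwa [hat1] at this
          refine ihd (t + 1) (by omega) (by omega) j ?_
          rw [hZ]
          rw [hZ] at hlt2 hle2
          apply V.free _ _ _ _ (hGQ i0 (Finset.mem_sdiff.2 ⟨hi0b, hi0Za⟩))
          exact V.mono (by omega) _ h
        · -- a lossless step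
          have hspeq : sp (Zs σ (t + 1) \ Zs σ a') (en (F := F) σ N a' (b - a')) =
              sp (Zs σ t \ Zs σ a') (en (F := F) σ N a' (b - a')) := by
            apply le_antisymm
            · apply Submodule.span_le.2
              rintro _ ⟨k, hk, rfl⟩
              rw [Finset.mem_coe, Finset.mem_sdiff, hZ, Finset.mem_insert] at hk
              obtain ⟨hk1 | hk1, hk2⟩ := hk
              · rw [hk1]; exact hB
              · exact Submodule.subset_span ⟨k, by
                  rw [Finset.mem_coe, Finset.mem_sdiff]; exact ⟨hk1, hk2⟩, rfl⟩
            · unfold sp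
              apply Submodule.span_mono
              apply Set.image_mono
              intro k hk
              rw [Finset.mem_coe, Finset.mem_sdiff] at hk ⊢
              exact ⟨Zs_mono (by omega) hk.1, hk.2⟩
          have herε : er (Zs σ (t + 1) \ Zs σ a') (en (F := F) σ N a' (b - a')) =
              er (Zs σ t \ Zs σ a') (en (F := F) σ N a' (b - a')) := by
            unfold er
            rw [hspeq]
          -- minimal time with the same rank
          have hex : ∃ c, t + 1 < c ∧
              rk (pv σ : ℕ → MvPolynomial (Fin n) F) N (t + 1) (c - (t + 1)) + s ≤ w :=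
            ⟨b, by omega, by omega⟩
          set b' := Nat.find hex with hb'
          have hb'1 : t + 1 < b' := (Nat.find_spec hex).1
          have hb'2 : rk (pv σ : ℕ → MvPolynomial (Fin n) F) N (t + 1) (b' - (t + 1)) + s ≤ w :=
            (Nat.find_spec hex).2
          have hb'b : b' ≤ b := Nat.find_min' hex ⟨by omega, by omega⟩
          have hb'3 : t + 1 = b' - 1 ∨
              w + 1 ≤ rk (pv σ : ℕ → MvPolynomial (Fin n) F) N (t + 1) (b' - 1 - (t + 1)) + s := by
            by_cases h1 : t + 1 = b' - 1
            · exact Or.inl h1
            · right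
              have h2 := Nat.find_min hex (m := b' - 1) (by omega)
              push Not at h2
              have := h2 (by omega)
              omega
          have hsplit2 : b - (t + 1) = (b' - (t + 1)) + (b - b') := by omega
          have htb' : t + 1 + (b' - (t + 1)) = b' := by omega
          have her2 : rk (pv σ : ℕ → MvPolynomial (Fin n) F) N (t + 1) (b' - (t + 1)) =
              rk (pv σ : ℕ → MvPolynomial (Fin n) F) N (t + 1) (b - (t + 1)) := by
            have := rk_le_left (pv σ : ℕ → MvPolynomial (Fin n) F) N (t + 1) (b' - (t + 1))
              (b - b')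
            rw [← hsplit2] at this
            omega
          have hsplit3 : b' - a' = (t + 1 - a') + (b' - (t + 1)) := by omega
          have hsplit4 : b - a' = (b' - a') + (b - b') := by omega
          have hab' : a' + (b' - a') = b' := by omega
          -- transfer of the dependence
          have hB' : dv (en (F := F) σ N a' (b' - a')) i0 ∈
              sp (Zs σ t \ Zs σ a') (en (F := F) σ N a' (b' - a')) := by
            obtain ⟨G, hG⟩ := exists_right_factor
              (PrK (pv σ : ℕ → MvPolynomial (Fin n) F) N (t + 1) (b' - (t + 1)))
              (PrK (pv σ : ℕ → MvPolynomial (Fin n) F) N b' (b - b')) (by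
                have h1 := PrK_add (pv σ : ℕ → MvPolynomial (Fin n) F) N (t + 1)
                  (b' - (t + 1)) (b - b')
                rw [← hsplit2, htb'] at h1
                rw [← h1, ← rk_eq, ← rk_eq, her2])
            have hmap : ∀ k ∈ Zs σ (t + 1), mulR G (dv (en (F := F) σ N a' (b - a')) k) =
                dv (en (F := F) σ N a' (b' - a')) k := by
              intro k hk
              have hk' : k ∈ Zs σ (a' + (t + 1 - a')) := by rwa [hat1]
              have h1 := dv_en_split (F := F) σ N a' (t + 1 - a') (b - (t + 1)) hk'
              have h2 := dv_en_split (F := F) σ N a' (t + 1 - a') (b' - (t + 1)) hk'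
              rw [← hsplit, hat1] at h1
              rw [← hsplit3, hat1] at h2
              rw [h1, h2]
              have h3 : PrK (pv σ : ℕ → MvPolynomial (Fin n) F) N (t + 1) (b - (t + 1)) * G =
                  PrK (pv σ : ℕ → MvPolynomial (Fin n) F) N (t + 1) (b' - (t + 1)) := by
                have h4 := PrK_add (pv σ : ℕ → MvPolynomial (Fin n) F) N (t + 1)
                  (b' - (t + 1)) (b - b')
                rw [← hsplit2, htb'] at h4
                rw [h4]
                exact hG
              funext q
              have h5 : ∀ l, (PrK (pv σ : ℕ → MvPolynomial (Fin n) F) N (t + 1) (b' - (t + 1)))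
                  l q.2 = ∑ l', (PrK (pv σ : ℕ → MvPolynomial (Fin n) F) N (t + 1)
                    (b - (t + 1))) l l' * G l' q.2 := by
                intro l
                rw [← h3, Matrix.mul_apply]
              simp only [mulR, LinearMap.coe_mk, AddHom.coe_mk]
              have h6 : ∀ l, ((Pr (pv σ : ℕ → MvPolynomial (Fin n) F) N (t + 1)
                  (b' - (t + 1))).map (algebraMap (MvPolynomial (Fin n) F)
                    (FractionRing (MvPolynomial (Fin n) F)))) l q.2 =
                  ∑ l', ((Pr (pv σ : ℕ → MvPolynomial (Fin n) F) N (t + 1)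
                  (b - (t + 1))).map (algebraMap (MvPolynomial (Fin n) F)
                    (FractionRing (MvPolynomial (Fin n) F)))) l l' * G l' q.2 := h5
              simp only [h6, Finset.sum_mul, Finset.mul_sum]
              rw [Finset.sum_comm]
              apply Finset.sum_congr rfl
              intro l _
              apply Finset.sum_congr rfl
              intro l' _
              ring
            rw [← hmap i0 (by rw [hZ]; exact Finset.mem_insert_self _ _)]
            have h7 : sp (Zs σ t \ Zs σ a') (en (F := F) σ N a' (b' - a')) =
                (sp (Zs σ t \ Zs σ a') (en (F := F) σ N a' (b - a'))).map (mulR G) := by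
              unfold sp
              rw [Submodule.map_span, ← Set.image_comp]
              congr 1
              apply Set.image_congr
              intro k hk
              rw [Finset.mem_coe, Finset.mem_sdiff] at hk
              exact (hmap k (Zs_mono (by omega) hk.1)).symm
            rw [h7]
            exact Submodule.mem_map_of_mem hB
          obtain ⟨ρ, κ, g, m, hρ, hκ, hμ0, hrel⟩ := cramer_rel hB'
          set μ := (Matrix.of fun q l => MvPolynomial.pderiv (κ q)
            (en (F := F) σ N a' (b' - a') (g l))).det with hμ
          have hGμ : ∀ i, G i μ := hG _ _ _ _ _ (by simpa using hρ)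
          -- the minor does not vanish
          have hnon : ¬ V.van (j + (lcost w s + 2) + (w * (w - s) - er (Zs σ t \ Zs σ a')
              (en (F := F) σ N a' (b - a')))) (Zs σ t) μ := by
            intro hmem
            apply hμ0
            have h1 : V.van (1 + lcost w s + 1) (Zs σ t) μ :=
              V.mono (by omega) _ hmem
            have h2 : V.van (1 + lcost w s) (Zs σ (t + 1)) μ := by
              rw [hZ]; exact V.free _ _ _ _ (hGμ _) h1
            have hb'n : b' - 1 < n := by omega
            -- the entries of the minor
            have hent : ∀ q l, MvPolynomial.pderiv (κ q) (en (F := F) σ N a' (b' - a') (g l)) ∈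
                Algebra.adjoin F (Set.range (en (F := F) σ N (t + 1) (b' - 1 - (t + 1))) ∪
                  MvPolynomial.X '' {k : Fin n | k ∈ Zs σ (t + 1) ∨ k ∉ Zs σ (b' - 1)}) := by
              intro q l
              have hκq := (Finset.mem_sdiff.1 (hκ q)).1
              have hκ' : κ q ∈ Zs σ (a' + (t + 1 - a')) := by
                rw [hat1]; exact Zs_mono (by omega) hκq
              rw [hsplit3, pderiv_en_split (F := F) σ N a' (t + 1 - a') (b' - (t + 1)) _ hκ']
              refine Subalgebra.sum_mem _ fun l' _ => Subalgebra.mul_mem _ ?_ ?_
              · have h3 : MvPolynomial.pderiv (κ q) (en (F := F) σ N a' (t + 1 - a')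
                    ((g l).1, l')) ∈ MvPolynomial.supported F (Zs σ (t + 1) : Set (Fin n)) := by
                  apply pderiv_mem_supported
                  have := en_supp (F := F) σ N a' (t + 1 - a') ((g l).1, l')
                  rwa [hat1] at this
                refine Algebra.adjoin_mono ?_ h3
                refine (Set.image_mono ?_).trans Set.subset_union_right
                intro k hk
                exact Or.inl (by exact_mod_cast hk)
              · rw [hat1]
                have h4 : b' - (t + 1) = (b' - 1 - (t + 1)) + 1 := by omega
                rw [h4]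
                refine Algebra.adjoin_mono ?_ (en_split_left (F := F) σ N (t + 1)
                  (b' - 1 - (t + 1)) 1 (l', (g l).2))
                apply Set.union_subset_union_right
                apply Set.image_mono
                intro k hk
                right
                have h5 : t + 1 + (b' - 1 - (t + 1)) = b' - 1 := by omega
                rwa [h5] at hk
            have hμadj : μ ∈ Algebra.adjoin F (Set.range (en (F := F) σ N (t + 1)
                (b' - 1 - (t + 1))) ∪
                  MvPolynomial.X '' {k : Fin n | k ∈ Zs σ (t + 1) ∨ k ∉ Zs σ (b' - 1)}) := by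
              rw [hμ, Matrix.det_apply']
              refine Subalgebra.sum_mem _ fun τ _ => Subalgebra.mul_mem _ ?_
                (Subalgebra.prod_mem _ fun i _ => hent _ _)
              exact Subalgebra.intCast_mem _ _
            have hctrl : Ctrl ((Zs σ (b' - 1) \ Zs σ (t + 1) : Finset (Fin n)) : Set (Fin n))
                (en (F := F) σ N (t + 1) (b' - 1 - (t + 1))) μ := by
              refine (ctrl_of_adjoin hμadj).mono ?_
              intro k hk
              rw [Finset.mem_coe, Finset.mem_sdiff] at hk
              simp only [Set.mem_compl_iff, Set.mem_ofPred_eq, not_or, not_not]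
              exact ⟨hk.2, hk.1⟩
            have h3 := ih' (t + 1) (b' - 1) (by omega) (by omega) hb'3 μ (fun i _ => hGμ i) hctrl 1 h2
            have h4 : V.van 0 (Zs σ b') μ := by
              have := V.free 0 (Zs σ (b' - 1)) (σ ⟨b' - 1, hb'n⟩) _ (hGμ _) h3
              rwa [← Zs_succ σ hb'n, Nat.sub_add_cancel (by omega)] at this
            refine V.supp 0 _ _ ?_ h4
            rw [hμ, Matrix.det_apply']
            refine Subalgebra.sum_mem _ fun τ _ => Subalgebra.mul_mem _
              (Subalgebra.intCast_mem _ _) (Subalgebra.prod_mem _ fun i _ => ?_)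
            apply pderiv_mem_supported
            have := en_supp (F := F) σ N a' (b' - a') (g i)
            rwa [hab'] at this
          -- the differential relation for `Q`
          have hQ' : Ctrl ((Zs σ b' \ Zs σ a' : Finset (Fin n)) : Set (Fin n))
              (en (F := F) σ N a' (b' - a')) Q := by
            refine Ctrl.trans (J' := en (F := F) σ N a' (b - a')) ?_ ?_
            · intro q
              rw [hsplit4]
              have := ctrl_of_adjoin (en_split_left (F := F) σ N a' (b' - a') (b - b') q)
              rw [hab'] at this
              refine this.mono ?_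
              intro k hk
              rw [Finset.mem_coe, Finset.mem_sdiff] at hk
              simpa using hk.1
            · refine hQ.mono ?_
              intro k hk
              rw [Finset.mem_coe, Finset.mem_sdiff] at hk ⊢
              exact ⟨Zs_mono hb'b hk.1, hk.2⟩
          obtain ⟨u, hu⟩ := hQ'
          have hi0mem : i0 ∈ ((Zs σ b' \ Zs σ a' : Finset (Fin n)) : Set (Fin n)) := by
            rw [Finset.mem_coe, Finset.mem_sdiff]
            refine ⟨Zs_mono (show t + 1 ≤ b' by omega) ?_, hi0Za⟩
            rw [hZ]; exact Finset.mem_insert_self _ _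
          have hκmem : ∀ q, κ q ∈ ((Zs σ b' \ Zs σ a' : Finset (Fin n)) : Set (Fin n)) := by
            intro q
            have := Finset.mem_sdiff.1 (hκ q)
            rw [Finset.mem_coe, Finset.mem_sdiff]
            exact ⟨Zs_mono (by omega) this.1, this.2⟩
          have hpde : μ * MvPolynomial.pderiv i0 Q =
              ∑ q, m q * MvPolynomial.pderiv (κ q) Q := by
            rw [hu i0 hi0mem, Finset.mul_sum]
            have h7 : ∀ q, m q * MvPolynomial.pderiv (κ q) Q =
                ∑ i, u i * (m q * MvPolynomial.pderiv (κ q) (en (F := F) σ N a' (b' - a') i)) := by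
              intro q
              rw [hu (κ q) (hκmem q), Finset.mul_sum]
              apply Finset.sum_congr rfl
              intro i _
              ring
            simp only [h7]
            rw [Finset.sum_comm]
            apply Finset.sum_congr rfl
            intro i _
            rw [← Finset.mul_sum, ← hrel i]
            ring
          have h8 := V.lossless _ _ _ hi0Z _ _ _ κ (fun q => (Finset.mem_sdiff.1 (hκ q)).1) m hpde h hnon
          rw [← hZ] at h8
          refine ihd (t + 1) (by omega) (by omega) j ?_
          rw [herε]
          exact h8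
    refine claim (b - a') a' (by omega) le_rfl j ?_
    refine V.mono ?_ _ h0
    simp only [lcost]
    omega

end

end Pool.Agent.W943
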