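import Mathlib
import Pool.Agent.W943.Orb2
import Pool.Agent.W943.Orb3

/-!
Bounded rank in one variable: closure properties, entries of matrix products and their minors.
-/

namespace Pool.Agent.W943

open MvPolynomial Pool.Agent.H530R2

section closure

variable {F : Type*} [Field F] {n : ℕ} {i : Fin n}

/-- `Q` is a combination of the univariate polynomials `b` in the variable `i` with coefficients
free of this variable. -/
def BdF (i : Fin n) {β : Type} [Fintype β] (b : β → Polynomial F)
    (Q : MvPolynomial (Fin n) F) : Prop :=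
  ∃ c : β → MvPolynomial (Fin n) F, (∀ α, c α ∈ supported F {k : Fin n | k ≠ i}) ∧
    Q = ∑ α, Polynomial.aeval (X i) (b α) * c α

/-- rank at most `r` in the variable `i` -/
def Bdl (i : Fin n) (r : ℕ) (Q : MvPolynomial (Fin n) F) : Prop := ∃ s ≤ r, Bd i s Q

theorem Bdl.mono {r r' : ℕ} (h : r ≤ r') {Q : MvPolynomial (Fin n) F} (hQ : Bdl i r Q) :
    Bdl i r' Q := by
  obtain ⟨s, hs, hQ⟩ := hQ
  exact ⟨s, hs.trans h, hQ⟩

variable {β : Type} [Fintype β] {b : β → Polynomial F}

theorem BdF.bdl {Q : MvPolynomial (Fin n) F} (h : BdF i b Q) : Bdl i (Fintype.card β) Q := by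
  obtain ⟨c, hc, hQ⟩ := h
  refine ⟨Fintype.card β, le_rfl, fun α => b ((Fintype.equivFin β).symm α),
    fun α => c ((Fintype.equivFin β).symm α), fun α => hc _, ?_⟩
  rw [hQ]
  exact (Equiv.sum_comp (Fintype.equivFin β).symm
    (fun α => Polynomial.aeval (X i) (b α) * c α)).symm

theorem BdF.zero : BdF i b (0 : MvPolynomial (Fin n) F) :=
  ⟨fun _ => 0, fun _ => Subalgebra.zero_mem _, by simp⟩

theorem BdF.add {Q Q' : MvPolynomial (Fin n) F} (h : BdF i b Q) (h' : BdF i b Q') :
    BdF i b (Q + Q') := by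
  obtain ⟨c, hc, hQ⟩ := h
  obtain ⟨c', hc', hQ'⟩ := h'
  refine ⟨fun α => c α + c' α, fun α => Subalgebra.add_mem _ (hc α) (hc' α), ?_⟩
  rw [hQ, hQ', ← Finset.sum_add_distrib]
  exact Finset.sum_congr rfl fun α _ => (mul_add _ _ _).symm

theorem BdF.mul_free {Q Q' : MvPolynomial (Fin n) F} (h : BdF i b Q)
    (h' : Q' ∈ supported F {k : Fin n | k ≠ i}) : BdF i b (Q * Q') := by
  obtain ⟨c, hc, hQ⟩ := h
  refine ⟨fun α => c α * Q', fun α => Subalgebra.mul_mem _ (hc α) h', ?_⟩
  rw [hQ, Finset.sum_mul]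
  exact Finset.sum_congr rfl fun α _ => mul_assoc _ _ _

theorem BdF.free_mul {Q Q' : MvPolynomial (Fin n) F} (h : BdF i b Q)
    (h' : Q' ∈ supported F {k : Fin n | k ≠ i}) : BdF i b (Q' * Q) := by
  rw [mul_comm]; exact h.mul_free h'

theorem BdF.sum {τ : Type*} (s : Finset τ) {Q : τ → MvPolynomial (Fin n) F}
    (h : ∀ t ∈ s, BdF i b (Q t)) : BdF i b (∑ t ∈ s, Q t) := by
  classical
  induction s using Finset.induction_on with
  | empty => rw [Finset.sum_empty]; exact BdF.zero
  | insert a s ha ih =>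
    rw [Finset.sum_insert ha]
    exact (h a (Finset.mem_insert_self _ _)).add
      (ih fun t ht => h t (Finset.mem_insert_of_mem ht))

theorem BdF.prod {ρ : ℕ} {b : Fin ρ → β → Polynomial F} {Q : Fin ρ → MvPolynomial (Fin n) F}
    (h : ∀ q, BdF i (b q) (Q q)) :
    BdF i (fun f : Fin ρ → β => ∏ q, b q (f q)) (∏ q, Q q) := by
  classical
  choose c hc hQ using h
  refine ⟨fun f => ∏ q, c q (f q), fun f => Subalgebra.prod_mem _ fun q _ => hc q _, ?_⟩
  simp only [hQ]
  rw [Finset.prod_univ_sum, Fintype.piFinset_univ]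
  apply Finset.sum_congr rfl
  intro f _
  rw [Finset.prod_mul_distrib, map_prod]

theorem BdF.det {ρ : ℕ} {b : Fin ρ → β → Polynomial F}
    {M : Matrix (Fin ρ) (Fin ρ) (MvPolynomial (Fin n) F)} (h : ∀ q l, BdF i (b q) (M q l)) :
    BdF i (fun f : Fin ρ → β => ∏ q, b q (f q)) M.det := by
  rw [← Matrix.det_transpose, Matrix.det_apply']
  refine BdF.sum _ fun τ _ => ?_
  refine BdF.free_mul ?_ (Subalgebra.intCast_mem _ _)
  simp only [Matrix.transpose_apply]
  exact BdF.prod fun q => h q (τ q)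

theorem BdF.pderiv_self {Q : MvPolynomial (Fin n) F} (h : BdF i b Q) :
    BdF i (fun α => Polynomial.derivative (b α)) (pderiv i Q) := by
  obtain ⟨c, hc, hQ⟩ := h
  refine ⟨c, hc, ?_⟩
  rw [hQ, map_sum]
  apply Finset.sum_congr rfl
  intro α _
  rw [pderiv_mul, pderiv_supported_ne (hc α), mul_zero, add_zero, pderiv_aeval_X]

theorem BdF.pderiv_ne {Q : MvPolynomial (Fin n) F} (h : BdF i b Q) {k : Fin n} (hk : k ≠ i) :
    BdF i b (pderiv k Q) := by
  obtain ⟨c, hc, hQ⟩ := h
  refine ⟨fun α => pderiv k (c α), fun α => pderiv_mem_supported k (hc α), ?_⟩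
  rw [hQ, map_sum]
  apply Finset.sum_congr rfl
  intro α _
  have h1 : pderiv k (Polynomial.aeval (X i : MvPolynomial (Fin n) F) (b α)) = 0 := by
    have h2 : Polynomial.aeval (X i : MvPolynomial (Fin n) F) (b α) ∈
        supported F {l : Fin n | l ≠ k} := by
      have h3 : (X i : MvPolynomial (Fin n) F) ∈ supported F {l : Fin n | l ≠ k} :=
        X_mem_supported.2 (Ne.symm hk)
      exact (Algebra.adjoin_le (S := supported F {l : Fin n | l ≠ k}) (by simpa using h3))
        (Polynomial.aeval_mem_adjoin_singleton F _)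
    exact pderiv_supported_ne h2
  rw [pderiv_mul, h1, zero_mul, zero_add]

theorem BdF.of_free {Q : MvPolynomial (Fin n) F} (h : Q ∈ supported F {k : Fin n | k ≠ i})
    {α : β} (hα : b α = 1) : BdF i b Q := by
  classical
  refine ⟨Pi.single α Q, fun α' => ?_, ?_⟩
  · by_cases h1 : α' = α
    · subst h1; rw [Pi.single_eq_same]; exact h
    · rw [Pi.single_eq_of_ne h1]; exact Subalgebra.zero_mem _
  · rw [Finset.sum_eq_single α]
    · rw [hα, map_one, one_mul, Pi.single_eq_same]
    · intro α' _ h1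
      rw [Pi.single_eq_of_ne h1, mul_zero]
    · intro h1; exact absurd (Finset.mem_univ _) h1

end closure

section entries

variable {F : Type*} [Field F] {n w : ℕ}

/-- the entries of a layer matrix and the constant `1` -/
noncomputable def bN (M : Matrix (Fin w) (Fin w) (Polynomial F)) :
    Option (Fin w × Fin w) → Polynomial F
  | none => 1
  | some p => M p.1 p.2

theorem en_free (σ : Equiv.Perm (Fin n)) (N : ℕ → Matrix (Fin w) (Fin w) (Polynomial F))
    (s m : ℕ) (q : Fin w × Fin w) {i : Fin n}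
    (h : ¬ (s ≤ (σ.symm i).val ∧ (σ.symm i).val < s + m)) :
    en σ N s m q ∈ supported F {k : Fin n | k ≠ i} := by
  refine Algebra.adjoin_mono ?_ (en_mem σ N s m q)
  apply Set.image_mono
  intro k hk
  simp only [Set.mem_ofPred_eq] at hk ⊢
  rintro rfl
  exact h hk

theorem en_BdF (σ : Equiv.Perm (Fin n)) (N : ℕ → Matrix (Fin w) (Fin w) (Polynomial F))
    (s m : ℕ) (q : Fin w × Fin w) (i : Fin n) :
    BdF i (bN (N (σ.symm i).val)) (en σ N s m q) := by
  classical
  set t := (σ.symm i).val with ht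
  by_cases h : s ≤ t ∧ t < s + m
  · obtain ⟨h1, h2⟩ := h
    have htn : t < n := (σ.symm i).isLt
    have hpv : (pv σ t : MvPolynomial (Fin n) F) = X i := by
      unfold pv
      rw [dif_pos htn]
      congr 1
      rw [← σ.apply_symm_apply i]
    clear_value t
    obtain ⟨m1, hm1⟩ := Nat.exists_eq_add_of_le h1
    subst hm1
    obtain ⟨m2, hm2⟩ : ∃ m2, m = m1 + 1 + m2 := ⟨m - (m1 + 1), by omega⟩
    have hen : en σ N s m q = ∑ p : Fin w × Fin w,
        Polynomial.aeval (X i) (N (s + m1) p.1 p.2) *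
          (en (F := F) σ N s m1 (q.1, p.1) * en (F := F) σ N (s + m1 + 1) m2 (p.2, q.2)) := by
      unfold en
      rw [hm2, Pr_add, Pr_succ, Matrix.mul_apply, Fintype.sum_prod_type, Finset.sum_comm]
      apply Finset.sum_congr rfl
      intro l _
      rw [Matrix.mul_apply, Finset.sum_mul]
      apply Finset.sum_congr rfl
      intro l' _
      have : Nh (pv σ : ℕ → MvPolynomial (Fin n) F) N (s + m1) l' l =
          Polynomial.aeval (X i) (N (s + m1) l' l) := by
        unfold Nh
        rw [Matrix.map_apply, hpv]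
      rw [this, add_assoc s m1 1]
      ring
    have hf1 : ∀ p : Fin w × Fin w, en (F := F) σ N s m1 (q.1, p.1) ∈
        supported F {k : Fin n | k ≠ i} := fun p => en_free σ N s m1 _ (by omega)
    have hf2 : ∀ p : Fin w × Fin w, en (F := F) σ N (s + m1 + 1) m2 (p.2, q.2) ∈
        supported F {k : Fin n | k ≠ i} := fun p => en_free σ N _ m2 _ (by omega)
    refine ⟨fun o => match o with
      | none => 0
      | some p => en (F := F) σ N s m1 (q.1, p.1) * en (F := F) σ N (s + m1 + 1) m2 (p.2, q.2),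
      ?_, ?_⟩
    · rintro (_ | p)
      · exact Subalgebra.zero_mem _
      · exact Subalgebra.mul_mem _ (hf1 p) (hf2 p)
    · rw [Fintype.sum_option, hen]
      simp [bN]
  · exact BdF.of_free (α := none) (en_free σ N s m q h) rfl

/-- the bound for the rank of the minors in one variable -/
def rB (w : ℕ) : ℕ := (w * w + 1) ^ (w * w)

theorem le_rB (w : ℕ) : w * w + 1 ≤ rB w := by
  unfold rB
  rcases Nat.eq_zero_or_pos (w * w) with h | h
  · rw [h]; simp
  · exact Nat.le_self_pow h.ne' _

theorem minor_Bdl (σ : Equiv.Perm (Fin n)) (N : ℕ → Matrix (Fin w) (Fin w) (Polynomial F))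
    (s m ρ : ℕ) (κ : Fin ρ → Fin n) (g : Fin ρ → Fin w × Fin w) (hρ : ρ ≤ w * w) (i : Fin n) :
    Bdl i (rB w)
      (Matrix.of fun q l => MvPolynomial.pderiv (κ q) (en (F := F) σ N s m (g l))).det := by
  classical
  have h1 : BdF i (fun f : Fin ρ → Option (Fin w × Fin w) =>
      ∏ q, (fun q => if κ q = i then fun α => Polynomial.derivative (bN (N (σ.symm i).val) α)
        else bN (N (σ.symm i).val)) q (f q))
      (Matrix.of fun q l => MvPolynomial.pderiv (κ q) (en (F := F) σ N s m (g l))).det := by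
    apply BdF.det
    intro q l
    simp only [Matrix.of_apply]
    have h2 := en_BdF σ N s m (g l) i
    split_ifs with h3
    · rw [h3]; exact h2.pderiv_self
    · exact h2.pderiv_ne h3
  refine h1.bdl.mono ?_
  rw [Fintype.card_fun, Fintype.card_fin, Fintype.card_option, Fintype.card_prod,
    Fintype.card_fin]
  exact Nat.pow_le_pow_right (by omega) hρ

end entries

section van

variable {F : Type*} [Field F] [CharZero F] {n : ℕ}

/-- the system of conditions for a chain of primes, with steps of length `r`, starting at a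
level `j0 ≥ 1` -/
def DChain.vanG (V : DChain F n) (j0 r : ℕ) (hj0 : 1 ≤ j0) : VanG F n (fun i Q => Bdl i r Q) where
  van j Z Q := Q ∈ V.H (j0 + j * r) Z
  mono1 := by
    intro j Z Q h
    exact V.H_mono (Nat.add_le_add_left (Nat.mul_le_mul_right r (Nat.le_succ j)) j0) Z h
  free := by
    rintro j Z i Q ⟨s, hs, hQ⟩ h
    refine hQ.free V (by omega) (V.H_mono ?_ Z h)
    rw [add_mul, one_mul]
    omega
  lossless := by
    intro j Z i0 _ Q μ ρ κ hκ m hpde hQ hμ
    exact V.H_lossless _ κ hκ m hpde hQ hμ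
  supp := by
    intro j Z Q hs hQ
    exact V.H_supp _ Z _ Q le_rfl hs hQ

end van

end Pool.Agent.W943
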