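import Mathlib
import Pool.Agent.W943.Orb4
import Pool.Agent.H530R2.Rdk2

/-!
Families of classes of polynomials of bounded rank in every variable, over chains of primes which
lose one step under differentiation.
-/

set_option autoImplicit false

namespace Pool.Agent.W943

open MvPolynomial Module Pool.Agent.H530R2

section bdl

variable {F : Type*} [Field F] {n : ℕ} {i : Fin n}

theorem Bdl.toF {r : ℕ} {Q : MvPolynomial (Fin n) F} (h : Bdl i r Q) :
    ∃ (s : ℕ) (b : Fin s → Polynomial F), s ≤ r ∧ BdF i b Q := by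
  obtain ⟨s, hs, b, c, hc, hQ⟩ := h
  exact ⟨s, b, hs, c, hc, hQ⟩

theorem BdF.sumAdd {β β' : Type} [Fintype β] [Fintype β'] {b : β → Polynomial F}
    {b' : β' → Polynomial F} {Q Q' : MvPolynomial (Fin n) F} (h : BdF i b Q) (h' : BdF i b' Q') :
    BdF i (Sum.elim b b') (Q + Q') := by
  obtain ⟨c, hc, rfl⟩ := h
  obtain ⟨c', hc', rfl⟩ := h'
  refine ⟨Sum.elim c c', ?_, ?_⟩
  · rintro (α | α)
    · exact hc α
    · exact hc' α
  · rw [Fintype.sum_sum_type]
    rfl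

theorem BdF.mulMul {β β' : Type} [Fintype β] [Fintype β'] {b : β → Polynomial F}
    {b' : β' → Polynomial F} {Q Q' : MvPolynomial (Fin n) F} (h : BdF i b Q) (h' : BdF i b' Q') :
    BdF i (fun x : β × β' => b x.1 * b' x.2) (Q * Q') := by
  obtain ⟨c, hc, rfl⟩ := h
  obtain ⟨c', hc', rfl⟩ := h'
  refine ⟨fun x => c x.1 * c' x.2, fun x => Subalgebra.mul_mem _ (hc _) (hc' _), ?_⟩
  rw [Fintype.sum_prod_type, Finset.sum_mul_sum]
  refine Finset.sum_congr rfl fun α _ => Finset.sum_congr rfl fun α' _ => ?_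
  rw [map_mul]
  ring

theorem Bdl.addO {r r' : ℕ} {Q Q' : MvPolynomial (Fin n) F} (h : Bdl i r Q) (h' : Bdl i r' Q') :
    Bdl i (r + r') (Q + Q') := by
  obtain ⟨s, b, hs, hb⟩ := h.toF
  obtain ⟨s', b', hs', hb'⟩ := h'.toF
  refine (hb.sumAdd hb').bdl.mono ?_
  rw [Fintype.card_sum, Fintype.card_fin, Fintype.card_fin]
  exact Nat.add_le_add hs hs'

theorem Bdl.mul {r r' : ℕ} {Q Q' : MvPolynomial (Fin n) F} (h : Bdl i r Q) (h' : Bdl i r' Q') :
    Bdl i (r * r') (Q * Q') := by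
  obtain ⟨s, b, hs, hb⟩ := h.toF
  obtain ⟨s', b', hs', hb'⟩ := h'.toF
  refine (hb.mulMul hb').bdl.mono ?_
  rw [Fintype.card_prod, Fintype.card_fin, Fintype.card_fin]
  exact Nat.mul_le_mul hs hs'

theorem Bdl.pd {r : ℕ} {Q : MvPolynomial (Fin n) F} (h : Bdl i r Q) (k : Fin n) :
    Bdl i r (pderiv k Q) := by
  obtain ⟨s, b, hs, hb⟩ := h.toF
  by_cases hk : k = i
  · subst hk
    refine hb.pderiv_self.bdl.mono ?_
    rw [Fintype.card_fin]; exact hs
  · refine (hb.pderiv_ne hk).bdl.mono ?_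
    rw [Fintype.card_fin]; exact hs

theorem Bdl.zero : Bdl i 0 (0 : MvPolynomial (Fin n) F) :=
  ⟨0, le_rfl, Fin.elim0, Fin.elim0, fun α => α.elim0, by simp⟩

theorem Bdl.ofFree {Q : MvPolynomial (Fin n) F} (h : Q ∈ supported F {k : Fin n | k ≠ i}) :
    Bdl i 1 Q := by
  have := (BdF.of_free (b := fun _ : Unit => (1 : Polynomial F)) h (α := ()) rfl).bdl
  simpa using this

theorem Bdl.const (c : F) : Bdl i 1 (C c : MvPolynomial (Fin n) F) :=
  Bdl.ofFree (Subalgebra.algebraMap_mem _ c)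

theorem Bdl.uni (k : Fin n) (p : Polynomial F) :
    Bdl i 1 (Polynomial.aeval (X k : MvPolynomial (Fin n) F) p) := by
  by_cases hk : k = i
  · subst hk
    exact ⟨1, le_rfl, fun _ => p, fun _ => 1, fun _ => Subalgebra.one_mem _, by simp⟩
  · refine Bdl.ofFree ?_
    have h3 : (X k : MvPolynomial (Fin n) F) ∈ supported F {l : Fin n | l ≠ i} :=
      X_mem_supported.2 hk
    exact (Algebra.adjoin_le (S := supported F {l : Fin n | l ≠ i}) (by simpa using h3))
      (Polynomial.aeval_mem_adjoin_singleton F _)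

theorem Bdl.sumO {τ : Type*} (s : Finset τ) {r : ℕ} {Q : τ → MvPolynomial (Fin n) F}
    (h : ∀ t ∈ s, Bdl i r (Q t)) : Bdl i (s.card * r) (∑ t ∈ s, Q t) := by
  classical
  induction s using Finset.induction_on with
  | empty =>
    rw [Finset.sum_empty]
    exact Bdl.zero.mono (Nat.zero_le _)
  | insert a s ha ih =>
    rw [Finset.sum_insert ha, Finset.card_insert_of_notMem ha]
    exact ((h a (Finset.mem_insert_self _ _)).addO
      (ih fun t ht => h t (Finset.mem_insert_of_mem ht))).mono (by rw [add_mul, one_mul]; omega)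

theorem Bdl.prod {τ : Type*} (s : Finset τ) {r : ℕ} {Q : τ → MvPolynomial (Fin n) F}
    (h : ∀ t ∈ s, Bdl i r (Q t)) : Bdl i (r ^ s.card) (∏ t ∈ s, Q t) := by
  classical
  induction s using Finset.induction_on with
  | empty =>
    rw [Finset.prod_empty, Finset.card_empty, pow_zero, ← C_1]
    exact Bdl.const 1
  | insert a s ha ih =>
    rw [Finset.prod_insert ha, Finset.card_insert_of_notMem ha, pow_succ, mul_comm (r ^ s.card)]
    exact (h a (Finset.mem_insert_self _ _)).mul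
      (ih fun t ht => h t (Finset.mem_insert_of_mem ht))

/-- the bound for the rank of a determinant -/
def dtb (Q r : ℕ) : ℕ := Q.factorial * (r + 1) ^ Q

theorem Bdl.det {ρ Q r : ℕ} (hρ : ρ ≤ Q) {M : Matrix (Fin ρ) (Fin ρ) (MvPolynomial (Fin n) F)}
    (h : ∀ q l, Bdl i r (M q l)) : Bdl i (dtb Q r) M.det := by
  classical
  rw [Matrix.det_apply']
  refine (Bdl.sumO (r := (r + 1) ^ Q) _ fun τ _ => ?_).mono ?_
  · have h1 : Bdl i ((r + 1) ^ ρ) (∏ x, M (τ x) x) := by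
      have := Bdl.prod Finset.univ (r := r + 1) (Q := fun x => M (τ x) x)
        fun t _ => (h _ _).mono (Nat.le_succ r)
      rwa [Finset.card_univ, Fintype.card_fin] at this
    have h2 : Bdl i 1 ((((Equiv.Perm.sign τ : ℤˣ) : ℤ)) : MvPolynomial (Fin n) F) :=
      Bdl.ofFree (Subalgebra.intCast_mem _ _)
    refine (h2.mul h1).mono ?_
    rw [one_mul]
    exact Nat.pow_le_pow_right (Nat.succ_pos r) hρ
  · rw [Finset.card_univ, Fintype.card_perm, Fintype.card_fin]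
    exact Nat.mul_le_mul_right _ (Nat.factorial_le hρ)

end bdl

section O

variable {F : Type*} [Field F] {n : ℕ} (V : DChain F n)

/-- the ideals with a shift of the level -/
def DChain.O (j : ℕ) (Z : Finset (Fin n)) : Ideal (MvPolynomial (Fin n) F) := V.H (j + 1) Z

theorem DChain.O_mono {j j' : ℕ} (h : j ≤ j') (Z : Finset (Fin n)) : V.O j' Z ≤ V.O j Z :=
  V.H_mono (Nat.succ_le_succ h) Z

theorem DChain.O_free [CharZero F] {i : Fin n} {r : ℕ} {Q : MvPolynomial (Fin n) F}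
    (hQ : Bdl i r Q) {j : ℕ} {Z : Finset (Fin n)} (h : Q ∈ V.O (j + r) Z) :
    Q ∈ V.O j (insert i Z) := by
  obtain ⟨s, hs, hQ⟩ := hQ
  exact hQ.free V (Nat.succ_pos j) (V.H_mono (by omega) Z h)

/-- the rank of `Q` in every variable outside `Y` is at most `r` -/
def BdY (Y : Finset (Fin n)) (r : ℕ) (Q : MvPolynomial (Fin n) F) : Prop :=
  ∀ i, i ∉ Y → Bdl i r Q

theorem BdY.mono {Y Y' : Finset (Fin n)} (hY : Y ⊆ Y') {r r' : ℕ} (hr : r ≤ r')
    {Q : MvPolynomial (Fin n) F} (h : BdY Y r Q) : BdY Y' r' Q :=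
  fun i hi => (h i fun hc => hi (hY hc)).mono hr

theorem DChain.O_freeY [CharZero F] {Y Z : Finset (Fin n)} (hYZ : Y ⊆ Z) {r : ℕ}
    {Q : MvPolynomial (Fin n) F} (hQ : BdY Y r Q) (i : Fin n) {j : ℕ} (h : Q ∈ V.O (j + r) Z) :
    Q ∈ V.O j (insert i Z) := by
  by_cases hi : i ∈ Z
  · rw [Finset.insert_eq_of_mem hi]
    exact V.O_mono (Nat.le_add_right _ _) Z h
  · exact V.O_free (hQ i fun hc => hi (hYZ hc)) h

theorem DChain.O_lossless [CharZero F] {j : ℕ} {Z : Finset (Fin n)} {i0 : Fin n}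
    {ρ : ℕ} {κ : Fin ρ → Fin n} (hκ : ∀ p, κ p ∈ Z) {f μ : MvPolynomial (Fin n) F}
    {m : Fin ρ → MvPolynomial (Fin n) F}
    (hpde : μ * pderiv i0 f = ∑ p, m p * pderiv (κ p) f) (hf : f ∈ V.O j Z)
    (hμ : μ ∉ V.O j Z) : f ∈ V.O j (insert i0 Z) :=
  V.H_lossless _ κ hκ m hpde hf hμ

theorem DChain.O_supp [CharZero F] {j : ℕ} {Z : Finset (Fin n)} {Q : MvPolynomial (Fin n) F}
    (hs : Q ∈ supported F (Z : Set (Fin n))) (hQ : Q ∈ V.O j Z) : Q = 0 :=
  V.H_supp _ Z _ Q le_rfl hs hQ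

/-- freeing a set of directions for a controlled polynomial, if the minors of the family do not
belong to the ideals with larger sets of free variables -/
theorem DChain.free_blockO [CharZero F] {ι : Type} [Fintype ι] {G : ι → MvPolynomial (Fin n) F}
    {B Y : Finset (Fin n)} {f : MvPolynomial (Fin n) F} (hf : Ctrl (B : Set (Fin n)) G f)
    {b : ℕ} (hfb : BdY Y b f)
    {r e : ℕ} (hr : Fintype.card ι ≤ r)
    (hmin : ∀ (ρ : ℕ) (κ : Fin ρ → Fin n) (g' : Fin ρ → ι), ρ ≤ r →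
      (Matrix.of fun q l => pderiv (κ q) (G (g' l))).det ≠ 0 →
      ∀ Y', Y ⊆ Y' → (Matrix.of fun q l => pderiv (κ q) (G (g' l))).det ∉ V.O e Y')
    {j : ℕ} (h : f ∈ V.O (j + (e + r * b)) Y) : f ∈ V.O j (Y ∪ B) := by
  classical
  obtain ⟨ρ, κ, g', hρ, hκ, hdet, hrel⟩ := cramer_unif
    (fun (k : Fin n) (i : ι) => pderiv k (G i)) (B : Set (Fin n))
  have hρr : ρ ≤ r := hρ.trans hr
  have hnon := hmin ρ κ g' hρr hdet
  set μ := (Matrix.of fun q l => pderiv (κ q) (G (g' l))).det with hμ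
  have hfree : ∀ (s : ℕ) (hs : s ≤ ρ), f ∈
      V.O (j + e + (r - s) * b)
        (Finset.univ.image (fun q : Fin s => κ (Fin.castLE hs q)) ∪ Y) := by
    intro s
    induction s with
    | zero =>
      intro hs
      have h1 : (Finset.univ.image (fun q : Fin 0 => κ (Fin.castLE hs q)) ∪ Y) = Y := by simp
      rw [h1]
      exact V.O_mono (by rw [Nat.sub_zero]; omega) _ h
    | succ s ih =>
      intro hs
      have h1 := ih (by omega)
      have h2 : j + e + (r - s) * b = (j + e + (r - (s + 1)) * b) + b := by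
        have : r - s = (r - (s + 1)) + 1 := by omega
        rw [this, add_mul, one_mul]; ring
      rw [h2] at h1
      have h3 := V.O_freeY Finset.subset_union_right hfb (κ ⟨s, by omega⟩) h1
      have h4 : insert (κ ⟨s, by omega⟩) (Finset.univ.image
          (fun q : Fin s => κ (Fin.castLE (by omega : s ≤ ρ) q)) ∪ Y) =
          Finset.univ.image (fun q : Fin (s + 1) => κ (Fin.castLE hs q)) ∪ Y := by
        ext k
        simp only [Finset.mem_insert, Finset.mem_union, Finset.mem_image, Finset.mem_univ,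
          true_and]
        constructor
        · rintro (rfl | ⟨q, rfl⟩ | h)
          · exact Or.inl ⟨Fin.last s, rfl⟩
          · exact Or.inl ⟨q.castSucc, rfl⟩
          · exact Or.inr h
        · rintro (⟨q, rfl⟩ | h)
          · refine Fin.lastCases ?_ (fun q => ?_) q
            · exact Or.inl rfl
            · exact Or.inr (Or.inl ⟨q, rfl⟩)
          · exact Or.inr (Or.inr h)
      rw [← h4]
      exact h3
  have h0 := V.O_mono (show j + e ≤ j + e + (r - ρ) * b by omega) _ (hfree ρ le_rfl)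
  set Z₀ := Finset.univ.image (fun q : Fin ρ => κ (Fin.castLE le_rfl q)) ∪ Y with hZ₀
  have hκZ : ∀ q, κ q ∈ Z₀ := fun q => Finset.mem_union_left _
    (Finset.mem_image.2 ⟨q, Finset.mem_univ _, rfl⟩)
  have hall : ∀ T : Finset (Fin n), T ⊆ B → f ∈ V.O (j + e) (T ∪ Z₀) := by
    intro T
    induction T using Finset.induction_on with
    | empty => intro _; rw [Finset.empty_union]; exact h0
    | insert i T _ ih =>
      intro hTB
      have ih' := ih (fun k hk => hTB (Finset.mem_insert_of_mem hk))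
      have hiB : i ∈ B := hTB (Finset.mem_insert_self _ _)
      rw [Finset.insert_union]
      have hrel' := hrel (fun l => pderiv i (G l)) (Submodule.subset_span
        ⟨i, by exact_mod_cast hiB, rfl⟩)
      exact V.O_lossless (fun q => Finset.mem_union_right _ (hκZ q))
        (ctrl_pde hf (by exact_mod_cast hiB) hκ hrel') ih'
        (fun hc => hnon _ (Finset.subset_union_right.trans Finset.subset_union_right)
          (V.O_mono (Nat.le_add_left _ _) _ hc))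
  have h1 := hall B le_rfl
  have h2 : B ∪ Z₀ = Y ∪ B := by
    rw [hZ₀, ← Finset.union_assoc, Finset.union_comm]
    congr 1
    apply Finset.union_eq_left.2
    intro k hk
    obtain ⟨q, _, rfl⟩ := Finset.mem_image.1 hk
    exact_mod_cast hκ (Fin.castLE le_rfl q)
  rw [h2] at h1
  exact V.O_mono (Nat.le_add_right _ _) _ h1

end O

universe v

/-- families of classes of polynomials of bounded rank in every variable which are closed under
sums, products and derivatives and do not meet the ideals of the chains -/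
structure FamO (F : Type v) [Field F] where
  /-- the classes -/
  K : ∀ n : ℕ, ℕ → Set (MvPolynomial (Fin n) F)
  mono : ∀ {n W W' : ℕ}, W ≤ W' → K n W ⊆ K n W'
  /-- the parameter of the constants -/
  cc : ℕ
  const_mem : ∀ {n : ℕ} (c : F), (C c : MvPolynomial (Fin n) F) ∈ K n cc
  /-- the parameter of sums -/
  ad : ℕ → ℕ → ℕ
  add_mem : ∀ {n W W' : ℕ} {f g : MvPolynomial (Fin n) F}, f ∈ K n W → g ∈ K n W' →
    f + g ∈ K n (ad W W')
  /-- the parameter of products -/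
  ml : ℕ → ℕ → ℕ
  mul_mem : ∀ {n W W' : ℕ} {f g : MvPolynomial (Fin n) F}, f ∈ K n W → g ∈ K n W' →
    f * g ∈ K n (ml W W')
  /-- the parameter of derivatives -/
  der : ℕ → ℕ
  der_mem : ∀ {n W : ℕ} (k : Fin n) {f : MvPolynomial (Fin n) F}, f ∈ K n W →
    MvPolynomial.pderiv k f ∈ K n (der W)
  /-- the bound for the ranks -/
  bd : ℕ → ℕ
  bd_mem : ∀ {n W : ℕ} {f : MvPolynomial (Fin n) F}, f ∈ K n W → ∀ i, Bdl i (bd W) f
  seeds : ∀ W : ℕ, ∃ m : ℕ, ∀ (n : ℕ) (V : DChain F n), ∀ f ∈ K n W,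
    ∀ Y : Finset (Fin n), f ∈ V.O m Y → f = 0

section rep

variable {F : Type v} [Field F] (𝔎 : FamO F) {n : ℕ}

/-- lower bound for the parameters -/
def FamO.c0 : ℕ := 𝔎.cc + 1

theorem FamO.c0_pos : 1 ≤ 𝔎.c0 := Nat.succ_pos _

theorem FamO.const {W : ℕ} (hW : 𝔎.c0 ≤ W) (y : F) : (C y : MvPolynomial (Fin n) F) ∈ 𝔎.K n W :=
  𝔎.mono (by unfold FamO.c0 at hW; omega) (𝔎.const_mem y)

theorem FamO.zero {W : ℕ} (hW : 𝔎.c0 ≤ W) : (0 : MvPolynomial (Fin n) F) ∈ 𝔎.K n W := by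
  have := 𝔎.const (n := n) hW 0
  rwa [C_0] at this

/-- growth of the parameter for products -/
def FamO.mg (W W' : ℕ) : ℕ := 𝔎.ml W W' + W * W' + 𝔎.c0

theorem FamO.mul {W W' : ℕ} {f g : MvPolynomial (Fin n) F} (hf : f ∈ 𝔎.K n W)
    (hg : g ∈ 𝔎.K n W') : f * g ∈ 𝔎.K n (𝔎.mg W W') :=
  𝔎.mono (by unfold FamO.mg; omega) (𝔎.mul_mem hf hg)

/-- representations with coefficients in a subalgebra -/
def RepO (𝔸 : Subalgebra F (MvPolynomial (Fin n) F)) (W : ℕ) (f : MvPolynomial (Fin n) F) :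
    Prop := SP (𝔸 : Set (MvPolynomial (Fin n) F)) (𝔎.K n W) W f

variable {𝔎} {𝔸 : Subalgebra F (MvPolynomial (Fin n) F)}
  {W W' : ℕ} {f g : MvPolynomial (Fin n) F}

theorem RepO.mono (h : RepO 𝔎 𝔸 W f) (hW : W ≤ W') : RepO 𝔎 𝔸 W' f :=
  SP.mono h hW le_rfl (𝔎.mono hW)

theorem RepO.smul (hf : RepO 𝔎 𝔸 W f) {c : MvPolynomial (Fin n) F} (hc : c ∈ 𝔸) :
    RepO 𝔎 𝔸 W (c * f) :=
  SP.smul hf c fun _ ha => 𝔸.mul_mem hc ha

theorem RepO.mul (hf : RepO 𝔎 𝔸 W f) (hg : RepO 𝔎 𝔸 W' g) :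
    RepO 𝔎 𝔸 (𝔎.mg W W') (f * g) :=
  SP.mono (SP.mul hf hg (fun _ ha _ hb => 𝔸.mul_mem ha hb)
    (ℬ'' := 𝔎.K n (𝔎.mg W W')) (fun _ ha _ hb => 𝔎.mul ha hb))
    (by unfold FamO.mg; omega) le_rfl le_rfl

theorem RepO.ofMem (hW : 1 ≤ W) (hf : f ∈ 𝔎.K n W) : RepO 𝔎 𝔸 W f := by
  have := SP.one_term (𝒜 := (𝔸 : Set (MvPolynomial (Fin n) F))) (ℬ := 𝔎.K n W) (a := 1)
    𝔸.one_mem hf hW
  rwa [one_mul] at this

theorem RepO.one (hW : 𝔎.c0 ≤ W) : RepO 𝔎 𝔸 W 1 := by
  have := RepO.ofMem (𝔸 := 𝔸) (𝔎.c0_pos.trans hW) (𝔎.const (n := n) hW (1 : F))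
  rwa [map_one] at this

theorem RepO.ofRing (hW : 𝔎.c0 ≤ W) (hf : f ∈ 𝔸) : RepO 𝔎 𝔸 W f := by
  have := (RepO.one (𝔸 := 𝔸) hW).smul hf
  rwa [mul_one] at this

theorem RepO.sum {κ : Type*} (s : Finset κ) (f : κ → MvPolynomial (Fin n) F)
    (h : ∀ k ∈ s, RepO 𝔎 𝔸 W (f k)) (hs : s.card ≤ W') :
    RepO 𝔎 𝔸 (W' * W) (∑ k ∈ s, f k) := by
  rcases Nat.eq_zero_or_pos W' with h0 | h0
  · have : s = ∅ := Finset.card_eq_zero.1 (by omega)
    subst this
    rw [Finset.sum_empty]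
    exact SP.zero
  · have h1 := SP.sum (𝒜 := (𝔸 : Set (MvPolynomial (Fin n) F))) (ℬ := 𝔎.K n W) s f h
    exact h1.mono (Nat.mul_le_mul_right _ hs) le_rfl (𝔎.mono (Nat.le_mul_of_pos_left _ h0))

/-- the parameter of a product -/
def FamO.pg (𝔎 : FamO F) (W : ℕ) : ℕ → ℕ
  | 0 => 𝔎.c0
  | k + 1 => W + FamO.pg 𝔎 W k + 𝔎.mg W (FamO.pg 𝔎 W k)

theorem FamO.c0_le_pg (W k : ℕ) : 𝔎.c0 ≤ 𝔎.pg W k := by
  cases k with
  | zero => exact le_rfl
  | succ k => simp only [FamO.pg]; unfold FamO.mg; omega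

theorem FamO.pg_mono (W : ℕ) {k k' : ℕ} (h : k ≤ k') : 𝔎.pg W k ≤ 𝔎.pg W k' := by
  induction k', h using Nat.le_induction with
  | base => exact le_rfl
  | succ b _ ih => simp only [FamO.pg]; omega

theorem RepO.prod {κ : Type*} (s : Finset κ) (f : κ → MvPolynomial (Fin n) F)
    (h : ∀ k ∈ s, RepO 𝔎 𝔸 W (f k)) : RepO 𝔎 𝔸 (𝔎.pg W s.card) (∏ k ∈ s, f k) := by
  classical
  induction s using Finset.induction_on with
  | empty => rw [Finset.prod_empty, Finset.card_empty]; exact RepO.one le_rfl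
  | insert k s hk ih =>
    rw [Finset.prod_insert hk, Finset.card_insert_of_notMem hk]
    exact ((h k (Finset.mem_insert_self _ _)).mul
      (ih fun k' hk' => h k' (Finset.mem_insert_of_mem hk'))).mono
        (by simp only [FamO.pg]; omega)

/-- representation of a determinant -/
theorem RepO.det {ρ Q : ℕ} (hρ : ρ ≤ Q)
    {M : Matrix (Fin ρ) (Fin ρ) (MvPolynomial (Fin n) F)} (h : ∀ i j, RepO 𝔎 𝔸 W (M i j)) :
    RepO 𝔎 𝔸 (Q.factorial * 𝔎.pg W Q) M.det := by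
  classical
  rw [Matrix.det_apply']
  refine RepO.sum _ _ ?_ ?_
  · intro τ _
    refine RepO.smul ?_ (𝔸.intCast_mem _)
    refine (RepO.prod _ _ fun i _ => h _ _).mono ?_
    rw [Finset.card_univ, Fintype.card_fin]
    exact 𝔎.pg_mono W hρ
  · rw [Finset.card_univ, Fintype.card_perm, Fintype.card_fin]
    exact Nat.factorial_le hρ

/-- the parameter of a sum -/
def FamO.ag (𝔎 : FamO F) (W : ℕ) : ℕ → ℕ
  | 0 => 𝔎.c0
  | k + 1 => W + FamO.ag 𝔎 W k + 𝔎.ad W (FamO.ag 𝔎 W k)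

theorem FamO.ag_mono (W : ℕ) {k k' : ℕ} (h : k ≤ k') : 𝔎.ag W k ≤ 𝔎.ag W k' := by
  induction k', h using Nat.le_induction with
  | base => exact le_rfl
  | succ b _ ih => simp only [FamO.ag]; omega

theorem FamO.sum_mem {κ : Type*} (s : Finset κ) (f : κ → MvPolynomial (Fin n) F)
    (h : ∀ k ∈ s, f k ∈ 𝔎.K n W) : ∑ k ∈ s, f k ∈ 𝔎.K n (𝔎.ag W s.card) := by
  classical
  induction s using Finset.induction_on with
  | empty => rw [Finset.sum_empty, Finset.card_empty]; exact 𝔎.zero le_rfl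
  | insert k s hk ih =>
    rw [Finset.sum_insert hk, Finset.card_insert_of_notMem hk]
    exact 𝔎.mono (by simp only [FamO.ag]; omega) (𝔎.add_mem (h k (Finset.mem_insert_self _ _))
      (ih fun k' hk' => h k' (Finset.mem_insert_of_mem hk')))

theorem FamO.prod_mem {κ : Type*} (s : Finset κ) (f : κ → MvPolynomial (Fin n) F)
    (h : ∀ k ∈ s, f k ∈ 𝔎.K n W) : ∏ k ∈ s, f k ∈ 𝔎.K n (𝔎.pg W s.card) := by
  classical
  induction s using Finset.induction_on with
  | empty =>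
    rw [Finset.prod_empty, Finset.card_empty, ← C_1]
    exact 𝔎.const le_rfl 1
  | insert k s hk ih =>
    rw [Finset.prod_insert hk, Finset.card_insert_of_notMem hk]
    exact 𝔎.mono (by simp only [FamO.pg]; omega) (𝔎.mul (h k (Finset.mem_insert_self _ _))
      (ih fun k' hk' => h k' (Finset.mem_insert_of_mem hk')))

/-- the parameter of a determinant -/
def FamO.dg (𝔎 : FamO F) (W Q : ℕ) : ℕ := 𝔎.ag (𝔎.mg 𝔎.c0 (𝔎.pg W Q)) Q.factorial

theorem FamO.det_mem {ρ Q : ℕ} (hρ : ρ ≤ Q)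
    {M : Matrix (Fin ρ) (Fin ρ) (MvPolynomial (Fin n) F)} (h : ∀ i j, M i j ∈ 𝔎.K n W) :
    M.det ∈ 𝔎.K n (𝔎.dg W Q) := by
  classical
  rw [Matrix.det_apply']
  have h1 := FamO.sum_mem (𝔎 := 𝔎) (W := 𝔎.mg 𝔎.c0 (𝔎.pg W Q))
    (Finset.univ : Finset (Equiv.Perm (Fin ρ)))
    (fun τ => (((Equiv.Perm.sign τ : ℤˣ) : ℤ) : MvPolynomial (Fin n) F) * ∏ x, M (τ x) x)
    (fun τ _ => by
      refine 𝔎.mul ?_ (𝔎.mono ?_ (FamO.prod_mem (𝔎 := 𝔎) Finset.univ (fun x => M (τ x) x)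
        fun x _ => h _ _))
      · have : ((((Equiv.Perm.sign τ : ℤˣ) : ℤ)) : MvPolynomial (Fin n) F) =
            C ((((Equiv.Perm.sign τ : ℤˣ) : ℤ)) : F) := by rw [map_intCast]
        rw [this]
        exact 𝔎.const le_rfl _
      · rw [Finset.card_univ, Fintype.card_fin]
        exact 𝔎.pg_mono W hρ)
  refine 𝔎.mono ?_ h1
  rw [Finset.card_univ, Fintype.card_perm, Fintype.card_fin]
  exact 𝔎.ag_mono _ (Nat.factorial_le hρ)

end rep

end Pool.Agent.W943
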