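import Mathlib
import Pool.Agent.W943.Ork1

/-!
Programs reading every variable a bounded number of times, in any order, with contents of bounded
rank in every variable; the induction statements.
-/

set_option autoImplicit false

namespace Pool.Agent.W943

open MvPolynomial Module Pool.Agent.H530R2

universe v

section reg

variable {F : Type v} [Field F] (𝔎 : FamO F) {n : ℕ}

/-- registers `p`, which read at step `t` the polynomials `inp t` in the variables `B t` -/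
structure RegO (B : ℕ → Finset (Fin n)) (u : ℕ) {τ κ : Type} (p : ℕ → τ → MvPolynomial (Fin n) F)
    (inp : ℕ → κ → MvPolynomial (Fin n) F) : Prop where
  init : ∀ i, ∃ y, p 0 i = C y
  imem : ∀ b i, inp b i ∈ 𝔎.K n u
  isupp : ∀ b i, inp b i ∈ supported F (B b : Set (Fin n))
  stepm : ∀ b i, p (b + 1) i ∈ Algebra.adjoin F (Set.range (p b) ∪ Set.range (inp b))

variable {𝔎}

/-- padding and reindexing -/
theorem RegO.toFin {B : ℕ → Finset (Fin n)} {Y : Finset (Fin n)} {u w : ℕ} {τ κ : Type}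
    [Fintype τ] [Fintype κ]
    {p : ℕ → τ → MvPolynomial (Fin n) F} {inp : ℕ → κ → MvPolynomial (Fin n) F}
    (h : RegO 𝔎 B u p inp) (hbd : ∀ t j, BdY Y w (p t j)) (hu : u ≤ w) (hτ : Fintype.card τ ≤ w)
    (hκ : Fintype.card κ ≤ w) (hc : 𝔎.c0 ≤ w) :
    ∃ (p' inp' : ℕ → Fin w → MvPolynomial (Fin n) F), RegO 𝔎 B w p' inp' ∧
      (∀ t j, BdY Y w (p' t j)) ∧
      ∀ b, Set.range (p b) ⊆ Set.range (p' b) := by
  classical
  obtain ⟨e⟩ : Nonempty (τ ↪ Fin w) := by
    rw [Function.Embedding.nonempty_iff_card_le, Fintype.card_fin]; exact hτ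
  obtain ⟨e'⟩ : Nonempty (κ ↪ Fin w) := by
    rw [Function.Embedding.nonempty_iff_card_le, Fintype.card_fin]; exact hκ
  have h0 : ∀ b, (0 : MvPolynomial (Fin n) F) ∈ 𝔎.K n w ∧
      (0 : MvPolynomial (Fin n) F) ∈ supported F (B b : Set (Fin n)) :=
    fun b => ⟨𝔎.zero hc, Subalgebra.zero_mem _⟩
  have hr : ∀ b, Set.range (p b) ⊆ Set.range (Function.extend e (p b) 0) := by
    intro b
    rintro _ ⟨i, rfl⟩
    exact ⟨e i, e.injective.extend_apply _ _ _⟩
  have hr' : ∀ b, Set.range (inp b) ⊆ Set.range (Function.extend e' (inp b) 0) := by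
    intro b
    rintro _ ⟨i, rfl⟩
    exact ⟨e' i, e'.injective.extend_apply _ _ _⟩
  refine ⟨fun b => Function.extend e (p b) 0, fun b => Function.extend e' (inp b) 0,
    ⟨?_, ?_, ?_, ?_⟩, ?_, hr⟩
  · intro i
    by_cases hi : ∃ x, e x = i
    · obtain ⟨x, rfl⟩ := hi
      rw [e.injective.extend_apply]
      exact h.init x
    · exact ⟨0, by rw [Function.extend_apply' _ _ _ hi, map_zero]; rfl⟩
  · intro b i
    by_cases hi : ∃ x, e' x = i
    · obtain ⟨x, rfl⟩ := hi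
      rw [e'.injective.extend_apply]
      exact 𝔎.mono hu (h.imem b x)
    · rw [Function.extend_apply' _ _ _ hi]
      exact (h0 b).1
  · intro b i
    by_cases hi : ∃ x, e' x = i
    · obtain ⟨x, rfl⟩ := hi
      rw [e'.injective.extend_apply]
      exact h.isupp b x
    · rw [Function.extend_apply' _ _ _ hi]
      exact (h0 b).2
  · intro b i
    by_cases hi : ∃ x, e x = i
    · obtain ⟨x, rfl⟩ := hi
      rw [e.injective.extend_apply]
      exact Algebra.adjoin_mono (Set.union_subset_union (hr b) (hr' b)) (h.stepm b x)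
    · rw [Function.extend_apply' _ _ _ hi]
      exact Subalgebra.zero_mem _
  · intro t j
    by_cases hi : ∃ x, e x = j
    · obtain ⟨x, rfl⟩ := hi
      show BdY Y w (Function.extend e (p t) 0 (e x))
      rw [e.injective.extend_apply]
      exact hbd t x
    · show BdY Y w (Function.extend e (p t) 0 j)
      rw [Function.extend_apply' _ _ _ hi]
      exact fun i _ => Bdl.zero.mono (Nat.zero_le _)

/-- derivatives of the registers -/
theorem RegO.prol {B : ℕ → Finset (Fin n)} {u : ℕ} {τ κ' : Type}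
    {p : ℕ → τ → MvPolynomial (Fin n) F} {inp : ℕ → κ' → MvPolynomial (Fin n) F}
    (h : RegO 𝔎 B u p inp) {ρ : ℕ} (κ : Fin ρ → Fin n) :
    RegO 𝔎 B (u + 𝔎.der u) (Pool.Agent.H530R2.prol κ p) (Pool.Agent.H530R2.prol κ inp) := by
  refine ⟨?_, ?_, ?_, ?_⟩
  · rintro (i | ⟨q, i⟩)
    · exact h.init i
    · obtain ⟨y, hy⟩ := h.init i
      refine ⟨0, ?_⟩
      show pderiv (κ q) (p 0 i) = C 0
      rw [hy, pderiv_C, map_zero]
  · rintro b (i | ⟨q, i⟩)
    · exact 𝔎.mono (Nat.le_add_right _ _) (h.imem b i)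
    · exact 𝔎.mono (Nat.le_add_left _ _) (𝔎.der_mem _ (h.imem b i))
  · rintro b (i | ⟨q, i⟩)
    · exact h.isupp b i
    · exact pderiv_mem_supported _ (h.isupp b i)
  · intro b
    have hmono : Algebra.adjoin F (Set.range (p b) ∪ Set.range (inp b)) ≤
        Algebra.adjoin F (Set.range (Pool.Agent.H530R2.prol κ p b) ∪
          Set.range (Pool.Agent.H530R2.prol κ inp b)) := by
      apply Algebra.adjoin_mono
      apply Set.union_subset_union
      · rintro _ ⟨i, rfl⟩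
        exact ⟨Sum.inl i, rfl⟩
      · rintro _ ⟨i, rfl⟩
        exact ⟨Sum.inl i, rfl⟩
    rintro (i | ⟨q, i⟩)
    · exact hmono (h.stepm b i)
    · refine pderiv_mem_of_adjoin (κ q) ?_ ?_ (h.stepm b i)
      · intro x hx
        exact hmono (Algebra.subset_adjoin hx)
      · rintro x (⟨i', rfl⟩ | ⟨i', rfl⟩)
        · exact Algebra.subset_adjoin (Or.inl ⟨Sum.inr (q, i'), rfl⟩)
        · exact Algebra.subset_adjoin (Or.inr ⟨Sum.inr (q, i'), rfl⟩)

theorem prol_bd {Y : Finset (Fin n)} {w : ℕ} {τ : Type} {p : ℕ → τ → MvPolynomial (Fin n) F}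
    (h : ∀ t j, BdY Y w (p t j)) {ρ : ℕ} (κ : Fin ρ → Fin n) :
    ∀ t j, BdY Y w (Pool.Agent.H530R2.prol κ p t j) := by
  intro t j
  rcases j with i | ⟨q, i⟩
  · exact h t i
  · exact fun x hx => (h t i x hx).pd (κ q)

/-- truncation -/
theorem RegO.trunc {B : ℕ → Finset (Fin n)} {u : ℕ} {τ κ : Type}
    {p : ℕ → τ → MvPolynomial (Fin n) F} {inp : ℕ → κ → MvPolynomial (Fin n) F}
    (h : RegO 𝔎 B u p inp) (hu : 𝔎.c0 ≤ u) (R : ℕ) :
    RegO 𝔎 (fun t => if t < R then B t else ∅) u (fun t => p (min t R))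
      (fun t => if t < R then inp t else 0) := by
  refine ⟨?_, ?_, ?_, ?_⟩
  · intro i
    rw [Nat.zero_min]
    exact h.init i
  · intro b i
    split_ifs with hb
    · exact h.imem b i
    · exact 𝔎.zero hu
  · intro b i
    by_cases hb : b < R
    · simp only [if_pos hb]
      exact h.isupp b i
    · simp only [if_neg hb]
      exact Subalgebra.zero_mem _
  · intro b i
    by_cases hb : b < R
    · rw [min_eq_left (show b + 1 ≤ R from hb), min_eq_left hb.le, if_pos hb]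
      exact h.stepm b i
    · rw [min_eq_right (show R ≤ b + 1 by omega), min_eq_right (show R ≤ b by omega)]
      exact Algebra.subset_adjoin (Or.inl ⟨i, rfl⟩)

/-- the registers contain polynomials in the variables read -/
theorem RegO.supp {B : ℕ → Finset (Fin n)} {u : ℕ} {τ κ : Type}
    {p : ℕ → τ → MvPolynomial (Fin n) F} {inp : ℕ → κ → MvPolynomial (Fin n) F}
    (h : RegO 𝔎 B u p inp) {Y : Finset (Fin n)} {R : ℕ} (hY : ∀ i, i ∉ Y → cnt B R i ≤ 0)
    {t : ℕ} (ht : t ≤ R) (i : τ) : p t i ∈ supported F (Y : Set (Fin n)) := by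
  induction t generalizing i with
  | zero =>
    obtain ⟨y, hy⟩ := h.init i
    rw [hy]
    exact Subalgebra.algebraMap_mem _ _
  | succ t ih =>
    refine (Algebra.adjoin_le ?_) (h.stepm t i)
    rintro x (⟨i', rfl⟩ | ⟨i', rfl⟩)
    · exact ih (by omega) i'
    · refine supported_mono ?_ (h.isupp t i')
      intro k hk
      by_contra hkY
      have h1 := hY k (by exact_mod_cast hkY)
      have h2 := cnt_succ_of_mem (Finset.mem_coe.1 hk)
      have h3 := cnt_mono B ht k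
      omega

end reg

section rel

/-- combinations of outputs of programs reading the variables outside `Y` at most `k` times and
members of the class vanish if they belong to the ideals and are of bounded rank -/
def RelO {F : Type v} [Field F] (𝔎 : FamO F) (k : ℕ) : Prop :=
  ∀ Q W r : ℕ, ∃ e : ℕ, ∀ (n : ℕ) (V : DChain F n) (B : ℕ → Finset (Fin n))
    (p inp : ℕ → Fin W → MvPolynomial (Fin n) F), RegO 𝔎 B W p inp →
    ∀ (R : ℕ) (Y : Finset (Fin n)), (∀ i, i ∉ Y → cnt B R i ≤ k) →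
    (∀ t j, BdY Y W (p t j)) →
    ∀ (E P : Fin Q → MvPolynomial (Fin n) F),
      (∀ q, E q ∈ Algebra.adjoin F (Set.range (p R) ∪ X '' (Y : Set (Fin n)))) →
      (∀ q, P q ∈ 𝔎.K n W) → BdY Y r (∑ q, E q * P q) →
      ∑ q, E q * P q ∈ V.O e Y → ∑ q, E q * P q = 0

/-- the decoupling statement -/
def DecO {F : Type v} [Field F] (𝔎 : FamO F) (k w s : ℕ) : Prop :=
  ∀ l k' u Q W r : ℕ, ∃ e : ℕ, ∀ (n : ℕ) (V : DChain F n) (B : ℕ → Finset (Fin n))
    (Y : Finset (Fin n)), (∀ i, i ∉ Y → ∀ t, cnt B t i ≤ k + 1) →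
    ∀ (p : ℕ → Fin w → MvPolynomial (Fin n) F),
      (∀ c b, c ≤ b → ∀ S : Finset (Fin n), S ⊆ ZK B Y k c → er S (p b) ≤ er S (p c)) →
    ∀ (ι κ : Type) [Fintype ι] [Fintype κ] (J : ℕ → ι → MvPolynomial (Fin n) F)
      (inp : ℕ → κ → MvPolynomial (Fin n) F), SysK B (ZK B Y k) p J inp →
      RegO 𝔎 B u J inp → (∀ t j, BdY Y u (J t j)) →
      Fintype.card ι ≤ l → Fintype.card κ ≤ k' →
      ∀ a' b : ℕ, a' ≤ b → (a' = b ∨ w + 1 ≤ er (ZK B Y k a') (p b) + s) →
      ∀ (E P : Fin Q → MvPolynomial (Fin n) F),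
      (∀ q, Ctrl ((ZK B Y k b \ ZK B Y k a' : Finset (Fin n)) : Set (Fin n)) (J b) (E q)) →
      (∀ q, P q ∈ 𝔎.K n W) → BdY Y r (∑ q, E q * P q) →
      ∀ j, ∑ q, E q * P q ∈ V.O (j + e) (Y ∪ ZK B Y k a') →
      ∑ q, E q * P q ∈ V.O j (Y ∪ ZK B Y k b)

variable {F : Type v} [Field F] {𝔎 : FamO F}

theorem DecO.zero (k w : ℕ) : DecO 𝔎 k w 0 := by
  intro l k' u Q W r
  refine ⟨0, ?_⟩
  intro n V B Y hcnt p hp ι κ _ _ J inp hJ hreg hbd hl hk a' b hab hor E P hE hP hr j h0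
  rcases hor with rfl | h
  · exact h0
  · exfalso
    have h2 := er_le_card (ZK B Y k a') (p b)
    rw [Fintype.card_fin] at h2
    omega

/-- a version of the induction hypothesis for families indexed by arbitrary finite types -/
theorem RelO.apply {k : ℕ} (hH : RelO 𝔎 k) (l k' u M r : ℕ) : ∃ e : ℕ, ∀ (n : ℕ)
    (V : DChain F n) (B : ℕ → Finset (Fin n)) (ι κ : Type) [Fintype ι] [Fintype κ]
    (J : ℕ → ι → MvPolynomial (Fin n) F) (inp : ℕ → κ → MvPolynomial (Fin n) F),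
    RegO 𝔎 B u J inp → Fintype.card ι ≤ l → Fintype.card κ ≤ k' →
    ∀ (R : ℕ) (Y : Finset (Fin n)), (∀ i, i ∉ Y → cnt B R i ≤ k) →
    (∀ t j, BdY Y u (J t j)) →
    ∀ x, RepO 𝔎 (Algebra.adjoin F (Set.range (J R))) M x → BdY Y r x →
    x ∈ V.O e Y → x = 0 := by
  classical
  obtain ⟨e, he⟩ := hH (M + 𝔎.c0) (l + k' + u + M + 𝔎.c0) r
  refine ⟨e, ?_⟩
  intro n V B ι κ _ _ J inp hreg hl hk R Y hcnt hbd x hx hxb hmem
  obtain ⟨p, inp', hp, hpb, hr⟩ := hreg.toFin (w := l + k' + u + M + 𝔎.c0)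
    (fun t j => (hbd t j).mono le_rfl (by omega)) (by omega) (by omega)
    (by omega) (by omega)
  obtain ⟨E, P, hE, hP, rfl⟩ := SP.toFin (hx.mono (Nat.le_add_right M 𝔎.c0))
    (Subalgebra.zero_mem _) (𝔎.zero (Nat.le_add_left _ _))
  refine he n V B p inp' hp R Y hcnt hpb E P (fun q => ?_)
    (fun q => 𝔎.mono (by omega) (hP q)) hxb hmem
  exact Algebra.adjoin_mono ((hr R).trans Set.subset_union_left) (hE q)

variable [CharZero F]

/-- freeing the variables read for the last time in a step -/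
theorem bfreeO {k : ℕ} (hH : RelO 𝔎 k) (l k' u Q W r : ℕ) : ∃ e : ℕ, ∀ (n : ℕ)
    (V : DChain F n) (B : ℕ → Finset (Fin n)) (ι κ : Type) [Fintype ι] [Fintype κ]
    (J : ℕ → ι → MvPolynomial (Fin n) F) (inp : ℕ → κ → MvPolynomial (Fin n) F),
    RegO 𝔎 B u J inp → Fintype.card ι ≤ l → Fintype.card κ ≤ k' →
    ∀ (t : ℕ) (Y : Finset (Fin n)), (∀ i, i ∉ Y → cnt B t i ≤ k) →
    (∀ t j, BdY Y u (J t j)) →
    ∀ (S : Finset (Fin n)) (E P : Fin Q → MvPolynomial (Fin n) F),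
      (∀ q, Ctrl (S : Set (Fin n)) (Sum.elim (J t) (inp t)) (E q)) → (∀ q, P q ∈ 𝔎.K n W) →
      BdY Y r (∑ q, E q * P q) →
      ∀ j, ∑ q, E q * P q ∈ V.O (j + e) Y → ∑ q, E q * P q ∈ V.O j (Y ∪ S) := by
  classical
  set m := l + k' + Q with hm
  set W₀ := 𝔎.der u + 𝔎.der W + 𝔎.c0 with hW₀
  set M := m.factorial * 𝔎.pg W₀ m with hM
  obtain ⟨e, he⟩ := hH.apply (l + m * l) (k' + m * k') (u + 𝔎.der u) M
    (dtb m (u + 𝔎.bd u + 𝔎.bd W))
  refine ⟨e + m * r, ?_⟩
  intro n V B ι κ _ _ J inp hreg hl hk t Y hcnt hbd S E P hE hP hr j h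
  refine V.free_blockO (G := Sum.elim (Sum.elim (J t) (inp t)) P) (ctrl_comb hE) (b := r) hr
    (r := m) (e := e) ?_ ?_ h
  · rw [Fintype.card_sum, Fintype.card_sum, Fintype.card_fin]; omega
  · intro ρ κ' g' hρ hdet Y' hYY' hY'
    apply hdet
    have hrep : RepO 𝔎 (Algebra.adjoin F (Set.range (prol κ' J t))) M
        (Matrix.of fun q l => pderiv (κ' q) (Sum.elim (Sum.elim (J t) (inp t)) P (g' l))).det := by
      refine RepO.det hρ fun q l => ?_
      simp only [Matrix.of_apply]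
      rcases g' l with (i | i) | i
      · exact RepO.ofRing (by omega) (Algebra.subset_adjoin ⟨Sum.inr (q, i), rfl⟩)
      · exact RepO.ofMem (𝔎.c0_pos.trans (by omega))
          (𝔎.mono (by omega) (𝔎.der_mem (κ' q) (hreg.imem t i)))
      · exact RepO.ofMem (𝔎.c0_pos.trans (by omega))
          (𝔎.mono (by omega) (𝔎.der_mem (κ' q) (hP i)))
    refine he n V B _ _ (prol κ' J) (prol κ' inp) (hreg.prol κ') ?_ ?_ t Y'
      (fun i hi => hcnt i (fun hc => hi (hYY' hc)))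
      (fun t j => (prol_bd hbd κ' t j).mono hYY' (Nat.le_add_right _ _)) _ hrep ?_ hY'
    · rw [Fintype.card_sum, Fintype.card_prod, Fintype.card_fin]
      exact Nat.add_le_add hl (Nat.mul_le_mul hρ hl)
    · rw [Fintype.card_sum, Fintype.card_prod, Fintype.card_fin]
      exact Nat.add_le_add hk (Nat.mul_le_mul hρ hk)
    · intro x hx
      refine Bdl.det hρ fun q l => ?_
      simp only [Matrix.of_apply]
      have hxY : x ∉ Y := fun hc => hx (hYY' hc)
      rcases g' l with (i | i) | i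
      · exact ((hbd t i x hxY).pd _).mono (by omega)
      · exact ((𝔎.bd_mem (hreg.imem t i) x).pd _).mono (by omega)
      · exact ((𝔎.bd_mem (hP i) x).pd _).mono (by omega)

omit [CharZero F] in
/-- represented elements of the ideals vanish -/
theorem brep_zeroO {n : ℕ} (V : DChain F n) {B : ℕ → Finset (Fin n)} {Y : Finset (Fin n)} {k : ℕ}
    (hcnt : ∀ i, i ∉ Y → ∀ t, cnt B t i ≤ k + 1)
    {w : ℕ} {p : ℕ → Fin w → MvPolynomial (Fin n) F} {ι κ : Type}
    {J : ℕ → ι → MvPolynomial (Fin n) F} [Fintype ι] {inp : ℕ → κ → MvPolynomial (Fin n) F}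
    [Fintype κ] (hJ : SysK B (ZK B Y k) p J inp) {Y₁ : Finset (Fin n)} {t b' : ℕ}
    (htb : t + 1 < b') {M e eG e' r : ℕ} (hM0 : 𝔎.c0 ≤ M)
    (hY₀ : Y ∪ ZK B Y k t ⊆ Y₁) (hY₁ : Y₁ ⊆ Y ∪ ZK B Y k (t + 1))
    (hdec : ∀ (E P : Fin M → MvPolynomial (Fin n) F),
      (∀ q, Ctrl ((ZK B Y k (b' - 1) \ ZK B Y k (t + 1) : Finset (Fin n)) : Set (Fin n))
        (J (b' - 1)) (E q)) →
      (∀ q, P q ∈ 𝔎.K n M) → BdY Y r (∑ q, E q * P q) →
      ∀ j, ∑ q, E q * P q ∈ V.O (j + e) (Y ∪ ZK B Y k (t + 1)) →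
      ∑ q, E q * P q ∈ V.O j (Y ∪ ZK B Y k (b' - 1)))
    (hH : ∀ (R : ℕ) (Y' : Finset (Fin n)), Y ⊆ Y' → (∀ i, i ∉ Y' → cnt B R i ≤ k) →
      ∀ x, RepO 𝔎 (Algebra.adjoin F (Set.range (J R))) M x → BdY Y' r x →
        x ∈ V.O e' Y' → x = 0)
    (hG : ∀ (t : ℕ) (Y' : Finset (Fin n)), Y ⊆ Y' → (∀ i, i ∉ Y' → cnt B t i ≤ k) →
      ∀ (S : Finset (Fin n)) (E P : Fin M → MvPolynomial (Fin n) F),
      (∀ q, Ctrl (S : Set (Fin n)) (Sum.elim (J t) (inp t)) (E q)) → (∀ q, P q ∈ 𝔎.K n M) →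
      BdY Y' r (∑ q, E q * P q) →
      ∀ j, ∑ q, E q * P q ∈ V.O (j + eG) Y' → ∑ q, E q * P q ∈ V.O j (Y' ∪ S))
    {x : MvPolynomial (Fin n) F}
    (hx : RepO 𝔎 (Algebra.adjoin F (Set.range (J b'))) M x) (hxb : BdY Y r x)
    (hmem : x ∈ V.O (e' + eG + e + eG) Y₁) : x = 0 := by
  classical
  have hZ : ∀ c b, c ≤ b → ∀ i ∈ ZK B Y k c, i ∉ B b :=
    fun c b hcb i hi => ZK_not_mem hcnt hcb hi
  have hcK : ∀ t i, i ∉ Y ∪ ZK B Y k t → cnt B t i ≤ k := by
    intro t i hi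
    rw [Finset.mem_union, mem_ZK] at hi
    push Not at hi
    exact hi.2 hi.1
  obtain ⟨y, P', hyr, hP', hxy⟩ := SP.toFin hx (Subalgebra.zero_mem _) (𝔎.zero hM0)
  have hctl : ∀ t', t' + 1 ≤ b' → ∀ q, Ctrl (ZK B Y k (t' + 1) : Set (Fin n))
      (Sum.elim (J t') (inp t')) (y q) :=
    fun t' ht' q => ctrl_stepK hJ.isupp hJ.stepm hZ ht' (hyr q)
  refine hH b' (Y ∪ ZK B Y k b') Finset.subset_union_left (hcK b') x hx
    (hxb.mono Finset.subset_union_left le_rfl) ?_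
  have hxb' := hxb
  rw [hxy] at hmem hxb' ⊢
  have hYY₁ : Y ⊆ Y₁ := Finset.subset_union_left.trans hY₀
  -- free the variables completed at time `t`
  have h1 := hG t Y₁ hYY₁ (fun i hi => hcK t i (fun hc => hi (hY₀ hc))) (ZK B Y k (t + 1)) y P'
    (hctl t (by omega)) hP' (hxb'.mono hYY₁ le_rfl) (e' + eG + e) hmem
  have h2 : Y₁ ∪ ZK B Y k (t + 1) = Y ∪ ZK B Y k (t + 1) := by
    apply Finset.Subset.antisymm
    · exact Finset.union_subset hY₁ Finset.subset_union_right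
    · exact Finset.union_subset (Finset.subset_union_left.trans
        (hY₀.trans Finset.subset_union_left)) Finset.subset_union_right
  rw [h2] at h1
  -- decoupling
  have hctlJ : ∀ q, Ctrl ((ZK B Y k (b' - 1) \ ZK B Y k (t + 1) : Finset (Fin n)) :
      Set (Fin n)) (J (b' - 1)) (y q) := by
    intro q
    have h3 : y q ∈ Algebra.adjoin F (Set.range (J (b' - 1)) ∪
        X '' {y | y ∉ ZK B Y k (b' - 1)}) := by
      refine (Algebra.adjoin_le ?_) (hyr q)
      rintro _ ⟨i, rfl⟩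
      exact adjoin_chainK hJ.isupp hJ.stepm hZ (Nat.sub_le _ _) i
    refine (ctrl_of_adjoin h3).mono ?_
    intro y hy
    rw [Finset.mem_coe, Finset.mem_sdiff] at hy
    simpa using hy.1
  have h3 := hdec y P' hctlJ hP' hxb' (e' + eG) h1
  -- free the variables completed at the last step
  have h4 := hG (b' - 1) (Y ∪ ZK B Y k (b' - 1)) Finset.subset_union_left (hcK (b' - 1))
    (ZK B Y k b') y P'
    (fun q => by
      have := hctl (b' - 1) (by omega) q
      rwa [Nat.sub_add_cancel (by omega)] at this) hP'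
    (hxb'.mono Finset.subset_union_left le_rfl) e' h3
  have h5 : Y ∪ ZK B Y k (b' - 1) ∪ ZK B Y k b' = Y ∪ ZK B Y k b' := by
    rw [Finset.union_assoc]
    congr 1
    exact Finset.union_eq_right.2 (ZK_mono (Nat.sub_le _ _))
  rwa [h5] at h4

end rel

end Pool.Agent.W943
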