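import Mathlib
import Pool.Agent.W943.Ork2

/-!
The induction for programs reading every variable at most `k` times, over chains of primes which
lose one step under differentiation.
-/

set_option autoImplicit false

namespace Pool.Agent.W943

open MvPolynomial Module Pool.Agent.H530R2

universe v

variable {F : Type v} [Field F] [CharZero F] {𝔎 : FamO F}

theorem DecO.succ {k w s : ℕ} (hH : RelO 𝔎 k) (ih : DecO 𝔎 k w s) :
    DecO 𝔎 k w (s + 1) := by
  classical
  intro l k' u Q W r
  set l' := l + (l + Q) * l with hl'
  set k'' := k' + (l + Q) * k' with hk''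
  set u' := u + 𝔎.der u with hu'
  set W₀ := 𝔎.der W + 𝔎.c0 with hW₀
  set M := (l + Q).factorial * 𝔎.pg W₀ (l + Q) with hM
  have hM0 : 𝔎.c0 ≤ M := (𝔎.c0_le_pg W₀ (l + Q)).trans
    (Nat.le_mul_of_pos_left _ (Nat.factorial_pos _))
  set rμ := dtb (l + Q) (u + 𝔎.bd W) with hrμ
  obtain ⟨eA, hA⟩ := ih l k' u Q W r
  obtain ⟨eΔ, hdecΔ⟩ := ih l' k'' u' M M rμ
  obtain ⟨eH, hHe⟩ := hH.apply l' k'' u' M rμ
  obtain ⟨eF, hF⟩ := bfreeO hH l k' u Q W r
  obtain ⟨eG, hGf⟩ := bfreeO hH l' k'' u' M M rμ
  refine ⟨(eA + eF + (eH + eG + eΔ + eG)) + (l + Q) * r, ?_⟩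
  intro n V B Y hcnt p hp ι κ _ _ J inp hJ hreg hbd hl hk a' b hab hor E P hE hP hr j h0
  by_cases hA0 : a' = b ∨ w + 1 ≤ er (ZK B Y k a') (p b) + s
  · exact hA n V B Y hcnt p hp ι κ J inp hJ hreg hbd hl hk a' b hab hA0 E P hE hP hr j
      (V.O_mono (by omega) _ h0)
  push Not at hA0
  obtain ⟨hne, hlt⟩ := hA0
  have hrs : er (ZK B Y k a') (p b) + s = w := by
    rcases hor with h | h
    · exact absurd h hne
    · omega
  have hZ : ∀ c b, c ≤ b → ∀ i ∈ ZK B Y k c, i ∉ B b :=
    fun c b hcb i hi => ZK_not_mem hcnt hcb hi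
  have hcK : ∀ t i, i ∉ Y ∪ ZK B Y k t → cnt B t i ≤ k := by
    intro t i hi
    rw [Finset.mem_union, mem_ZK] at hi
    push Not at hi
    exact hi.2 hi.1
  set G : ι ⊕ Fin Q → MvPolynomial (Fin n) F := Sum.elim (J b) P with hG
  have hGcard : ∀ S : Finset (Fin n), er S G ≤ l + Q := by
    intro S
    have := er_le_card S G
    rw [Fintype.card_sum, Fintype.card_fin] at this
    omega
  have claim : ∀ d t : ℕ, t + d = b → a' ≤ t → ∀ j,
      ∑ q, E q * P q ∈ V.O (j + (eA + eF + (eH + eG + eΔ + eG)) +
        ((l + Q) - er (ZK B Y k t \ ZK B Y k a') G) * r)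
        (Y ∪ ZK B Y k t) → ∑ q, E q * P q ∈ V.O j (Y ∪ ZK B Y k b) := by
    intro d
    induction d with
    | zero =>
      intro t htb hat j h
      have : t = b := by omega
      subst this
      exact V.O_mono (by omega) _ h
    | succ d ihd =>
      intro t htb hat j h
      have hZt : ZK B Y k t ⊆ ZK B Y k (t + 1) := ZK_mono (Nat.le_succ t)
      by_cases hA' : t + 1 = b ∨ w + 1 ≤ er (ZK B Y k (t + 1)) (p b) + s
      · -- free the variables completed at time `t`
        have hctl : ∀ q, Ctrl ((ZK B Y k (t + 1) \ ZK B Y k t : Finset (Fin n)) : Set (Fin n))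
            (Sum.elim (J t) (inp t)) (E q) := by
          intro q
          refine Ctrl.trans (J' := J b) ?_ ((hE q).mono ?_)
          · intro i
            refine (ctrl_stepK hJ.isupp hJ.stepm hZ (show t + 1 ≤ b by omega)
              (Algebra.subset_adjoin ⟨i, rfl⟩)).mono ?_
            intro x hx
            rw [Finset.mem_coe, Finset.mem_sdiff] at hx
            exact hx.1
          · intro x hx
            rw [Finset.mem_coe, Finset.mem_sdiff] at hx ⊢
            exact ⟨ZK_mono (by omega) hx.1, fun hc => hx.2 (ZK_mono hat hc)⟩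
        have h1 : ∑ q, E q * P q ∈ V.O (j + eA) (Y ∪ ZK B Y k (t + 1)) := by
          have h2 := hF n V B ι κ J inp hreg hl hk t (Y ∪ ZK B Y k t) (hcK t)
            (fun t j => (hbd t j).mono Finset.subset_union_left le_rfl)
            (ZK B Y k (t + 1) \ ZK B Y k t) E P hctl hP
            (hr.mono Finset.subset_union_left le_rfl)
            (j + eA) (V.O_mono (by omega) _ h)
          rwa [Finset.union_assoc, Finset.union_sdiff_of_subset hZt] at h2
        refine hA n V B Y hcnt p hp ι κ J inp hJ hreg hbd hl hk (t + 1) b (by omega) hA' E P ?_ hP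
          hr j h1
        intro q
        refine (hE q).mono ?_
        intro x hx
        rw [Finset.mem_coe, Finset.mem_sdiff] at hx ⊢
        exact ⟨hx.1, fun hc => hx.2 (ZK_mono (by omega) hc)⟩
      push Not at hA'
      obtain ⟨htb1, hlt1⟩ := hA'
      have hge1 : er (ZK B Y k a') (p b) ≤ er (ZK B Y k (t + 1)) (p b) :=
        er_mono (ZK_mono (by omega)) _
      have her1 : er (ZK B Y k (t + 1)) (p b) + s = w := by omega
      -- minimal time with the same rank
      have hex : ∃ c, t + 1 < c ∧ er (ZK B Y k (t + 1)) (p c) + s ≤ w :=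
        ⟨b, by omega, by omega⟩
      set b' := Nat.find hex with hb'
      have hb'1 : t + 1 < b' := (Nat.find_spec hex).1
      have hb'2 : er (ZK B Y k (t + 1)) (p b') + s ≤ w := (Nat.find_spec hex).2
      have hb'b : b' ≤ b := Nat.find_min' hex ⟨by omega, by omega⟩
      have hb'3 : t + 1 = b' - 1 ∨ w + 1 ≤ er (ZK B Y k (t + 1)) (p (b' - 1)) + s := by
        by_cases h1 : t + 1 = b' - 1
        · exact Or.inl h1
        · right
          have h2 := Nat.find_min hex (m := b' - 1) (by omega)
          push Not at h2
          have := h2 (by omega)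
          omega
      clear_value b'
      have her2 : er (ZK B Y k (t + 1)) (p b') = er (ZK B Y k (t + 1)) (p b) := by
        have := hp b' b hb'b (ZK B Y k (t + 1)) (ZK_mono (by omega))
        omega
      set G' : ι ⊕ Fin Q → MvPolynomial (Fin n) F := Sum.elim (J b') P with hG'
      -- the inner induction over the completed variables
      have inner : ∀ T : Finset (Fin n), T ⊆ ZK B Y k (t + 1) \ ZK B Y k t →
          ∑ q, E q * P q ∈ V.O (j + (eA + eF + (eH + eG + eΔ + eG)) +
            ((l + Q) - er ((ZK B Y k t ∪ T) \ ZK B Y k a') G) * r)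
            (Y ∪ (ZK B Y k t ∪ T)) := by
        intro T
        induction T using Finset.induction_on with
        | empty =>
          intro _
          rw [Finset.union_empty]
          exact h
        | insert i0 T hi0T ihT =>
          intro hTB
          have ihT' := ihT (fun x hx => hTB (Finset.mem_insert_of_mem hx))
          have hi0B := Finset.mem_sdiff.1 (hTB (Finset.mem_insert_self _ _))
          have hTt : ∀ x ∈ T, x ∈ ZK B Y k (t + 1) := fun x hx =>
            (Finset.mem_sdiff.1 (hTB (Finset.mem_insert_of_mem hx))).1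
          have hi0Y : i0 ∉ Y := (mem_ZK.1 hi0B.1).1
          set S := (ZK B Y k t ∪ T) \ ZK B Y k a' with hS
          have hi0Z : i0 ∉ ZK B Y k t := hi0B.2
          have hi0Za : i0 ∉ ZK B Y k a' := fun hc => hi0Z (ZK_mono hat hc)
          have hS1 : (ZK B Y k t ∪ insert i0 T) \ ZK B Y k a' = insert i0 S := by
            rw [Finset.union_insert, Finset.insert_sdiff_of_notMem _ hi0Za]
          have hSt1 : insert i0 S ⊆ ZK B Y k (t + 1) := by
            intro x hx
            rw [Finset.mem_insert] at hx
            rcases hx with rfl | hx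
            · exact hi0B.1
            · rw [hS, Finset.mem_sdiff, Finset.mem_union] at hx
              rcases hx.1 with h3 | h3
              · exact hZt h3
              · exact hTt x h3
          have hSZ : S ⊆ Y ∪ (ZK B Y k t ∪ T) :=
            Finset.sdiff_subset.trans Finset.subset_union_right
          have hi0YZ : i0 ∉ Y ∪ (ZK B Y k t ∪ T) := by
            rw [Finset.mem_union, Finset.mem_union]
            exact fun hc => hc.elim hi0Y (fun hc => hc.elim hi0Z hi0T)
          have hZY : Y ∪ (ZK B Y k t ∪ insert i0 T) = insert i0 (Y ∪ (ZK B Y k t ∪ T)) := by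
            rw [Finset.union_insert, Finset.union_insert]
          have hcle := hGcard (insert i0 S)
          have hemono : er S G ≤ er (insert i0 S) G := er_mono (Finset.subset_insert _ _) _
          rw [hS1, hZY]
          by_cases hjump : er S G < er (insert i0 S) G
          · apply V.O_freeY Finset.subset_union_left hr
            refine V.O_mono ?_ _ ihT'
            have h5 : ((l + Q) - er (insert i0 S) G) * r + r ≤ ((l + Q) - er S G) * r := by
              have h6 : ((l + Q) - er (insert i0 S) G) * r + r =
                  ((l + Q) - er (insert i0 S) G + 1) * r := by ring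
              rw [h6]
              exact Nat.mul_le_mul_right _ (by omega)
            omega
          push Not at hjump
          -- a lossless step
          have hspeq : sp S G = sp (insert i0 S) G := by
            apply Submodule.eq_of_le_of_finrank_le
            · unfold sp
              apply Submodule.span_mono
              apply Set.image_mono
              exact_mod_cast Finset.subset_insert _ _
            · exact hjump
          have hB : dv G i0 ∈ sp S G := by
            rw [hspeq]
            exact Submodule.subset_span ⟨i0, by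
              rw [Finset.mem_coe]; exact Finset.mem_insert_self _ _, rfl⟩
          have hB' : dv G' i0 ∈ sp S G' := by
            refine dep_transfer ?_ hB
            intro γ hγ
            have h1 : ∀ i, ∑ x, γ x * pderiv x (J b i) = 0 := fun i => hγ.2 (Sum.inl i)
            have h2 := hJ.etale (t + 1) b' b (by omega) hb'b her2 γ
              (fun x hx => hγ.1 x (fun hc => hx (hSt1 hc))) h1
            rintro (i | q)
            · exact h2 i
            · exact hγ.2 (Sum.inr q)
          obtain ⟨ρ, κ', g, m, hρ, hκ, hμ0, hrel⟩ := cramer_rel hB'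
          set μ := (Matrix.of fun q l => pderiv (κ' q) (G' (g l))).det with hμ
          have hρ' : ρ ≤ l + Q := by
            rw [Fintype.card_sum, Fintype.card_fin] at hρ
            omega
          -- the minor does not vanish
          have hJ' := hJ.prol κ'
          have hreg' := hreg.prol κ'
          have hbd' := prol_bd hbd κ'
          have hcard' : Fintype.card (ι ⊕ Fin ρ × ι) ≤ l' := by
            rw [Fintype.card_sum, Fintype.card_prod, Fintype.card_fin]
            exact Nat.add_le_add hl (Nat.mul_le_mul hρ' hl)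
          have hcard'' : Fintype.card (κ ⊕ Fin ρ × κ) ≤ k'' := by
            rw [Fintype.card_sum, Fintype.card_prod, Fintype.card_fin]
            exact Nat.add_le_add hk (Nat.mul_le_mul hρ' hk)
          have ht1b : t + 1 ≤ b' - 1 := by omega
          have hle3 : eH + eG + eΔ + eG ≤ j + (eA + eF + (eH + eG + eΔ + eG)) +
              ((l + Q) - er S G) * r := by omega
          have hμb : BdY Y rμ μ := by
            intro x hx
            refine Bdl.det hρ' fun q l => ?_
            simp only [Matrix.of_apply, hG']
            rcases g l with i | i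
            · exact ((hbd b' i x hx).pd _).mono (by omega)
            · exact ((𝔎.bd_mem (hP i) x).pd _).mono (by omega)
          have hnon : μ ∉ V.O (j + (eA + eF + (eH + eG + eΔ + eG)) +
              ((l + Q) - er S G) * r) (Y ∪ (ZK B Y k t ∪ T)) := by
            intro hmem
            apply hμ0
            have hrep : RepO 𝔎 (Algebra.adjoin F (Set.range (prol κ' J b'))) M μ := by
              refine RepO.det hρ' fun q q' => ?_
              simp only [Matrix.of_apply, hG']
              rcases g q' with i | r
              · refine RepO.ofRing (by omega) ?_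
                exact Algebra.subset_adjoin ⟨Sum.inr (q, i), rfl⟩
              · exact RepO.ofMem (𝔎.c0_pos.trans (by omega))
                  (𝔎.mono (by omega) (𝔎.der_mem (κ' q) (hP r)))
            refine brep_zeroO V hcnt hJ' hb'1 hM0 (Finset.union_subset_union_right
                Finset.subset_union_left) ?_
              (fun E P => hdecΔ n V B Y hcnt p hp _ _ _ _ hJ' hreg'
                (fun t j => (hbd' t j).mono le_rfl (Nat.le_add_right _ _)) hcard' hcard'' (t + 1)
                (b' - 1) ht1b hb'3 E P)
              (fun R Y' hY' hc => hHe n V B _ _ _ _ hreg' hcard' hcard'' R Y' hc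
                (fun t j => (hbd' t j).mono hY' (Nat.le_add_right _ _)))
              (fun t Y' hY' hc => hGf n V B _ _ _ _ hreg' hcard' hcard'' t Y' hc
                (fun t j => (hbd' t j).mono hY' (Nat.le_add_right _ _))) hrep hμb
              (V.O_mono hle3 _ hmem)
            refine Finset.union_subset_union_right (Finset.union_subset hZt hTt)
          -- the differential relation
          have hE' : ∀ q, Ctrl ((insert i0 S : Finset (Fin n)) : Set (Fin n)) (J b') (E q) := by
            intro q
            have hsub : ((insert i0 S : Finset (Fin n)) : Set (Fin n)) ⊆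
                ((ZK B Y k b \ ZK B Y k a' : Finset (Fin n)) : Set (Fin n)) := by
              rw [← hS1]
              intro x hx
              have hx1 := hSt1 (by rw [← hS1]; exact Finset.mem_coe.1 hx)
              rw [Finset.mem_coe, Finset.mem_sdiff] at hx ⊢
              exact ⟨ZK_mono (by omega) hx1, hx.2⟩
            refine Ctrl.trans (J' := J b) ?_ ((hE q).mono hsub)
            intro i
            refine (ctrl_chainK hJ.isupp hJ.stepm hZ hb'b i).mono ?_
            intro x hx
            exact_mod_cast ZK_mono (by omega) (hSt1 (Finset.mem_coe.1 hx))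
          have hpde := ctrl_pde (ctrl_comb (P := P) hE') (by
              rw [Finset.mem_coe]; exact Finset.mem_insert_self _ _)
            (fun q => by rw [Finset.mem_coe]; exact Finset.mem_insert_of_mem (hκ q)) hrel
          have h8 := V.O_lossless (fun q => hSZ (hκ q)) hpde ihT' hnon
          refine V.O_mono ?_ _ h8
          have h5 : ((l + Q) - er (insert i0 S) G) * r ≤ ((l + Q) - er S G) * r :=
            Nat.mul_le_mul_right _ (by omega)
          omega
      have h9 := inner (ZK B Y k (t + 1) \ ZK B Y k t) le_rfl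
      rw [Finset.union_sdiff_of_subset hZt] at h9
      exact ihd (t + 1) (by omega) (by omega) j h9
  refine claim (b - a') a' (by omega) le_rfl j ?_
  refine V.O_mono ?_ _ h0
  have h5 : ((l + Q) - er (ZK B Y k a' \ ZK B Y k a') G) * r ≤ (l + Q) * r :=
    Nat.mul_le_mul_right _ (by omega)
  omega

theorem DecO.all {k : ℕ} (hH : RelO 𝔎 k) (w s : ℕ) : DecO 𝔎 k w s := by
  induction s with
  | zero => exact DecO.zero k w
  | succ s ih => exact DecO.succ hH ih

theorem RelO.zero (𝔎 : FamO F) : RelO 𝔎 0 := by
  classical
  intro Q W r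
  obtain ⟨e, he⟩ := 𝔎.seeds (𝔎.dg (𝔎.der W) Q)
  refine ⟨e + Q * r, ?_⟩
  intro n V B p inp hreg R Y hcnt hbd E P hE hP hr h
  have hE' : ∀ q, E q ∈ supported F (Y : Set (Fin n)) := by
    intro q
    refine (Algebra.adjoin_le ?_) (hE q)
    rintro x (⟨i, rfl⟩ | ⟨i, hi, rfl⟩)
    · exact hreg.supp hcnt le_rfl i
    · exact X_mem_supported.2 hi
  have hctl : Ctrl (((Finset.univ \ Y : Finset (Fin n))) : Set (Fin n)) P (∑ q, E q * P q) := by
    refine ⟨E, ?_⟩
    intro k hk
    rw [Finset.mem_coe, Finset.mem_sdiff] at hk
    rw [map_sum]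
    apply Finset.sum_congr rfl
    intro q _
    have h1 : pderiv k (E q) = 0 := by
      apply pderiv_eq_zero_of_notMem_vars
      intro hc
      exact hk.2 (by exact_mod_cast (mem_supported.1 (hE' q)) (Finset.mem_coe.2 hc))
    rw [pderiv_mul, h1, zero_mul, zero_add]
  have h1 : ∑ q, E q * P q ∈ V.O 0 (Y ∪ (Finset.univ \ Y)) := by
    refine V.free_blockO hctl (b := r) hr (r := Q) (e := e) (by rw [Fintype.card_fin]) ?_
      (by rw [zero_add]; exact h)
    intro ρ κ g' hρ hdet Y' _ hY'
    apply hdet
    exact he n V _ (FamO.det_mem hρ fun q l => 𝔎.der_mem _ (hP _)) Y' hY'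
  refine V.O_supp ?_ h1
  rw [Finset.union_sdiff_of_subset (Finset.subset_univ _), Finset.coe_univ, supported_univ]
  trivial

theorem RelO.succ {k : ℕ} (hH : RelO 𝔎 k) : RelO 𝔎 (k + 1) := by
  classical
  intro Q W r
  obtain ⟨e, he⟩ := DecO.all hH (W + 𝔎.c0) (W + 𝔎.c0 + 1) (W + 𝔎.c0) (W + 𝔎.c0) (W + 𝔎.c0)
    Q (W + 𝔎.c0) r
  obtain ⟨eH, hHe⟩ := hH Q (W + 𝔎.c0) r
  refine ⟨eH + e, ?_⟩
  intro n V B₀ p₀ inp₀ hreg₀ R Y hcnt₀ hbd₀ E P hE hP hr h
  -- pad and truncate
  obtain ⟨p₁, inp₁, hreg₁, hbd₁, hr₁⟩ := hreg₀.toFin (w := W + 𝔎.c0)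
    (fun t j => (hbd₀ t j).mono le_rfl (Nat.le_add_right _ _)) (by omega)
    (by rw [Fintype.card_fin]; omega) (by rw [Fintype.card_fin]; omega) (by omega)
  have hreg := hreg₁.trunc (by omega) R
  set B : ℕ → Finset (Fin n) := fun t => if t < R then B₀ t else ∅ with hB
  set p := fun t => p₁ (min t R) with hp
  set inp : ℕ → Fin (W + 𝔎.c0) → MvPolynomial (Fin n) F :=
    fun t => if t < R then inp₁ t else 0 with hinp
  have hbd : ∀ t j, BdY Y (W + 𝔎.c0) (p t j) := fun t j => hbd₁ (min t R) j
  have hcnt : ∀ i, i ∉ Y → ∀ t, cnt B t i ≤ k + 1 :=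
    fun i hi t => (cnt_trunc B₀ R t i).trans (hcnt₀ i hi)
  have hpR : p R = p₁ R := by simp only [hp, min_self]
  have hE₁ : ∀ q, E q ∈ Algebra.adjoin F (Set.range (p R) ∪ X '' (Y : Set (Fin n))) := by
    intro q
    rw [hpR]
    exact Algebra.adjoin_mono (Set.union_subset_union_left _ (hr₁ R)) (hE q)
  have hZ : ∀ c b, c ≤ b → ∀ i ∈ ZK B Y k c, i ∉ B b :=
    fun c b hcb i hi => ZK_not_mem hcnt hcb hi
  have hsys : SysK B (ZK B Y k) p p inp := SysK.base hreg.isupp hreg.stepm hZ
    (fun c b hcb => ZK_mono hcb)
  have hanti : ∀ c b, c ≤ b → ∀ S : Finset (Fin n), S ⊆ ZK B Y k c →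
      er S (p b) ≤ er S (p c) := by
    intro c b hcb S hS
    exact er_anti' (fun i => ctrl_chainK hreg.isupp hreg.stepm hZ hcb i) (by exact_mod_cast hS)
  have hctrl : ∀ q, Ctrl ((ZK B Y k R \ ZK B Y k 0 : Finset (Fin n)) : Set (Fin n))
      (p R) (E q) := by
    intro q
    refine (ctrl_of_adjoin (W := (Y : Set (Fin n))) (hE₁ q)).mono ?_
    intro x hx
    rw [Finset.mem_coe, Finset.mem_sdiff, mem_ZK] at hx
    exact hx.1.1
  have hcard : Fintype.card (Fin (W + 𝔎.c0)) ≤ W + 𝔎.c0 := by rw [Fintype.card_fin]
  have h0 : Y ∪ ZK B Y k 0 = Y := by rw [ZK_zero, Finset.union_empty]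
  have h1 : ∑ q, E q * P q ∈ V.O eH (Y ∪ ZK B Y k R) := by
    refine he n V B Y hcnt p hanti _ _ p inp hsys hreg hbd hcard hcard 0 R (Nat.zero_le _)
      (Or.inr (by omega)) E P hctrl (fun q => 𝔎.mono (Nat.le_add_right _ _) (hP q)) hr eH ?_
    rw [h0]
    exact h
  refine hHe n V B p inp hreg R (Y ∪ ZK B Y k R) ?_
    (fun t j => (hbd t j).mono Finset.subset_union_left le_rfl) E P (fun q => ?_)
    (fun q => 𝔎.mono (Nat.le_add_right _ _) (hP q)) (hr.mono Finset.subset_union_left le_rfl) h1
  · intro i hi
    rw [Finset.mem_union, mem_ZK] at hi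
    push Not at hi
    exact hi.2 hi.1
  · refine Algebra.adjoin_mono (Set.union_subset_union_right _ (Set.image_mono ?_)) (hE₁ q)
    rw [Finset.coe_union]
    exact Set.subset_union_left

/-- Combinations of outputs of programs reading every variable outside the free set at most `k`
times, with coefficients in the class, are not in the ideals. -/
theorem RelO.all (𝔎 : FamO F) (k : ℕ) : RelO 𝔎 k := by
  induction k with
  | zero => exact RelO.zero 𝔎
  | succ k ih => exact RelO.succ ih

end Pool.Agent.W943
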