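import Mathlib
import Pool.Agent.W943.Ork3

/-!
The next family: outputs of programs reading every variable boundedly often, with contents of
bounded rank.
-/

set_option autoImplicit false

namespace Pool.Agent.W943

open MvPolynomial Module Pool.Agent.H530R2

universe v

section next

variable {F : Type v} [Field F] (𝔎 : FamO F) {n : ℕ}

/-- outputs of programs with at most `W` reads of every variable, up to `W` exceptional
variables, with contents of bounded rank -/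
def OutO (n W : ℕ) : Set (MvPolynomial (Fin n) F) :=
  {f | ∃ (B : ℕ → Finset (Fin n)) (p inp : ℕ → Fin (W + 𝔎.c0) → MvPolynomial (Fin n) F) (R : ℕ),
    RegO 𝔎 B (W + 𝔎.c0) p inp ∧ (∀ t j, BdY ∅ (W + 𝔎.c0) (p t j)) ∧
    (∃ S : Finset (Fin n), S.card ≤ W ∧ ∀ i, i ∉ S → ∀ t, cnt B t i ≤ W) ∧
    f ∈ Algebra.adjoin F (Set.range (p R)) ∧ BdY ∅ W f}

variable {𝔎}

theorem OutO.ofReg {W : ℕ} {B : ℕ → Finset (Fin n)} {u : ℕ} {τ κ : Type} [Fintype τ] [Fintype κ]
    {p : ℕ → τ → MvPolynomial (Fin n) F} {inp : ℕ → κ → MvPolynomial (Fin n) F}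
    (h : RegO 𝔎 B u p inp) (hbd : ∀ t j, BdY ∅ (W + 𝔎.c0) (p t j)) (hu : u ≤ W + 𝔎.c0)
    (hτ : Fintype.card τ ≤ W + 𝔎.c0)
    (hκ : Fintype.card κ ≤ W + 𝔎.c0)
    (hB : ∃ S : Finset (Fin n), S.card ≤ W ∧ ∀ i, i ∉ S → ∀ t, cnt B t i ≤ W) {R : ℕ}
    {f : MvPolynomial (Fin n) F} (hf : f ∈ Algebra.adjoin F (Set.range (p R)))
    (hfb : BdY ∅ W f) :
    f ∈ OutO 𝔎 n W := by
  obtain ⟨p', inp', hp', hb', hr⟩ := h.toFin hbd hu hτ hκ (Nat.le_add_left _ _)
  exact ⟨B, p', inp', R, hp', hb', hB, Algebra.adjoin_mono (hr R) hf, hfb⟩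

theorem OutO.mono {W W' : ℕ} (hW : W ≤ W') : OutO 𝔎 n W ⊆ OutO 𝔎 n W' := by
  rintro f ⟨B, p, inp, R, h, hbd, ⟨S, hS, hB⟩, hf, hfb⟩
  exact OutO.ofReg h (fun t j => (hbd t j).mono le_rfl (by omega)) (by omega)
    (by rw [Fintype.card_fin]; omega)
    (by rw [Fintype.card_fin]; omega) ⟨S, hS.trans hW, fun i hi t => (hB i hi t).trans hW⟩ hf
    (hfb.mono le_rfl hW)

theorem OutO.comb {W k r : ℕ} {ι : Type} [Fintype ι] {g : ι → MvPolynomial (Fin n) F}
    {f : MvPolynomial (Fin n) F} (hι : Fintype.card ι ≤ k) (hg : ∀ i, g i ∈ OutO 𝔎 n W)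
    (hf : f ∈ Algebra.adjoin F (Set.range g)) (hr : BdY ∅ r f) :
    f ∈ OutO 𝔎 n (k * (W + 𝔎.c0) + W + r) := by
  classical
  choose B p inp R h hbd hBS hgp _ using hg
  choose S hS hB using hBS
  have ht : ∀ j, RegO 𝔎 (fun t => if t < R j then B j t else ∅) (W + 𝔎.c0)
      (fun t => p j (min t (R j))) (fun t => if t < R j then inp j t else 0) :=
    fun j => (h j).trunc (Nat.le_add_left _ _) (R j)
  have hreg : RegO 𝔎 (fun t => Finset.univ.biUnion fun j : ι => if t < R j then B j t else ∅)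
      (W + 𝔎.c0) (fun t (x : ι × Fin (W + 𝔎.c0)) => p x.1 (min t (R x.1)) x.2)
      (fun t (x : ι × Fin (W + 𝔎.c0)) => (if t < R x.1 then inp x.1 t else 0) x.2) := by
    refine ⟨fun x => (ht x.1).init x.2, fun b x => (ht x.1).imem b x.2, fun b x => ?_,
      fun b x => ?_⟩
    · refine supported_mono ?_ ((ht x.1).isupp b x.2)
      exact_mod_cast Finset.subset_biUnion_of_mem
        (fun j : ι => if b < R j then B j b else ∅) (Finset.mem_univ x.1)
    · refine Algebra.adjoin_mono ?_ ((ht x.1).stepm b x.2)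
      apply Set.union_subset_union
      · rintro _ ⟨i, rfl⟩
        exact ⟨(x.1, i), rfl⟩
      · rintro _ ⟨i, rfl⟩
        exact ⟨(x.1, i), rfl⟩
  have hcard : Fintype.card (ι × Fin (W + 𝔎.c0)) ≤ k * (W + 𝔎.c0) + W + r + 𝔎.c0 := by
    rw [Fintype.card_prod, Fintype.card_fin]
    have := Nat.mul_le_mul_right (W + 𝔎.c0) hι
    omega
  have hle : Fintype.card ι * W ≤ k * (W + 𝔎.c0) :=
    Nat.mul_le_mul hι (Nat.le_add_right _ _)
  refine OutO.ofReg hreg (fun t x => (hbd x.1 _ x.2).mono le_rfl (by omega)) (by omega)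
    hcard hcard ?_ (R := ∑ j, R j) ?_ (hr.mono le_rfl (by omega))
  · refine ⟨Finset.univ.biUnion S, ?_, fun i hi t => ?_⟩
    · refine Finset.card_biUnion_le.trans ?_
      calc ∑ j, (S j).card ≤ ∑ _j : ι, W := Finset.sum_le_sum fun j _ => hS j
        _ = Fintype.card ι * W := by rw [Finset.sum_const, Finset.card_univ, smul_eq_mul]
        _ ≤ k * (W + 𝔎.c0) + W + r := by omega
    have h1 : cnt (fun t => Finset.univ.biUnion fun j : ι => if t < R j then B j t else ∅) t i ≤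
        ∑ j, cnt (fun t => if t < R j then B j t else ∅) t i := by
      unfold cnt
      refine (Finset.card_le_card ?_).trans Finset.card_biUnion_le
      intro t' ht'
      rw [Finset.mem_filter, Finset.mem_biUnion] at ht'
      obtain ⟨ht1, j, hj, ht2⟩ := ht'
      rw [Finset.mem_biUnion]
      exact ⟨j, hj, Finset.mem_filter.2 ⟨ht1, ht2⟩⟩
    refine h1.trans ?_
    calc ∑ j, cnt (fun t => if t < R j then B j t else ∅) t i ≤ ∑ _j : ι, W := by
          apply Finset.sum_le_sum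
          intro j _
          refine (cnt_trunc (B j) (R j) t i).trans (hB j i (fun hc => hi ?_) _)
          exact Finset.mem_biUnion.2 ⟨j, Finset.mem_univ j, hc⟩
      _ = Fintype.card ι * W := by rw [Finset.sum_const, Finset.card_univ, smul_eq_mul]
      _ ≤ k * (W + 𝔎.c0) + W + r := by omega
  · refine (Algebra.adjoin_le ?_) hf
    rintro _ ⟨j, rfl⟩
    refine Algebra.adjoin_mono ?_ (hgp j)
    rintro _ ⟨i, rfl⟩
    refine ⟨(j, i), ?_⟩
    have h1 : R j ≤ ∑ j, R j := Finset.single_le_sum (fun _ _ => Nat.zero_le _) (Finset.mem_univ j)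
    simp only [min_eq_right h1]

theorem OutO.bdd {W : ℕ} {f : MvPolynomial (Fin n) F} (hf : f ∈ OutO 𝔎 n W) (i : Fin n) :
    Bdl i W f := by
  obtain ⟨B, p, inp, R, h, hbd, hS, hf, hfb⟩ := hf
  exact hfb i (Finset.notMem_empty i)

/-- the parameter of sums -/
def oad (𝔎 : FamO F) (W W' : ℕ) : ℕ := 2 * (W + W' + 𝔎.c0) + (W + W') + (W + W')

/-- the parameter of products -/
def oml (𝔎 : FamO F) (W W' : ℕ) : ℕ := 2 * (W + W' + 𝔎.c0) + (W + W') + W * W'

theorem OutO.add {W W' : ℕ} {f g : MvPolynomial (Fin n) F} (hf : f ∈ OutO 𝔎 n W)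
    (hg : g ∈ OutO 𝔎 n W') : f + g ∈ OutO 𝔎 n (oad 𝔎 W W') := by
  refine OutO.comb (ι := Bool) (k := 2) (W := W + W') (r := W + W')
    (g := fun b => if b then f else g) (by simp) ?_ ?_ ?_
  · intro b
    cases b
    · simpa using OutO.mono (Nat.le_add_left _ _) hg
    · simpa using OutO.mono (Nat.le_add_right _ _) hf
  · exact Subalgebra.add_mem _ (Algebra.subset_adjoin ⟨true, rfl⟩)
      (Algebra.subset_adjoin ⟨false, rfl⟩)
  · exact fun i _ => (OutO.bdd hf i).addO (OutO.bdd hg i)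

theorem OutO.mul {W W' : ℕ} {f g : MvPolynomial (Fin n) F} (hf : f ∈ OutO 𝔎 n W)
    (hg : g ∈ OutO 𝔎 n W') : f * g ∈ OutO 𝔎 n (oml 𝔎 W W') := by
  refine OutO.comb (ι := Bool) (k := 2) (W := W + W') (r := W * W')
    (g := fun b => if b then f else g) (by simp) ?_ ?_ ?_
  · intro b
    cases b
    · simpa using OutO.mono (Nat.le_add_left _ _) hg
    · simpa using OutO.mono (Nat.le_add_right _ _) hf
  · exact Subalgebra.mul_mem _ (Algebra.subset_adjoin ⟨true, rfl⟩)
      (Algebra.subset_adjoin ⟨false, rfl⟩)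
  · exact fun i _ => (OutO.bdd hf i).mul (OutO.bdd hg i)

theorem OutO.der {W : ℕ} (k : Fin n) {f : MvPolynomial (Fin n) F} (hf : f ∈ OutO 𝔎 n W) :
    pderiv k f ∈ OutO 𝔎 n (2 * (W + 𝔎.c0) + 𝔎.der (W + 𝔎.c0)) := by
  obtain ⟨B, p, inp, R, h, hbd, ⟨S, hS, hB⟩, hf, hfb⟩ := hf
  have hcard : Fintype.card (Fin (W + 𝔎.c0) ⊕ Fin 1 × Fin (W + 𝔎.c0)) ≤
      2 * (W + 𝔎.c0) + 𝔎.der (W + 𝔎.c0) + 𝔎.c0 := by
    rw [Fintype.card_sum, Fintype.card_prod, Fintype.card_fin, Fintype.card_fin]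
    omega
  refine OutO.ofReg (h.prol (fun _ : Fin 1 => k))
    (fun t j => (prol_bd hbd (fun _ : Fin 1 => k) t j).mono le_rfl (by omega)) (by omega)
    hcard hcard
    ⟨S, hS.trans (by omega), fun i hi t => (hB i hi t).trans (by omega)⟩ (R := R) ?_ ?_
  · refine pderiv_mem_of_adjoin k ?_ ?_ hf
    · rintro _ ⟨i, rfl⟩
      exact Algebra.subset_adjoin ⟨Sum.inl i, rfl⟩
    · rintro _ ⟨i, rfl⟩
      exact Algebra.subset_adjoin ⟨Sum.inr (0, i), rfl⟩
  · exact fun i hi => ((hfb i hi).pd k).mono (by omega)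

theorem OutO.const (c : F) : (C c : MvPolynomial (Fin n) F) ∈ OutO 𝔎 n 1 := by
  have hreg : RegO 𝔎 (fun _ => (∅ : Finset (Fin n))) (1 + 𝔎.c0)
      (fun _ (_ : Unit) => (C c : MvPolynomial (Fin n) F)) (fun _ (_ : Unit) => 0) := by
    refine ⟨fun _ => ⟨c, rfl⟩, fun b _ => ?_, fun b _ => Subalgebra.zero_mem _, fun b _ => ?_⟩
    · exact 𝔎.zero (Nat.le_add_left _ _)
    · exact Subalgebra.algebraMap_mem _ c
  have hc : Fintype.card Unit ≤ 1 + 𝔎.c0 := by
    rw [Fintype.card_unit]; omega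
  refine OutO.ofReg hreg (fun t j i _ => (Bdl.const c).mono (by omega)) le_rfl hc hc
    ⟨∅, by simp, fun i _ t => ?_⟩ (R := 0) (Subalgebra.algebraMap_mem _ c)
    (fun i _ => Bdl.const c)
  simp [cnt]

theorem DChain.free_setO [CharZero F] (V : DChain F n) {f : MvPolynomial (Fin n) F} {r : ℕ}
    (hf : BdY ∅ r f) (S : Finset (Fin n)) :
    ∀ (m : ℕ) (Y : Finset (Fin n)), f ∈ V.O (m + S.card * r) Y → f ∈ V.O m (Y ∪ S) := by
  classical
  induction S using Finset.induction_on with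
  | empty => intro m Y h; simpa using h
  | insert i S hi ih =>
    intro m Y h
    rw [Finset.card_insert_of_notMem hi] at h
    have h1 := ih (m + r) Y (by rw [show m + r + S.card * r = m + (S.card + 1) * r by ring]; exact h)
    rw [Finset.union_insert]
    exact V.O_freeY (Finset.empty_subset _) hf i h1

theorem OutO.seeds [CharZero F] (𝔎 : FamO F) (W : ℕ) : ∃ m : ℕ, ∀ (n : ℕ) (V : DChain F n),
    ∀ f ∈ OutO 𝔎 n W, ∀ Y : Finset (Fin n), f ∈ V.O m Y → f = 0 := by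
  obtain ⟨m, hm⟩ := RelO.all 𝔎 W 1 (W + 𝔎.c0) W
  refine ⟨m + W * W, ?_⟩
  rintro n V f ⟨B, p, inp, R, h, hbd, ⟨S, hS, hB⟩, hf, hfb⟩ Y hmem
  have hmem' := V.free_setO hfb S m Y (V.O_mono
    (Nat.add_le_add_left (Nat.mul_le_mul_right W hS) m) _ hmem)
  have h1 := hm n V B p inp h R (Y ∪ S)
    (fun i hi => hB i (fun hc => hi (Finset.mem_union_right _ hc)) R)
    (fun t j => (hbd t j).mono (Finset.empty_subset _) le_rfl) (fun _ => f) (fun _ => C 1)
    (fun _ => Algebra.adjoin_mono Set.subset_union_left hf)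
    (fun _ => 𝔎.const (Nat.le_add_left _ _) 1) (by
      rw [Fin.sum_univ_one, C_1, mul_one]
      exact hfb.mono (Finset.empty_subset _) le_rfl) (by
      rw [Fin.sum_univ_one, C_1, mul_one]; exact hmem')
  rwa [Fin.sum_univ_one, C_1, mul_one] at h1

/-- the next family -/
def FamO.next [CharZero F] (𝔎 : FamO F) : FamO F where
  K := OutO 𝔎
  mono := OutO.mono
  cc := 1
  const_mem := OutO.const
  ad := oad 𝔎
  add_mem := OutO.add
  ml := oml 𝔎
  mul_mem := OutO.mul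
  der W := 2 * (W + 𝔎.c0) + 𝔎.der (W + 𝔎.c0)
  der_mem := fun k _ hf => OutO.der k hf
  bd W := W
  bd_mem := fun hf i => OutO.bdd hf i
  seeds := OutO.seeds 𝔎

theorem FamO.toNext [CharZero F] (𝔎 : FamO F) {W W' : ℕ} (hW : W ≤ W') (hW' : 1 ≤ W')
    (hW'' : 𝔎.bd W ≤ W')
    {f : MvPolynomial (Fin n) F} (hf : f ∈ 𝔎.K n W) : f ∈ (𝔎.next).K n W' := by
  classical
  have hreg : RegO 𝔎 (fun t => if t = 0 then (Finset.univ : Finset (Fin n)) else ∅)
      (W + 𝔎.c0) (fun t (_ : Unit) => if t = 0 then 0 else f)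
      (fun t (_ : Unit) => if t = 0 then f else 0) := by
    refine ⟨fun _ => ⟨0, by simp⟩, fun b _ => ?_, fun b _ => ?_, fun b _ => ?_⟩
    · split_ifs
      · exact 𝔎.mono (Nat.le_add_right _ _) hf
      · exact 𝔎.zero (Nat.le_add_left _ _)
    · split_ifs
      · rw [Finset.coe_univ, supported_univ]
        trivial
      · exact Subalgebra.zero_mem _
    · rw [if_neg (Nat.succ_ne_zero b)]
      by_cases hb : b = 0
      · subst hb
        exact Algebra.subset_adjoin (Or.inr ⟨(), by simp⟩)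
      · exact Algebra.subset_adjoin (Or.inl ⟨(), by simp [hb]⟩)
  have hc : Fintype.card Unit ≤ W' + 𝔎.c0 := by
    rw [Fintype.card_unit]; omega
  have hfb : ∀ i, Bdl i W' f := fun i => (𝔎.bd_mem hf i).mono hW''
  refine OutO.ofReg hreg (fun t _ i _ => ?_) (by omega) hc hc ?_ (R := 1)
    (Algebra.subset_adjoin ⟨(), by simp⟩) (fun i _ => hfb i)
  · split_ifs
    · exact Bdl.zero.mono (Nat.zero_le _)
    · exact (hfb i).mono (by omega)
  refine ⟨∅, by simp, fun i _ t => ?_⟩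
  refine le_trans ?_ hW'
  unfold cnt
  calc _ ≤ ({0} : Finset ℕ).card := by
        apply Finset.card_le_card
        intro t' ht'
        rw [Finset.mem_filter] at ht'
        by_contra hne
        rw [Finset.mem_singleton] at hne
        have h2 := ht'.2
        simp [hne] at h2
    _ = 1 := Finset.card_singleton _

end next

end Pool.Agent.W943
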