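import Mathlib
import Pool.Agent.W943.Ork4

/-!
The base family: sums of few products of univariate polynomials and polynomials of low degree; the
contents of linear programs are of bounded rank.
-/

set_option autoImplicit false

namespace Pool.Agent.W943

open MvPolynomial Module Pool.Agent.H530R2

universe v

section base

variable {F : Type v} [Field F] {n : ℕ}

/-- products of at most `W` univariate polynomials -/
def Uni (n W : ℕ) : Set (MvPolynomial (Fin n) F) :=
  {u | ∃ l : List (Fin n × Polynomial F), l.length ≤ W ∧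
    u = (l.map fun x => Polynomial.aeval (X x.1 : MvPolynomial (Fin n) F) x.2).prod}

/-- polynomials of degree at most `W` -/
def Low (n W : ℕ) : Set (MvPolynomial (Fin n) F) := {g | g.totalDegree ≤ W}

/-- the base classes -/
def BaseK (n W : ℕ) : Set (MvPolynomial (Fin n) F) := {f | SP (Uni n W) (Low n W) W f}

theorem Uni.mono {W W' : ℕ} (h : W ≤ W') : (Uni n W : Set (MvPolynomial (Fin n) F)) ⊆ Uni n W' := by
  rintro u ⟨l, hl, rfl⟩
  exact ⟨l, hl.trans h, rfl⟩

theorem Low.mono {W W' : ℕ} (h : W ≤ W') : (Low n W : Set (MvPolynomial (Fin n) F)) ⊆ Low n W' :=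
  fun _ hg => le_trans hg h

theorem BaseK.mono {W W' : ℕ} (h : W ≤ W') :
    (BaseK n W : Set (MvPolynomial (Fin n) F)) ⊆ BaseK n W' :=
  fun _ hf => SP.mono hf h (Uni.mono h) (Low.mono h)

theorem Uni.mul {W W' : ℕ} {u u' : MvPolynomial (Fin n) F} (h : u ∈ Uni n W) (h' : u' ∈ Uni n W') :
    u * u' ∈ Uni n (W + W') := by
  obtain ⟨l, hl, rfl⟩ := h
  obtain ⟨l', hl', rfl⟩ := h'
  refine ⟨l ++ l', ?_, ?_⟩
  · rw [List.length_append]; omega
  · rw [List.map_append, List.prod_append]

/-- the factors in one variable collected -/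
theorem uni_split (l : List (Fin n × Polynomial F)) (k : Fin n) :
    ∃ (P : Polynomial F) (l' : List (Fin n × Polynomial F)), l'.length ≤ l.length ∧
      (∀ x ∈ l', x.1 ≠ k ∧ x ∈ l) ∧
      (l.map fun x => Polynomial.aeval (X x.1 : MvPolynomial (Fin n) F) x.2).prod =
        Polynomial.aeval (X k) P *
          (l'.map fun x => Polynomial.aeval (X x.1 : MvPolynomial (Fin n) F) x.2).prod := by
  induction l with
  | nil => exact ⟨1, [], le_rfl, by simp, by simp⟩
  | cons a l ih =>
    obtain ⟨P, l', hl, hne, heq⟩ := ih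
    by_cases ha : a.1 = k
    · refine ⟨a.2 * P, l', ?_, fun x hx => ⟨(hne x hx).1, List.mem_cons_of_mem _ (hne x hx).2⟩, ?_⟩
      · rw [List.length_cons]; omega
      · rw [List.map_cons, List.prod_cons, heq, map_mul, ha]
        ring
    · refine ⟨P, a :: l', ?_, ?_, ?_⟩
      · rw [List.length_cons, List.length_cons]; omega
      · intro x hx
        rcases List.mem_cons.1 hx with rfl | hx
        · exact ⟨ha, List.mem_cons_self⟩
        · exact ⟨(hne x hx).1, List.mem_cons_of_mem _ (hne x hx).2⟩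
      · rw [List.map_cons, List.prod_cons, heq, List.map_cons, List.prod_cons]
        ring

theorem uni_free {l : List (Fin n × Polynomial F)} {k : Fin n} (h : ∀ x ∈ l, x.1 ≠ k) :
    (l.map fun x => Polynomial.aeval (X x.1 : MvPolynomial (Fin n) F) x.2).prod ∈
      supported F {l : Fin n | l ≠ k} := by
  refine Subalgebra.list_prod_mem _ ?_
  intro y hy
  obtain ⟨x, hx, rfl⟩ := List.mem_map.1 hy
  have h3 : (X x.1 : MvPolynomial (Fin n) F) ∈ supported F {l : Fin n | l ≠ k} :=
    X_mem_supported.2 (h x hx)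
  exact (Algebra.adjoin_le (S := supported F {l : Fin n | l ≠ k}) (by simpa using h3))
    (Polynomial.aeval_mem_adjoin_singleton F _)

theorem Uni.pd {W : ℕ} {u : MvPolynomial (Fin n) F} (h : u ∈ Uni n W) (k : Fin n) :
    pderiv k u ∈ Uni n (W + 1) := by
  obtain ⟨l, hl, rfl⟩ := h
  obtain ⟨P, l', hl', hne, heq⟩ := uni_split l k
  refine ⟨(k, Polynomial.derivative P) :: l', ?_, ?_⟩
  · rw [List.length_cons]; omega
  · rw [heq, pderiv_mul, pderiv_supported_ne (uni_free fun x hx => (hne x hx).1), mul_zero,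
      add_zero, pderiv_aeval_X, List.map_cons, List.prod_cons]

theorem Uni.bdl {W : ℕ} {u : MvPolynomial (Fin n) F} (h : u ∈ Uni n W) (k : Fin n) :
    Bdl k 1 u := by
  obtain ⟨l, hl, rfl⟩ := h
  obtain ⟨P, l', hl', hne, heq⟩ := uni_split l k
  rw [heq]
  have h1 := (Bdl.uni (i := k) k P).mul (Bdl.ofFree (i := k) (uni_free (l := l')
    fun x hx => (hne x hx).1))
  rwa [one_mul] at h1

theorem bdl_of_low {d : ℕ} {g : MvPolynomial (Fin n) F} (hg : g.totalDegree ≤ d) (k : Fin n) :
    Bdl k (d + 1) g := by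
  classical
  refine ⟨d + 1, le_rfl, fun e => Polynomial.X ^ (e : ℕ), fun e =>
    ∑ m ∈ g.support.filter (fun m => m k = (e : ℕ)),
      (monomial (m.erase k) (coeff m g) : MvPolynomial (Fin n) F), ?_, ?_⟩
  · intro e
    refine Subalgebra.sum_mem _ fun m hm => ?_
    rw [mem_supported]
    have h0 : coeff m g ≠ 0 := mem_support_iff.1 (Finset.mem_filter.1 hm).1
    intro x hx
    rw [Finset.mem_coe, vars_monomial h0, Finsupp.mem_support_iff] at hx
    intro hxk
    rw [hxk] at hx
    exact hx Finsupp.erase_same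
  · have h1 : ∀ e : ℕ, Polynomial.aeval (X k : MvPolynomial (Fin n) F)
        (Polynomial.X ^ e : Polynomial F) *
        ∑ m ∈ g.support.filter (fun m => m k = e),
          (monomial (m.erase k) (coeff m g) : MvPolynomial (Fin n) F) =
        ∑ m ∈ g.support.filter (fun m => m k = e),
          (monomial m (coeff m g) : MvPolynomial (Fin n) F) := by
      intro e
      rw [Finset.mul_sum]
      refine Finset.sum_congr rfl fun m hm => ?_
      have hmk := (Finset.mem_filter.1 hm).2
      rw [map_pow, Polynomial.aeval_X, X_pow_eq_monomial, monomial_mul, one_mul, ← hmk,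
        Finsupp.single_add_erase]
    have h2 : g = ∑ m ∈ g.support, monomial m (coeff m g) := as_sum g
    have h3 : ∀ m ∈ g.support, m k ∈ Finset.range (d + 1) := by
      intro m hm
      rw [Finset.mem_range, Nat.lt_succ_iff]
      refine le_trans ?_ ((le_totalDegree hm).trans hg)
      by_cases hk : k ∈ m.support
      · exact Finset.single_le_sum (f := fun x => m x) (fun _ _ => Nat.zero_le _) hk
      · rw [Finsupp.notMem_support_iff.1 hk]; exact Nat.zero_le _
    conv_lhs => rw [h2]
    rw [← Finset.sum_fiberwise_of_maps_to h3, Finset.sum_range]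
    refine Finset.sum_congr rfl fun e _ => ?_
    exact (h1 e).symm

theorem Uni.self {W : ℕ} {u : MvPolynomial (Fin n) F} (h : u ∈ Uni n W) : u ∈ Uni n (W + 1) :=
  Uni.mono (Nat.le_succ W) h

theorem BaseK.const (c : F) : (C c : MvPolynomial (Fin n) F) ∈ BaseK n 1 := by
  have h1 : (1 : MvPolynomial (Fin n) F) ∈ Uni n 1 := ⟨[], Nat.zero_le _, by simp⟩
  have h2 : (C c : MvPolynomial (Fin n) F) ∈ Low n 1 := by
    show (C c : MvPolynomial (Fin n) F).totalDegree ≤ 1
    rw [totalDegree_C]; exact Nat.zero_le _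
  have := SP.one_term h1 h2 le_rfl
  rwa [one_mul] at this

theorem BaseK.add {W W' : ℕ} {f g : MvPolynomial (Fin n) F} (hf : f ∈ BaseK n W)
    (hg : g ∈ BaseK n W') : f + g ∈ BaseK n (W + W') :=
  SP.mono (SP.add (SP.mono hf le_rfl (Uni.mono (Nat.le_add_right W W'))
    (Low.mono (Nat.le_add_right W W'))) (SP.mono hg le_rfl (Uni.mono (Nat.le_add_left W' W))
    (Low.mono (Nat.le_add_left W' W)))) le_rfl le_rfl le_rfl

theorem BaseK.mul {W W' : ℕ} {f g : MvPolynomial (Fin n) F} (hf : f ∈ BaseK n W)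
    (hg : g ∈ BaseK n W') : f * g ∈ BaseK n (W + W' + W * W') :=
  SP.mono (SP.mul hf hg (𝒜'' := Uni n (W + W')) (ℬ'' := Low n (W + W'))
    (fun _ ha _ hb => Uni.mul ha hb)
    (fun a ha b hb => (totalDegree_mul a b).trans (Nat.add_le_add ha hb)))
    (by omega) (Uni.mono (by omega)) (Low.mono (by omega))

theorem BaseK.der {W : ℕ} (k : Fin n) {f : MvPolynomial (Fin n) F} (hf : f ∈ BaseK n W) :
    pderiv k f ∈ BaseK n (2 * W + 1) :=
  SP.mono (SP.der (pderiv k) hf (𝒜' := Uni n (W + 1)) (ℬ' := Low n W)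
    (fun _ ha => ⟨Uni.self ha, Uni.pd ha k⟩)
    (fun b hb => ⟨hb, (totalDegree_pderiv_le k b).trans ((Nat.sub_le _ _).trans hb)⟩))
    (by omega) (Uni.mono (by omega)) (Low.mono (by omega))

theorem BaseK.bdd {W : ℕ} {f : MvPolynomial (Fin n) F} (hf : f ∈ BaseK n W) (i : Fin n) :
    Bdl i (W * (W + 1)) f := by
  obtain ⟨ι, _, a, b, hc, ha, hb, rfl⟩ := hf
  refine (Bdl.sumO Finset.univ (r := W + 1) fun t _ => ?_).mono ?_
  · have := (Uni.bdl (ha t) i).mul (bdl_of_low (hb t) i)
    rwa [one_mul] at this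
  · rw [Finset.card_univ]
    exact Nat.mul_le_mul_right _ hc

variable [CharZero F]

theorem supported_of_pderiv {Z : Finset (Fin n)} {f : MvPolynomial (Fin n) F}
    (h : ∀ k, k ∉ Z → pderiv k f = 0) : f ∈ supported F (Z : Set (Fin n)) := by
  classical
  rw [mem_supported]
  intro k hk
  by_contra hkZ
  have h1 := h k (by exact_mod_cast hkZ)
  obtain ⟨m, hm, hmk⟩ := (mem_vars_iff_mem_support k).1 (Finset.mem_coe.1 hk)
  have h2 : coeff (m - Finsupp.single k 1) (pderiv k f) = 0 := by rw [h1, coeff_zero]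
  have h3 : Finsupp.single k 1 ≤ m := by
    rw [Finsupp.single_le_iff]
    exact Nat.one_le_iff_ne_zero.2 (Finsupp.mem_support_iff.1 hmk)
  rw [coeff_pderiv, tsub_add_cancel_of_le h3] at h2
  rcases mul_eq_zero.1 h2 with h4 | h4
  · exact (mem_support_iff.1 hm) h4
  · exact Nat.cast_add_one_ne_zero _ h4

theorem DChain.low_zeroO (V : DChain F n) (Z : Finset (Fin n)) {ι : Type} [Fintype ι] (d : ℕ) :
    ∀ (a b : ι → MvPolynomial (Fin n) F),
      (∀ i, a i ∈ supported F (Z : Set (Fin n))) → (∀ i, (b i).totalDegree ≤ d) →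
      ∑ i, a i * b i ∈ V.O d Z → ∑ i, a i * b i = 0 := by
  induction d with
  | zero =>
    intro a b ha hb h
    refine V.O_supp (Subalgebra.sum_mem _ fun i _ => Subalgebra.mul_mem _ (ha i) ?_) h
    rw [totalDegree_eq_zero_iff_eq_C.1 (Nat.le_zero.1 (hb i))]
    exact Subalgebra.algebraMap_mem _ _
  | succ d ih =>
    intro a b ha hb h
    have h0 : ∀ k, k ∉ Z → pderiv k (∑ i, a i * b i) = ∑ i, a i * pderiv k (b i) := by
      intro k hk
      rw [map_sum]
      refine Finset.sum_congr rfl fun i _ => ?_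
      have h1 : pderiv k (a i) = 0 := by
        apply pderiv_eq_zero_of_notMem_vars
        intro hc
        exact hk (by exact_mod_cast (mem_supported.1 (ha i)) (Finset.mem_coe.2 hc))
      rw [pderiv_mul, h1, zero_mul, zero_add]
    refine V.O_supp (supported_of_pderiv fun k hk => ?_) h
    have h2 : pderiv k (∑ i, a i * b i) ∈ V.O d Z := V.H_der h k
    rw [h0 k hk] at h2 ⊢
    refine ih a (fun i => pderiv k (b i)) ha (fun i => ?_) h2
    have := totalDegree_pderiv_le k (b i)
    have := hb i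
    omega

theorem BaseK.seeds (W : ℕ) (n : ℕ) (V : DChain F n) (f : MvPolynomial (Fin n) F)
    (hf : f ∈ BaseK n W) (Y : Finset (Fin n))
    (hmem : f ∈ V.O (W + W * W * (W * (W + 1))) Y) : f = 0 := by
  classical
  have hbd : BdY ∅ (W * (W + 1)) f := fun i _ => BaseK.bdd hf i
  obtain ⟨ι, _, a, b, hc, ha, hb, rfl⟩ := hf
  choose l hl hal using ha
  set S : Finset (Fin n) := Finset.univ.biUnion fun i => ((l i).map Prod.fst).toFinset with hS
  have hScard : S.card ≤ W * W := by
    refine Finset.card_biUnion_le.trans ?_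
    calc ∑ i, ((l i).map Prod.fst).toFinset.card ≤ ∑ _i : ι, W := by
          apply Finset.sum_le_sum
          intro i _
          refine (List.toFinset_card_le _).trans ?_
          rw [List.length_map]
          exact hl i
      _ = Fintype.card ι * W := by rw [Finset.sum_const, Finset.card_univ, smul_eq_mul]
      _ ≤ W * W := Nat.mul_le_mul_right _ hc
  have h1 := V.free_setO hbd S W Y (V.O_mono
    (Nat.add_le_add_left (Nat.mul_le_mul_right _ hScard) _) _ hmem)
  refine V.low_zeroO (Y ∪ S) W a b (fun i => ?_) hb h1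
  rw [hal i]
  refine Subalgebra.list_prod_mem _ ?_
  intro y hy
  obtain ⟨x, hx, rfl⟩ := List.mem_map.1 hy
  have h3 : (X x.1 : MvPolynomial (Fin n) F) ∈ supported F ((Y ∪ S : Finset (Fin n)) : Set (Fin n)) := by
    refine X_mem_supported.2 ?_
    rw [Finset.mem_coe, Finset.mem_union]
    right
    rw [hS, Finset.mem_biUnion]
    exact ⟨i, Finset.mem_univ _, List.mem_toFinset.2 (List.mem_map.2 ⟨x, hx, rfl⟩)⟩
  exact (Algebra.adjoin_le (S := supported F ((Y ∪ S : Finset (Fin n)) : Set (Fin n)))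
    (by simpa using h3)) (Polynomial.aeval_mem_adjoin_singleton F _)

/-- the base family -/
def baseO (F : Type v) [Field F] [CharZero F] : FamO F where
  K := fun n W => BaseK n W
  mono := BaseK.mono
  cc := 1
  const_mem := BaseK.const
  ad := fun W W' => W + W'
  add_mem := BaseK.add
  ml := fun W W' => W + W' + W * W'
  mul_mem := BaseK.mul
  der := fun W => 2 * W + 1
  der_mem := fun k _ hf => BaseK.der k hf
  bd := fun W => W * (W + 1)
  bd_mem := fun hf i => BaseK.bdd hf i
  seeds := fun W => ⟨W + W * W * (W * (W + 1)), fun n V f hf Y h => BaseK.seeds W n V f hf Y h⟩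

end base

section linear

variable {F : Type v} [Field F] {n w : ℕ}

/-- the contents of a linear program: the row vector `u M_0 M_1 ⋯ M_{t-1}` -/
noncomputable def rowOf (u : Fin w → F) (M : ℕ → Matrix (Fin w) (Fin w) (MvPolynomial (Fin n) F)) :
    ℕ → Fin w → MvPolynomial (Fin n) F
  | 0 => fun j => C (u j)
  | t + 1 => fun j => ∑ l, rowOf u M t l * M t l j

/-- joint rank in one variable -/
def JB (x : Fin n) (r : ℕ) (p : Fin w → MvPolynomial (Fin n) F) : Prop :=
  ∃ (β : Type) (_ : Fintype β) (b : β → Polynomial F), Fintype.card β ≤ r ∧ ∀ j, BdF x b (p j)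

theorem BdF.embed {x : Fin n} {β β' : Type} [Fintype β] [Fintype β'] {b : β → Polynomial F}
    {b' : β' → Polynomial F} (e : β → β') (he : Function.Injective e) (hb : ∀ a, b' (e a) = b a)
    {Q : MvPolynomial (Fin n) F} (h : BdF x b Q) : BdF x b' Q := by
  classical
  obtain ⟨c, hc, rfl⟩ := h
  refine ⟨Function.extend e c 0, fun α => ?_, ?_⟩
  · by_cases hα : ∃ a, e a = α
    · obtain ⟨a, rfl⟩ := hα
      rw [he.extend_apply]; exact hc a
    · rw [Function.extend_apply' _ _ _ hα]
      exact Subalgebra.zero_mem _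
  · have h1 : ∀ α ∈ (Finset.univ : Finset β'), α ∉ Finset.univ.map ⟨e, he⟩ →
        Polynomial.aeval (X x : MvPolynomial (Fin n) F) (b' α) * Function.extend e c 0 α = 0 := by
      intro α _ hα
      rw [Function.extend_apply' _ _ _ (by
        rintro ⟨a, ha⟩
        exact hα (Finset.mem_map.2 ⟨a, Finset.mem_univ _, ha⟩))]
      simp
    rw [← Finset.sum_subset (Finset.subset_univ _) h1, Finset.sum_map]
    refine Finset.sum_congr rfl fun a _ => ?_
    show _ = Polynomial.aeval _ (b' (e a)) * Function.extend e c 0 (e a)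
    rw [he.extend_apply, hb]

theorem jb_step {x : Fin n} {r rK : ℕ} {p : Fin w → MvPolynomial (Fin n) F}
    {M : Matrix (Fin w) (Fin w) (MvPolynomial (Fin n) F)} (hp : JB x r p)
    (hM : ∀ l j, Bdl x rK (M l j)) : JB x (r * (w * w * rK)) (fun j => ∑ l, p l * M l j) := by
  classical
  obtain ⟨β, _, b, hβ, hb⟩ := hp
  choose s b' hs hb' using fun l j => (hM l j).toF
  refine ⟨β × (Σ q : Fin w × Fin w, Fin (s q.1 q.2)), inferInstance,
    fun y => b y.1 * b' y.2.1.1 y.2.1.2 y.2.2, ?_, ?_⟩
  · rw [Fintype.card_prod, Fintype.card_sigma]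
    refine Nat.mul_le_mul hβ ?_
    calc ∑ q : Fin w × Fin w, Fintype.card (Fin (s q.1 q.2)) ≤ ∑ _q : Fin w × Fin w, rK := by
          apply Finset.sum_le_sum
          intro q _
          rw [Fintype.card_fin]
          exact hs _ _
      _ = w * w * rK := by
          rw [Finset.sum_const, Finset.card_univ, Fintype.card_prod, Fintype.card_fin,
            smul_eq_mul]
  · intro j
    refine BdF.sum _ fun l _ => ?_
    have h1 := (hb l).mulMul (hb' l j)
    refine BdF.embed (fun y : β × Fin (s l j) =>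
      ((y.1, ⟨(l, j), y.2⟩) : β × (Σ q : Fin w × Fin w, Fin (s q.1 q.2)))) ?_ ?_ h1
    · rintro ⟨y1, y2⟩ ⟨z1, z2⟩ h
      simp only [Prod.mk.injEq, Sigma.mk.injEq, true_and, heq_eq_eq] at h
      exact Prod.ext h.1 h.2
    · intro y
      rfl

theorem jb_free {x : Fin n} {r : ℕ} {p : Fin w → MvPolynomial (Fin n) F}
    {M : Matrix (Fin w) (Fin w) (MvPolynomial (Fin n) F)} (hp : JB x r p)
    (hM : ∀ l j, M l j ∈ supported F {k : Fin n | k ≠ x}) :
    JB x r (fun j => ∑ l, p l * M l j) := by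
  obtain ⟨β, _, b, hβ, hb⟩ := hp
  exact ⟨β, inferInstance, b, hβ, fun j => BdF.sum _ fun l _ => (hb l).mul_free (hM l j)⟩

/-- the contents of a linear program have bounded rank -/
theorem row_jb (u : Fin w → F) (M : ℕ → Matrix (Fin w) (Fin w) (MvPolynomial (Fin n) F))
    (B : ℕ → Finset (Fin n)) (hB : ∀ t l j, M t l j ∈ supported F (B t : Set (Fin n)))
    {rK : ℕ} (x : Fin n) (hM : ∀ t l j, Bdl x rK (M t l j)) (t : ℕ) :
    JB x ((w * w * rK + 1) ^ cnt B t x) (rowOf u M t) := by
  classical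
  induction t with
  | zero =>
    refine ⟨Unit, inferInstance, fun _ => 1, ?_, fun j => ?_⟩
    · rw [Fintype.card_unit]; exact Nat.one_le_pow _ _ (Nat.succ_pos _)
    · exact BdF.of_free (α := ()) (Subalgebra.algebraMap_mem _ _) rfl
  | succ t ih =>
    by_cases hx : x ∈ B t
    · rw [cnt_succ_of_mem hx, pow_succ]
      obtain ⟨β, h1, b, hβ, hb⟩ := jb_step ih (hM t)
      exact ⟨β, h1, b, hβ.trans (Nat.mul_le_mul_left _ (Nat.le_succ _)), hb⟩
    · obtain ⟨β, h1, b, hβ, hb⟩ := jb_free (M := M t) ih (fun l j => supported_mono (fun k hk => by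
        rintro rfl
        exact hx (by exact_mod_cast hk)) (hB t l j))
      refine ⟨β, h1, b, hβ.trans (Nat.pow_le_pow_right (Nat.succ_pos _)
        (cnt_mono B (Nat.le_succ t) x)), hb⟩

theorem JB.bdl {x : Fin n} {r : ℕ} {p : Fin w → MvPolynomial (Fin n) F} (h : JB x r p)
    (j : Fin w) : Bdl x r (p j) := by
  obtain ⟨β, _, b, hβ, hb⟩ := h
  exact (hb j).bdl.mono hβ

theorem JB.bdl_sum {x : Fin n} {r : ℕ} {p : Fin w → MvPolynomial (Fin n) F} (h : JB x r p)
    (v : Fin w → F) : Bdl x r (∑ j, p j * C (v j)) := by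
  obtain ⟨β, _, b, hβ, hb⟩ := h
  exact (BdF.sum _ fun j _ => (hb j).mul_free (Subalgebra.algebraMap_mem _ _)).bdl.mono hβ

/-- linear programs are in the next class -/
theorem linear_mem [CharZero F] (𝔎 : FamO F) {W k : ℕ} (u v : Fin w → F)
    (M : ℕ → Matrix (Fin w) (Fin w) (MvPolynomial (Fin n) F))
    (R : ℕ) (hM : ∀ t < R, ∀ l j, M t l j ∈ 𝔎.K n W)
    (hR : ∀ x, ((Finset.range R).filter fun t => ∃ l j, x ∈ (M t l j).vars).card ≤ k) :
    ∑ j, rowOf u M R j * C (v j) ∈
      (𝔎.next).K n (W + k + w * w + (w * w * 𝔎.bd W + 1) ^ k + 1) := by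
  classical
  set B : ℕ → Finset (Fin n) := fun t => if t < R then
    Finset.univ.filter (fun x => ∃ l j, x ∈ (M t l j).vars) else ∅ with hB
  set M' : ℕ → Matrix (Fin w) (Fin w) (MvPolynomial (Fin n) F) :=
    fun t => if t < R then M t else 0 with hM'
  have hrow : ∀ t ≤ R, rowOf u M' t = rowOf u M t := by
    intro t
    induction t with
    | zero => intro _; rfl
    | succ t ih =>
      intro ht
      funext j
      simp only [rowOf]
      rw [ih (by omega)]
      have : M' t = M t := by simp only [hM']; rw [if_pos (by omega)]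
      rw [this]
  rw [← hrow R le_rfl]
  set W' := W + k + w * w + (w * w * 𝔎.bd W + 1) ^ k + 1 with hW'
  have hM'K : ∀ t l j, M' t l j ∈ 𝔎.K n (W + 𝔎.c0) := by
    intro t l j
    simp only [hM']
    split_ifs with ht
    · exact 𝔎.mono (Nat.le_add_right _ _) (hM t ht l j)
    · exact 𝔎.zero (Nat.le_add_left _ _)
  have hM'B : ∀ t l j, M' t l j ∈ supported F (B t : Set (Fin n)) := by
    intro t l j
    by_cases ht : t < R
    · simp only [hM', hB, if_pos ht]
      rw [mem_supported]
      intro x hx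
      rw [Finset.mem_coe, Finset.mem_filter]
      exact ⟨Finset.mem_univ _, l, j, Finset.mem_coe.1 hx⟩
    · simp only [hM', if_neg ht]
      exact Subalgebra.zero_mem _
  have hM'b : ∀ x t l j, Bdl x (𝔎.bd W) (M' t l j) := by
    intro x t l j
    simp only [hM']
    split_ifs with ht
    · exact 𝔎.bd_mem (hM t ht l j) x
    · exact Bdl.zero.mono (Nat.zero_le _)
  have hcnt : ∀ x t, cnt B t x ≤ k := by
    intro x t
    refine le_trans ?_ (hR x)
    unfold cnt
    apply Finset.card_le_card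
    intro t' ht'
    rw [Finset.mem_filter] at ht'
    have h2 := ht'.2
    by_cases h : t' < R
    · simp only [hB, if_pos h, Finset.mem_filter] at h2
      exact Finset.mem_filter.2 ⟨Finset.mem_range.2 h, h2.2⟩
    · simp [hB, if_neg h] at h2
  have hjb : ∀ x t, JB x ((w * w * 𝔎.bd W + 1) ^ k) (rowOf u M' t) := by
    intro x t
    obtain ⟨β, h1, b, hβ, hb⟩ := row_jb u M' B hM'B x (hM'b x) t
    exact ⟨β, h1, b, hβ.trans (Nat.pow_le_pow_right (Nat.succ_pos _) (hcnt x t)), hb⟩
  have hreg : RegO 𝔎 B (W + 𝔎.c0) (fun t => rowOf u M' t)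
      (fun t (q : Fin w × Fin w) => M' t q.1 q.2) := by
    refine ⟨fun i => ⟨u i, rfl⟩, fun b q => hM'K b q.1 q.2, fun b q => hM'B b q.1 q.2,
      fun b i => ?_⟩
    simp only [rowOf]
    refine Subalgebra.sum_mem _ fun l _ => Subalgebra.mul_mem _ ?_ ?_
    · exact Algebra.subset_adjoin (Or.inl ⟨l, rfl⟩)
    · exact Algebra.subset_adjoin (Or.inr ⟨(l, i), rfl⟩)
  have hww : w ≤ w * w := Nat.le_mul_self w
  refine OutO.ofReg hreg (fun t j x _ => ((hjb x t).bdl j).mono (by omega)) (by omega) ?_ ?_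
    ⟨∅, by simp, fun x _ t => (hcnt x t).trans (by omega)⟩ (R := R) ?_
    (fun x _ => ((hjb x R).bdl_sum v).mono (by omega))
  · rw [Fintype.card_fin]; omega
  · rw [Fintype.card_prod, Fintype.card_fin]; omega
  · refine Subalgebra.sum_mem _ fun j _ => Subalgebra.mul_mem _ ?_ ?_
    · exact Algebra.subset_adjoin ⟨j, rfl⟩
    · exact Subalgebra.algebraMap_mem _ _

end linear

end Pool.Agent.W943
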