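import Mathlib
import Pool.Agent.W943.Ork6

/-!
Polynomials all of whose cuts have small rank are computed by linear programs of small width
(Nisan's characterisation), with entries of bounded individual degree.
-/

set_option autoImplicit false

namespace Pool.Agent.W943.Nis

open MvPolynomial Module

section low

variable {R : ℕ}

/-- the part of the exponent in the variables before `t` -/
noncomputable def lo (t : ℕ) (m : Fin R →₀ ℕ) : Fin R →₀ ℕ := m.filter (fun s => s.val < t)

/-- the part of the exponent in the variables from `t` on -/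
noncomputable def hi (t : ℕ) (m : Fin R →₀ ℕ) : Fin R →₀ ℕ := m.filter (fun s => ¬ s.val < t)

theorem lo_apply (t : ℕ) (m : Fin R →₀ ℕ) (s : Fin R) :
    lo t m s = if s.val < t then m s else 0 := by
  classical
  exact Finsupp.filter_apply _ _ _

theorem hi_apply (t : ℕ) (m : Fin R →₀ ℕ) (s : Fin R) :
    hi t m s = if s.val < t then 0 else m s := by
  classical
  rw [hi, Finsupp.filter_apply]
  split_ifs <;> simp_all

theorem lo_lo (t : ℕ) (m : Fin R →₀ ℕ) : lo t (lo t m) = lo t m := by
  ext s
  simp only [lo_apply]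
  split_ifs <;> rfl

theorem lo_succ_iff {t : ℕ} (ht : t < R) {m : Fin R →₀ ℕ} (hm : lo t m = m) (m' : Fin R →₀ ℕ)
    (k : ℕ) : lo (t + 1) m' = m + Finsupp.single ⟨t, ht⟩ k ↔ lo t m' = m ∧ m' ⟨t, ht⟩ = k := by
  classical
  have h0 : ∀ s : Fin R, ¬ s.val < t → m s = 0 := by
    intro s hs
    rw [← hm, lo_apply, if_neg hs]
  constructor
  · intro h
    constructor
    · ext s
      have h1 := DFunLike.congr_fun h s
      rw [Finsupp.add_apply, lo_apply, Finsupp.single_apply] at h1
      rw [lo_apply]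
      by_cases hs : s.val < t
      · have h2 : (⟨t, ht⟩ : Fin R) ≠ s := by
          intro h3
          rw [← h3] at hs
          exact lt_irrefl _ hs
        rw [if_pos (by omega), if_neg h2, add_zero] at h1
        rw [if_pos hs, h1]
      · rw [if_neg hs, h0 s hs]
    · have h1 := DFunLike.congr_fun h ⟨t, ht⟩
      rw [Finsupp.add_apply, lo_apply, Finsupp.single_eq_same, h0 ⟨t, ht⟩ (lt_irrefl _),
        zero_add, if_pos (Nat.lt_succ_self t)] at h1
      exact h1
  · rintro ⟨h1, h2⟩
    ext s
    rw [Finsupp.add_apply, lo_apply, Finsupp.single_apply]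
    by_cases hs : (⟨t, ht⟩ : Fin R) = s
    · subst hs
      rw [if_pos (Nat.lt_succ_self t), if_pos rfl, h2, h0 ⟨t, ht⟩ (lt_irrefl _), zero_add]
    · have hs' : s.val ≠ t := fun h => hs (Fin.ext h.symm)
      rw [if_neg hs, add_zero]
      by_cases hst : s.val < t
      · rw [if_pos (by omega), ← h1, lo_apply, if_pos hst]
      · rw [if_neg (by omega), h0 s hst]

theorem hi_eq {t : ℕ} (ht : t < R) (m' : Fin R →₀ ℕ) :
    hi t m' = Finsupp.single ⟨t, ht⟩ (m' ⟨t, ht⟩) + hi (t + 1) m' := by
  classical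
  ext s
  rw [Finsupp.add_apply, hi_apply, hi_apply, Finsupp.single_apply]
  by_cases hs : (⟨t, ht⟩ : Fin R) = s
  · subst hs
    simp
  · have hs' : s.val ≠ t := fun h => hs (Fin.ext h.symm)
    rw [if_neg hs, zero_add]
    by_cases hst : s.val < t
    · rw [if_pos hst, if_pos (by omega)]
    · rw [if_neg hst, if_neg (by omega)]

end low

section ext

variable {F : Type*} [Field F] {R : ℕ}

/-- the coefficient of the monomial `m` in the variables before `t`, a polynomial in the variables
from `t` on -/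
noncomputable def ext (t : ℕ) (m : Fin R →₀ ℕ) :
    MvPolynomial (Fin R) F →ₗ[F] MvPolynomial (Fin R) F := by
  classical
  exact (basisMonomials (Fin R) F).constr F
    (fun m' => if lo t m' = m then monomial (hi t m') 1 else 0)

open Classical in
theorem ext_monomial (t : ℕ) (m m' : Fin R →₀ ℕ) (c : F) :
    ext t m (monomial m' c) = if lo t m' = m then monomial (hi t m') c else 0 := by
  have h1 : (monomial m' c : MvPolynomial (Fin R) F) = c • (basisMonomials (Fin R) F) m' := by
    rw [coe_basisMonomials, smul_monomial, smul_eq_mul, mul_one]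
  rw [h1, map_smul, ext, Basis.constr_basis]
  split_ifs
  · rw [smul_monomial, smul_eq_mul, mul_one]
  · rw [smul_zero]

theorem ext_zero_zero (p : MvPolynomial (Fin R) F) : ext 0 0 p = p := by
  classical
  have h1 : ∀ m : Fin R →₀ ℕ, lo 0 m = 0 := by
    intro m
    ext s
    rw [lo_apply, if_neg (Nat.not_lt_zero _)]
    rfl
  have h2 : ∀ m : Fin R →₀ ℕ, hi 0 m = m := by
    intro m
    ext s
    rw [hi_apply, if_neg (Nat.not_lt_zero _)]
  conv_lhs => rw [as_sum p]
  rw [map_sum]
  conv_rhs => rw [as_sum p]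
  refine Finset.sum_congr rfl fun m _ => ?_
  rw [ext_monomial, if_pos (h1 m), h2]

theorem ext_last (m : Fin R →₀ ℕ) (p : MvPolynomial (Fin R) F) :
    ext R m p ∈ LinearMap.range (Algebra.linearMap F (MvPolynomial (Fin R) F)) := by
  classical
  have h2 : ∀ m : Fin R →₀ ℕ, hi R m = 0 := by
    intro m
    ext s
    rw [hi_apply, if_pos s.isLt]
    rfl
  rw [as_sum p, map_sum]
  refine Submodule.sum_mem _ fun m' _ => ?_
  rw [ext_monomial]
  split_ifs
  · rw [h2]
    exact ⟨coeff m' p, rfl⟩
  · exact Submodule.zero_mem _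

theorem ext_not_lo {t : ℕ} {m : Fin R →₀ ℕ} (hm : lo t m ≠ m) (p : MvPolynomial (Fin R) F) :
    ext t m p = 0 := by
  classical
  rw [as_sum p, map_sum]
  refine Finset.sum_eq_zero fun m' _ => ?_
  rw [ext_monomial, if_neg]
  intro h
  apply hm
  rw [← h, lo_lo]

theorem ext_step {t : ℕ} (ht : t < R) {D : ℕ} {m : Fin R →₀ ℕ} (hm : lo t m = m)
    (p : MvPolynomial (Fin R) F) (hp : degreeOf ⟨t, ht⟩ p ≤ D) :
    ext t m p = ∑ k ∈ Finset.range (D + 1),
      X ⟨t, ht⟩ ^ k * ext (t + 1) (m + Finsupp.single ⟨t, ht⟩ k) p := by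
  classical
  have h1 : ∀ m' ∈ p.support, ext t m (monomial m' (coeff m' p)) =
      ∑ k ∈ Finset.range (D + 1), X ⟨t, ht⟩ ^ k *
        ext (t + 1) (m + Finsupp.single ⟨t, ht⟩ k) (monomial m' (coeff m' p)) := by
    intro m' hm'
    have hD : m' ⟨t, ht⟩ ∈ Finset.range (D + 1) := by
      rw [Finset.mem_range, Nat.lt_succ_iff]
      exact (monomial_le_degreeOf _ hm').trans hp
    rw [ext_monomial]
    by_cases h : lo t m' = m
    · rw [if_pos h, Finset.sum_eq_single_of_mem _ hD]
      · rw [ext_monomial, if_pos ((lo_succ_iff ht hm m' _).2 ⟨h, rfl⟩), hi_eq ht,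
          X_pow_eq_monomial, monomial_mul, one_mul]
      · intro k _ hk
        rw [ext_monomial, if_neg, mul_zero]
        intro hc
        exact hk ((lo_succ_iff ht hm m' _).1 hc).2.symm
    · rw [if_neg h]
      symm
      refine Finset.sum_eq_zero fun k _ => ?_
      rw [ext_monomial, if_neg, mul_zero]
      intro hc
      exact h ((lo_succ_iff ht hm m' _).1 hc).1
  have h2 : ∀ (t : ℕ) (m : Fin R →₀ ℕ), ext t m p =
      ∑ m' ∈ p.support, ext t m (monomial m' (coeff m' p)) := by
    intro t m
    conv_lhs => rw [as_sum p]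
    rw [map_sum]
  rw [h2, Finset.sum_congr rfl h1, Finset.sum_comm]
  refine Finset.sum_congr rfl fun k _ => ?_
  rw [h2 (t + 1), Finset.mul_sum]

theorem ext_mul {t : ℕ} (m : Fin R →₀ ℕ) {g h : MvPolynomial (Fin R) F}
    (hg : g ∈ supported F {s : Fin R | s.val < t}) (hh : h ∈ supported F {s : Fin R | ¬ s.val < t}) :
    ext t m (g * h) = C (coeff m g) * h := by
  classical
  rw [mem_supported] at hg hh
  have h1 : ∀ a ∈ g.support, ∀ s : Fin R, ¬ s.val < t → a s = 0 := by
    intro a ha s hs
    by_contra h0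
    exact hs (hg ((mem_vars_iff_mem_support s).2 ⟨a, ha, Finsupp.mem_support_iff.2 h0⟩))
  have h2 : ∀ a ∈ h.support, ∀ s : Fin R, s.val < t → a s = 0 := by
    intro a ha s hs
    by_contra h0
    exact hh ((mem_vars_iff_mem_support s).2 ⟨a, ha, Finsupp.mem_support_iff.2 h0⟩) hs
  have h3 : ∀ a ∈ g.support, ∀ b ∈ h.support, lo t (a + b) = a := by
    intro a ha b hb
    ext s
    rw [lo_apply, Finsupp.add_apply]
    by_cases hs : s.val < t
    · rw [if_pos hs, h2 b hb s hs, add_zero]
    · rw [if_neg hs, h1 a ha s hs]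
  have h4 : ∀ a ∈ g.support, ∀ b ∈ h.support, hi t (a + b) = b := by
    intro a ha b hb
    ext s
    rw [hi_apply, Finsupp.add_apply]
    by_cases hs : s.val < t
    · rw [if_pos hs, h2 b hb s hs]
    · rw [if_neg hs, h1 a ha s hs, zero_add]
  have h5 : g * h = ∑ a ∈ g.support, ∑ b ∈ h.support,
      monomial (a + b) (coeff a g * coeff b h) := by
    conv_lhs => rw [as_sum g, as_sum h]
    rw [Finset.sum_mul_sum]
    refine Finset.sum_congr rfl fun a _ => Finset.sum_congr rfl fun b _ => ?_
    rw [monomial_mul]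
  have h6 : ∀ a ∈ g.support, ext t m (∑ b ∈ h.support,
      monomial (a + b) (coeff a g * coeff b h)) = if a = m then C (coeff a g) * h else 0 := by
    intro a ha
    rw [map_sum]
    split_ifs with ham
    · conv_rhs => rw [as_sum h]
      rw [Finset.mul_sum]
      refine Finset.sum_congr rfl fun b hb => ?_
      rw [ext_monomial, h3 a ha b hb, if_pos ham, h4 a ha b hb, C_mul_monomial]
    · refine Finset.sum_eq_zero fun b hb => ?_
      rw [ext_monomial, h3 a ha b hb, if_neg ham]
  rw [h5, map_sum, Finset.sum_congr rfl h6, Finset.sum_ite_eq' g.support m]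
  split_ifs with hm
  · rfl
  · rw [notMem_support_iff.1 hm, C_0, zero_mul]

end ext

section span

variable {F M : Type*} [Field F] [AddCommGroup M] [Module F M]

theorem span_fin (V : Submodule F M) {ι : Type*} [Fintype ι] {r : ℕ} (hr : Fintype.card ι ≤ r)
    (h : ι → M) (hV : V ≤ Submodule.span F (Set.range h)) :
    ∃ v : Fin r → M, (∀ a, v a ∈ V) ∧ V ≤ Submodule.span F (Set.range v) := by
  classical
  have hfin : FiniteDimensional F (Submodule.span F (Set.range h)) :=
    FiniteDimensional.span_of_finite F (Set.finite_range h)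
  have hfV : FiniteDimensional F V := Submodule.finiteDimensional_of_le hV
  have h1 : finrank F V ≤ r :=
    (Submodule.finrank_mono hV).trans ((finrank_range_le_card h).trans hr)
  let b := finBasis F V
  refine ⟨fun i => if hi : i.val < finrank F V then (b ⟨i.val, hi⟩ : M) else 0, fun a => ?_, ?_⟩
  · by_cases ha : a.val < finrank F V
    · simp only [dif_pos ha]
      exact (b ⟨a.val, ha⟩).2
    · simp only [dif_neg ha]
      exact V.zero_mem
  · intro x hx
    have h2 := b.sum_repr ⟨x, hx⟩
    have h3 : x = ∑ i, (b.repr ⟨x, hx⟩ i) • (b i : M) := by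
      have h4 := congrArg (Submodule.subtype V) h2
      rw [map_sum] at h4
      simpa using h4.symm
    rw [h3]
    refine Submodule.sum_mem _ fun i _ => Submodule.smul_mem _ _ (Submodule.subset_span ?_)
    refine ⟨⟨i.val, lt_of_lt_of_le i.isLt h1⟩, ?_⟩
    simp only [dif_pos i.isLt]

end span

section main

variable {F : Type*} [Field F] {R : ℕ}

/-- all cuts of `f` have rank at most `r` -/
def CutRank (r : ℕ) (f : MvPolynomial (Fin R) F) : Prop :=
  ∀ t ≤ R, ∃ (ι : Type) (_ : Fintype ι) (g h : ι → MvPolynomial (Fin R) F), Fintype.card ι ≤ r ∧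
    (∀ i, g i ∈ supported F {s : Fin R | s.val < t}) ∧
    (∀ i, h i ∈ supported F {s : Fin R | ¬ s.val < t}) ∧ f = ∑ i, g i * h i

/-- the span of the coefficients -/
noncomputable def VT (f : MvPolynomial (Fin R) F) (t : ℕ) : Submodule F (MvPolynomial (Fin R) F) :=
  Submodule.span F (Set.range fun m => ext t m f)

theorem VT_basis {r : ℕ} {f : MvPolynomial (Fin R) F} (hf : CutRank r f) (t : ℕ) (ht : t ≤ R) :
    ∃ v : Fin r → MvPolynomial (Fin R) F, (∀ a, v a ∈ VT f t) ∧
      VT f t ≤ Submodule.span F (Set.range v) := by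
  obtain ⟨ι, _, g, h, hc, hg, hh, hfe⟩ := hf t ht
  refine span_fin (VT f t) hc h ?_
  rw [VT, Submodule.span_le]
  rintro _ ⟨m, rfl⟩
  show ext t m f ∈ _
  rw [hfe, map_sum]
  refine Submodule.sum_mem _ fun i _ => ?_
  rw [ext_mul m (hg i) (hh i), C_mul']
  exact Submodule.smul_mem _ _ (Submodule.subset_span ⟨i, rfl⟩)

theorem VT_step {f : MvPolynomial (Fin R) F} {t : ℕ} (ht : t < R) {D : ℕ}
    (hD : degreeOf ⟨t, ht⟩ f ≤ D) {r : ℕ} (v : Fin r → MvPolynomial (Fin R) F)
    (hv : VT f (t + 1) ≤ Submodule.span F (Set.range v)) {x : MvPolynomial (Fin R) F}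
    (hx : x ∈ VT f t) :
    ∃ p : Fin r → Polynomial F, (∀ b, (p b).natDegree ≤ D) ∧
      x = ∑ b, Polynomial.aeval (X ⟨t, ht⟩) (p b) * v b := by
  classical
  unfold VT at hx
  induction hx using Submodule.span_induction with
  | mem x hx =>
    obtain ⟨m, rfl⟩ := hx
    by_cases hm : lo t m = m
    · have h1 : ∀ k, ∃ c : Fin r → F, ∑ i, c i • v i =
          ext (t + 1) (m + Finsupp.single ⟨t, ht⟩ k) f := by
        intro k
        rw [← Submodule.mem_span_range_iff_exists_fun]
        exact hv (Submodule.subset_span ⟨_, rfl⟩)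
      choose c hc using h1
      refine ⟨fun b => ∑ k ∈ Finset.range (D + 1), Polynomial.C (c k b) * Polynomial.X ^ k,
        fun b => ?_, ?_⟩
      · refine Polynomial.natDegree_sum_le_of_forall_le _ _ fun k hk => ?_
        exact (Polynomial.natDegree_C_mul_X_pow_le _ _).trans
          (Nat.lt_succ_iff.1 (Finset.mem_range.1 hk))
      · show ext t m f = _
        rw [ext_step ht hm f hD]
        simp only [map_sum, map_mul, Polynomial.aeval_C, map_pow, Polynomial.aeval_X,
          Finset.sum_mul]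
        rw [Finset.sum_comm]
        refine Finset.sum_congr rfl fun k _ => ?_
        rw [← hc k, Finset.mul_sum]
        refine Finset.sum_congr rfl fun b _ => ?_
        rw [Algebra.smul_def]
        ring
    · refine ⟨fun _ => 0, fun _ => by rw [Polynomial.natDegree_zero]; exact Nat.zero_le _, ?_⟩
      show ext t m f = _
      rw [ext_not_lo hm]
      simp
  | zero =>
    exact ⟨fun _ => 0, fun _ => by rw [Polynomial.natDegree_zero]; exact Nat.zero_le _, by simp⟩
  | add x y _ _ ihx ihy =>
    obtain ⟨p, hp, h1⟩ := ihx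
    obtain ⟨q, hq, h2⟩ := ihy
    refine ⟨fun b => p b + q b, fun b => ?_, ?_⟩
    · exact (Polynomial.natDegree_add_le _ _).trans (max_le (hp b) (hq b))
    · rw [h1, h2, ← Finset.sum_add_distrib]
      refine Finset.sum_congr rfl fun b _ => ?_
      rw [map_add, add_mul]
  | smul c x _ ih =>
    obtain ⟨p, hp, h1⟩ := ih
    refine ⟨fun b => c • p b, fun b => (Polynomial.natDegree_smul_le _ _).trans (hp b), ?_⟩
    conv_lhs => rw [h1]
    rw [Finset.smul_sum]
    refine Finset.sum_congr rfl fun b _ => ?_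
    rw [map_smul, smul_mul_assoc]

theorem VT_last {f x : MvPolynomial (Fin R) F} (hx : x ∈ VT f R) : ∃ c : F, x = C c := by
  have h1 : VT f R ≤ LinearMap.range (Algebra.linearMap F (MvPolynomial (Fin R) F)) := by
    rw [VT, Submodule.span_le]
    rintro _ ⟨m, rfl⟩
    exact ext_last m f
  obtain ⟨c, hc⟩ := h1 hx
  exact ⟨c, hc.symm⟩

/-- polynomials with small cuts are computed by linear programs -/
theorem nisan {r : ℕ} {f : MvPolynomial (Fin R) F} (hf : CutRank r f) (D : ℕ → ℕ)
    (hD : ∀ (t : ℕ) (ht : t < R), degreeOf ⟨t, ht⟩ f ≤ D t) :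
    ∃ (u v : Fin r → F) (M : ℕ → Matrix (Fin r) (Fin r) (Polynomial F)),
      (∀ t a b, (M t a b).natDegree ≤ D t) ∧
      ∀ {n : ℕ} (z : ℕ → MvPolynomial (Fin n) F), aeval (fun t : Fin R => z t.val) f =
        ∑ j, rowOf u (fun t => (M t).map (Polynomial.aeval (z t))) R j * C (v j) := by
  classical
  have h1 : ∀ t, ∃ v : Fin r → MvPolynomial (Fin R) F, t ≤ R → (∀ a, v a ∈ VT f t) ∧
      VT f t ≤ Submodule.span F (Set.range v) := by
    intro t
    by_cases ht : t ≤ R
    · obtain ⟨v, hv⟩ := VT_basis hf t ht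
      exact ⟨v, fun _ => hv⟩
    · exact ⟨0, fun h => absurd h ht⟩
  choose v hv using h1
  have h2 : ∀ t a, ∃ p : Fin r → Polynomial F, (∀ b, (p b).natDegree ≤ D t) ∧
      ∀ ht : t < R, v t a = ∑ b, Polynomial.aeval (X ⟨t, ht⟩) (p b) * v (t + 1) b := by
    intro t a
    by_cases ht : t < R
    · obtain ⟨p, hp, h3⟩ := VT_step ht (hD t ht) (v (t + 1)) (hv (t + 1) ht).2
        ((hv t ht.le).1 a)
      exact ⟨p, hp, fun _ => h3⟩
    · exact ⟨fun _ => 0, fun _ => by rw [Polynomial.natDegree_zero]; exact Nat.zero_le _,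
        fun h => absurd h ht⟩
  choose M hM1 hM2 using h2
  obtain ⟨u, hu⟩ : ∃ u : Fin r → F, ∑ i, u i • v 0 i = f := by
    rw [← Submodule.mem_span_range_iff_exists_fun]
    refine (hv 0 (Nat.zero_le _)).2 (Submodule.subset_span ⟨0, ?_⟩)
    exact ext_zero_zero f
  choose c hc using fun b => VT_last ((hv R le_rfl).1 b)
  refine ⟨u, c, M, hM1, ?_⟩
  intro n z
  set Z : MvPolynomial (Fin R) F →ₐ[F] MvPolynomial (Fin n) F := aeval (fun t : Fin R => z t.val)
  have h3 : ∀ t ≤ R, Z f =
      ∑ a, rowOf u (fun t => Matrix.map (M t) (Polynomial.aeval (z t))) t a * Z (v t a) := by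
    intro t
    induction t with
    | zero =>
      intro _
      rw [← hu, map_sum]
      refine Finset.sum_congr rfl fun a _ => ?_
      rw [map_smul, rowOf, ← C_mul']
    | succ t ih =>
      intro ht
      rw [ih (by omega)]
      have h4 : ∀ a, Z (v t a) = ∑ b, Polynomial.aeval (z t) (M t a b) * Z (v (t + 1) b) := by
        intro a
        rw [hM2 t a ht, map_sum]
        refine Finset.sum_congr rfl fun b _ => ?_
        have h5 : Z (X ⟨t, ht⟩) = z t := aeval_X _ _
        rw [map_mul, ← Polynomial.aeval_algHom_apply, h5]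
      simp only [h4, rowOf, Finset.mul_sum, Finset.sum_mul]
      rw [Finset.sum_comm]
      refine Finset.sum_congr rfl fun b _ => Finset.sum_congr rfl fun a _ => ?_
      rw [Matrix.map_apply, mul_assoc]
  rw [h3 R le_rfl]
  refine Finset.sum_congr rfl fun b _ => ?_
  rw [hc b]
  congr 1
  exact aeval_C _ _

end main

end Pool.Agent.W943.Nis
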