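import Mathlib
import Pool.Agent.W943.Nis2
import Pool.Agent.W943.Nis3
import Pool.Agent.W943.Nis4

/-!
The determinant of a generic linear combination of matrices of small linear width has cuts of small
rank.
-/

set_option autoImplicit false

namespace Pool.Agent.W943.Nis

open MvPolynomial Module

section row

variable {F : Type*} [Field F]

theorem row_zero {m n r : ℕ} (P : Matrix (Fin r) (Fin m) F) (B : Matrix (Fin m) (Fin n) F)
    (i : Fin r) (h : ∀ u ∈ LinearMap.range B.mulVecLin, P.mulVec u i = 0) (k : Fin n) :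
    (P * B) i k = 0 := by
  have h1 := h (B.mulVec (Pi.single k 1)) ⟨Pi.single k 1, rfl⟩
  rw [Matrix.mulVec_mulVec, Matrix.mulVec_single_one] at h1
  exact h1

theorem row_zero' {m n r l : ℕ} (P : Matrix (Fin r) (Fin m) F) (B : Matrix (Fin m) (Fin n) F)
    (D : Matrix (Fin n) (Fin l) F)
    (i : Fin r) (h : ∀ u ∈ LinearMap.range B.mulVecLin, P.mulVec u i = 0) (k : Fin l) :
    (P * B * D) i k = 0 := by
  rw [Matrix.mul_apply]
  exact Finset.sum_eq_zero fun j _ => by rw [row_zero P B i h j, zero_mul]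

end row

section pencil

variable {F : Type*} [Field F] {R N : ℕ}

/-- the generic linear combination -/
noncomputable def pencil (B : Fin R → Matrix (Fin N) (Fin N) F) :
    Matrix (Fin N) (Fin N) (MvPolynomial (Fin R) F) :=
  ∑ s, (X s : MvPolynomial (Fin R) F) • (B s).map C

theorem pencil_conj (B : Fin R → Matrix (Fin N) (Fin N) F) (P Q : Matrix (Fin N) (Fin N) F) :
    P.map C * pencil B * Q.map C = pencil (fun s => P * B s * Q) := by
  unfold pencil
  rw [Matrix.mul_sum, Matrix.sum_mul]
  refine Finset.sum_congr rfl fun s _ => ?_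
  rw [Matrix.mul_smul, Matrix.smul_mul, Matrix.map_mul, Matrix.map_mul]

theorem det_pencil_conj (B : Fin R → Matrix (Fin N) (Fin N) F) (P Q : Matrix (Fin N) (Fin N) F) :
    (pencil (fun s => P * B s * Q)).det = C (P.det * Q.det) * (pencil B).det := by
  rw [← pencil_conj, Matrix.det_mul, Matrix.det_mul]
  have h1 : ∀ P : Matrix (Fin N) (Fin N) F,
      (P.map (C : F →+* MvPolynomial (Fin R) F)).det = C P.det := by
    intro P
    rw [RingHom.map_det]
    rfl
  rw [h1, h1, C_mul]
  ring

theorem pencil_sum_apply (B : Fin R → Matrix (Fin N) (Fin N) F) (S : Finset (Fin R))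
    (i j : Fin N) :
    (∑ s ∈ S, (X s : MvPolynomial (Fin R) F) • (B s).map C) i j = ∑ s ∈ S, X s * C (B s i j) := by
  rw [Matrix.sum_apply]
  rfl

/-- the determinant has small cuts -/
theorem cutRank_det {w : ℕ} {B : Fin R → Matrix (Fin N) (Fin N) F} (hB : LinWidth w B) :
    CutRank (4 ^ w) (pencil B).det := by
  classical
  intro t _
  obtain ⟨P, a, I, hP, hI, hP1, hP2⟩ := adapt _ _ (hB.1 t)
  obtain ⟨Q, b, J, hQ, hJ, hQ1, hQ2⟩ := adapt _ _ (hB.2 t)
  have hlt : ∀ s : Fin R, s.val < t → LinearMap.range (B s).mulVecLin ≤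
      ⨆ s : Fin R, ⨆ _ : s.val < t, LinearMap.range (B s).mulVecLin := fun s hs =>
    le_iSup₂_of_le (f := fun (s : Fin R) (_ : s.val < t) => LinearMap.range (B s).mulVecLin)
      s hs le_rfl
  have hge : ∀ s : Fin R, t ≤ s.val → LinearMap.range (B s).mulVecLin ≤
      ⨆ s : Fin R, ⨆ _ : t ≤ s.val, LinearMap.range (B s).mulVecLin := fun s hs =>
    le_iSup₂_of_le (f := fun (s : Fin R) (_ : t ≤ s.val) => LinearMap.range (B s).mulVecLin)
      s hs le_rfl
  have hlt' : ∀ s : Fin R, s.val < t → LinearMap.range (B s).transpose.mulVecLin ≤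
      ⨆ s : Fin R, ⨆ _ : s.val < t, LinearMap.range (B s).transpose.mulVecLin := fun s hs =>
    le_iSup₂_of_le (f := fun (s : Fin R) (_ : s.val < t) =>
      LinearMap.range (B s).transpose.mulVecLin) s hs le_rfl
  have hge' : ∀ s : Fin R, t ≤ s.val → LinearMap.range (B s).transpose.mulVecLin ≤
      ⨆ s : Fin R, ⨆ _ : t ≤ s.val, LinearMap.range (B s).transpose.mulVecLin := fun s hs =>
    le_iSup₂_of_le (f := fun (s : Fin R) (_ : t ≤ s.val) =>
      LinearMap.range (B s).transpose.mulVecLin) s hs le_rfl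
  set D : Fin R → Matrix (Fin N) (Fin N) F := fun s => P * B s * Q.transpose with hD
  have hDt : ∀ s i j, D s i j = (Q * (B s).transpose * P.transpose) j i := by
    intro s i j
    rw [hD]
    have : (Q * (B s).transpose * P.transpose) = (P * B s * Q.transpose).transpose := by
      rw [Matrix.transpose_mul, Matrix.transpose_mul, Matrix.transpose_transpose, Matrix.mul_assoc]
    rw [this, Matrix.transpose_apply]
  have hx1 : ∀ s : Fin R, s.val < t → ∀ i, i ∉ a ∪ I → ∀ j, D s i j = 0 := fun s hs i hi j =>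
    row_zero' P (B s) _ i (fun u hu => hP1 u (hlt s hs hu) i hi) j
  have hx2 : ∀ s : Fin R, s.val < t → ∀ j, j ∉ b ∪ J → ∀ i, D s i j = 0 := fun s hs j hj i => by
    rw [hDt]
    exact row_zero' Q _ _ j (fun u hu => hQ1 u (hlt' s hs hu) j hj) i
  have hy1 : ∀ s : Fin R, ¬ s.val < t → ∀ i ∈ a, ∀ j, D s i j = 0 := fun s hs i hi j =>
    row_zero' P (B s) _ i (fun u hu => hP2 u (hge s (not_lt.1 hs) hu) i hi) j
  have hy2 : ∀ s : Fin R, ¬ s.val < t → ∀ j ∈ b, ∀ i, D s i j = 0 := fun s hs j hj i => by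
    rw [hDt]
    exact row_zero' Q _ _ j (fun u hu => hQ2 u (hge' s (not_lt.1 hs) hu) j hj) i
  set S := (Finset.univ : Finset (Fin R)).filter (fun s => s.val < t) with hS
  set T := (Finset.univ : Finset (Fin R)).filter (fun s => ¬ s.val < t) with hT
  obtain ⟨g, h, hg, hh, hgh⟩ := det_cut (supported F {s : Fin R | s.val < t})
    (supported F {s : Fin R | ¬ s.val < t})
    (∑ s ∈ S, (X s : MvPolynomial (Fin R) F) • (D s).map C)
    (∑ s ∈ T, (X s : MvPolynomial (Fin R) F) • (D s).map C) (fun i j => by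
      rw [pencil_sum_apply]
      refine Subalgebra.sum_mem _ fun s hs => Subalgebra.mul_mem _ ?_ ?_
      · exact X_mem_supported.2 (Finset.mem_filter.1 hs).2
      · exact Subalgebra.algebraMap_mem _ _) (fun i j => by
      rw [pencil_sum_apply]
      refine Subalgebra.sum_mem _ fun s hs => Subalgebra.mul_mem _ ?_ ?_
      · exact X_mem_supported.2 (Finset.mem_filter.1 hs).2
      · exact Subalgebra.algebraMap_mem _ _) a I b J (fun i hi j => by
      rw [pencil_sum_apply]
      exact Finset.sum_eq_zero fun s hs => by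
        rw [hx1 s (Finset.mem_filter.1 hs).2 i hi j, C_0, mul_zero]) (fun j hj i => by
      rw [pencil_sum_apply]
      exact Finset.sum_eq_zero fun s hs => by
        rw [hx2 s (Finset.mem_filter.1 hs).2 j hj i, C_0, mul_zero]) (fun i hi j => by
      rw [pencil_sum_apply]
      exact Finset.sum_eq_zero fun s hs => by
        rw [hy1 s (Finset.mem_filter.1 hs).2 i hi j, C_0, mul_zero]) (fun j hj i => by
      rw [pencil_sum_apply]
      exact Finset.sum_eq_zero fun s hs => by
        rw [hy2 s (Finset.mem_filter.1 hs).2 j hj i, C_0, mul_zero])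
  have h1 : (∑ s ∈ S, (X s : MvPolynomial (Fin R) F) • (D s).map C) +
      (∑ s ∈ T, (X s : MvPolynomial (Fin R) F) • (D s).map C) = pencil D := by
    exact Finset.sum_filter_add_sum_filter_not _ _ _
  rw [h1, hD, det_pencil_conj] at hgh
  set K := (Finset.Icc a (a ∪ I)) ×ˢ (Finset.Icc b (b ∪ J)) with hK
  set c : F := (P.det * Q.transpose.det)⁻¹ with hc
  have hc1 : c * (P.det * Q.transpose.det) = 1 := by
    rw [hc, inv_mul_cancel₀]
    rw [Matrix.det_transpose]
    exact mul_ne_zero hP hQ
  refine ⟨{p // p ∈ K}, inferInstance, fun p => C c * g p.1, fun p => h p.1, ?_, fun p => ?_,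
    fun p => hh _, ?_⟩
  · rw [Fintype.card_coe, hK, Finset.card_product]
    calc _ ≤ 2 ^ I.card * 2 ^ J.card :=
          Nat.mul_le_mul (card_Icc_union a I) (card_Icc_union b J)
      _ ≤ 2 ^ w * 2 ^ w := Nat.mul_le_mul (Nat.pow_le_pow_right (by norm_num) hI)
          (Nat.pow_le_pow_right (by norm_num) hJ)
      _ = 4 ^ w := by rw [← mul_pow]; norm_num
  · exact Subalgebra.mul_mem _ (Subalgebra.algebraMap_mem _ _) (hg _)
  · have h2 : (pencil B).det = C c * (C (P.det * Q.transpose.det) * (pencil B).det) := by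
      rw [← mul_assoc, ← C_mul, hc1, C_1, one_mul]
    rw [h2, hgh, Finset.mul_sum, ← Finset.sum_coe_sort K]
    refine Finset.sum_congr rfl fun p _ => ?_
    rw [mul_assoc]

end pencil

end Pool.Agent.W943.Nis
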