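import Mathlib
import Pool.Agent.W943.Orb4
import Pool.Agent.H530R2.SumRO2

/-!
The decoupling property of the chains of primes which lose one step under differentiation.
-/

namespace Pool.Agent.W943

open Module Pool.Agent.H530R2

section

variable {F : Type*} [Field F] {n : ℕ} {w : ℕ}

/-- polynomials without free variables -/
theorem DChain.H_disj (V : DChain F n) {j : ℕ} {Z : Finset (Fin n)} {Q : MvPolynomial (Fin n) F}
    (h : Q ∈ MvPolynomial.supported F {k : Fin n | k ∉ Z}) : Q ∈ V.H j Z ↔ Q ∈ V.I j := by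
  refine ⟨fun hQ => V.H_le j Z hQ, fun hQ L hL => ?_⟩
  cases L with
  | nil => exact hQ
  | cons i L =>
    have h0 : MvPolynomial.pderiv i Q = 0 := by
      apply MvPolynomial.pderiv_eq_zero_of_notMem_vars
      intro hi
      exact (MvPolynomial.mem_supported.1 h) (by exact_mod_cast hi) (hL i List.mem_cons_self)
    rw [dl_cons, h0, dl_zero]
    exact (V.I j).zero_mem

/-- coefficients in a free variable -/
theorem DChain.H_coeff [CharZero F] (V : DChain F n) (j : ℕ) {Z : Finset (Fin n)} {i0 : Fin n}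
    (hi0 : i0 ∈ Z) (D : ℕ) : ∀ (c : ℕ → MvPolynomial (Fin n) F),
    (∀ e, c e ∈ MvPolynomial.supported F {k : Fin n | k ≠ i0}) →
    (∑ e ∈ Finset.range D, c e * (MvPolynomial.X i0) ^ e) ∈ V.H j Z → ∀ e, e < D →
      c e ∈ V.H j Z := by
  induction D with
  | zero => intro c _ _ e he; omega
  | succ D ih =>
    intro c hc h e he
    have h1 := V.H_stable h hi0
    have h2 : MvPolynomial.pderiv i0 (∑ e ∈ Finset.range (D + 1), c e *
        (MvPolynomial.X i0 : MvPolynomial (Fin n) F) ^ e) =
        ∑ e ∈ Finset.range D, (MvPolynomial.C ((e + 1 : ℕ) : F) * c (e + 1)) *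
          (MvPolynomial.X i0) ^ e := by
      rw [map_sum, Finset.sum_range_succ']
      have h0 : MvPolynomial.pderiv i0 (c 0 * (MvPolynomial.X i0 : MvPolynomial (Fin n) F) ^ 0) =
          0 := by
        rw [pow_zero, mul_one, pderiv_supported_ne (hc 0)]
      rw [h0, add_zero]
      apply Finset.sum_congr rfl
      intro e _
      rw [MvPolynomial.pderiv_mul, pderiv_supported_ne (hc _), zero_mul, zero_add,
        MvPolynomial.pderiv_pow, MvPolynomial.pderiv_X_self, Nat.add_sub_cancel, map_natCast]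
      ring
    rw [h2] at h1
    have h3 : ∀ e < D, c (e + 1) ∈ V.H j Z := by
      intro e he
      have h4 := ih (fun e => MvPolynomial.C ((e + 1 : ℕ) : F) * c (e + 1))
        (fun e => Subalgebra.mul_mem _ (Subalgebra.algebraMap_mem
          (MvPolynomial.supported F {k : Fin n | k ≠ i0}) _) (hc _)) h1 e he
      have h5 : c (e + 1) = MvPolynomial.C (((e + 1 : ℕ) : F)⁻¹) *
          (MvPolynomial.C ((e + 1 : ℕ) : F) * c (e + 1)) := by
        rw [← mul_assoc, ← map_mul, inv_mul_cancel₀ (by exact_mod_cast Nat.succ_ne_zero e),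
          map_one, one_mul]
      rw [h5]
      exact Ideal.mul_mem_left _ _ h4
    cases e with
    | succ e => exact h3 e (by omega)
    | zero =>
      rw [Finset.sum_range_succ', pow_zero, mul_one] at h
      have h4 : ∑ e ∈ Finset.range D, c (e + 1) * (MvPolynomial.X i0) ^ (e + 1) ∈ V.H j Z :=
        Ideal.sum_mem _ fun e he => Ideal.mul_mem_right _ _ (h3 e (Finset.mem_range.1 he))
      have h5 := Ideal.sub_mem _ h h4
      rwa [add_sub_cancel_left] at h5

theorem DChain.coef_extract [CharZero F] (V : DChain F n) (σ : Equiv.Perm (Fin n))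
    (N : ℕ → Matrix (Fin w) (Fin w) (Polynomial F)) (j : ℕ) (m : ℕ) :
    ∀ (a0 : ℕ), a0 + m ≤ n → ∀ (R : Submodule F ((Unit → Fin w) → F))
      (p : (Unit → Fin w) → MvPolynomial (Fin n) F), (∀ i, p i ∈ pS F σ (a0 + m)) →
      (∀ r ∈ R, (emb _ r ⬝ᵥ
        (tp Unit (Pr (pv σ) N a0 m)).mulVec p) ∈ V.H j (Zs σ (a0 + m))) →
      ∀ r ∈ CSn Unit N a0 m R, (emb _ r ⬝ᵥ p) ∈ V.H j (Zs σ (a0 + m)) := by
  induction m with
  | zero =>
    intro a0 _ R p _ h r hr
    have := h r hr
    rwa [Pr_zero, tp_one, Matrix.one_mulVec] at this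
  | succ m ih =>
    intro a0 ham R p hp h r hr
    rw [CSn_succ'] at hr
    have ha0n : a0 < n := by omega
    set i0 := σ ⟨a0, ha0n⟩ with hi0
    have hi0Z : i0 ∈ Zs σ (a0 + (m + 1)) := by
      rw [mem_Zs, hi0]; simp
    have h1 : a0 + 1 + m = a0 + (m + 1) := by ring
    have hp' : ∀ i, p i ∈ pS F σ (a0 + 1 + m) := by
      intro i; rw [h1]; exact hp i
    have := ih (a0 + 1) (by omega) (step Unit N a0 R) p hp' ?_ r hr
    · rwa [h1] at this
    · intro r' hr'
      rw [h1]
      set q := (tp Unit (Pr (pv σ : ℕ → MvPolynomial (Fin n) F) N (a0 + 1) m)).mulVec p with hq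
      -- it suffices to treat the generators
      have hgen : ∀ r0 ∈ R, ∀ e,
          (emb _ (Matrix.vecMul r0 (coefM Unit N a0 e)) ⬝ᵥ q) ∈ V.H j (Zs σ (a0 + (m + 1))) := by
        intro r0 hr0 e
        have h2 := h r0 hr0
        rw [Pr_succ', tp_mul, ← Matrix.mulVec_mulVec, ← hq, emb_vecMul_tp_Nh] at h2
        by_cases he : e < dB N Unit a0
        · have hpv : (pv σ a0 : MvPolynomial (Fin n) F) = MvPolynomial.X i0 := by
            unfold pv; rw [dif_pos ha0n]
          rw [hpv] at h2
          refine V.H_coeff j hi0Z _ (fun e => emb _ (Matrix.vecMul r0 (coefM Unit N a0 e)) ⬝ᵥ q)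
            ?_ h2 e he
          intro e'
          have hqS : ∀ t, q t ∈ pS F σ (a0 + 1) := by
            intro t
            have hPrS : ∀ f g, Pr (pv σ : ℕ → MvPolynomial (Fin n) F) N (a0 + 1) m f g ∈
                pS F σ (a0 + 1) := by
              intro f g
              refine Algebra.adjoin_mono ?_ (en_mem σ N (a0 + 1) m (f, g))
              apply Set.image_mono
              intro k hk
              exact hk.1
            rw [hq]
            refine Subalgebra.sum_mem _ fun l _ => Subalgebra.mul_mem _ ?_ ?_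
            · change tp Unit (Pr (pv σ : ℕ → MvPolynomial (Fin n) F) N (a0 + 1) m) t l ∈
                pS F σ (a0 + 1)
              rw [tp_apply]
              exact Subalgebra.prod_mem _ fun s _ => hPrS _ _
            · have := hp' l
              refine MvPolynomial.supported_mono ?_ this
              intro k hk
              simp only [Set.mem_ofPred_eq] at hk ⊢
              omega
          have hsub : pS F σ (a0 + 1) ≤ MvPolynomial.supported F {k : Fin n | k ≠ i0} := by
            apply MvPolynomial.supported_mono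
            intro k hk
            simp only [Set.mem_ofPred_eq] at hk ⊢
            rintro rfl
            rw [hi0] at hk
            simp at hk
          exact Subalgebra.sum_mem _ fun t _ => Subalgebra.mul_mem _
            (Subalgebra.algebraMap_mem _ _) (hsub (hqS t))
        · rw [coefM_eq_zero N Unit a0 e (not_lt.1 he)]
          simp [emb, dotProduct]
      have hlin : ∀ (x y : (Unit → Fin w) → F),
          (emb (MvPolynomial (Fin n) F) (x + y) ⬝ᵥ q) = (emb _ x ⬝ᵥ q) + (emb _ y ⬝ᵥ q) := by
        intro x y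
        simp [emb, dotProduct, add_mul, Finset.sum_add_distrib]
      unfold step at hr'
      induction hr' using Submodule.span_induction with
      | mem x hx =>
        obtain ⟨r0, hr0, e, rfl⟩ := hx
        exact hgen r0 hr0 e
      | zero =>
        have : emb (MvPolynomial (Fin n) F) (0 : (Unit → Fin w) → F) ⬝ᵥ q = 0 := by
          simp [emb, dotProduct]
        rw [this]
        exact Ideal.zero_mem _
      | add x y _ _ hx hy => rw [hlin]; exact Ideal.add_mem _ hx hy
      | smul c x _ hx =>
        have : emb (MvPolynomial (Fin n) F) (c • x) ⬝ᵥ q =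
            algebraMap F _ c * (emb _ x ⬝ᵥ q) := by
          simp [emb, dotProduct, Finset.mul_sum, mul_assoc]
        rw [this]
        exact Ideal.mul_mem_left _ _ hx

theorem DChain.dec [CharZero F] (V : DChain F n)
    (σ : Equiv.Perm (Fin n)) (N : ℕ → Matrix (Fin w) (Fin w) (Polynomial F)) (a0 m : ℕ)
    (hm : a0 + m ≤ n) (hr : m = 0 ∨ 1 ≤ rk (pv σ : ℕ → MvPolynomial (Fin n) F) N a0 m)
    (R : Submodule F ((Unit → Fin w) → F)) (j : ℕ) (hj : 1 ≤ j)
    (p : (Unit → Fin w) → MvPolynomial (Fin n) F) (hpS : ∀ i, p i ∈ pS F σ (a0 + m))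
    (hk : Kills R ((tp Unit (Pr (pv σ) N a0 m)).mulVec p) (V.I (j + lcost w w * rB w))) :
    Kills (CSn Unit N a0 m R) p (V.I j) := by
  have hQ : ∀ r ∈ R, (emb _ r ⬝ᵥ
      (tp Unit (Pr (pv σ) N a0 m)).mulVec p) ∈ V.H j (Zs σ (a0 + m)) := by
    intro r hr0
    have h1 : (emb _ r ⬝ᵥ
      (tp Unit (Pr (pv σ) N a0 m)).mulVec p) ∈ V.I (j + lcost w w * rB w) := hk r hr0
    have hen : ∀ f g, Pr (pv σ : ℕ → MvPolynomial (Fin n) F) N a0 m f g ∈
        Algebra.adjoin F (Set.range (en (F := F) σ N a0 m) ∪
          MvPolynomial.X '' {k : Fin n | k ∉ Zs σ (a0 + m)}) :=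
      fun f g => Algebra.subset_adjoin (Or.inl ⟨(f, g), rfl⟩)
    have hpA : ∀ i, p i ∈ Algebra.adjoin F (Set.range (en (F := F) σ N a0 m) ∪
          MvPolynomial.X '' {k : Fin n | k ∉ Zs σ (a0 + m)}) := by
      intro i
      refine Algebra.adjoin_mono ?_ (hpS i)
      refine (Set.image_mono ?_).trans Set.subset_union_right
      intro k hk
      simp only [Set.mem_ofPred_eq, mem_Zs] at hk ⊢
      omega
    have hmem : emb _ r ⬝ᵥ (tp Unit (Pr (pv σ) N a0 m)).mulVec p ∈
        Algebra.adjoin F (Set.range (en (F := F) σ N a0 m) ∪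
          MvPolynomial.X '' {k : Fin n | k ∉ Zs σ (a0 + m)}) := by
      refine Subalgebra.sum_mem _ fun t _ => Subalgebra.mul_mem _
        (Subalgebra.algebraMap_mem _ _) (Subalgebra.sum_mem _ fun l _ =>
          Subalgebra.mul_mem _ ?_ (hpA l))
      change tp Unit (Pr (pv σ : ℕ → MvPolynomial (Fin n) F) N a0 m) t l ∈ _
      rw [tp_apply]
      exact Subalgebra.prod_mem _ fun s _ => hen _ _
    have hctrl : Ctrl ((Zs σ (a0 + m) \ Zs σ a0 : Finset (Fin n)) : Set (Fin n))
        (en σ N a0 (a0 + m - a0)) (emb _ r ⬝ᵥ (tp Unit (Pr (pv σ) N a0 m)).mulVec p) := by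
      rw [Nat.add_sub_cancel_left]
      refine (ctrl_of_adjoin hmem).mono ?_
      intro k hk
      rw [Finset.mem_coe, Finset.mem_sdiff] at hk
      simpa using hk.1
    have hsuppZ : emb _ r ⬝ᵥ (tp Unit (Pr (pv σ) N a0 m)).mulVec p ∈
        MvPolynomial.supported F {k : Fin n | k ∉ Zs σ a0} := by
      have hPrS : ∀ f g, Pr (pv σ : ℕ → MvPolynomial (Fin n) F) N a0 m f g ∈
          MvPolynomial.supported F {k : Fin n | k ∉ Zs σ a0} := by
        intro f g
        refine Algebra.adjoin_mono ?_ (en_mem σ N a0 m (f, g))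
        apply Set.image_mono
        intro k hk
        simp only [Set.mem_ofPred_eq, mem_Zs] at hk ⊢
        omega
      refine Subalgebra.sum_mem _ fun t _ => Subalgebra.mul_mem _
        (Subalgebra.algebraMap_mem _ _) (Subalgebra.sum_mem _ fun l _ =>
          Subalgebra.mul_mem _ ?_ ?_)
      · change tp Unit (Pr (pv σ : ℕ → MvPolynomial (Fin n) F) N a0 m) t l ∈ _
        rw [tp_apply]
        exact Subalgebra.prod_mem _ fun s _ => hPrS _ _
      · refine MvPolynomial.supported_mono ?_ (hpS l)
        intro k hk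
        simp only [Set.mem_ofPred_eq, mem_Zs] at hk ⊢
        omega
    have hres := (V.vanG j (rB w) hj).lin_dec σ N
      (fun s m ρ κ g hρ i => minor_Bdl σ N s m ρ κ g hρ i) w le_rfl a0 (a0 + m) (by omega) hm
      ?_ _ ?_ hctrl 0 ?_
    · have h2 : (emb _ r ⬝ᵥ (tp Unit (Pr (pv σ) N a0 m)).mulVec p) ∈
        V.H (j + 0 * rB w) (Zs σ (a0 + m)) := hres
      rwa [zero_mul, add_zero] at h2
    · rcases hr with h | h
      · left; omega
      · right
        rw [Nat.add_sub_cancel_left]
        omega
    · intro i hi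
      rw [Finset.mem_sdiff, mem_Zs, mem_Zs] at hi
      have hfree : ∀ t, p t ∈ MvPolynomial.supported F {k : Fin n | k ≠ i} := by
        intro t
        refine MvPolynomial.supported_mono ?_ (hpS t)
        intro k hk
        simp only [Set.mem_ofPred_eq] at hk ⊢
        rintro rfl
        omega
      have hb : BdF i (bN (N (σ.symm i).val)) (emb _ r ⬝ᵥ
          (tp Unit (Pr (pv σ) N a0 m)).mulVec p) := by
        refine BdF.sum _ fun t _ => BdF.free_mul ?_ (Subalgebra.algebraMap_mem _ _)
        refine BdF.sum _ fun l _ => BdF.mul_free ?_ (hfree l)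
        have h3 : tp Unit (Pr (pv σ : ℕ → MvPolynomial (Fin n) F) N a0 m) t l =
            en σ N a0 m (t (), l ()) := by
          rw [tp_apply]
          simp [en]
        show BdF i _ (tp Unit (Pr (pv σ : ℕ → MvPolynomial (Fin n) F) N a0 m) t l)
        rw [h3]
        exact en_BdF σ N a0 m _ i
      refine hb.bdl.mono ?_
      rw [Fintype.card_option, Fintype.card_prod, Fintype.card_fin]
      exact le_rB w
    · show _ ∈ V.H (j + (0 + lcost w w) * rB w) (Zs σ a0)
      rw [zero_add]
      exact (V.H_disj hsuppZ).2 h1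
  intro r hr0
  have h2 := V.coef_extract σ N j m a0 hm R p hpS hQ r hr0
  have hS : emb _ r ⬝ᵥ p ∈ MvPolynomial.supported F {k : Fin n | k ∉ Zs σ (a0 + m)} := by
    refine Subalgebra.sum_mem _ fun t _ => Subalgebra.mul_mem _
      (Subalgebra.algebraMap_mem _ _) ?_
    refine MvPolynomial.supported_mono ?_ (hpS t)
    intro k hk
    simp only [Set.mem_ofPred_eq, mem_Zs] at hk ⊢
    omega
  exact (V.H_disj hS).1 h2

end

end Pool.Agent.W943
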