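import Mathlib
import Pool.Agent.W943.Orb6
import Pool.Agent.H530R2.Hit

/-!
The chain of primes of the generator, pull-backs of chains under polynomial maps with a
nonvanishing Jacobian minor, and the main theorem on compositions.
-/

namespace Pool.Agent.W943

open MvPolynomial Pool.Agent.H530R2

section gen

variable {F : Type*} [Field F] {n : ℕ}

theorem gen_of_hyb (a : Fin n → F) (j : ℕ) (Z : Finset (Fin n)) (Q : MvPolynomial (Fin n) F) :
    MvPolynomial.aeval (R := MvPolynomial (Fin j ⊕ Fin j) F)
      (fun k => gen a j (X k)) (hyb a j Z Q) = gen a j Q := by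
  induction Q using MvPolynomial.induction_on with
  | C r =>
    rw [hyb_C, MvPolynomial.aeval_C]
    exact ((gen a j).commutes r).symm
  | add p q hp hq => rw [map_add, map_add, hp, hq, map_add]
  | mul_X p i hp =>
    rw [map_mul, map_mul, hp, map_mul]
    congr 1
    by_cases hi : i ∈ Z
    · rw [hyb_X_mem a j hi, MvPolynomial.aeval_X]
    · rw [hyb_X_not_mem a j hi, MvPolynomial.aeval_C]
      rfl

theorem genI_der (a : Fin n → F) (ha : Function.Injective a) (j : ℕ) (i : Fin n)
    (Q : MvPolynomial (Fin n) F) (h : Q ∈ genI a (j + 1)) : pderiv i Q ∈ genI a j := by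
  have h0 : gen a (j + 1) Q = 0 := h
  have h1 : hyb a (j + 1) ∅ Q = 0 := by rw [hyb_empty, h0, map_zero]
  have h2 : hyb a j (insert i ∅) Q = 0 := hyb_free a ha j ∅ i h1
  have h3 : hyb a j (insert i ∅) (pderiv i Q) = 0 := by
    rw [← pderiv_hyb a j (Finset.mem_insert_self _ _), h2, map_zero]
  show gen a j (pderiv i Q) = 0
  rw [← gen_of_hyb a j (insert i ∅), h3, map_zero]

/-- the chain of primes of the generator -/
noncomputable def genChain (a : Fin n → F) (ha : Function.Injective a) : DChain F n where
  I := genI a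
  prime := genI_prime a
  anti := genI_anti a
  der := fun j i Q h => genI_der a ha j i Q h

end gen

section pull

variable {F : Type*} [Field F] {n m : ℕ}

theorem pderiv_aeval_chain (φ : Fin m → MvPolynomial (Fin n) F) (l : Fin n)
    (Q : MvPolynomial (Fin m) F) :
    pderiv l (aeval φ Q) = ∑ k, aeval φ (pderiv k Q) * pderiv l (φ k) := by
  induction Q using MvPolynomial.induction_on with
  | C r => 
    rw [MvPolynomial.aeval_C]
    have : pderiv l ((algebraMap F (MvPolynomial (Fin n) F)) r) = 0 := pderiv_C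
    rw [this]
    simp
  | add p q hp hq =>
    rw [map_add, map_add, hp, hq, ← Finset.sum_add_distrib]
    apply Finset.sum_congr rfl
    intro k _
    rw [map_add, map_add, add_mul]
  | mul_X p i hp =>
    rw [map_mul, pderiv_mul, hp, aeval_X]
    have h1 : ∀ k, aeval φ (pderiv k (p * X i)) * pderiv l (φ k) =
        aeval φ (pderiv k p) * pderiv l (φ k) * φ i +
          aeval φ p * (aeval φ (pderiv k (X i : MvPolynomial (Fin m) F)) * pderiv l (φ k)) := by
      intro k
      rw [pderiv_mul, map_add, map_mul, map_mul, aeval_X]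
      ring
    simp only [h1]
    rw [Finset.sum_add_distrib, Finset.sum_mul, ← Finset.mul_sum]
    congr 2
    rw [Finset.sum_eq_single i]
    · rw [pderiv_X_self, map_one, one_mul]
    · intro k _ hk
      rw [pderiv_X_of_ne (Ne.symm hk), map_zero, zero_mul]
    · intro h; exact absurd (Finset.mem_univ _) h

/-- pull-back of a chain -/
noncomputable def DChain.pull (V : DChain F n) (φ : Fin m → MvPolynomial (Fin n) F)
    (D : Fin m → Fin n → MvPolynomial (Fin n) F) (Δ : MvPolynomial (Fin n) F)
    (hD : ∀ i k, ∑ l, D i l * pderiv l (φ k) = if i = k then Δ else 0) (s : ℕ)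
    (hΔ : Δ ∉ V.I s) : DChain F m where
  I j := Ideal.comap (aeval φ : MvPolynomial (Fin m) F →ₐ[F] MvPolynomial (Fin n) F) (V.I (s + j))
  prime j := by
    have := V.prime (s + j)
    exact Ideal.IsPrime.comap _
  anti j := Ideal.comap_mono (V.anti (s + j))
  der := by
    intro j i Q h
    have h1 : aeval φ Q ∈ V.I (s + j + 1) := h
    have h2 : ∑ l, D i l * pderiv l (aeval φ Q) ∈ V.I (s + j) :=
      Ideal.sum_mem _ fun l _ => Ideal.mul_mem_left _ _ (V.der _ _ _ h1)
    have h3 : ∑ l, D i l * pderiv l (aeval φ Q) = aeval φ (pderiv i Q) * Δ := by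
      simp only [pderiv_aeval_chain, Finset.mul_sum]
      rw [Finset.sum_comm]
      have h4 : ∀ k, ∑ l, D i l * (aeval φ (pderiv k Q) * pderiv l (φ k)) =
          aeval φ (pderiv k Q) * (if i = k then Δ else 0) := by
        intro k
        rw [← hD i k, Finset.mul_sum]
        apply Finset.sum_congr rfl
        intro l _
        ring
      simp only [h4]
      simp
    rw [h3] at h2
    rcases (V.prime (s + j)).mem_or_mem h2 with h5 | h5
    · exact h5
    · exact absurd (V.mono (Nat.le_add_right s j) h5) hΔ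

theorem DChain.comp_notMem [CharZero F] (V : DChain F n) (φ : Fin m → MvPolynomial (Fin n) F)
    (D : Fin m → Fin n → MvPolynomial (Fin n) F) (Δ : MvPolynomial (Fin n) F)
    (hD : ∀ i k, ∑ l, D i l * pderiv l (φ k) = if i = k then Δ else 0) (s : ℕ)
    (hΔ : Δ ∉ V.I s) (c w : ℕ) (σs : Fin c → Equiv.Perm (Fin m)) (f : MvPolynomial (Fin m) F)
    (hf : SumRO σs w Set.univ f) (hf0 : f ≠ 0) : aeval φ f ∉ V.I (s + seedsO c w) := by
  intro h
  exact hf0 ((V.pull φ D Δ hD s hΔ).sumRO_eq_zero c w σs f hf h)

/-- nonzero polynomials of low degree -/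
theorem DChain.low_notMem [CharZero F] (V : DChain F n) (d : ℕ) :
    ∀ f : MvPolynomial (Fin n) F, f ≠ 0 → f.totalDegree ≤ d → f ∉ V.I d := by
  induction d with
  | zero =>
    intro f hf0 hd h
    have h1 := totalDegree_eq_zero_iff_eq_C.1 (Nat.le_zero.1 hd)
    rw [h1] at h hf0
    exact hf0 (by rw [V.const_mem h, map_zero])
  | succ d ih =>
    intro f hf0 hd h
    by_cases h1 : ∀ k, pderiv k f = 0
    · have h2 := eq_C_of_pderiv h1
      rw [h2] at h hf0
      exact hf0 (by rw [V.const_mem h, map_zero])
    · push Not at h1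
      obtain ⟨k, hk⟩ := h1
      refine ih _ hk ?_ (V.der _ _ _ h)
      have := totalDegree_pderiv_le k f
      omega

end pull

end Pool.Agent.W943
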