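import Mathlib
import Pool.Agent.W943.Nis5
import Pool.Agent.W943.Orb7

/-!
Determinants of linear combinations of matrices of small linear width, with univariate
coefficients, avoid the ideals of chains of primes.
-/

set_option autoImplicit false

namespace Pool.Agent.W943.Nis

open MvPolynomial Module Pool.Agent.H530R2

section mem

variable {F : Type*} [Field F] [CharZero F] {R N n : ℕ}

/-- the parameter of the class of determinants -/
def dW (w k : ℕ) : ℕ := 1 + k + 4 ^ w * 4 ^ w + (4 ^ w * 4 ^ w * 2 + 1) ^ k + 1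

theorem uni_mem (i : Fin n) (p : Polynomial F) :
    Polynomial.aeval (X i : MvPolynomial (Fin n) F) p ∈ (baseO F).K n 1 := by
  have h1 : Polynomial.aeval (X i : MvPolynomial (Fin n) F) p ∈ Uni n 1 :=
    ⟨[(i, p)], le_rfl, by simp⟩
  have h2 : (1 : MvPolynomial (Fin n) F) ∈ Low n 1 := by
    show (1 : MvPolynomial (Fin n) F).totalDegree ≤ 1
    rw [totalDegree_one]
    exact Nat.zero_le _
  have := SP.one_term h1 h2 le_rfl
  rwa [mul_one] at this

/-- a linear combination with polynomial coefficients -/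
noncomputable def combo {F : Type*} [Field F] {R N N' n : ℕ} (z : Fin R → MvPolynomial (Fin n) F)
    (B : Fin R → Matrix (Fin N) (Fin N') F) : Matrix (Fin N) (Fin N') (MvPolynomial (Fin n) F) :=
  ∑ s, z s • (B s).map C

omit [CharZero F] in
theorem aeval_det_pencil (B : Fin R → Matrix (Fin N) (Fin N) F)
    (z : Fin R → MvPolynomial (Fin n) F) :
    aeval z (pencil B).det = (combo z B).det := by
  rw [AlgHom.map_det]
  congr 1
  ext1 i j
  unfold pencil combo
  simp only [AlgHom.mapMatrix_apply, Matrix.map_apply, Matrix.sum_apply, Matrix.smul_apply,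
    map_sum, smul_eq_mul, map_mul, aeval_X]
  refine Finset.sum_congr rfl fun s _ => ?_
  rw [aeval_C]
  rfl

/-- the determinants are in the class of linear programs over univariate polynomials -/
theorem det_mem_next {w k : ℕ} {B : Fin R → Matrix (Fin N) (Fin N) F} (hB : LinWidth w B)
    (a : Fin R → Fin n) (p : Fin R → Polynomial F)
    (ha : ∀ x, (Finset.univ.filter fun t => a t = x).card ≤ k) :
    (combo (fun s => Polynomial.aeval (X (a s) : MvPolynomial (Fin n) F) (p s)) B).det ∈
      ((baseO F).next).K n (dW w k) := by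
  classical
  obtain ⟨u, v, M, -, hM⟩ := nisan (cutRank_det hB)
    (fun t => if ht : t < R then degreeOf ⟨t, ht⟩ (pencil B).det else 0)
    (fun t ht => by rw [dif_pos ht])
  set z : ℕ → MvPolynomial (Fin n) F := fun t => if ht : t < R then
    Polynomial.aeval (X (a ⟨t, ht⟩)) (p ⟨t, ht⟩) else 0 with hz
  have hzt : ∀ t : Fin R, z t.val = Polynomial.aeval (X (a t)) (p t) := by
    intro t
    rw [hz]
    simp only [dif_pos t.isLt]
  have h1 := hM z
  simp only [hzt] at h1
  rw [aeval_det_pencil] at h1
  rw [h1]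
  have huni : ∀ t, ∀ ht : t < R, ∀ l j, (M t).map (Polynomial.aeval (z t)) l j =
      Polynomial.aeval (X (a ⟨t, ht⟩)) ((M t l j).comp (p ⟨t, ht⟩)) := by
    intro t ht l j
    rw [Matrix.map_apply, Polynomial.aeval_comp, ← hzt ⟨t, ht⟩]
  refine linear_mem (baseO F) (W := 1) (k := k) u v _ R ?_ ?_
  · intro t ht l j
    rw [huni t ht]
    exact uni_mem _ _
  · intro x
    refine le_trans ?_ (ha x)
    rw [← Finset.card_map (⟨Fin.val, Fin.val_injective⟩ : Fin R ↪ ℕ)]
    apply Finset.card_le_card
    intro t ht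
    obtain ⟨ht1, l, j, hlj⟩ := Finset.mem_filter.1 ht
    rw [Finset.mem_range] at ht1
    refine Finset.mem_map.2 ⟨⟨t, ht1⟩, Finset.mem_filter.2 ⟨Finset.mem_univ _, ?_⟩, rfl⟩
    rw [huni t ht1] at hlj
    by_contra hne
    have h3 : Polynomial.aeval (X (a ⟨t, ht1⟩) : MvPolynomial (Fin n) F)
        ((M t l j).comp (p ⟨t, ht1⟩)) ∈ supported F ({a ⟨t, ht1⟩} : Set (Fin n)) := by
      have h4 : (X (a ⟨t, ht1⟩) : MvPolynomial (Fin n) F) ∈
          supported F ({a ⟨t, ht1⟩} : Set (Fin n)) := X_mem_supported.2 rfl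
      exact (Algebra.adjoin_le (S := supported F ({a ⟨t, ht1⟩} : Set (Fin n)))
        (Set.singleton_subset_iff.2 h4)) (Polynomial.aeval_mem_adjoin_singleton F _)
    exact hne ((mem_supported.1 h3) (Finset.mem_coe.2 hlj)).symm

/-- the number of seeds -/
noncomputable def sd (F : Type*) [Field F] [CharZero F] (w k : ℕ) : ℕ :=
  (((baseO F).next).seeds (dW w k)).choose + 1

theorem notMem_next {W : ℕ} {f : MvPolynomial (Fin n) F} (hf : f ∈ ((baseO F).next).K n W)
    (h0 : f ≠ 0) (V : DChain F n) : f ∉ V.I ((((baseO F).next).seeds W).choose + 1) := by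
  intro hmem
  apply h0
  refine (((baseO F).next).seeds W).choose_spec n V f hf ∅ ?_
  show _ ∈ V.H _ ∅
  rw [V.H_empty]
  exact hmem

/-- determinants composed with polynomial maps whose Jacobian matrix has a left inverse up to a
factor outside of the ideals -/
theorem det_comp_notMem {m w k s : ℕ} {B : Fin R → Matrix (Fin N) (Fin N) F} (hB : LinWidth w B)
    (a : Fin R → Fin m) (p : Fin R → Polynomial F)
    (ha : ∀ x, (Finset.univ.filter fun t => a t = x).card ≤ k) (V : DChain F n)
    (φ : Fin m → MvPolynomial (Fin n) F) (E : Fin m → Fin n → MvPolynomial (Fin n) F)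
    (Δ : MvPolynomial (Fin n) F) (hE : ∀ i k, ∑ l, E i l * pderiv l (φ k) = if i = k then Δ else 0)
    (hΔ : Δ ∉ V.I s)
    (h0 : (combo (fun s => Polynomial.aeval (φ (a s)) (p s)) B).det ≠ 0) :
    (combo (fun s => Polynomial.aeval (φ (a s)) (p s)) B).det ∉ V.I (s + sd F w k) := by
  have h1 : (combo (fun s => Polynomial.aeval (φ (a s)) (p s)) B).det = aeval φ
      (combo (fun s => Polynomial.aeval (X (a s) : MvPolynomial (Fin m) F) (p s)) B).det := by
    rw [← aeval_det_pencil B (fun s => Polynomial.aeval (φ (a s)) (p s)),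
      ← aeval_det_pencil B (fun s => Polynomial.aeval (X (a s)) (p s)), ← AlgHom.comp_apply,
      comp_aeval]
    congr 2
    funext s
    rw [← Polynomial.aeval_algHom_apply, aeval_X]
  rw [h1] at h0 ⊢
  intro hmem
  refine notMem_next (det_mem_next hB a p ha) (fun h => h0 (by rw [h, map_zero]))
    (V.pull φ E Δ hE s hΔ) ?_
  exact hmem

end mem

end Pool.Agent.W943.Nis
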