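import Mathlib
import Pool.Agent.W943.Orb7

/-!
Further closure properties for chains of primes which lose one step under differentiation:
few variables, vector fields and Wronskians.
-/

namespace Pool.Agent.W943

open MvPolynomial Pool.Agent.H530R2

section few

variable {F : Type*} [Field F] [CharZero F] {n : ℕ}

theorem DChain.eq_bot_of_stable (V : DChain F n) (j : ℕ) (h : V.I (j + 1) = V.I j) :
    V.I j = ⊥ := by
  have key : ∀ d : ℕ, ∀ f : MvPolynomial (Fin n) F, f.totalDegree ≤ d → f ∈ V.I j → f = 0 := by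
    intro d
    induction d with
    | zero =>
      intro f hd hf
      have h1 := totalDegree_eq_zero_iff_eq_C.1 (Nat.le_zero.1 hd)
      rw [h1] at hf ⊢
      rw [V.const_mem hf, map_zero]
    | succ d ih =>
      intro f hd hf
      have h1 : ∀ k, pderiv k f = 0 := by
        intro k
        refine ih _ ?_ (V.der _ _ _ (by rw [h]; exact hf))
        have := totalDegree_pderiv_le k f
        omega
      have h2 := eq_C_of_pderiv h1
      rw [h2] at hf ⊢
      rw [V.const_mem hf, map_zero]
  rw [eq_bot_iff]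
  intro f hf
  exact (Submodule.mem_bot _).2 (key _ f le_rfl hf)

/-- In `n` variables the ideal at level `n` is zero. -/
theorem DChain.level_n (V : DChain F n) : V.I n = ⊥ := by
  by_contra hne
  have hlt : ∀ j < n, V.I (j + 1) < V.I j := by
    intro j hj
    refine lt_of_le_of_ne (V.anti j) fun h => hne ?_
    have h1 := V.eq_bot_of_stable j h
    rw [eq_bot_iff, ← h1]
    exact V.mono hj.le
  let p : Fin (n + 1 + 1) → PrimeSpectrum (MvPolynomial (Fin n) F) :=
    Fin.cases (⟨⊥, Ideal.isPrime_bot⟩) (fun k => ⟨V.I (n - k.val), V.prime _⟩)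
  have hp0 : p 0 = ⟨⊥, Ideal.isPrime_bot⟩ := rfl
  have hps : ∀ k : Fin (n + 1), p k.succ = ⟨V.I (n - k.val), V.prime _⟩ := fun k => rfl
  have hmono : StrictMono p := by
    rw [Fin.strictMono_iff_lt_succ]
    intro i
    rw [hps i]
    refine Fin.cases ?_ (fun k => ?_) i
    · show p 0 < _
      rw [hp0, ← PrimeSpectrum.asIdeal_lt_asIdeal]
      show ⊥ < V.I (n - 0)
      rw [Nat.sub_zero]
      exact bot_lt_iff_ne_bot.2 hne
    · have h1 : p k.succ.castSucc = ⟨V.I (n - k.val), V.prime _⟩ := by
        have h2 : k.succ.castSucc = (k.castSucc).succ := rfl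
        rw [h2, hps]
        rfl
      rw [h1, ← PrimeSpectrum.asIdeal_lt_asIdeal]
      show V.I (n - k.val) < V.I (n - (k.val + 1))
      have h3 := hlt (n - (k.val + 1)) (by have := k.isLt; omega)
      rwa [show n - (k.val + 1) + 1 = n - k.val by have := k.isLt; omega] at h3
  have h1 := Order.LTSeries.length_le_krullDim (LTSeries.mk (n + 1) p hmono)
  have h2 : Order.krullDim (PrimeSpectrum (MvPolynomial (Fin n) F)) = (n : WithBot ℕ∞) := by
    have h3 := MvPolynomial.ringKrullDim_of_isNoetherianRing (R := F) (ι := Fin n)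
    rw [ringKrullDim_eq_zero_of_field, zero_add, Nat.card_eq_fintype_card, Fintype.card_fin] at h3
    exact h3
  rw [h2] at h1
  have h3 : ((n + 1 : ℕ) : WithBot ℕ∞) ≤ ((n : ℕ) : WithBot ℕ∞) := h1
  have h4 : n + 1 ≤ n := by exact_mod_cast h3
  omega

end few

section vf

variable {F : Type*} [Field F] {n : ℕ}

/-- the derivative along a polynomial vector field -/
noncomputable def vf (D : Fin n → MvPolynomial (Fin n) F) (P : MvPolynomial (Fin n) F) :
    MvPolynomial (Fin n) F := ∑ l, D l * pderiv l P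

theorem vf_mul (D : Fin n → MvPolynomial (Fin n) F) (P Q : MvPolynomial (Fin n) F) :
    vf D (P * Q) = vf D P * Q + P * vf D Q := by
  unfold vf
  rw [Finset.sum_mul, Finset.mul_sum, ← Finset.sum_add_distrib]
  apply Finset.sum_congr rfl
  intro l _
  rw [pderiv_mul]
  ring

theorem vf_sum (D : Fin n → MvPolynomial (Fin n) F) {τ : Type*} (s : Finset τ)
    (P : τ → MvPolynomial (Fin n) F) : vf D (∑ t ∈ s, P t) = ∑ t ∈ s, vf D (P t) := by
  unfold vf
  rw [Finset.sum_comm]
  apply Finset.sum_congr rfl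
  intro _ _
  rw [map_sum, Finset.mul_sum]

theorem DChain.vf_mem (V : DChain F n) (D : Fin n → MvPolynomial (Fin n) F) {j : ℕ}
    {P : MvPolynomial (Fin n) F} (h : P ∈ V.I (j + 1)) : vf D P ∈ V.I j :=
  Ideal.sum_mem _ fun l _ => Ideal.mul_mem_left _ _ (V.der _ _ _ h)

theorem DChain.vf_iter_mem (V : DChain F n) (D : Fin n → MvPolynomial (Fin n) F) (k : ℕ) :
    ∀ {j : ℕ} {P : MvPolynomial (Fin n) F}, P ∈ V.I (j + k) → ((vf D)^[k]) P ∈ V.I j := by
  induction k with
  | zero => intro j P h; exact h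
  | succ k ih =>
    intro j P h
    rw [Function.iterate_succ_apply]
    exact ih (V.vf_mem D h)

/-- The Wronskian criterion: the coefficients are eliminated with the vector field. -/
theorem DChain.wronskian (V : DChain F n) (D : Fin n → MvPolynomial (Fin n) F) (s r : ℕ)
    (h Q : Fin (r + 1) → MvPolynomial (Fin n) F) (hQ : ∀ α, vf D (Q α) = 0)
    (hf : ∑ α, h α * Q α ∈ V.I (s + r)) (α : Fin (r + 1)) :
    (Matrix.of fun k β : Fin (r + 1) => ((vf D)^[k.val]) (h β)).det * Q α ∈ V.I s := by
  classical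
  set W : Matrix (Fin (r + 1)) (Fin (r + 1)) (MvPolynomial (Fin n) F) :=
    Matrix.of fun k β : Fin (r + 1) => ((vf D)^[k.val]) (h β) with hW
  have h1 : ∀ k : ℕ, ((vf D)^[k]) (∑ α, h α * Q α) = ∑ α, ((vf D)^[k]) (h α) * Q α := by
    intro k
    induction k with
    | zero => rfl
    | succ k ih =>
      rw [Function.iterate_succ_apply', ih, vf_sum]
      apply Finset.sum_congr rfl
      intro α _
      rw [vf_mul, hQ, mul_zero, add_zero, Function.iterate_succ_apply']
  have h2 : ∀ k : Fin (r + 1), (W.mulVec Q) k ∈ V.I s := by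
    intro k
    have h3 : (W.mulVec Q) k = ((vf D)^[k.val]) (∑ α, h α * Q α) := by
      rw [h1]; rfl
    rw [h3]
    apply V.vf_iter_mem D
    exact V.mono (by have := k.isLt; omega) hf
  have h3 : W.det • Q = W.adjugate.mulVec (W.mulVec Q) := by
    rw [Matrix.mulVec_mulVec, Matrix.adjugate_mul, Matrix.smul_mulVec, Matrix.one_mulVec]
  have h4 := congrFun h3 α
  rw [Pi.smul_apply, smul_eq_mul] at h4
  rw [h4]
  show ∑ k, W.adjugate α k * (W.mulVec Q) k ∈ V.I s
  exact Ideal.sum_mem _ fun k _ => Ideal.mul_mem_left _ _ (h2 k)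

end vf

end Pool.Agent.W943
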