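import Pool.Agent.W943.Aff4

/-! # Lower bounds for programs which read affine forms -/

set_option autoImplicit false

namespace Pool.Agent.W943.Aff

open Matrix Finset Equiv

universe u

/-- choice of the segments -/
theorem exists_coloring {ι : Type*} [DecidableEq ι] (G : Finset ι) (r : ℕ) (S : ι → Finset ℕ)
    (hS : ∀ a ∈ G, S a ⊆ range r) (k : ℕ) (hk : ∀ a ∈ G, (S a).card ≤ k) (b : ℕ)
    (hb : ∀ s ∈ range r, (G.filter (fun a => s ∈ S a)).card ≤ b) (hbk : 2 * (b * k) ≤ G.card) :
    ∃ κ ∈ (range r).powerset, G.card ≤ 2 * 4 ^ k * (G.filter (fun a => S a ⊆ κ)).card ∧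
      G.card ≤ 2 * 4 ^ k * (G.filter (fun a => Disjoint (S a) κ)).card := by
  classical
  rcases Nat.eq_zero_or_pos G.card with h0 | h0
  · exact ⟨∅, by simp, by omega, by omega⟩
  -- pairs which share a segment
  have hshare : ((G ×ˢ G).filter (fun p => ¬ Disjoint (S p.1) (S p.2))).card
      ≤ b * k * G.card := by
    have h1 : (G ×ˢ G).filter (fun p => ¬ Disjoint (S p.1) (S p.2)) ⊆
        (range r).biUnion (fun s => (G.filter (fun a => s ∈ S a)) ×ˢ
          (G.filter (fun a => s ∈ S a))) := by
      intro p hp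
      rw [mem_filter, mem_product, Finset.not_disjoint_iff] at hp
      obtain ⟨⟨hp1, hp2⟩, s, hs1, hs2⟩ := hp
      rw [mem_biUnion]
      refine ⟨s, hS _ hp1 hs1, ?_⟩
      rw [mem_product, mem_filter, mem_filter]
      exact ⟨⟨hp1, hs1⟩, ⟨hp2, hs2⟩⟩
    calc ((G ×ˢ G).filter (fun p => ¬ Disjoint (S p.1) (S p.2))).card
        ≤ _ := card_le_card h1
      _ ≤ ∑ s ∈ range r, ((G.filter (fun a => s ∈ S a)) ×ˢ
          (G.filter (fun a => s ∈ S a))).card := card_biUnion_le
      _ ≤ ∑ s ∈ range r, b * (G.filter (fun a => s ∈ S a)).card := by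
          refine sum_le_sum fun s hs => ?_
          rw [card_product]
          exact Nat.mul_le_mul_right _ (hb s hs)
      _ = b * ∑ s ∈ range r, ∑ a ∈ G, if s ∈ S a then 1 else 0 := by
          rw [Finset.mul_sum]
          refine sum_congr rfl fun s _ => ?_
          rw [card_filter]
      _ = b * ∑ a ∈ G, ((range r).filter (fun s => s ∈ S a)).card := by
          rw [sum_comm]
          congr 1
          refine sum_congr rfl fun a _ => ?_
          rw [card_filter]
      _ ≤ b * ∑ a ∈ G, k := by
          refine Nat.mul_le_mul_left _ (sum_le_sum fun a ha => ?_)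
          refine le_trans (card_le_card ?_) (hk a ha)
          intro s hs
          exact (mem_filter.1 hs).2
      _ = b * k * G.card := by
          rw [sum_const, smul_eq_mul]; ring
  set Q := (G ×ˢ G).filter (fun p => Disjoint (S p.1) (S p.2)) with hQ
  have hQc : G.card * G.card ≤ 2 * Q.card := by
    have h1 := Finset.card_filter_add_card_filter_not (s := G ×ˢ G)
      (fun p => Disjoint (S p.1) (S p.2))
    rw [card_product, ← hQ] at h1
    have h2 : 2 * (b * k * G.card) ≤ G.card * G.card := by
      calc 2 * (b * k * G.card) = 2 * (b * k) * G.card := by ring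
        _ ≤ G.card * G.card := Nat.mul_le_mul_right _ hbk
    omega
  by_contra hcon
  push Not at hcon
  -- count
  have hsum : ∑ κ ∈ (range r).powerset, (G.filter (fun a => S a ⊆ κ)).card *
      (G.filter (fun a => Disjoint (S a) κ)).card
      = ∑ p ∈ G ×ˢ G, ((range r).powerset.filter (fun κ => S p.1 ⊆ κ ∧
        Disjoint (S p.2) κ)).card := by
    simp only [card_filter]
    rw [sum_comm]
    refine sum_congr rfl fun κ _ => ?_
    rw [sum_mul_sum, sum_product]
    refine sum_congr rfl fun a _ => ?_
    refine sum_congr rfl fun a' _ => ?_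
    split_ifs <;> simp_all
  have hlow : ∀ p ∈ Q, 2 ^ r ≤ 4 ^ k * ((range r).powerset.filter (fun κ => S p.1 ⊆ κ ∧
        Disjoint (S p.2) κ)).card := by
    intro p hp
    rw [hQ, mem_filter, mem_product] at hp
    obtain ⟨⟨hp1, hp2⟩, hd⟩ := hp
    have h1 : (((range r) \ (S p.1 ∪ S p.2)).powerset.image (fun κ => κ ∪ S p.1)) ⊆
        (range r).powerset.filter (fun κ => S p.1 ⊆ κ ∧ Disjoint (S p.2) κ) := by
      intro κ hκ
      obtain ⟨κ', hκ', rfl⟩ := mem_image.1 hκ
      rw [mem_powerset] at hκ'
      rw [mem_filter, mem_powerset]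
      refine ⟨union_subset (hκ'.trans sdiff_subset) (hS _ hp1), subset_union_right, ?_⟩
      rw [disjoint_union_right]
      refine ⟨?_, hd.symm⟩
      rw [Finset.disjoint_left]
      intro z hz1 hz2
      have := hκ' hz2
      rw [mem_sdiff, mem_union] at this
      exact this.2 (Or.inr hz1)
    have h2 : (((range r) \ (S p.1 ∪ S p.2)).powerset.image (fun κ => κ ∪ S p.1)).card
        = 2 ^ ((range r) \ (S p.1 ∪ S p.2)).card := by
      rw [card_image_of_injOn, card_powerset]
      intro κ hκ κ' hκ' h
      simp only at h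
      have hdis : ∀ κ ∈ ((range r) \ (S p.1 ∪ S p.2)).powerset, (κ ∪ S p.1) \ S p.1 = κ := by
        intro κ hκ
        rw [mem_powerset] at hκ
        rw [union_sdiff_right]
        rw [Finset.sdiff_eq_self_iff_disjoint, Finset.disjoint_left]
        intro z hz1 hz2
        have := hκ hz1
        rw [mem_sdiff, mem_union] at this
        exact this.2 (Or.inl hz2)
      rw [← hdis κ hκ, ← hdis κ' hκ', h]
    have h3 := card_le_card h1
    rw [h2] at h3
    have h4 : r ≤ ((range r) \ (S p.1 ∪ S p.2)).card + 2 * k := by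
      have h5 := le_card_sdiff (S p.1 ∪ S p.2) (range r)
      have h6 := card_union_le (S p.1) (S p.2)
      have h7 := hk _ hp1
      have h8 := hk _ hp2
      rw [card_range] at h5
      omega
    calc 2 ^ r ≤ 2 ^ (((range r) \ (S p.1 ∪ S p.2)).card + 2 * k) :=
          Nat.pow_le_pow_right (by norm_num) h4
      _ = 4 ^ k * 2 ^ ((range r) \ (S p.1 ∪ S p.2)).card := by
          rw [pow_add, pow_mul, show (2 : ℕ) ^ 2 = 4 by norm_num, mul_comm]
      _ ≤ _ := Nat.mul_le_mul_left _ h3
  have hbig : G.card * G.card * 2 ^ r ≤ 2 * 4 ^ k *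
      ∑ κ ∈ (range r).powerset, (G.filter (fun a => S a ⊆ κ)).card *
      (G.filter (fun a => Disjoint (S a) κ)).card := by
    rw [hsum]
    calc G.card * G.card * 2 ^ r ≤ 2 * Q.card * 2 ^ r := Nat.mul_le_mul_right _ hQc
      _ = 2 * ∑ _p ∈ Q, 2 ^ r := by rw [sum_const, smul_eq_mul]; ring
      _ ≤ 2 * ∑ p ∈ Q, 4 ^ k * ((range r).powerset.filter (fun κ => S p.1 ⊆ κ ∧
        Disjoint (S p.2) κ)).card := Nat.mul_le_mul_left _ (sum_le_sum hlow)
      _ ≤ 2 * ∑ p ∈ G ×ˢ G, 4 ^ k * ((range r).powerset.filter (fun κ => S p.1 ⊆ κ ∧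
        Disjoint (S p.2) κ)).card := by
          refine Nat.mul_le_mul_left _ (sum_le_sum_of_subset ?_)
          exact filter_subset _ _
      _ = _ := by rw [← Finset.mul_sum]; ring
  have hsmall : ∀ κ ∈ (range r).powerset, 2 * 4 ^ k * ((G.filter (fun a => S a ⊆ κ)).card *
      (G.filter (fun a => Disjoint (S a) κ)).card) < G.card * G.card := by
    intro κ hκ
    have h1 : (G.filter (fun a => S a ⊆ κ)).card ≤ G.card := card_filter_le _ _
    have h2 : (G.filter (fun a => Disjoint (S a) κ)).card ≤ G.card := card_filter_le _ _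
    by_cases h3 : G.card ≤ 2 * 4 ^ k * (G.filter (fun a => S a ⊆ κ)).card
    · have h4 := hcon κ hκ h3
      calc 2 * 4 ^ k * ((G.filter (fun a => S a ⊆ κ)).card *
            (G.filter (fun a => Disjoint (S a) κ)).card)
          = (G.filter (fun a => S a ⊆ κ)).card *
            (2 * 4 ^ k * (G.filter (fun a => Disjoint (S a) κ)).card) := by ring
        _ ≤ G.card * (2 * 4 ^ k * (G.filter (fun a => Disjoint (S a) κ)).card) :=
            Nat.mul_le_mul_right _ h1
        _ < G.card * G.card := Nat.mul_lt_mul_of_pos_left h4 h0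
    · push Not at h3
      calc 2 * 4 ^ k * ((G.filter (fun a => S a ⊆ κ)).card *
            (G.filter (fun a => Disjoint (S a) κ)).card)
          = (2 * 4 ^ k * (G.filter (fun a => S a ⊆ κ)).card) *
            (G.filter (fun a => Disjoint (S a) κ)).card := by ring
        _ ≤ (2 * 4 ^ k * (G.filter (fun a => S a ⊆ κ)).card) * G.card :=
            Nat.mul_le_mul_left _ h2
        _ < G.card * G.card := Nat.mul_lt_mul_of_pos_right h3 h0
  have hlt : ∑ κ ∈ (range r).powerset, 2 * 4 ^ k * ((G.filter (fun a => S a ⊆ κ)).card *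
      (G.filter (fun a => Disjoint (S a) κ)).card)
      < ∑ _κ ∈ (range r).powerset, G.card * G.card :=
    sum_lt_sum_of_nonempty ⟨∅, by simp⟩ hsmall
  rw [sum_const, card_powerset, card_range, smul_eq_mul, ← Finset.mul_sum] at hlt
  rw [mul_comm (2 ^ r)] at hlt
  omega

section bounds

variable {K : Type u} [Field K] (A : ValuationSubring K) {n m : ℕ}

/-- The function `g` takes integral values on integral matrices, and these values are congruent
to those of `F` modulo the maximal ideal. -/
def Approx (F : Matrix (Fin n) (Fin n) (IsLocalRing.ResidueField A) → IsLocalRing.ResidueField A)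
    (g : Matrix (Fin n) (Fin n) K → K) : Prop :=
  ∀ x : Matrix (Fin n) (Fin n) A, ∃ y : A, g (x.map (algebraMap A K)) = algebraMap A K y ∧
    IsLocalRing.residue A y = F (x.map (IsLocalRing.residue A))

variable [Infinite (IsLocalRing.ResidueField A)] (χ : Perm (Fin n) → ℤ) (hχ : BlockGood.{u} χ)
  (B : AffProg K n m) (hB : Approx A (gm χ) B.value)

include hχ hB

theorem partA (t : ℕ) (ht : 1 ≤ t) (h2 : 2 * t ≤ n)
    (hL : (B.length + 1) / 2 + 4 * n * (t - 1) < n ^ 2) : 2 ^ t ≤ B.width := by
  classical
  set h := (B.length + 1) / 2 with hh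
  let seg : ℕ → ℕ := fun i => if h ≤ i ∧ 0 < i then 1 else 0
  let κ : ℕ → Bool := fun s => decide (s = 0)
  let W : Submodule K (Matrix (Fin n) (Fin n) K) :=
    LinearMap.ker (LinearMap.pi (fun i : Fin h => B.form (B.read i)))
  let U : Submodule K (Matrix (Fin n) (Fin n) K) :=
    LinearMap.ker (LinearMap.pi (fun i : Fin (B.length - h) => B.form (B.read (h + i))))
  have hW := AffProg.finrank_ker_ge (K := K) (fun i : Fin h => B.form (B.read i))
  have hU := AffProg.finrank_ker_ge (K := K) (fun i : Fin (B.length - h) => B.form (B.read (h + i)))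
  rw [Fintype.card_fin] at hW hU
  have hmemW : ∀ y ∈ W, ∀ i < h, B.form (B.read i) y = 0 := by
    intro y hy i hi
    have h1 := congrFun (LinearMap.mem_ker.1 hy) ⟨i, hi⟩
    exact h1
  have hmemU : ∀ y ∈ U, ∀ i, h ≤ i → i < B.length → B.form (B.read i) y = 0 := by
    intro y hy i hi hi2
    have h1 := congrFun (LinearMap.mem_ker.1 hy) ⟨i - h, by omega⟩
    simp only [LinearMap.pi_apply, Pi.zero_apply] at h1
    rw [show h + (i - h) = i by omega] at h1
    exact h1
  have hbound : ∀ s < t, 4 * n * s ≤ 4 * n * (t - 1) := by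
    intro s hs
    exact Nat.mul_le_mul_left _ (by omega)
  have hfin := core (Γ := Fin (B.width ^ seg B.length)) A χ hχ B.value hB U W t h2
    (fun s hs => by
      have := hbound s hs
      change _ < Module.finrank K (LinearMap.ker _)
      omega)
    (fun s hs => by
      have := hbound s hs
      change _ < Module.finrank K (LinearMap.ker _)
      omega)
  have hsep := AffProg.value_sep B U W seg κ (by simp [seg]) (by
      intro i _
      simp only [seg]
      split_ifs <;> first | (left; omega) | (right; omega) | (exfalso; omega))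
    (by
      intro i hi hκ y hy
      apply hmemW y hy
      by_contra hcon
      have h3 : seg i = 1 := by simp only [seg]; rw [if_pos]; omega
      rw [h3] at hκ
      simp [κ] at hκ)
    (by
      intro i hi hκ y hy
      refine hmemU y hy i ?_ hi
      by_contra hcon
      have h3 : seg i = 0 := by simp only [seg]; rw [if_neg]; omega
      rw [h3] at hκ
      simp [κ] at hκ)
  let Γ := Fin (B.width ^ seg B.length)
  have h4 : 2 ^ t ≤ Fintype.card Γ := by
    apply hfin
    intro x
    obtain ⟨Γ', hΓ', a, b, hc, hab⟩ := hsep x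
    have e : Γ' ≃ Γ := Fintype.equivOfCardEq (by simp [hc, Γ])
    refine ⟨fun u g => a u (e.symm g), fun v g => b v (e.symm g), fun u v => ?_⟩
    rw [hab, ← Equiv.sum_comp e.symm]
  rw [Fintype.card_fin] at h4
  have h5 : 2 ≤ 2 ^ t := by
    calc 2 = 2 ^ 1 := by norm_num
      _ ≤ 2 ^ t := Nat.pow_le_pow_right (by norm_num) ht
  have h6 : seg B.length = 1 ∨ seg B.length = 0 := by
    simp only [seg]
    split_ifs
    · left; rfl
    · right; rfl
  rcases h6 with h6 | h6
  · rw [h6, pow_one] at h4
    exact h4
  · rw [h6, pow_zero] at h4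
    omega

theorem partB (k t : ℕ) (G : Finset (Fin m)) (hk : 1 ≤ k) (ht : 1 ≤ t) (h2 : 2 * t ≤ n)
    (hG : 2 * k ≤ G.card) (hreads : ∀ j ∈ G, B.reads j ≤ k)
    (hm : m + 4 * n * (t - 1) < n ^ 2 + G.card / (2 * 4 ^ k)) :
    2 ^ t ≤ B.width ^ (4 * k ^ 2) := by
  classical
  set b := G.card / (2 * k) with hb
  have hb1 : 1 ≤ b := (Nat.one_le_div_iff (by omega)).2 hG
  have hb2 : b * (2 * k) ≤ G.card := Nat.div_mul_le_self _ _
  have hb3 : G.card < (b + 1) * (2 * k) := by
    have := Nat.lt_div_mul_add (a := G.card) (b := 2 * k) (by omega)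
    rw [← hb] at this
    linarith
  let cnt : ℕ → ℕ := fun i => ((range i).filter (fun i' => B.read i' ∈ G)).card
  have hcnt : ∀ i, cnt (i + 1) = cnt i + (if B.read i ∈ G then 1 else 0) := by
    intro i
    simp only [cnt]
    rw [Finset.range_add_one, Finset.filter_insert]
    split_ifs
    · rw [Finset.card_insert_of_notMem (by simp)]
    · rw [add_zero]
  have hcm : Monotone cnt := by
    apply monotone_nat_of_le_succ
    intro i
    rw [hcnt]
    omega
  let seg : ℕ → ℕ := fun i => cnt i / b
  have hsm : Monotone seg := fun i j hij => Nat.div_le_div_right (hcm hij)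
  have hseg : ∀ i, seg (i + 1) = seg i ∨ seg (i + 1) = seg i + 1 := by
    intro i
    simp only [seg]
    rw [hcnt]
    split_ifs
    · rw [Nat.succ_div]
      split_ifs
      · right; rfl
      · left; rw [add_zero]
    · left; rw [add_zero]
  -- the total number of reads of forms in `G`
  have htot : cnt B.length ≤ k * G.card := by
    calc cnt B.length = ∑ j ∈ G, ((range B.length).filter (fun i => B.read i = j)).card := by
          simp only [cnt]
          rw [Finset.card_eq_sum_card_fiberwise (f := B.read) (t := G)]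
          · refine sum_congr rfl fun j hj => ?_
            congr 1
            ext i
            simp only [mem_filter]
            constructor
            · rintro ⟨⟨h1, _⟩, h3⟩
              exact ⟨h1, h3⟩
            · rintro ⟨h1, h3⟩
              exact ⟨⟨h1, by rw [h3]; exact hj⟩, h3⟩
          · intro i hi
            simp only [coe_filter, Set.mem_ofPred_eq] at hi
            exact hi.2
      _ ≤ ∑ _j ∈ G, k := sum_le_sum hreads
      _ = k * G.card := by rw [sum_const, smul_eq_mul, mul_comm]
  have hsegL : seg B.length ≤ 4 * k ^ 2 := by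
    simp only [seg]
    apply Nat.div_le_of_le_mul
    nlinarith
  let r := seg B.length + 1
  let S : Fin m → Finset ℕ := fun j => ((range B.length).filter (fun i => B.read i = j)).image seg
  have hSr : ∀ j ∈ G, S j ⊆ range r := by
    intro j _ s hs
    obtain ⟨i, hi, rfl⟩ := mem_image.1 hs
    rw [mem_filter, mem_range] at hi
    rw [mem_range]
    exact Nat.lt_succ_of_le (hsm hi.1.le)
  have hSk : ∀ j ∈ G, (S j).card ≤ k := fun j hj => le_trans card_image_le (hreads j hj)
  have hSb : ∀ s ∈ range r, (G.filter (fun j => s ∈ S j)).card ≤ b := by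
    intro s _
    let I : Finset ℕ := (range B.length).filter (fun i => B.read i ∈ G ∧ seg i = s)
    have h1 : G.filter (fun j => s ∈ S j) ⊆ I.image B.read := by
      intro j hj
      rw [mem_filter] at hj
      obtain ⟨i, hi, his⟩ := mem_image.1 hj.2
      rw [mem_filter] at hi
      rw [mem_image]
      refine ⟨i, ?_, hi.2⟩
      rw [mem_filter]
      exact ⟨hi.1, by rw [hi.2]; exact hj.1, his⟩
    have h3 : I.card ≤ b := by
      have h4 : I.card ≤ (Finset.Ico (s * b) (s * b + b)).card := by
        refine Finset.card_le_card_of_injOn cnt ?_ ?_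
        · intro i hi
          have hi' := (mem_filter.1 hi).2.2
          simp only [coe_Ico, Set.mem_Ico]
          have h5 := Nat.div_mul_le_self (cnt i) b
          have h6 := Nat.lt_div_mul_add (a := cnt i) (b := b) (by omega)
          have h7 : cnt i / b = s := hi'
          rw [h7] at h5 h6
          exact ⟨h5, h6⟩
        · intro i hi j hj hij
          by_contra hne
          rcases Nat.lt_or_gt_of_ne hne with h | h
          · have h5 := hcnt i
            rw [if_pos (mem_filter.1 hi).2.1] at h5
            have h6 : cnt (i + 1) ≤ cnt j := hcm h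
            omega
          · have h5 := hcnt j
            rw [if_pos (mem_filter.1 hj).2.1] at h5
            have h6 : cnt (j + 1) ≤ cnt i := hcm h
            omega
      rw [Nat.card_Ico] at h4
      omega
    exact le_trans (card_le_card h1) (le_trans card_image_le h3)
  obtain ⟨κ, _, hκ1, hκ2⟩ := exists_coloring G r S hSr k hSk b hSb (by nlinarith)
  set S1 := G.filter (fun a => S a ⊆ κ) with hS1
  set S2 := G.filter (fun a => Disjoint (S a) κ) with hS2
  let U : Submodule K (Matrix (Fin n) (Fin n) K) :=
    LinearMap.ker (LinearMap.pi (fun j : {j // j ∉ S1} => B.form j))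
  let W : Submodule K (Matrix (Fin n) (Fin n) K) :=
    LinearMap.ker (LinearMap.pi (fun j : {j // j ∉ S2} => B.form j))
  have hU := AffProg.finrank_ker_ge (K := K) (fun j : {j // j ∉ S1} => B.form j)
  have hW := AffProg.finrank_ker_ge (K := K) (fun j : {j // j ∉ S2} => B.form j)
  have hcard : ∀ T : Finset (Fin m), Fintype.card {j // j ∉ T} = m - T.card := by
    intro T
    rw [Fintype.card_subtype_compl, Fintype.card_fin, Fintype.card_coe]
  have hle : ∀ T : Finset (Fin m), T.card ≤ m := fun T => by
    have := Finset.card_le_univ T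
    rwa [Fintype.card_fin] at this
  have hc1 := hcard S1
  have hc2 := hcard S2
  have hl1 := hle S1
  have hl2 := hle S2
  have hd1 : G.card / (2 * 4 ^ k) ≤ S1.card := Nat.div_le_of_le_mul hκ1
  have hd2 : G.card / (2 * 4 ^ k) ≤ S2.card := Nat.div_le_of_le_mul hκ2
  have hbound : ∀ s < t, 4 * n * s ≤ 4 * n * (t - 1) := by
    intro s hs
    exact Nat.mul_le_mul_left _ (by omega)
  have hfin := core (Γ := Fin (B.width ^ seg B.length)) A χ hχ B.value hB U W t h2
    (fun s hs => by
      have := hbound s hs
      change _ < Module.finrank K (LinearMap.ker _)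
      omega)
    (fun s hs => by
      have := hbound s hs
      change _ < Module.finrank K (LinearMap.ker _)
      omega)
  have hsep := AffProg.value_sep B U W seg (fun s => decide (s ∈ κ))
    (by simp [seg, cnt]) (fun i _ => hseg i)
    (by
      intro i hi hκ y hy
      simp only [decide_eq_true_eq] at hκ
      have h1 : B.read i ∉ S2 := by
        intro h
        rw [hS2, mem_filter] at h
        have h3 : seg i ∈ S (B.read i) := mem_image_of_mem _
          (mem_filter.2 ⟨mem_range.2 hi, rfl⟩)
        exact (Finset.disjoint_left.1 h.2) h3 hκ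
      exact congrFun (LinearMap.mem_ker.1 hy) ⟨B.read i, h1⟩)
    (by
      intro i hi hκ y hy
      simp only [decide_eq_false_iff_not] at hκ
      have h1 : B.read i ∉ S1 := by
        intro h
        rw [hS1, mem_filter] at h
        have h3 : seg i ∈ S (B.read i) := mem_image_of_mem _
          (mem_filter.2 ⟨mem_range.2 hi, rfl⟩)
        exact hκ (h.2 h3)
      exact congrFun (LinearMap.mem_ker.1 hy) ⟨B.read i, h1⟩)
  let Γ := Fin (B.width ^ seg B.length)
  have h4 : 2 ^ t ≤ Fintype.card Γ := by
    apply hfin
    intro x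
    obtain ⟨Γ', hΓ', a, b, hc, hab⟩ := hsep x
    have e : Γ' ≃ Γ := Fintype.equivOfCardEq (by simp [hc, Γ])
    refine ⟨fun u g => a u (e.symm g), fun v g => b v (e.symm g), fun u v => ?_⟩
    rw [hab, ← Equiv.sum_comp e.symm]
  rw [Fintype.card_fin] at h4
  have h5 : 2 ≤ 2 ^ t := by
    calc 2 = 2 ^ 1 := by norm_num
      _ ≤ 2 ^ t := Nat.pow_le_pow_right (by norm_num) ht
  have h6 : 1 ≤ B.width := by
    by_contra hcon
    have h7 : B.width = 0 := by omega
    rw [h7] at h4
    rcases Nat.eq_zero_or_pos (seg B.length) with h8 | h8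
    · rw [h8, pow_zero] at h4
      omega
    · rw [zero_pow (by omega)] at h4
      omega
  exact le_trans h4 (Nat.pow_le_pow_right h6 hsegL)

end bounds

end Pool.Agent.W943.Aff
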