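import Pool.Agent.W943.Aff3

/-! # Programs which read affine forms -/

set_option autoImplicit false

namespace Pool.Agent.W943.Aff

open Matrix Finset Equiv

universe u

/-- A linear (oblivious) program over `K` for matrices `x ∈ K^(n × n)`.  It has `m` affine forms
`x ↦ form j x + shift j`.  The layers are numbered `0, …, length - 1`; layer `i` reads the affine
form number `read i` and multiplies the current row vector by the matrix `layer i z`, where `z` is
the value of this form; here `layer i : K → K^(width × width)` is an arbitrary function. -/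
structure AffProg (K : Type u) [Field K] (n m : ℕ) where
  /-- linear parts of the affine forms -/
  form : Fin m → (Matrix (Fin n) (Fin n) K →ₗ[K] K)
  /-- constant terms of the affine forms -/
  shift : Fin m → K
  /-- number of layers -/
  length : ℕ
  /-- number of states -/
  width : ℕ
  /-- the affine form which is read in a layer -/
  read : ℕ → Fin m
  /-- the transition matrix of a layer, an arbitrary function of the value read -/
  layer : ℕ → K → Matrix (Fin width) (Fin width) K
  /-- the initial row vector -/
  start : Fin width → K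
  /-- the final column vector -/
  final : Fin width → K

namespace AffProg

variable {K : Type u} [Field K] {n m : ℕ}

/-- the row vector after `i` layers on input `x` -/
def row (B : AffProg K n m) (x : Matrix (Fin n) (Fin n) K) : ℕ → Fin B.width → K
  | 0 => B.start
  | i + 1 => (B.row x i) ᵥ* B.layer i (B.form (B.read i) x + B.shift (B.read i))

/-- the value of the program on input `x` -/
def value (B : AffProg K n m) (x : Matrix (Fin n) (Fin n) K) : K :=
  B.row x B.length ⬝ᵥ B.final

/-- the number of layers which read the affine form number `j` -/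
def reads (B : AffProg K n m) (j : Fin m) : ℕ :=
  ((Finset.range B.length).filter (fun i => B.read i = j)).card

end AffProg

section sep

variable {K : Type u} [Field K] {U W : Type u} {w : ℕ}

/-- `F u v s` is a sum of `R` products, where the factor of colour `c` may depend on `s` -/
def Sep (c : Bool) (R : ℕ) (F : U → W → Fin w → K) : Prop :=
  ∃ (Γ : Type) (_ : Fintype Γ) (a : U → Fin w → Γ → K) (b : W → Fin w → Γ → K),
    Fintype.card Γ = R ∧ (∀ u v s, F u v s = ∑ g, a u s g * b v s g) ∧
    (if c then ∀ v s s' g, b v s g = b v s' g else ∀ u s s' g, a u s g = a u s' g)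

lemma Sep.const (c : Bool) (F : Fin w → K) : Sep c 1 (fun (_ : U) (_ : W) => F) := by
  cases c
  · exact ⟨Unit, inferInstance, fun _ _ _ => 1, fun _ s _ => F s, by simp, by simp, by simp⟩
  · exact ⟨Unit, inferInstance, fun _ s _ => F s, fun _ _ _ => 1, by simp, by simp, by simp⟩

lemma Sep.mul_true {R : ℕ} {F : U → W → Fin w → K} (h : Sep true R F)
    (N : U → Matrix (Fin w) (Fin w) K) : Sep true R (fun u v => F u v ᵥ* N u) := by
  obtain ⟨Γ, hΓ, a, b, hc, hF, hb⟩ := h
  simp only [if_true] at hb
  refine ⟨Γ, hΓ, fun u s g => ∑ z, a u z g * N u z s, b, hc, ?_, ?_⟩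
  · intro u v s
    change ∑ z, F u v z * N u z s = _
    simp only [hF, Finset.sum_mul]
    rw [Finset.sum_comm]
    refine Finset.sum_congr rfl fun g _ => ?_
    refine Finset.sum_congr rfl fun z _ => ?_
    rw [hb v z s g]
    ring
  · simpa using hb

lemma Sep.mul_false {R : ℕ} {F : U → W → Fin w → K} (h : Sep false R F)
    (N : W → Matrix (Fin w) (Fin w) K) : Sep false R (fun u v => F u v ᵥ* N v) := by
  obtain ⟨Γ, hΓ, a, b, hc, hF, ha⟩ := h
  simp only [Bool.false_eq_true, if_false] at ha
  refine ⟨Γ, hΓ, a, fun v s g => ∑ z, b v z g * N v z s, hc, ?_, ?_⟩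
  · intro u v s
    change ∑ z, F u v z * N v z s = _
    simp only [hF, Finset.mul_sum, Finset.sum_mul]
    rw [Finset.sum_comm]
    refine Finset.sum_congr rfl fun g _ => ?_
    refine Finset.sum_congr rfl fun z _ => ?_
    rw [ha u z s g]
    ring
  · simpa using ha

lemma Sep.switch {R : ℕ} {F : U → W → Fin w → K} {c : Bool} (h : Sep c R F) (c' : Bool) :
    Sep c' (R * w) F := by
  classical
  obtain ⟨Γ, hΓ, a, b, hc, hF, hab⟩ := h
  have hcard : Fintype.card (Γ × Fin w) = R * w := by
    rw [Fintype.card_prod, hc, Fintype.card_fin]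
  cases c'
  · -- the factor `a` must not depend on `s`
    refine ⟨Γ × Fin w, inferInstance, fun u _ g => a u g.2 g.1,
      fun v s g => if g.2 = s then b v s g.1 else 0, hcard, ?_, by simp⟩
    intro u v s
    rw [hF, Fintype.sum_prod_type]
    refine Finset.sum_congr rfl fun g _ => ?_
    simp
  · refine ⟨Γ × Fin w, inferInstance, fun u s g => if g.2 = s then a u s g.1 else 0,
      fun v _ g => b v g.2 g.1, hcard, ?_, by simp⟩
    intro u v s
    rw [hF, Fintype.sum_prod_type]
    refine Finset.sum_congr rfl fun g _ => ?_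
    simp

lemma Sep.dot {R : ℕ} {F : U → W → Fin w → K} {c : Bool} (h : Sep c R F) (z : Fin w → K) :
    ∃ (Γ : Type) (_ : Fintype Γ) (a : U → Γ → K) (b : W → Γ → K), Fintype.card Γ = R ∧
      ∀ u v, F u v ⬝ᵥ z = ∑ g, a u g * b v g := by
  obtain ⟨Γ, hΓ, a, b, hc, hF, hab⟩ := h
  by_cases hw : IsEmpty (Fin w)
  · refine ⟨Γ, hΓ, fun _ _ => 0, fun _ _ => 0, hc, ?_⟩
    intro u v
    rw [dotProduct]
    simp
  rw [not_isEmpty_iff] at hw
  obtain ⟨s0⟩ := hw
  cases c
  · simp only [Bool.false_eq_true, if_false] at hab
    refine ⟨Γ, hΓ, fun u g => a u s0 g, fun v g => ∑ s, b v s g * z s, hc, ?_⟩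
    intro u v
    rw [dotProduct]
    simp only [hF, Finset.sum_mul, Finset.mul_sum]
    rw [Finset.sum_comm]
    refine Finset.sum_congr rfl fun g _ => ?_
    refine Finset.sum_congr rfl fun s _ => ?_
    rw [hab u s s0 g]
    ring
  · simp only [if_true] at hab
    refine ⟨Γ, hΓ, fun u g => ∑ s, a u s g * z s, fun v g => b v s0 g, hc, ?_⟩
    intro u v
    rw [dotProduct]
    simp only [hF, Finset.sum_mul]
    rw [Finset.sum_comm]
    refine Finset.sum_congr rfl fun g _ => ?_
    refine Finset.sum_congr rfl fun s _ => ?_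
    rw [hab v s s0 g]
    ring

end sep

namespace AffProg

variable {K : Type u} [Field K] {n m : ℕ}

/-- a program whose layers see alternately only `U` and only `W` -/
theorem row_sep (B : AffProg K n m) (U W : Submodule K (Matrix (Fin n) (Fin n) K))
    (seg : ℕ → ℕ) (κ : ℕ → Bool) (h0 : seg 0 = 0)
    (hseg : ∀ i < B.length, seg (i + 1) = seg i ∨ seg (i + 1) = seg i + 1)
    (h1 : ∀ i < B.length, κ (seg i) = true → ∀ y ∈ W, B.form (B.read i) y = 0)
    (h2 : ∀ i < B.length, κ (seg i) = false → ∀ y ∈ U, B.form (B.read i) y = 0)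
    (x : Matrix (Fin n) (Fin n) K) :
    ∀ i ≤ B.length, Sep (κ (seg i)) (B.width ^ seg i) (fun (y : U) (z : W) =>
      B.row (x + (y : Matrix (Fin n) (Fin n) K) + (z : Matrix (Fin n) (Fin n) K)) i) := by
  intro i
  induction i with
  | zero =>
    intro _
    rw [h0, pow_zero]
    exact Sep.const _ _
  | succ i ih =>
    intro hi
    have ih' := ih (by omega)
    have hstep : Sep (κ (seg i)) (B.width ^ seg i) (fun (y : U) (z : W) =>
        B.row (x + (y : Matrix (Fin n) (Fin n) K) + (z : Matrix (Fin n) (Fin n) K)) (i + 1)) := by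
      rcases hκ : κ (seg i) with _ | _
      · rw [hκ] at ih'
        have h3 := ih'.mul_false (fun z : W => B.layer i (B.form (B.read i)
          (x + (z : Matrix (Fin n) (Fin n) K)) + B.shift (B.read i)))
        convert h3 using 3 with y z
        rw [AffProg.row]
        congr 3
        rw [map_add, map_add, map_add, h2 i (by omega) hκ y y.2, add_zero]
      · rw [hκ] at ih'
        have h3 := ih'.mul_true (fun y : U => B.layer i (B.form (B.read i)
          (x + (y : Matrix (Fin n) (Fin n) K)) + B.shift (B.read i)))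
        convert h3 using 3 with y z
        rw [AffProg.row]
        congr 3
        rw [map_add, h1 i (by omega) hκ z z.2, add_zero]
    rcases hseg i (by omega) with h | h
    · rw [h]
      exact hstep
    · have h3 := hstep.switch (κ (seg (i + 1)))
      rw [h, pow_succ]
      rw [h] at h3
      exact h3

/-- a program whose layers see alternately only `U` and only `W` -/
theorem value_sep (B : AffProg K n m) (U W : Submodule K (Matrix (Fin n) (Fin n) K))
    (seg : ℕ → ℕ) (κ : ℕ → Bool) (h0 : seg 0 = 0)
    (hseg : ∀ i < B.length, seg (i + 1) = seg i ∨ seg (i + 1) = seg i + 1)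
    (h1 : ∀ i < B.length, κ (seg i) = true → ∀ y ∈ W, B.form (B.read i) y = 0)
    (h2 : ∀ i < B.length, κ (seg i) = false → ∀ y ∈ U, B.form (B.read i) y = 0)
    (x : Matrix (Fin n) (Fin n) K) :
    ∃ (Γ : Type) (_ : Fintype Γ) (a : U → Γ → K) (b : W → Γ → K),
      Fintype.card Γ = B.width ^ seg B.length ∧ ∀ (y : U) (z : W),
        B.value (x + (y : Matrix (Fin n) (Fin n) K) + (z : Matrix (Fin n) (Fin n) K))
          = ∑ g, a y g * b z g := by
  obtain ⟨Γ, hΓ, a, b, hc, hab⟩ :=
    (row_sep B U W seg κ h0 hseg h1 h2 x B.length le_rfl).dot B.final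
  exact ⟨Γ, hΓ, a, b, hc, hab⟩

/-- a program whose first `h` layers do not see `W` and whose other layers do not see `U` -/
theorem value_two (B : AffProg K n m) (U W : Submodule K (Matrix (Fin n) (Fin n) K)) (h : ℕ)
    (h1 : ∀ i < B.length, i < h → ∀ y ∈ W, B.form (B.read i) y = 0)
    (h2 : ∀ i < B.length, h ≤ i → ∀ y ∈ U, B.form (B.read i) y = 0)
    (x : Matrix (Fin n) (Fin n) K) :
    ∃ (a : U → Fin B.width → K) (b : W → Fin B.width → K), ∀ (y : U) (z : W),
        B.value (x + (y : Matrix (Fin n) (Fin n) K) + (z : Matrix (Fin n) (Fin n) K))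
          = ∑ g, a y g * b z g := by
  have fin : ∀ (Γ : Type) (_ : Fintype Γ) (a : U → Γ → K) (b : W → Γ → K),
      Fintype.card Γ = B.width → (∀ (y : U) (z : W),
        B.value (x + (y : Matrix (Fin n) (Fin n) K) + (z : Matrix (Fin n) (Fin n) K))
          = ∑ g, a y g * b z g) →
      ∃ (a : U → Fin B.width → K) (b : W → Fin B.width → K), ∀ (y : U) (z : W),
        B.value (x + (y : Matrix (Fin n) (Fin n) K) + (z : Matrix (Fin n) (Fin n) K))
          = ∑ g, a y g * b z g := by
    intro Γ _ a b hc hab
    have e : Γ ≃ Fin B.width := Fintype.equivOfCardEq (by simp [hc])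
    refine ⟨fun u g => a u (e.symm g), fun v g => b v (e.symm g), fun u v => ?_⟩
    rw [hab, ← Equiv.sum_comp e.symm]
  rcases Nat.eq_zero_or_pos h with h0 | h0
  · subst h0
    have hs := (row_sep B U W (fun _ => 0) (fun _ => false) rfl (fun _ _ => Or.inl rfl)
      (fun i _ hκ => by simp at hκ) (fun i hi _ => h2 i hi (Nat.zero_le _)) x B.length
      le_rfl).switch false
    rw [pow_zero, one_mul] at hs
    obtain ⟨Γ, hΓ, a, b, hc, hab⟩ := hs.dot B.final
    exact fin Γ hΓ a b hc hab
  · have hs := row_sep B U W (fun i => if h ≤ i then 1 else 0) (fun s => decide (s = 0))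
      (by rw [if_neg]; omega)
      (by
        intro i _
        split_ifs
        · left; rfl
        · right; rfl
        · exfalso; omega
        · left; rfl)
      (by
        intro i hi hκ
        apply h1 i hi
        by_contra hcon
        rw [if_pos (by omega)] at hκ
        simp at hκ)
      (by
        intro i hi hκ
        apply h2 i hi
        by_contra hcon
        rw [if_neg (by omega)] at hκ
        simp at hκ) x B.length le_rfl
    by_cases hL : h ≤ B.length
    · simp only [if_pos hL, pow_one] at hs
      obtain ⟨Γ, hΓ, a, b, hc, hab⟩ := hs.dot B.final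
      exact fin Γ hΓ a b hc hab
    · simp only [if_neg hL, pow_zero] at hs
      have hs' := hs.switch false
      rw [one_mul] at hs'
      obtain ⟨Γ, hΓ, a, b, hc, hab⟩ := hs'.dot B.final
      exact fin Γ hΓ a b hc hab

/-- common zeros of linear forms -/
lemma finrank_ker_ge {ι : Type*} [Fintype ι] (φ : ι → (Matrix (Fin n) (Fin n) K →ₗ[K] K)) :
    n ^ 2 ≤ Module.finrank K (LinearMap.ker (LinearMap.pi φ)) + Fintype.card ι := by
  have h1 := LinearMap.finrank_range_add_finrank_ker (LinearMap.pi φ)
  have h2 := Submodule.finrank_le (LinearMap.range (LinearMap.pi φ))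
  rw [Module.finrank_fintype_fun_eq_card] at h2
  rw [Module.finrank_matrix, Fintype.card_fin, Module.finrank_self, mul_one] at h1
  rw [sq]
  omega

end AffProg

end Pool.Agent.W943.Aff
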