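import Mathlib

/-! # Leading positions and choice of blocks -/

set_option autoImplicit false

namespace Pool.Agent.W943.Aff

open Matrix Finset

universe u

section lead

variable {K : Type u} [Field K] (A : ValuationSubring K)

/-- `p` is the leading position of the reduction of an integral element of `U` -/
def IsLead {n : ℕ} (wt : Fin n → Fin n → ℕ) (U : Submodule K (Matrix (Fin n) (Fin n) K))
    (p : Fin n × Fin n) : Prop :=
  ∃ M : Matrix (Fin n) (Fin n) A, M.map (algebraMap A K) ∈ U ∧
    IsLocalRing.residue A (M p.1 p.2) ≠ 0 ∧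
    ∀ i j, wt i j < wt p.1 p.2 → IsLocalRing.residue A (M i j) = 0

open Classical in
/-- the set of leading positions -/
noncomputable def leadSet {n : ℕ} (wt : Fin n → Fin n → ℕ)
    (U : Submodule K (Matrix (Fin n) (Fin n) K)) : Finset (Fin n × Fin n) :=
  Finset.univ.filter (IsLead A wt U)

lemma exists_scale {n : ℕ} (u : Matrix (Fin n) (Fin n) K) (hu : u ≠ 0) :
    ∃ (s : K) (M : Matrix (Fin n) (Fin n) A), s ≠ 0 ∧ M.map (algebraMap A K) = s⁻¹ • u ∧
      ∃ i j, IsLocalRing.residue A (M i j) ≠ 0 := by
  have hne : Nonempty (Fin n × Fin n) := by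
    by_contra hcon
    apply hu
    ext i j
    exact absurd ⟨(i, j)⟩ hcon
  obtain ⟨p, hp⟩ := Finite.exists_max (fun p : Fin n × Fin n => A.valuation (u p.1 p.2))
  have hs : u p.1 p.2 ≠ 0 := by
    intro h0
    apply hu
    ext i j
    have h1 := hp (i, j)
    rw [h0, map_zero] at h1
    have h2 : A.valuation (u i j) = 0 := le_antisymm h1 zero_le
    simpa using h2
  have hmem : ∀ i j, (u p.1 p.2)⁻¹ * u i j ∈ A := by
    intro i j
    rw [← A.valuation_le_one_iff, map_mul, map_inv₀]
    have h1 := hp (i, j)
    have h2 : A.valuation (u p.1 p.2) ≠ 0 := by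
      simpa using hs
    calc (A.valuation (u p.1 p.2))⁻¹ * A.valuation (u i j)
        ≤ (A.valuation (u p.1 p.2))⁻¹ * A.valuation (u p.1 p.2) := by gcongr
      _ = 1 := inv_mul_cancel₀ h2
  refine ⟨u p.1 p.2, Matrix.of fun i j => ⟨(u p.1 p.2)⁻¹ * u i j, hmem i j⟩, hs, ?_, p.1, p.2, ?_⟩
  · ext i j
    simp only [Matrix.map_apply, Matrix.of_apply, Matrix.smul_apply, smul_eq_mul]
    rfl
  · have h1 : (Matrix.of (fun i j => (⟨(u p.1 p.2)⁻¹ * u i j, hmem i j⟩ : A)) p.1 p.2) = 1 := by
      apply Subtype.ext
      simp only [Matrix.of_apply]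
      exact inv_mul_cancel₀ hs
    rw [h1, map_one]
    exact one_ne_zero

lemma finrank_le_lead {n : ℕ} (wt : Fin n → Fin n → ℕ)
    (U : Submodule K (Matrix (Fin n) (Fin n) K)) :
    Module.finrank K U ≤ (leadSet A wt U).card := by
  classical
  let φ : U →ₗ[K] (leadSet A wt U → K) :=
    { toFun := fun u e => (u : Matrix (Fin n) (Fin n) K) e.1.1 e.1.2
      map_add' := by intro x y; rfl
      map_smul' := by intro c x; rfl }
  have hφ : Function.Injective φ := by
    rw [injective_iff_map_eq_zero]
    intro u hu
    by_contra hne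
    have hne' : (u : Matrix (Fin n) (Fin n) K) ≠ 0 := fun h => hne (Subtype.ext h)
    obtain ⟨s, M, hs, hM, i0, j0, h0⟩ := exists_scale A _ hne'
    let S : Finset (Fin n × Fin n) :=
      Finset.univ.filter fun p => IsLocalRing.residue A (M p.1 p.2) ≠ 0
    have hS : S.Nonempty := ⟨(i0, j0), Finset.mem_filter.2 ⟨Finset.mem_univ _, h0⟩⟩
    obtain ⟨e, heS, hmin⟩ := Finset.exists_min_image S (fun p => wt p.1 p.2) hS
    have heS' : IsLocalRing.residue A (M e.1 e.2) ≠ 0 := (Finset.mem_filter.1 heS).2
    have hlead : e ∈ leadSet A wt U := by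
      unfold leadSet
      rw [Finset.mem_filter]
      refine ⟨Finset.mem_univ _, M, ?_, heS', ?_⟩
      · rw [hM]
        exact U.smul_mem _ u.2
      · intro i j hij
        by_contra hcon
        have := hmin (i, j) (Finset.mem_filter.2 ⟨Finset.mem_univ _, hcon⟩)
        simp only at this
        omega
    have h1 := congrFun hu ⟨e, hlead⟩
    have h2 : (u : Matrix (Fin n) (Fin n) K) e.1 e.2 = 0 := h1
    have h3 := congrFun (congrFun hM e.1) e.2
    rw [Matrix.smul_apply, h2, smul_zero, Matrix.map_apply] at h3
    have h4 : M e.1 e.2 = 0 := by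
      apply Subtype.ext
      exact h3
    rw [h4, map_zero] at heS'
    exact heS' rfl
  have h := LinearMap.finrank_le_finrank_of_injective hφ
  rw [Module.finrank_fintype_fun_eq_card, Fintype.card_coe] at h
  exact h

end lead

section select

/-- greedy choice of `t` blocks of two rows and two columns, where block `i` contains an element of
`E i` and an element of `E' i` -/
theorem select {n : ℕ} (E E' : ℕ → Finset (Fin n × Fin n)) (t : ℕ) (h2 : 2 * t ≤ n)
    (hE : ∀ s < t, 4 * n * s < (E s).card) (hE' : ∀ s < t, 4 * n * s < (E' s).card) :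
    ∃ ρ γ : Fin 2 × Fin t → Fin n, Function.Injective ρ ∧ Function.Injective γ ∧
      ∃ a b : Fin t → Fin 2 × Fin 2, ∀ i : Fin t,
        (ρ ((a i).1, i), γ ((a i).2, i)) ∈ E i ∧ (ρ ((b i).1, i), γ ((b i).2, i)) ∈ E' i := by
  classical
  induction t with
  | zero =>
    refine ⟨fun x => x.2.elim0, fun x => x.2.elim0, fun x => x.2.elim0, fun x => x.2.elim0,
      fun i => i.elim0, fun i => i.elim0, fun i => i.elim0⟩
  | succ t ih =>
    obtain ⟨ρ, γ, hρ, hγ, a, b, hab⟩ := ih (by omega) (fun s hs => hE s (by omega))
      (fun s hs => hE' s (by omega))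
    set R : Finset (Fin n) := Finset.univ.image ρ with hR
    set C : Finset (Fin n) := Finset.univ.image γ with hC
    have hRc : R.card = 2 * t := by
      rw [hR, Finset.card_image_of_injective _ hρ]; simp
    have hCc : C.card = 2 * t := by
      rw [hC, Finset.card_image_of_injective _ hγ]; simp
    -- an element outside the used rows and columns
    have hout : ∀ F : Finset (Fin n × Fin n), 4 * n * t < F.card → ∃ p ∈ F, p.1 ∉ R ∧ p.2 ∉ C := by
      intro F hF
      by_contra hcon
      push Not at hcon
      have hsub : F ⊆ (R ×ˢ Finset.univ) ∪ (Finset.univ ×ˢ C) := by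
        intro p hp
        rw [Finset.mem_union, Finset.mem_product, Finset.mem_product]
        by_cases h : p.1 ∈ R
        · left; exact ⟨h, Finset.mem_univ _⟩
        · right; exact ⟨Finset.mem_univ _, hcon p hp h⟩
      have h1 := Finset.card_le_card hsub
      have h3 := Finset.card_union_le (R ×ˢ (Finset.univ : Finset (Fin n)))
        ((Finset.univ : Finset (Fin n)) ×ˢ C)
      rw [Finset.card_product, Finset.card_product, hRc, hCc, Finset.card_univ,
        Fintype.card_fin] at h3
      nlinarith
    obtain ⟨p, hpE, hpR, hpC⟩ := hout (E t) (hE t (by omega))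
    obtain ⟨p', hpE', hpR', hpC'⟩ := hout (E' t) (hE' t (by omega))
    -- two rows / columns outside a used set, containing two given elements
    have htwo : ∀ (Q : Finset (Fin n)) (x y : Fin n), Q.card = 2 * t → x ∉ Q → y ∉ Q →
        ∃ (g : Fin 2 → Fin n) (e e' : Fin 2), Function.Injective g ∧ (∀ z, g z ∉ Q) ∧
          g e = x ∧ g e' = y := by
      intro Q x y hQ hx hy
      by_cases hxy : x = y
      · subst hxy
        obtain ⟨z, hz⟩ : ∃ z, z ∉ insert x Q := by
          by_contra hcon
          push Not at hcon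
          have h1 : (Finset.univ : Finset (Fin n)) ⊆ insert x Q := fun z _ => hcon z
          have h3 := Finset.card_le_card h1
          have h4 := Finset.card_insert_le x Q
          rw [Finset.card_univ, Fintype.card_fin] at h3
          omega
        rw [Finset.mem_insert, not_or] at hz
        refine ⟨![x, z], 0, 0, ?_, ?_, rfl, rfl⟩
        · intro i j hij
          fin_cases i <;> fin_cases j <;> simp_all
        · intro i
          fin_cases i
          · exact hx
          · exact hz.2
      · refine ⟨![x, y], 0, 1, ?_, ?_, rfl, rfl⟩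
        · intro i j hij
          fin_cases i <;> fin_cases j <;> simp_all
        · intro i
          fin_cases i
          · exact hx
          · exact hy
    obtain ⟨g, e, e', hg, hgR, hge, hge'⟩ := htwo R p.1 p'.1 hRc hpR hpR'
    obtain ⟨h, f, f', hh, hhC, hhf, hhf'⟩ := htwo C p.2 p'.2 hCc hpC hpC'
    have hext : ∀ (θ : Fin 2 × Fin t → Fin n) (k : Fin 2 → Fin n), Function.Injective θ →
        Function.Injective k → (∀ z x, k z ≠ θ x) →
        Function.Injective (fun x : Fin 2 × Fin (t + 1) =>
          (Fin.snoc (α := fun _ => Fin n) (fun i : Fin t => θ (x.1, i)) (k x.1) x.2 : Fin n)) := by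
      intro θ k hθ hk hne
      rintro ⟨x, i⟩ ⟨y, j⟩ hxy
      simp only at hxy
      induction i using Fin.lastCases with
      | last =>
        induction j using Fin.lastCases with
        | last =>
          rw [Fin.snoc_last, Fin.snoc_last] at hxy
          rw [hk hxy]
        | cast j =>
          rw [Fin.snoc_last, Fin.snoc_castSucc] at hxy
          exact absurd hxy (hne _ _)
      | cast i =>
        induction j using Fin.lastCases with
        | last =>
          rw [Fin.snoc_last, Fin.snoc_castSucc] at hxy
          exact absurd hxy.symm (hne _ _)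
        | cast j =>
          rw [Fin.snoc_castSucc, Fin.snoc_castSucc] at hxy
          have := hθ hxy
          rw [Prod.mk.injEq] at this
          rw [this.1, this.2]
    refine ⟨_, _, hext ρ g hρ hg ?_, hext γ h hγ hh ?_, Fin.snoc (α := fun _ => Fin 2 × Fin 2) a
      (e, f), Fin.snoc (α := fun _ => Fin 2 × Fin 2) b (e', f'), ?_⟩
    · intro z x hzx
      apply hgR z
      rw [hzx, hR]
      exact Finset.mem_image_of_mem _ (Finset.mem_univ _)
    · intro z x hzx
      apply hhC z
      rw [hzx, hC]
      exact Finset.mem_image_of_mem _ (Finset.mem_univ _)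
    · intro i
      induction i using Fin.lastCases with
      | last =>
        simp only [Fin.snoc_last, Fin.val_last]
        rw [hge, hhf, hge', hhf']
        exact ⟨hpE, hpE'⟩
      | cast i =>
        simp only [Fin.snoc_castSucc, Fin.val_castSucc]
        exact hab i

/-- the background of the `2 × 2` gadgets -/
def bg (a b : Fin 2 × Fin 2) (x y : Fin 2) : ℤ :=
  if a.1 = b.1 then
    (if a.2 = b.2 then (if x ≠ a.1 ∧ y ≠ a.2 then 1 else 0) else (if x ≠ a.1 then 1 else 0))
  else
    (if a.2 = b.2 then (if y ≠ a.2 then 1 else 0)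
      else (if (x = a.1 ∧ y = b.2) ∨ (x = b.1 ∧ y = a.2) then 1 else 0))

/-- the value of the gadget -/
def gv (cc : ℤ) (a b : Fin 2 × Fin 2) (s z : ℤ) : ℤ :=
  (bg a b 0 0 + (if a = (0, 0) then s else 0) + (if b = (0, 0) then z else 0)) *
    (bg a b 1 1 + (if a = (1, 1) then s else 0) + (if b = (1, 1) then z else 0)) +
  cc * ((bg a b 0 1 + (if a = (0, 1) then s else 0) + (if b = (0, 1) then z else 0)) *
    (bg a b 1 0 + (if a = (1, 0) then s else 0) + (if b = (1, 0) then z else 0)))

/-- the gadgets have rank two -/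
theorem gadget (cc : ℤ) (hcc : cc = 1 ∨ cc = -1) (a b : Fin 2 × Fin 2) :
    gv cc a b 0 0 * gv cc a b 1 1 - gv cc a b 0 1 * gv cc a b 1 0 = 1 ∨
      gv cc a b 0 0 * gv cc a b 1 1 - gv cc a b 0 1 * gv cc a b 1 0 = -1 := by
  rcases hcc with rfl | rfl
  · revert a b
    decide
  · revert a b
    decide

end select

end Pool.Agent.W943.Aff
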