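import Pool.Agent.W943.Aff1
import Pool.Agent.W943.Aff2

/-! # Permanents and determinants have full rank along any two large subspaces -/

set_option autoImplicit false

namespace Pool.Agent.W943.Aff

open Matrix Finset Equiv Polynomial

universe u

/-- extension of an injection to an equivalence -/
lemma exists_extend {τ ν ι : Type*} [Fintype τ] [Fintype ν] [Fintype ι] [DecidableEq ι]
    (r : τ → ι) (hr : Function.Injective r)
    (hcard : Fintype.card τ + Fintype.card ν = Fintype.card ι) :
    ∃ e : τ ⊕ ν ≃ ι, ∀ s, e (Sum.inl s) = r s := by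
  classical
  have h1 : Fintype.card {i // i ∈ Set.range r} = Fintype.card τ :=
    (Fintype.card_congr (Equiv.ofInjective r hr)).symm
  have h2 : Fintype.card {i // ¬ i ∈ Set.range r} = Fintype.card ν := by
    rw [Fintype.card_subtype_compl, h1]; omega
  let e1 : τ ≃ {i // i ∈ Set.range r} := Equiv.ofInjective r hr
  let e2 : ν ≃ {i // ¬ i ∈ Set.range r} := (Fintype.equivOfCardEq h2).symm
  refine ⟨(Equiv.sumCongr e1 e2).trans (Equiv.sumCompl _), ?_⟩
  intro s
  simp [e1]

/-- a product of nonsingular `2 × 2` matrices is nonsingular -/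
lemma kron_det {k : Type u} [Field k] {t : ℕ} (ε : k) (hε : ε ≠ 0) (m : Fin t → Bool → Bool → k)
    (hm : ∀ i, m i false false * m i true true - m i false true * m i true false ≠ 0) :
    (Matrix.of fun σ τ : Fin t → Bool => ε * ∏ i, m i (σ i) (τ i)).det ≠ 0 := by
  classical
  set D : Fin t → k := fun i => m i false false * m i true true - m i false true * m i true false
    with hD
  let mi : Fin t → Bool → Bool → k := fun i x y =>
    (D i)⁻¹ * (match x, y with
      | false, false => m i true true
      | false, true => - m i false true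
      | true, false => - m i true false
      | true, true => m i false false)
  have hmi : ∀ i x y, ∑ z : Bool, m i x z * mi i z y = if x = y then 1 else 0 := by
    intro i x y
    have h : D i ≠ 0 := hm i
    rw [Fintype.sum_bool]
    cases x <;> cases y <;> simp only [mi] <;> field_simp <;> simp [hD] <;> ring
  have hmul : (Matrix.of fun σ τ : Fin t → Bool => ε * ∏ i, m i (σ i) (τ i)) *
      (Matrix.of fun σ τ : Fin t → Bool => ε⁻¹ * ∏ i, mi i (σ i) (τ i)) = 1 := by
    ext σ τ
    rw [Matrix.mul_apply]
    simp only [Matrix.of_apply]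
    have h1 : ∀ z : Fin t → Bool, ε * (∏ i, m i (σ i) (z i)) * (ε⁻¹ * ∏ i, mi i (z i) (τ i))
        = ∏ i, (m i (σ i) (z i) * mi i (z i) (τ i)) := by
      intro z
      rw [mul_mul_mul_comm, mul_inv_cancel₀ hε, one_mul]
      exact Finset.prod_mul_distrib.symm
    have h3 := Fintype.prod_sum (fun (i : Fin t) (z : Bool) => m i (σ i) z * mi i z (τ i))
    rw [Finset.sum_congr rfl fun z _ => h1 z]
    refine h3.symm.trans ?_
    rw [Finset.prod_congr rfl fun i _ => hmi i (σ i) (τ i), Matrix.one_apply]
    by_cases h : σ = τ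
    · subst h
      simp
    · rw [if_neg h]
      obtain ⟨i, hi⟩ := Function.ne_iff.1 h
      exact Finset.prod_eq_zero (Finset.mem_univ i) (if_neg hi)
  intro h0
  have h2 := congrArg Matrix.det hmul
  rw [Matrix.det_mul, h0, zero_mul, Matrix.det_one] at h2
  exact zero_ne_one h2

section core

variable {K : Type u} [Field K] (A : ValuationSubring K)

/-- the residue field -/
abbrev kk (A : ValuationSubring K) : Type u := IsLocalRing.ResidueField A

/-- the weight of a position -/
def wt (n : ℕ) (i j : Fin n) : ℕ := n * i + j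

lemma wt_inj {n : ℕ} {i j i' j' : Fin n} (h : wt n i j = wt n i' j') : i = i' ∧ j = j' := by
  unfold wt at h
  have hj := j.2
  have hj' := j'.2
  have h1 : (n * (i : ℕ) + j) / n = i := by
    rw [Nat.mul_add_div (by omega), Nat.div_eq_of_lt hj, add_zero]
  have h2 : (n * (i' : ℕ) + j') / n = i' := by
    rw [Nat.mul_add_div (by omega), Nat.div_eq_of_lt hj', add_zero]
  have h3 : (i : ℕ) = i' := by rw [← h1, ← h2, h]
  refine ⟨Fin.ext h3, Fin.ext ?_⟩
  rw [h3] at h
  omega

/-- the degeneration of an integral matrix with leading position `p` -/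
noncomputable def LP {n : ℕ} (M : Matrix (Fin n) (Fin n) A) (p : Fin n × Fin n) :
    Matrix (Fin n) (Fin n) (Polynomial (kk A)) :=
  Matrix.of fun r c => if wt n p.1 p.2 ≤ wt n r c then
    C (IsLocalRing.residue A (M r c) * (IsLocalRing.residue A (M p.1 p.2))⁻¹) *
      X ^ (wt n r c - wt n p.1 p.2) else 0

lemma LP_zero {n : ℕ} (M : Matrix (Fin n) (Fin n) A) (p : Fin n × Fin n)
    (hp : IsLocalRing.residue A (M p.1 p.2) ≠ 0) (r c : Fin n) :
    (LP A M p r c).eval 0 = if r = p.1 ∧ c = p.2 then 1 else 0 := by
  unfold LP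
  rw [Matrix.of_apply]
  by_cases h : r = p.1 ∧ c = p.2
  · obtain ⟨rfl, rfl⟩ := h
    rw [if_pos le_rfl, if_pos ⟨rfl, rfl⟩, Nat.sub_self, pow_zero, mul_one, eval_C,
      mul_inv_cancel₀ hp]
  · rw [if_neg h]
    split_ifs with h1
    · rw [eval_mul, eval_pow, eval_X, zero_pow, mul_zero]
      intro h2
      apply h
      exact wt_inj (by omega)
    · exact eval_zero

lemma LP_eval {n : ℕ} (M : Matrix (Fin n) (Fin n) A) (p : Fin n × Fin n)
    (hp : IsLocalRing.residue A (M p.1 p.2) ≠ 0)
    (hM : ∀ i j, wt n i j < wt n p.1 p.2 → IsLocalRing.residue A (M i j) = 0)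
    (q : kk A) (hq : q ≠ 0) (r c : Fin n) :
    (LP A M p r c).eval q = q ^ wt n r c *
      ((q ^ wt n p.1 p.2 * IsLocalRing.residue A (M p.1 p.2))⁻¹ *
        IsLocalRing.residue A (M r c)) := by
  unfold LP
  rw [Matrix.of_apply]
  split_ifs with h1
  · rw [eval_mul, eval_pow, eval_X, eval_C, mul_inv]
    have h2 : q ^ wt n r c = q ^ (wt n r c - wt n p.1 p.2) * q ^ wt n p.1 p.2 := by
      rw [← pow_add]
      congr 1
      omega
    rw [h2]
    field_simp
  · rw [hM r c (by omega), mul_zero, mul_zero, eval_zero]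

/-- **Core theorem.** -/
theorem core' [Infinite (kk A)] {n : ℕ} (χ : Perm (Fin n) → ℤ) (hχ : BlockGood.{u} χ)
    (f : Matrix (Fin n) (Fin n) K → K)
    (hf : ∀ x : Matrix (Fin n) (Fin n) A, ∃ y : A, f (x.map (algebraMap A K)) = algebraMap A K y ∧
      IsLocalRing.residue A y = gm χ (x.map (IsLocalRing.residue A)))
    (U W : ℕ → Submodule K (Matrix (Fin n) (Fin n) K)) (t : ℕ) (h2 : 2 * t ≤ n)
    (hU : ∀ s < t, 4 * n * s < Module.finrank K (U s))
    (hW : ∀ s < t, 4 * n * s < Module.finrank K (W s)) :
    ∃ (x : Matrix (Fin n) (Fin n) K) (u w : Fin t → Matrix (Fin n) (Fin n) K),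
      (∀ i : Fin t, u i ∈ U i) ∧ (∀ i : Fin t, w i ∈ W i) ∧
      (Matrix.of fun σ τ : Fin t → Bool =>
        f (x + (∑ i, if σ i then u i else 0) + (∑ i, if τ i then w i else 0))).det ≠ 0 := by
  classical
  obtain ⟨ρ, γ, hρ, hγ, a, b, hab⟩ := select (fun i => leadSet A (wt n) (U i))
    (fun i => leadSet A (wt n) (W i)) t h2
    (fun s hs => lt_of_lt_of_le (hU s hs) (finrank_le_lead A (wt n) (U s)))
    (fun s hs => lt_of_lt_of_le (hW s hs) (finrank_le_lead A (wt n) (W s)))
  have hcard : Fintype.card (Fin 2 × Fin t) + Fintype.card (Fin (n - 2 * t))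
      = Fintype.card (Fin n) := by
    rw [Fintype.card_prod, Fintype.card_fin, Fintype.card_fin, Fintype.card_fin,
      Fintype.card_fin]
    omega
  obtain ⟨er, her⟩ := exists_extend (ν := Fin (n - 2 * t)) ρ hρ hcard
  obtain ⟨ec, hec⟩ := exists_extend (ν := Fin (n - 2 * t)) γ hγ hcard
  set pa : Fin t → Fin n × Fin n := fun i => (ρ ((a i).1, i), γ ((a i).2, i)) with hpa
  set pb : Fin t → Fin n × Fin n := fun i => (ρ ((b i).1, i), γ ((b i).2, i)) with hpb
  have hLa : ∀ i : Fin t, IsLead A (wt n) (U i) (pa i) :=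
    fun i => (Finset.mem_filter.1 (hab i).1).2
  have hLb : ∀ i : Fin t, IsLead A (wt n) (W i) (pb i) :=
    fun i => (Finset.mem_filter.1 (hab i).2).2
  choose Mu hMuU hMu0 hMu1 using hLa
  choose Mw hMwW hMw0 hMw1 using hLb
  obtain ⟨ε, cc, hε, hcc, hval⟩ := hχ t (n - 2 * t) er ec
  -- the base point
  set x0 : Matrix (Fin n) (Fin n) (kk A) := assemble er ec
    (fun i => Matrix.of fun x y => ((bg (a i) (b i) x y : ℤ) : kk A)) with hx0
  set V : (Fin t → Bool) → (Fin t → Bool) → Matrix (Fin n) (Fin n) (Polynomial (kk A)) :=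
    fun σ τ => x0.map C + (∑ i, if σ i then LP A (Mu i) (pa i) else 0)
      + (∑ i, if τ i then LP A (Mw i) (pb i) else 0) with hV
  set VV : Matrix (Fin t → Bool) (Fin t → Bool) (Polynomial (kk A)) :=
    Matrix.of fun σ τ => gm χ (V σ τ) with hVV
  -- entries of a sum
  have hsum : ∀ (σ : Fin t → Bool) (N : Fin t → Matrix (Fin n) (Fin n) (Polynomial (kk A)))
      (q : kk A) (r c : Fin n), ((∑ i, if σ i then N i else 0) r c).eval q
        = ∑ i, if σ i then (N i r c).eval q else 0 := by
    intro σ N q r c
    rw [Matrix.sum_apply, eval_finsetSum]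
    refine Finset.sum_congr rfl fun i _ => ?_
    split_ifs
    · rfl
    · rw [Matrix.zero_apply, eval_zero]
  -- value at `0`
  have hV0 : ∀ σ τ, (V σ τ).map (evalRingHom (0 : kk A)) = assemble er ec
      (fun i => Matrix.of fun x y => ((bg (a i) (b i) x y : ℤ) : kk A)
        + (if a i = (x, y) then (if σ i then 1 else 0) else 0)
        + (if b i = (x, y) then (if τ i then 1 else 0) else 0)) := by
    intro σ τ
    have hpos : ∀ (d : Fin t → Fin 2 × Fin 2) (r' c' : (Fin 2 × Fin t) ⊕ Fin (n - 2 * t))
        (ω : Fin t → Bool), (∑ i, if ω i then (if er r' = ρ ((d i).1, i) ∧ ec c' = γ ((d i).2, i)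
          then (1 : kk A) else 0) else 0) =
        match r', c' with
        | Sum.inl x, Sum.inl y => if x.2 = y.2 then
            (if d x.2 = (x.1, y.1) then (if ω x.2 then 1 else 0) else 0) else 0
        | _, _ => 0 := by
      intro d r' c' ω
      have hk : ∀ i, (er r' = ρ ((d i).1, i) ∧ ec c' = γ ((d i).2, i)) ↔
          (r' = Sum.inl ((d i).1, i) ∧ c' = Sum.inl ((d i).2, i)) := by
        intro i
        rw [← her, ← hec, er.injective.eq_iff, ec.injective.eq_iff]
      rcases r' with x | x
      · rcases c' with y | y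
        · simp only
          by_cases hxy : x.2 = y.2
          · rw [if_pos hxy, Finset.sum_eq_single x.2]
            · have h3 : (er (Sum.inl x) = ρ ((d x.2).1, x.2) ∧ ec (Sum.inl y) =
                  γ ((d x.2).2, x.2)) ↔ d x.2 = (x.1, y.1) := by
                rw [hk]
                constructor
                · rintro ⟨h4, h5⟩
                  have h6 := congrArg Prod.fst (Sum.inl_injective h4)
                  have h7 := congrArg Prod.fst (Sum.inl_injective h5)
                  exact Prod.ext h6.symm h7.symm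
                · intro h4
                  rw [h4]
                  refine ⟨rfl, ?_⟩
                  rw [hxy]
              by_cases h4 : d x.2 = (x.1, y.1)
              · rw [if_pos h4, if_pos (h3.2 h4)]
              · rw [if_neg h4, if_neg (fun h5 => h4 (h3.1 h5))]
                simp
            · intro i _ hi
              rw [if_neg (c := er (Sum.inl x) = _ ∧ _)]
              · simp
              · rw [hk]
                rintro ⟨h4, _⟩
                apply hi
                have := congrArg Prod.snd (Sum.inl_injective h4)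
                exact this.symm
            · intro h; exact absurd (Finset.mem_univ _) h
          · rw [if_neg hxy]
            apply Finset.sum_eq_zero
            intro i _
            rw [if_neg (c := er (Sum.inl x) = _ ∧ _)]
            · simp
            · rw [hk]
              rintro ⟨h4, h5⟩
              apply hxy
              have h6 := congrArg Prod.snd (Sum.inl_injective h4)
              have h7 := congrArg Prod.snd (Sum.inl_injective h5)
              simp only at h6 h7
              rw [h6, h7]
        · simp only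
          apply Finset.sum_eq_zero
          intro i _
          rw [if_neg (c := er (Sum.inl x) = _ ∧ _)]
          · simp
          · rw [hk]
            rintro ⟨_, h5⟩
            exact absurd h5 (by simp)
      · simp only
        apply Finset.sum_eq_zero
        intro i _
        rw [if_neg (c := er (Sum.inr x) = _ ∧ _)]
        · simp
        · rw [hk]
          rintro ⟨h4, _⟩
          exact absurd h4 (by simp)
    ext r c
    obtain ⟨r', rfl⟩ := er.surjective r
    obtain ⟨c', rfl⟩ := ec.surjective c
    rw [Matrix.map_apply, coe_evalRingHom, hV]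
    simp only [Matrix.add_apply, eval_add, Matrix.map_apply, eval_C]
    rw [hsum, hsum]
    have hA : (∑ i, if σ i = true then eval 0 (LP A (Mu i) (pa i) (er r') (ec c')) else 0)
        = ∑ i, if σ i = true then (if er r' = ρ ((a i).1, i) ∧ ec c' = γ ((a i).2, i)
          then (1 : kk A) else 0) else 0 := by
      refine Finset.sum_congr rfl fun i _ => ?_
      rw [LP_zero A _ _ (hMu0 i)]
    have hB : (∑ i, if τ i = true then eval 0 (LP A (Mw i) (pb i) (er r') (ec c')) else 0)
        = ∑ i, if τ i = true then (if er r' = ρ ((b i).1, i) ∧ ec c' = γ ((b i).2, i)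
          then (1 : kk A) else 0) else 0 := by
      refine Finset.sum_congr rfl fun i _ => ?_
      rw [LP_zero A _ _ (hMw0 i)]
    rw [hA, hB, hpos a r' c' σ, hpos b r' c' τ, hx0]
    unfold assemble
    simp only [Matrix.submatrix_apply, Equiv.symm_apply_apply]
    rcases r' with x | x
    · rcases c' with y | y
      · simp only [Matrix.fromBlocks_apply₁₁, Matrix.blockDiagonal_apply, Matrix.of_apply]
        split_ifs <;> simp
      · simp
    · rcases c' with y | y
      · simp
      · simp
  have hdet0 : (VV.map (evalRingHom (0 : kk A))).det ≠ 0 := by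
    have h1 : VV.map (evalRingHom (0 : kk A)) = Matrix.of fun σ τ : Fin t → Bool =>
        (ε : kk A) * ∏ i, ((gv cc (a i) (b i) (if σ i then 1 else 0) (if τ i then 1 else 0) : ℤ)
          : kk A) := by
      ext σ τ
      rw [Matrix.map_apply, hVV, Matrix.of_apply, Matrix.of_apply, ← gm_map, hV0, hval]
      congr 1
      refine Finset.prod_congr rfl fun i _ => ?_
      unfold gv
      simp only [Matrix.of_apply]
      push_cast
      rfl
    rw [h1]
    refine kron_det (ε : kk A) ?_ (fun i x y => ((gv cc (a i) (b i) (if x then 1 else 0)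
      (if y then 1 else 0) : ℤ) : kk A)) ?_
    · rcases hε with h | h
      · rw [h]; simp
      · rw [h]; simp
    · intro i
      have h3 := gadget cc hcc (a i) (b i)
      have h4 : ((gv cc (a i) (b i) 0 0 * gv cc (a i) (b i) 1 1 - gv cc (a i) (b i) 0 1 *
          gv cc (a i) (b i) 1 0 : ℤ) : kk A) ≠ 0 := by
        rcases h3 with h3 | h3
        · rw [h3]; simp
        · rw [h3]; simp
      push_cast at h4
      simpa using h4
  have hdetX : X * VV.det ≠ 0 := by
    intro h
    rcases mul_eq_zero.1 h with h1 | h1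
    · exact X_ne_zero h1
    · apply hdet0
      have h3 := RingHom.map_det (evalRingHom (0 : kk A)) VV
      rw [h1, map_zero] at h3
      exact h3.symm
  obtain ⟨q, hq⟩ : ∃ q : kk A, (X * VV.det).eval q ≠ 0 := by
    by_contra hcon
    push Not at hcon
    exact hdetX (Polynomial.funext (by intro q; rw [hcon q, eval_zero]))
  rw [eval_mul, eval_X] at hq
  have hq0 : q ≠ 0 := left_ne_zero_of_mul hq
  have hqdet : VV.det.eval q ≠ 0 := right_ne_zero_of_mul hq
  -- lifts
  have hres := IsLocalRing.residue_surjective (R := A)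
  choose xh hxh using fun r c => hres ((q ^ wt n r c)⁻¹ * x0 r c)
  choose ka hka using fun i => hres ((q ^ wt n (pa i).1 (pa i).2 *
    IsLocalRing.residue A (Mu i (pa i).1 (pa i).2))⁻¹)
  choose kb hkb using fun i => hres ((q ^ wt n (pb i).1 (pb i).2 *
    IsLocalRing.residue A (Mw i (pb i).1 (pb i).2))⁻¹)
  set ua : (Fin t → Bool) → Matrix (Fin n) (Fin n) A := fun σ =>
    ∑ i, if σ i then ka i • Mu i else 0 with hua
  set wb : (Fin t → Bool) → Matrix (Fin n) (Fin n) A := fun τ =>
    ∑ i, if τ i then kb i • Mw i else 0 with hwb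
  have hmap : ∀ (κ : Fin t → A) (N : Fin t → Matrix (Fin n) (Fin n) A)
      (σ : Fin t → Bool), (∑ i, if σ i then κ i • N i else 0).map (algebraMap A K)
        = ∑ i, if σ i then (algebraMap A K (κ i)) • (N i).map (algebraMap A K) else 0 := by
    intro κ N σ
    ext r c
    rw [Matrix.map_apply, Matrix.sum_apply, Matrix.sum_apply, map_sum]
    refine Finset.sum_congr rfl fun i _ => ?_
    split_ifs
    · simp
    · simp
  -- the scaled reduction
  have hscale : ∀ σ τ, (Matrix.of fun r c : Fin n => q ^ (n * (r : ℕ)) * q ^ (c : ℕ) *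
      ((Matrix.of xh + ua σ + wb τ).map (IsLocalRing.residue A)) r c)
        = (V σ τ).map (evalRingHom q) := by
    intro σ τ
    ext r c
    rw [Matrix.of_apply, Matrix.map_apply, Matrix.map_apply, coe_evalRingHom, hV]
    simp only [Matrix.add_apply, eval_add, Matrix.map_apply, eval_C]
    rw [hsum, hsum, ← pow_add]
    have hw : n * (r : ℕ) + (c : ℕ) = wt n r c := rfl
    rw [hw, map_add, map_add, mul_add, mul_add, Matrix.of_apply, hxh]
    have hq1 : q ^ wt n r c ≠ 0 := pow_ne_zero _ hq0
    congr 1
    · congr 1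
      · rw [← mul_assoc, mul_inv_cancel₀ hq1, one_mul]
      · rw [hua]
        simp only [Matrix.sum_apply]
        rw [map_sum, Finset.mul_sum]
        refine Finset.sum_congr rfl fun i _ => ?_
        split_ifs
        · rw [LP_eval A _ _ (hMu0 i) (hMu1 i) q hq0, Matrix.smul_apply, smul_eq_mul, map_mul,
            hka]
        · simp
    · rw [hwb]
      simp only [Matrix.sum_apply]
      rw [map_sum, Finset.mul_sum]
      refine Finset.sum_congr rfl fun i _ => ?_
      split_ifs
      · rw [LP_eval A _ _ (hMw0 i) (hMw1 i) q hq0, Matrix.smul_apply, smul_eq_mul, map_mul,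
          hkb]
      · simp
  -- the values of `f`
  choose Y hY1 hY2 using fun (σ τ : Fin t → Bool) => hf (Matrix.of xh + ua σ + wb τ)
  have hYdet : (Matrix.of Y).det ≠ 0 := by
    intro h0
    set Q : kk A := (∏ r : Fin n, q ^ (n * (r : ℕ))) * ∏ c : Fin n, q ^ (c : ℕ) with hQ
    have h1 : VV.map (evalRingHom q) = Q • ((Matrix.of Y).map (IsLocalRing.residue A)) := by
      ext σ τ
      rw [Matrix.map_apply, hVV, Matrix.of_apply, ← gm_map, ← hscale, gm_scale,
        Matrix.smul_apply, Matrix.map_apply, Matrix.of_apply, hY2, smul_eq_mul]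
    have h3 := RingHom.map_det (evalRingHom q) VV
    rw [RingHom.mapMatrix_apply, h1, Matrix.det_smul] at h3
    have h4 := RingHom.map_det (IsLocalRing.residue A) (Matrix.of Y)
    rw [h0, map_zero, RingHom.mapMatrix_apply] at h4
    rw [← h4, mul_zero] at h3
    exact hqdet h3
  -- conclusion
  refine ⟨(Matrix.of xh).map (algebraMap A K),
    fun i => (algebraMap A K (ka i)) • (Mu i).map (algebraMap A K),
    fun i => (algebraMap A K (kb i)) • (Mw i).map (algebraMap A K),
    fun i => (U i).smul_mem _ (hMuU i), fun i => (W i).smul_mem _ (hMwW i), ?_⟩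
  have hPR : (Matrix.of fun σ τ : Fin t → Bool =>
      f ((Matrix.of xh).map (algebraMap A K)
        + (∑ i, if σ i then (algebraMap A K (ka i)) • (Mu i).map (algebraMap A K) else 0)
        + (∑ i, if τ i then (algebraMap A K (kb i)) • (Mw i).map (algebraMap A K) else 0)))
      = (Matrix.of Y).map (algebraMap A K) := by
    ext σ τ
    rw [Matrix.map_apply, Matrix.of_apply, Matrix.of_apply, ← hY1, ← hmap, ← hmap]
    congr 1
  rw [hPR]
  intro h
  apply hYdet
  have h3 := RingHom.map_det (algebraMap A K) (Matrix.of Y)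
  rw [RingHom.mapMatrix_apply, h] at h3
  exact (FaithfulSMul.algebraMap_injective A K) (by rw [h3, map_zero])

/-- The case of one pair of subspaces: a lower bound for the number of products. -/
theorem core [Infinite (kk A)] {n : ℕ} (χ : Perm (Fin n) → ℤ) (hχ : BlockGood.{u} χ)
    (f : Matrix (Fin n) (Fin n) K → K)
    (hf : ∀ x : Matrix (Fin n) (Fin n) A, ∃ y : A, f (x.map (algebraMap A K)) = algebraMap A K y ∧
      IsLocalRing.residue A y = gm χ (x.map (IsLocalRing.residue A)))
    (U W : Submodule K (Matrix (Fin n) (Fin n) K)) (t : ℕ) (h2 : 2 * t ≤ n)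
    (hU : ∀ s < t, 4 * n * s < Module.finrank K U)
    (hW : ∀ s < t, 4 * n * s < Module.finrank K W)
    {Γ : Type*} [Fintype Γ]
    (hr : ∀ x, ∃ (a : U → Γ → K) (b : W → Γ → K), ∀ (u : U) (w : W),
      f (x + (u : Matrix (Fin n) (Fin n) K) + (w : Matrix (Fin n) (Fin n) K))
        = ∑ g, a u g * b w g) :
    2 ^ t ≤ Fintype.card Γ := by
  classical
  obtain ⟨x, u, w, hu, hw, hdet⟩ := core' A χ hχ f hf (fun _ => U) (fun _ => W) t h2 hU hW
  have hmem : ∀ (S : Submodule K (Matrix (Fin n) (Fin n) K))
      (N : Fin t → Matrix (Fin n) (Fin n) K) (_ : ∀ i, N i ∈ S)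
      (σ : Fin t → Bool), (∑ i, if σ i then N i else 0) ∈ S := by
    intro S N hN σ
    refine Submodule.sum_mem _ fun i _ => ?_
    split_ifs
    · exact hN i
    · exact S.zero_mem
  obtain ⟨a', b', hab'⟩ := hr x
  set P : Matrix (Fin t → Bool) Γ K := Matrix.of fun σ g => a' ⟨_, hmem U u hu σ⟩ g with hP
  set R : Matrix Γ (Fin t → Bool) K := Matrix.of fun g τ => b' ⟨_, hmem W w hw τ⟩ g with hR
  have hPR : (Matrix.of fun σ τ : Fin t → Bool =>
        f (x + (∑ i, if σ i then u i else 0) + (∑ i, if τ i then w i else 0))) = P * R := by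
    ext σ τ
    rw [Matrix.mul_apply]
    exact hab' ⟨_, hmem U u hu σ⟩ ⟨_, hmem W w hw τ⟩
  have hunit : IsUnit (Matrix.of fun σ τ : Fin t → Bool =>
        f (x + (∑ i, if σ i then u i else 0) + (∑ i, if τ i then w i else 0))) := by
    rw [Matrix.isUnit_iff_isUnit_det, isUnit_iff_ne_zero]
    exact hdet
  have h1 := Matrix.rank_of_isUnit _ hunit
  rw [hPR] at h1
  have h3 := Matrix.rank_mul_le_left P R
  have h4 := Matrix.rank_le_card_width P
  have h5 : Fintype.card (Fin t → Bool) = 2 ^ t := by simp
  omega

end core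

end Pool.Agent.W943.Aff
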