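import Pool.Agent.W943.Aff6

/-! # Explicit forms of the lower bounds -/

set_option autoImplicit false

namespace Pool.Agent.W943.Aff

open Matrix Finset Equiv

universe u

section

variable {K : Type u} [Field K] {n : ℕ}

/-- The lower bounds for programs reading affine forms; `C g` expresses that the function `g`
computes the permanent or the determinant, exactly or approximately. -/
def LowerBounds (K : Type u) [Field K] (n : ℕ) (C : (Matrix (Fin n) (Fin n) K → K) → Prop) :
    Prop :=
  -- sums of `s` programs, each of which reads its own affine forms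
  (∀ (s : ℕ) (m : Fin s → ℕ) (B : (q : Fin s) → AffProg K n (m q)),
    C (fun x => ∑ q, (B q).value x) →
    (∀ e μ : ℕ, (∀ q, (B q).length ≤ n ^ 2 + e) →
      (2 ^ s - 1) * (4 * n * (s * μ) + e) + 4 * n * (s * μ) ≤ n ^ 2 →
      2 ^ μ ≤ ∑ q, (B q).width) ∧
    ((∀ q, (B q).length ≤ n ^ 2) → 2 ^ (n / (s * 2 ^ (s + 2))) ≤ ∑ q, (B q).width)) ∧
  -- a single program
  (∀ (m : ℕ) (B : AffProg K n m), C B.value →
    2 * n ^ 2 ≤ B.length + 1 + 8 * n * Nat.log 2 B.width ∧
    (∀ (k t : ℕ) (G : Finset (Fin m)), 1 ≤ k → 1 ≤ t → 2 * t ≤ n → 2 * k ≤ G.card →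
      (∀ j ∈ G, B.reads j ≤ k) → m + 4 * n * (t - 1) < n ^ 2 + G.card / (2 * 4 ^ k) →
      2 ^ t ≤ B.width ^ (4 * k ^ 2)) ∧
    (∀ k : ℕ, 1 ≤ k → m = n ^ 2 → (∀ j, B.reads j ≤ k) →
      2 ^ (n / (8 * 4 ^ k)) ≤ B.width ^ (4 * k ^ 2)) ∧
    (∀ κ : ℕ, 1 ≤ κ → m = n ^ 2 → B.length ≤ κ * n ^ 2 →
      2 ^ (n / (16 * 16 ^ κ)) ≤ B.width ^ (16 * κ ^ 2)))

lemma sum_reads {m : ℕ} (B : AffProg K n m) : ∑ j, B.reads j = B.length := by
  classical
  have h := Finset.card_eq_sum_card_fiberwise (f := B.read) (s := Finset.range B.length)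
    (t := Finset.univ) (fun _ _ => by simp)
  rw [Finset.card_range] at h
  exact h.symm

variable (A : ValuationSubring K)

theorem lowerBounds_approx [Infinite (IsLocalRing.ResidueField A)] (hn : 2 ≤ n)
    (χ : Perm (Fin n) → ℤ) (hχ : BlockGood.{u} χ)
    (h1 : gm χ (1 : Matrix (Fin n) (Fin n) (IsLocalRing.ResidueField A)) ≠ 0) :
    LowerBounds K n (Approx A (gm χ)) := by
  classical
  -- a program computing `F` has positive width
  have hone : ∀ g : Matrix (Fin n) (Fin n) K → K, Approx A (gm χ) g →
      ∃ x, g x ≠ 0 := by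
    intro g hg
    obtain ⟨y, hy1, hy2⟩ := hg 1
    refine ⟨(1 : Matrix (Fin n) (Fin n) A).map (algebraMap A K), ?_⟩
    rw [hy1]
    intro h0
    have h3 : y = 0 := (FaithfulSMul.algebraMap_injective A K) (by rw [h0, map_zero])
    rw [h3, map_zero, Matrix.map_one _ (map_zero _) (map_one _)] at hy2
    exact h1 hy2.symm
  have hwidth : ∀ (m : ℕ) (B : AffProg K n m), Approx A (gm χ) B.value → 1 ≤ B.width := by
    intro m B hB
    by_contra hcon
    obtain ⟨x, hx⟩ := hone _ hB
    apply hx
    unfold AffProg.value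
    rw [dotProduct]
    apply Finset.sum_eq_zero
    intro i _
    have := i.2
    omega
  refine ⟨?_, ?_⟩
  · intro s m B hB
    have hmain : ∀ e μ : ℕ, (∀ q, (B q).length ≤ n ^ 2 + e) →
        (2 ^ s - 1) * (4 * n * (s * μ) + e) + 4 * n * (s * μ) ≤ n ^ 2 →
        2 ^ μ ≤ ∑ q, (B q).width := by
      intro e μ hlen hdim
      refine partS A χ hχ s μ e m B _ hB (fun _ => rfl) hlen ?_ hdim
      rcases Nat.eq_zero_or_pos s with hs | hs
      · subst hs; simp
      · have h3 : 1 ≤ 2 ^ s - 1 := by
          have : 2 ^ 1 ≤ 2 ^ s := Nat.pow_le_pow_right (by norm_num) hs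
          omega
        have h4 : 4 * n * (s * μ) + 4 * n * (s * μ) ≤ n ^ 2 := by
          calc 4 * n * (s * μ) + 4 * n * (s * μ)
              ≤ (2 ^ s - 1) * (4 * n * (s * μ) + e) + 4 * n * (s * μ) := by
                have := Nat.mul_le_mul h3 (Nat.le_add_right (4 * n * (s * μ)) e)
                omega
            _ ≤ n ^ 2 := hdim
        have h5 : 8 * (s * μ) * n ≤ n * n := by
          calc 8 * (s * μ) * n = 4 * n * (s * μ) + 4 * n * (s * μ) := by ring
            _ ≤ n ^ 2 := h4
            _ = n * n := sq n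
        have h6 := Nat.le_of_mul_le_mul_right h5 (by omega)
        omega
    refine ⟨hmain, ?_⟩
    intro hlen
    apply hmain 0
    · simpa using hlen
    · rw [add_zero]
      rcases Nat.eq_zero_or_pos s with hs | hs
      · subst hs; simp
      · set μ := n / (s * 2 ^ (s + 2)) with hμ
        have h3 : s * 2 ^ (s + 2) * μ ≤ n := Nat.mul_div_le _ _
        have h4 : 2 ^ s = (2 ^ s - 1) + 1 := by
          have : 1 ≤ 2 ^ s := Nat.one_le_two_pow
          omega
        calc (2 ^ s - 1) * (4 * n * (s * μ)) + 4 * n * (s * μ)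
            = ((2 ^ s - 1) + 1) * (4 * n * (s * μ)) := by ring
          _ = 2 ^ s * (4 * n * (s * μ)) := by rw [← h4]
          _ = n * (s * 2 ^ (s + 2) * μ) := by rw [pow_add]; ring
          _ ≤ n * n := Nat.mul_le_mul_left _ h3
          _ = n ^ 2 := (sq n).symm
  · intro m B hB
    have hw := hwidth m B hB
    refine ⟨?_, ?_, ?_, ?_⟩
    · set l := Nat.log 2 B.width with hl
      by_cases h2 : 2 * (l + 1) ≤ n
      · by_contra hcon
        push Not at hcon
        have h3 := partA A χ hχ B hB (l + 1) (by omega) h2 (by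
          rw [Nat.add_sub_cancel]
          have h4 : 8 * n * l = 2 * (4 * n * l) := by ring
          omega)
        have h5 := Nat.lt_pow_succ_log_self (b := 2) (by norm_num) B.width
        rw [← hl] at h5
        have h6 : l.succ = l + 1 := rfl
        rw [h6] at h5
        omega
      · push Not at h2
        have h3 : n ≤ 2 * l + 1 := by omega
        nlinarith
    · intro k t G hk ht h2 hG hreads hm
      exact partB A χ hχ B hB k t G hk ht h2 hG hreads hm
    · intro k hk hm hreads
      rcases Nat.eq_zero_or_pos (n / (8 * 4 ^ k)) with h0 | h0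
      · rw [h0, pow_zero]
        exact Nat.one_le_pow _ _ hw
      · set t := n / (8 * 4 ^ k) with ht
        have h3 : 8 * 4 ^ k * t ≤ n := Nat.mul_div_le _ _
        have h4 : k < 4 ^ k := Nat.lt_pow_self (by norm_num)
        have h5 : 8 * 4 ^ k ≤ n := le_trans (Nat.le_mul_of_pos_right _ h0) h3
        refine partB A χ hχ B hB k t Finset.univ hk h0 ?_ ?_ (fun j _ => hreads j) ?_
        · have h6 : 1 ≤ 4 ^ k := Nat.one_le_pow _ _ (by norm_num)
          have h7 : 2 * t ≤ 8 * 4 ^ k * t := Nat.mul_le_mul_right _ (by omega)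
          omega
        · rw [Finset.card_univ, Fintype.card_fin, hm, sq]
          nlinarith
        · rw [Finset.card_univ, Fintype.card_fin, hm]
          have h8 : 4 * n * t ≤ n ^ 2 / (2 * 4 ^ k) := by
            rw [Nat.le_div_iff_mul_le (by positivity)]
            calc 4 * n * t * (2 * 4 ^ k) = n * (8 * 4 ^ k * t) := by ring
              _ ≤ n * n := Nat.mul_le_mul_left _ h3
              _ = n ^ 2 := (sq n).symm
          have h9 : 4 * n * (t - 1) < 4 * n * t := by
            apply Nat.mul_lt_mul_of_pos_left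
            · omega
            · omega
          omega
    · intro κ hκ hm hlen
      rcases Nat.eq_zero_or_pos (n / (16 * 16 ^ κ)) with h0 | h0
      · rw [h0, pow_zero]
        exact Nat.one_le_pow _ _ hw
      · set t := n / (16 * 16 ^ κ) with ht
        have h3 : 16 * 16 ^ κ * t ≤ n := Nat.mul_div_le _ _
        have h4 : κ < 16 ^ κ := Nat.lt_pow_self (by norm_num)
        have h5 : 16 * 16 ^ κ ≤ n := le_trans (Nat.le_mul_of_pos_right _ h0) h3
        set G : Finset (Fin m) := Finset.univ.filter (fun j => B.reads j ≤ 2 * κ) with hG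
        have hGc : n ^ 2 ≤ 2 * G.card := by
          have h6 := sum_reads B
          have h7 := Finset.card_filter_add_card_filter_not (s := (Finset.univ : Finset (Fin m)))
            (fun j => B.reads j ≤ 2 * κ)
          rw [← hG, Finset.card_univ, Fintype.card_fin] at h7
          have h8 : (Finset.univ.filter (fun j => ¬ B.reads j ≤ 2 * κ)).card * (2 * κ) ≤ B.length := by
            rw [← h6]
            calc (Finset.univ.filter (fun j => ¬ B.reads j ≤ 2 * κ)).card * (2 * κ)
                = ∑ _j ∈ Finset.univ.filter (fun j => ¬ B.reads j ≤ 2 * κ), 2 * κ := by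
                  rw [Finset.sum_const, smul_eq_mul]
              _ ≤ ∑ j ∈ Finset.univ.filter (fun j => ¬ B.reads j ≤ 2 * κ), B.reads j := by
                  refine Finset.sum_le_sum fun j hj => ?_
                  have := (Finset.mem_filter.1 hj).2
                  omega
              _ ≤ ∑ j, B.reads j := Finset.sum_le_sum_of_subset (Finset.filter_subset _ _)
          set g' := (Finset.univ.filter (fun j => ¬ B.reads j ≤ 2 * κ)).card with hg'
          have h9 : g' * 2 * κ ≤ n ^ 2 * κ := by
            calc g' * 2 * κ = g' * (2 * κ) := by ring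
              _ ≤ B.length := h8
              _ ≤ κ * n ^ 2 := hlen
              _ = n ^ 2 * κ := mul_comm _ _
          have h10 := Nat.le_of_mul_le_mul_right h9 (by omega)
          omega
        have h11 := partB A χ hχ B hB (2 * κ) t G (by omega) h0 ?_ ?_
          (fun j hj => (Finset.mem_filter.1 hj).2) ?_
        · have h12 : 4 * (2 * κ) ^ 2 = 16 * κ ^ 2 := by ring
          rw [h12] at h11
          exact h11
        · have h6 : 1 ≤ 16 ^ κ := Nat.one_le_pow _ _ (by norm_num)
          have h7 : 2 * t ≤ 16 * 16 ^ κ * t := Nat.mul_le_mul_right _ (by omega)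
          omega
        · nlinarith
        · have h8 : 4 * n * t ≤ G.card / (2 * 4 ^ (2 * κ)) := by
            rw [Nat.le_div_iff_mul_le (by positivity), pow_mul, show (4 : ℕ) ^ 2 = 16 by norm_num]
            have h13 : 2 * (4 * n * t * (2 * 16 ^ κ)) ≤ n ^ 2 := by
              calc 2 * (4 * n * t * (2 * 16 ^ κ)) = n * (16 * 16 ^ κ * t) := by ring
                _ ≤ n * n := Nat.mul_le_mul_left _ h3
                _ = n ^ 2 := (sq n).symm
            omega
          have h9 : 4 * n * (t - 1) < 4 * n * t := by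
            apply Nat.mul_lt_mul_of_pos_left
            · omega
            · omega
          omega

end

end Pool.Agent.W943.Aff
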