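import Mathlib
import Pool.Agent.W943.Orb8
import Pool.Agent.H531R2.Subst

/-!
The Jacobian criterion for algebraic independence over a field of characteristic zero, and
composites of bounded transcendence degree over a chain of primes.
-/

set_option autoImplicit false

namespace Pool.Agent.W943

open MvPolynomial

section jac

variable {F : Type} [Field F] [CharZero F]

/-- A derivation that vanishes on a subalgebra vanishes on algebraic elements. -/
theorem deriv_zero_of_alg {A : Type} [CommRing A] [IsDomain A] [Algebra F A]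
    (S : Subalgebra F A) (D : Derivation F A A) (hD : ∀ x ∈ S, D x = 0) {x : A}
    (hx : IsAlgebraic S x) : D x = 0 := by
  let D' : Derivation S A A := Derivation.mk'
    { toFun := D
      map_add' := map_add D
      map_smul' := by
        intro c a
        rw [Algebra.smul_def, Derivation.leibniz, smul_eq_mul, smul_eq_mul, RingHom.id_apply,
          Algebra.smul_def]
        have : D (algebraMap S A c) = 0 := hD _ c.2
        rw [this, mul_zero, add_zero] } (fun a b => Derivation.leibniz D a b)
  have hD' : D x = D' x := rfl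
  rw [hD']
  have hinj : Function.Injective (algebraMap S A) := Subtype.val_injective
  have hcA : CharZero A := charZero_of_injective_algebraMap (algebraMap F A).injective
  have : CharZero S := by
    refine ⟨fun a b h => ?_⟩
    have h1 := congrArg (algebraMap S A) h
    rw [map_natCast, map_natCast] at h1
    exact_mod_cast h1
  have main : ∀ (n : ℕ) (P : Polynomial S), P.natDegree ≤ n → P ≠ 0 → Polynomial.aeval x P = 0 →
      D' x = 0 := by
    intro n
    induction n with
    | zero =>
      intro P hP hP0 h0
      exfalso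
      rw [Nat.le_zero] at hP
      rw [Polynomial.eq_C_of_natDegree_eq_zero hP, Polynomial.aeval_C] at h0
      rw [← map_zero (algebraMap S A)] at h0
      have := hinj h0
      apply hP0
      rw [Polynomial.eq_C_of_natDegree_eq_zero hP, this, Polynomial.C_0]
    | succ n ih =>
      intro P hP hP0 h0
      by_cases hd : P.natDegree = 0
      · exact ih P (by omega) hP0 h0
      have h1 := D'.map_aeval P x
      rw [h0, map_zero, smul_eq_mul] at h1
      rcases mul_eq_zero.1 h1.symm with h2 | h2
      · refine ih _ ?_ ?_ h2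
        · have := Polynomial.natDegree_derivative_lt hd
          omega
        · intro h3
          exact hd (Polynomial.derivative_eq_zero.1 h3)
      · exact h2
  obtain ⟨P, hP, h0⟩ := hx
  exact main _ P le_rfl hP h0

/-- Algebraically independent polynomials have a nonzero Jacobian minor. -/
theorem det_of_algInd' {r : ℕ} {σ : Type} [Fintype σ] (T : Fin r → MvPolynomial σ F)
    (h : AlgebraicIndependent F T) :
    ∃ s : Fin r → σ, (Matrix.of fun a b => pderiv (s b) (T a)).det ≠ 0 := by
  classical
  apply Pool.Agent.H531R2.exists_minor r (fun a j => pderiv j (T a))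
  intro c hc
  -- a transcendence basis containing the `T a`
  have hX : IsTranscendenceBasis F (X : σ → MvPolynomial σ F) := IsTranscendenceBasis.mvPolynomial σ F
  have halg : Algebra.IsAlgebraic (Algebra.adjoin F (Set.range T ∪ Set.range (X : σ → _)))
      (MvPolynomial σ F) := by
    have h1 : Algebra.adjoin F (Set.range T ∪ Set.range (X : σ → MvPolynomial σ F)) = ⊤ := by
      rw [eq_top_iff, ← MvPolynomial.adjoin_range_X]
      exact Algebra.adjoin_mono Set.subset_union_right
    refine ⟨fun x => ?_⟩
    have hx : x ∈ Algebra.adjoin F (Set.range T ∪ Set.range (X : σ → MvPolynomial σ F)) := by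
      rw [h1]; trivial
    exact isAlgebraic_algebraMap (R := Algebra.adjoin F (Set.range T ∪ Set.range
      (X : σ → MvPolynomial σ F))) (A := MvPolynomial σ F) ⟨x, hx⟩
  obtain ⟨u, hu1, hu2, hu⟩ := exists_isTranscendenceBasis_between (R := F) (Set.range T)
    (Set.range T ∪ Set.range (X : σ → MvPolynomial σ F)) Set.subset_union_left
    h.coe_range
  have hcard := IsTranscendenceBasis.lift_cardinalMk_eq hX hu
  have hfin : Finite u := by
    have h1 : Cardinal.lift (Cardinal.mk u) < Cardinal.aleph0 := by
      rw [← hcard, Cardinal.lift_lt_aleph0]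
      exact Cardinal.mk_lt_aleph0
    rw [Cardinal.lift_lt_aleph0] at h1
    exact Cardinal.mk_lt_aleph0_iff.1 h1
  have : Fintype u := Fintype.ofFinite u
  have hcard' : Fintype.card σ = Fintype.card u := by
    rw [Cardinal.mk_fintype, Cardinal.mk_fintype] at hcard
    simpa using hcard
  obtain ⟨e⟩ : Nonempty (u ≃ σ) := Fintype.card_eq.1 hcard'.symm
  -- the full Jacobian matrix
  let M : Matrix u u (MvPolynomial σ F) := Matrix.of fun y j => pderiv (e j) (y : MvPolynomial σ F)
  have hM : M.det ≠ 0 := by
    intro h0
    obtain ⟨g, hg0, hg⟩ := Matrix.exists_mulVec_eq_zero_iff.2 h0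
    apply hg0
    let δ : Derivation F (MvPolynomial σ F) (MvPolynomial σ F) :=
      mkDerivation F (fun i => g (e.symm i))
    have hδ : ∀ P, δ P = ∑ j, pderiv (e j) P * g j := by
      intro P
      induction P using MvPolynomial.induction_on with
      | C a =>
        rw [← algebraMap_eq, δ.map_algebraMap]
        simp
      | add p q hp hq =>
        rw [map_add, hp, hq, ← Finset.sum_add_distrib]
        refine Finset.sum_congr rfl fun j _ => ?_
        rw [map_add, add_mul]
      | mul_X p i hp =>
        rw [δ.leibniz, hp, smul_eq_mul, smul_eq_mul, mkDerivation_X]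
        have h1 : ∀ j, pderiv (e j) (p * X i) * g j
            = X i * (pderiv (e j) p * g j) + (if j = e.symm i then p * g j else 0) := by
          intro j
          rw [pderiv_mul]
          by_cases h : j = e.symm i
          · subst h
            rw [Equiv.apply_symm_apply, pderiv_X_self, if_pos rfl]
            ring
          · rw [pderiv_X_of_ne, if_neg h]
            · ring
            · intro h2
              apply h
              rw [h2, Equiv.symm_apply_apply]
        rw [Finset.sum_congr rfl fun j _ => h1 j, Finset.sum_add_distrib, ← Finset.mul_sum,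
          Finset.sum_ite_eq' Finset.univ (e.symm i), if_pos (Finset.mem_univ _)]
        ring
    have hu0 : ∀ x ∈ Algebra.adjoin F (u : Set (MvPolynomial σ F)), δ x = 0 := by
      intro x hx
      induction hx using Algebra.adjoin_induction with
      | mem y hy =>
        rw [hδ]
        have := congrFun hg ⟨y, hy⟩
        simpa [Matrix.mulVec, dotProduct, M] using this
      | algebraMap q => exact δ.map_algebraMap q
      | add y z _ _ hy hz => rw [map_add, hy, hz, add_zero]
      | mul y z _ _ hy hz => rw [δ.leibniz, hy, hz, smul_zero, smul_zero, add_zero]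
    funext j
    have h3 : δ (X (e j)) = 0 := by
      apply deriv_zero_of_alg _ δ hu0
      have h4 := hu.isAlgebraic
      rw [Subtype.range_coe] at h4
      exact h4.isAlgebraic _
    rw [mkDerivation_X, Equiv.symm_apply_apply] at h3
    exact h3
  -- rows
  have hTinj : Function.Injective T := h.injective
  let c' : u → MvPolynomial σ F := fun y => if hy : ∃ a, T a = y then c hy.choose else 0
  have hc' : ∀ a, c' ⟨T a, hu1 ⟨a, rfl⟩⟩ = c a := by
    intro a
    have hex : ∃ b, T b = ((⟨T a, hu1 ⟨a, rfl⟩⟩ : u) : MvPolynomial σ F) := ⟨a, rfl⟩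
    simp only [c']
    rw [dif_pos hex]
    congr 1
    exact hTinj hex.choose_spec
  have hv : Matrix.vecMul c' M = 0 := by
    funext j
    simp only [Matrix.vecMul, dotProduct, M, Matrix.of_apply, Pi.zero_apply]
    rw [← hc (e j)]
    symm
    let ι : Fin r ↪ u := ⟨fun a => ⟨T a, hu1 ⟨a, rfl⟩⟩, fun a b hab => hTinj (by
      simpa using hab)⟩
    rw [← Finset.sum_subset (Finset.subset_univ (Finset.univ.map ι)), Finset.sum_map]
    · refine Finset.sum_congr rfl fun a _ => ?_
      rw [show ι a = ⟨T a, hu1 ⟨a, rfl⟩⟩ from rfl, hc']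
    · intro y _ hy
      have : c' y = 0 := by
        simp only [c']
        rw [dif_neg]
        rintro ⟨a, ha⟩
        apply hy
        rw [Finset.mem_map]
        exact ⟨a, Finset.mem_univ _, Subtype.ext ha⟩
      rw [this, zero_mul]
  have hc0 := Matrix.eq_zero_of_vecMul_eq_zero hM hv
  funext a
  rw [← hc' a, hc0]
  rfl

variable {n : ℕ}

/-- Composites of algebraically independent polynomials. -/
theorem DChain.comp_algInd (V : DChain F n) {ρ : ℕ} (T : Fin ρ → MvPolynomial (Fin n) F)
    (hT : AlgebraicIndependent F T) (e : ℕ)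
    (hmin : ∀ κ : Fin ρ → Fin n, (Matrix.of fun a b => pderiv (κ b) (T a)).det ≠ 0 →
      (Matrix.of fun a b => pderiv (κ b) (T a)).det ∉ V.I e)
    {Ψ : MvPolynomial (Fin ρ) F} (h0 : Ψ ≠ 0) : aeval T Ψ ∉ V.I (e + ρ) := by
  classical
  obtain ⟨κ, hκ⟩ := det_of_algInd' T hT
  have hΔ := hmin κ hκ
  set M : Matrix (Fin ρ) (Fin ρ) (MvPolynomial (Fin n) F) :=
    Matrix.of fun a b => pderiv (κ b) (T a) with hM
  have hD : ∀ i k, ∑ l, (∑ b, if κ b = l then M.adjugate b i else 0) * pderiv l (T k) =
      if i = k then M.det else 0 := by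
    intro i k
    have h1 : ∀ l, (∑ b, if κ b = l then M.adjugate b i else 0) * pderiv l (T k) =
        ∑ b, if κ b = l then M.adjugate b i * pderiv l (T k) else 0 := by
      intro l
      rw [Finset.sum_mul]
      apply Finset.sum_congr rfl
      intro b _
      rw [ite_mul, zero_mul]
    simp only [h1]
    rw [Finset.sum_comm]
    have h2 : ∀ b, ∑ l, (if κ b = l then M.adjugate b i * pderiv l (T k) else 0) =
        M k b * M.adjugate b i := by
      intro b
      rw [Finset.sum_ite_eq Finset.univ (κ b), if_pos (Finset.mem_univ _), mul_comm]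
      rfl
    simp only [h2]
    have h3 := congrFun (congrFun (Matrix.mul_adjugate M) k) i
    rw [Matrix.mul_apply] at h3
    rw [h3, Matrix.smul_apply, Matrix.one_apply, smul_eq_mul]
    by_cases hik : i = k
    · rw [if_pos hik, if_pos hik.symm, mul_one]
    · rw [if_neg hik, if_neg (Ne.symm hik), mul_zero]
  intro hmem
  have h1 : Ψ ∈ (V.pull T _ M.det hD e hΔ).I ρ := hmem
  rw [DChain.level_n] at h1
  exact h0 ((Submodule.mem_bot _).1 h1)

/-- Composites of bounded transcendence degree. -/
theorem DChain.comp_trdeg (V : DChain F n) {N : ℕ} (g : Fin N → MvPolynomial (Fin n) F)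
    (r e : ℕ) (htr : ∀ s : Fin (r + 1) → Fin N, ¬ AlgebraicIndependent F (fun i => g (s i)))
    (hmin : ∀ (ρ : ℕ) (κ : Fin ρ → Fin n) (s : Fin ρ → Fin N), ρ ≤ r →
      (Matrix.of fun a b => pderiv (κ b) (g (s a))).det ≠ 0 →
      (Matrix.of fun a b => pderiv (κ b) (g (s a))).det ∉ V.I e)
    {Φ : MvPolynomial (Fin N) F} (h0 : aeval g Φ ≠ 0) : aeval g Φ ∉ V.I (e + r) := by
  classical
  set P : ℕ → Prop := fun ρ => ∃ s : Fin ρ → Fin N, AlgebraicIndependent F (fun i => g (s i))
    with hP
  have hP0 : P 0 := ⟨Fin.elim0, algebraicIndependent_empty_type⟩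
  have hPr : ∀ ρ, P ρ → ρ ≤ r := by
    rintro ρ ⟨s, hs⟩
    by_contra hcon
    push Not at hcon
    refine htr (fun i => s (Fin.castLE (by omega) i)) ?_
    exact hs.comp (Fin.castLE (show r + 1 ≤ ρ by omega)) (Fin.castLE_injective _)
  set ρ := Nat.findGreatest P r with hρ
  have hPρ : P ρ := Nat.findGreatest_spec (P := P) (Nat.zero_le r) hP0
  have hρr : ρ ≤ r := hPr ρ hPρ
  have hmax : ¬ P (ρ + 1) := by
    intro h
    have h1 := Nat.le_findGreatest (P := P) (hPr _ h) h
    omega
  obtain ⟨s, hs⟩ := hPρ
  set T : Fin ρ → MvPolynomial (Fin n) F := fun i => g (s i) with hT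
  have halg : ∀ i, IsAlgebraic (Algebra.adjoin F (Set.range T)) (g i) := by
    intro i
    by_contra hcon
    have h1 := (hs.option_iff_transcendental (g i)).2 hcon
    apply hmax
    refine ⟨Fin.cons i s, ?_⟩
    have h2 : (fun j : Fin (ρ + 1) => g ((Fin.cons i s : Fin (ρ + 1) → Fin N) j)) =
        (fun o : Option (Fin ρ) => o.elim (g i) T) ∘ (finSuccEquiv ρ) := by
      funext j
      refine Fin.cases ?_ (fun j => ?_) j
      · simp
      · simp [hT]
    rw [h2]
    exact h1.comp _ (finSuccEquiv ρ).injective
  have halgΦ : ∀ Φ : MvPolynomial (Fin N) F,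
      IsAlgebraic (Algebra.adjoin F (Set.range T)) (aeval g Φ) := by
    intro Φ
    induction Φ using MvPolynomial.induction_on with
    | C c =>
      rw [MvPolynomial.aeval_C]
      exact isAlgebraic_algebraMap (R := Algebra.adjoin F (Set.range T))
        (A := MvPolynomial (Fin n) F) (algebraMap F (Algebra.adjoin F (Set.range T)) c)
    | add p q hp hq => rw [map_add]; exact hp.add hq
    | mul_X p i hp => rw [map_mul, aeval_X]; exact hp.mul (halg i)
  obtain ⟨a, ha0, hdvd⟩ := (halgΦ Φ).exists_nonzero_dvd (mem_nonZeroDivisors_of_ne_zero h0)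
  have hle : Algebra.adjoin F (Set.range T) ≤ (aeval (R := F) T).range :=
    (Algebra.adjoin_range_eq_range_aeval F T).le
  obtain ⟨Ψ, hΨ⟩ := hle a.2
  have hΨ' : aeval T Ψ = (a : MvPolynomial (Fin n) F) := hΨ
  have hΨ0 : Ψ ≠ 0 := by
    rintro rfl
    rw [map_zero] at hΨ'
    exact ha0 (Subtype.ext hΨ'.symm)
  intro hmem
  have h1 : aeval T Ψ ∈ V.I (e + r) := by
    rw [hΨ']
    exact Ideal.mem_of_dvd _ hdvd hmem
  exact V.comp_algInd T hs e (fun κ hκ => hmin ρ κ s hρr hκ) hΨ0
    (V.mono (Nat.add_le_add_left hρr e) h1)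

end jac

end Pool.Agent.W943
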