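import Mathlib

/-! # Permanents and determinants of block matrices in a common form -/

set_option autoImplicit false

namespace Pool.Agent.W943.Aff

open Matrix Equiv Finset

universe u

/-- the permanent of a block diagonal matrix -/
theorem permanent_blockDiagonal {n o R : Type*} [Fintype n] [DecidableEq n] [Fintype o]
    [DecidableEq o] [CommRing R] (M : o → Matrix n n R) :
    (blockDiagonal M).permanent = ∏ k, (M k).permanent := by
  simp_rw [permanent]
  rw [Finset.prod_sum]
  simp_rw [Finset.prod_attach_univ, Finset.univ_pi_univ]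
  let preserving_snd : Finset (Equiv.Perm (n × o)) := {σ | ∀ x, (σ x).snd = x.snd}
  have mem_preserving_snd :
    ∀ {σ : Equiv.Perm (n × o)}, σ ∈ preserving_snd ↔ ∀ x, (σ x).snd = x.snd := fun {σ} =>
    Finset.mem_filter.trans ⟨fun h => h.2, fun h => ⟨Finset.mem_univ _, h⟩⟩
  rw [← Finset.sum_subset (Finset.subset_univ preserving_snd) _]
  · refine (Finset.sum_bij (fun σ _ => prodCongrLeft fun k ↦ σ k (mem_univ k)) ?_ ?_ ?_ ?_).symm
    · intro σ _
      rw [mem_preserving_snd]
      rintro ⟨-, x⟩
      simp only [prodCongrLeft_apply]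
    · intro σ _ σ' _ eq
      ext x hx k
      have :
        ∀ k x,
          prodCongrLeft (fun k => σ k (Finset.mem_univ _)) (k, x) =
            prodCongrLeft (fun k => σ' k (Finset.mem_univ _)) (k, x) :=
        fun k x => by rw [eq]
      simp only [prodCongrLeft_apply, Prod.mk_inj] at this
      exact (this k x).1
    · intro σ hσ
      rw [mem_preserving_snd] at hσ
      have hσ' x : (σ.symm x).snd = x.snd := by simpa [eq_comm] using hσ (σ.symm x)
      have mk_apply_eq : ∀ k x, ((σ (x, k)).fst, k) = σ (x, k) := by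
        intro k x
        ext
        · simp only
        · simp only [hσ]
      have mk_inv_apply_eq : ∀ k x, ((σ.symm (x, k)).fst, k) = σ.symm (x, k) := by grind
      refine ⟨fun k _ => ⟨fun x => (σ (x, k)).fst, fun x => (σ.symm (x, k)).fst, ?_, ?_⟩, ?_, ?_⟩
      · intro x
        simp [mk_apply_eq]
      · intro x
        simp [mk_inv_apply_eq]
      · apply Finset.mem_univ
      · ext ⟨k, x⟩
        · simp only [coe_fn_mk, prodCongrLeft_apply]
        · simp only [prodCongrLeft_apply, hσ]
    · intro σ _
      rw [← Finset.univ_product_univ, Finset.prod_product_right]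
      simp only [blockDiagonal_apply_eq, prodCongrLeft_apply]
  · intro σ _ hσ
    rw [mem_preserving_snd] at hσ
    obtain ⟨⟨k, x⟩, hkx⟩ := not_forall.mp hσ
    rw [Finset.prod_eq_zero (Finset.mem_univ (k, x))]
    rw [blockDiagonal_apply_ne]
    exact hkx

/-- the permanent of a block sum with an identity matrix -/
theorem permanent_fromBlocks_one {m o R : Type*} [Fintype m] [DecidableEq m] [Fintype o]
    [DecidableEq o] [CommRing R] (M : Matrix m m R) :
    (fromBlocks M 0 0 (1 : Matrix o o R)).permanent = M.permanent := by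
  classical
  unfold permanent
  symm
  apply Finset.sum_of_injOn (fun σ : Perm m => Equiv.sumCongr σ (1 : Perm o))
  · intro σ _ τ _ h
    ext x
    have := congrArg (fun e : Perm (m ⊕ o) => e (Sum.inl x)) h
    simpa using this
  · intro σ _
    simp
  · intro σ _ hσ
    have h : ¬ ∀ x : o, σ (Sum.inr x) = Sum.inr x := by
      intro h
      apply hσ
      have h1 : ∀ x : m, ∃ y : m, σ (Sum.inl x) = Sum.inl y := by
        intro x
        rcases hx : σ (Sum.inl x) with y | y
        · exact ⟨y, rfl⟩
        · exfalso
          have := σ.injective (hx.trans (h y).symm)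
          simp at this
      choose g hg using h1
      have hgi : Function.Injective g := by
        intro x y hxy
        have h2 : σ (Sum.inl x) = σ (Sum.inl y) := by rw [hg, hg, hxy]
        simpa using σ.injective h2
      refine ⟨Equiv.ofBijective g (Finite.injective_iff_bijective.1 hgi), by simp, ?_⟩
      ext x
      rcases x with x | x
      · simp [hg]
      · simp [h]
    push Not at h
    obtain ⟨x, hx⟩ := h
    apply Finset.prod_eq_zero (Finset.mem_univ (Sum.inr x))
    rcases hy : σ (Sum.inr x) with y | y
    · simp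
    · have : y ≠ x := by
        intro h'
        apply hx
        rw [hy, h']
      simp [this]
  · intro σ _
    rw [Fintype.prod_sum_type]
    simp

/-- a matrix function given by coefficients on the permutations -/
def gm {n : ℕ} {R : Type u} [CommRing R] (χ : Perm (Fin n) → ℤ) (X : Matrix (Fin n) (Fin n) R) :
    R :=
  ∑ s, (χ s : R) * ∏ i, X (s i) i

theorem gm_one {n : ℕ} {R : Type u} [CommRing R] (X : Matrix (Fin n) (Fin n) R) :
    gm (fun _ => 1) X = X.permanent := by
  simp [gm, permanent]

theorem gm_sign {n : ℕ} {R : Type u} [CommRing R] (X : Matrix (Fin n) (Fin n) R) :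
    gm (fun s => (Perm.sign s : ℤ)) X = X.det := by
  rw [gm, det_apply']

theorem gm_map {n : ℕ} {R S : Type u} [CommRing R] [CommRing S] (χ : Perm (Fin n) → ℤ)
    (X : Matrix (Fin n) (Fin n) R) (φ : R →+* S) : gm χ (X.map φ) = φ (gm χ X) := by
  unfold gm
  rw [map_sum]
  refine Finset.sum_congr rfl fun s _ => ?_
  rw [map_mul, map_prod, map_intCast]
  rfl

theorem gm_scale {n : ℕ} {R : Type u} [CommRing R] (χ : Perm (Fin n) → ℤ)
    (X : Matrix (Fin n) (Fin n) R) (α β : Fin n → R) :
    gm χ (Matrix.of fun i j => α i * β j * X i j) = (∏ i, α i) * (∏ j, β j) * gm χ X := by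
  unfold gm
  rw [Finset.mul_sum]
  refine Finset.sum_congr rfl fun s _ => ?_
  simp only [Matrix.of_apply, Finset.prod_mul_distrib]
  rw [Equiv.prod_comp s α]
  ring

/-- The matrix with the `2 × 2` blocks `B i` in the rows and columns given by `er`, `ec`, and ones
at the remaining positions of the pairing of rows and columns. -/
def assemble {n t c : ℕ} {R : Type u} [CommRing R] (er ec : (Fin 2 × Fin t) ⊕ Fin c ≃ Fin n)
    (B : Fin t → Matrix (Fin 2) (Fin 2) R) : Matrix (Fin n) (Fin n) R :=
  (fromBlocks (blockDiagonal B) 0 0 (1 : Matrix (Fin c) (Fin c) R)).submatrix er.symm ec.symm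

/-- the property of `det` and `per` which is used -/
def BlockGood {n : ℕ} (χ : Perm (Fin n) → ℤ) : Prop :=
  ∀ (t c : ℕ) (er ec : (Fin 2 × Fin t) ⊕ Fin c ≃ Fin n), ∃ ε cc : ℤ, (ε = 1 ∨ ε = -1) ∧
    (cc = 1 ∨ cc = -1) ∧ ∀ {R : Type u} [CommRing R] (B : Fin t → Matrix (Fin 2) (Fin 2) R),
      gm χ (assemble er ec B) = ε * ∏ i, (B i 0 0 * B i 1 1 + cc * (B i 0 1 * B i 1 0))

theorem blockGood_one {n : ℕ} : BlockGood.{u} (n := n) (fun _ => 1) := by
  intro t c er ec
  refine ⟨1, 1, Or.inl rfl, Or.inl rfl, ?_⟩
  intro R _ B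
  rw [gm_one]
  have h1 : (assemble er ec B).permanent
      = (fromBlocks (blockDiagonal B) 0 0 (1 : Matrix (Fin c) (Fin c) R)).permanent := by
    unfold permanent assemble
    let E : Perm ((Fin 2 × Fin t) ⊕ Fin c) ≃ Perm (Fin n) :=
      { toFun := fun σ => (ec.symm.trans σ).trans er
        invFun := fun π => (ec.trans π).trans er.symm
        left_inv := by intro σ; ext a; simp
        right_inv := by intro π; ext a; simp }
    rw [← Equiv.sum_comp E]
    apply Finset.sum_congr rfl
    intro σ _
    rw [← Equiv.prod_comp ec]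
    apply Finset.prod_congr rfl
    intro a _
    simp [E]
  rw [h1, permanent_fromBlocks_one, permanent_blockDiagonal, Int.cast_one, one_mul]
  refine Finset.prod_congr rfl fun i _ => ?_
  rw [one_mul]
  unfold permanent
  have h2 : (Finset.univ : Finset (Perm (Fin 2))) = {1, Equiv.swap 0 1} := by decide
  rw [h2, Finset.sum_pair (by decide)]
  simp [Fin.prod_univ_two]
  ring

theorem blockGood_sign {n : ℕ} : BlockGood.{u} (n := n) (fun s => (Perm.sign s : ℤ)) := by
  intro t c er ec
  refine ⟨(Perm.sign (ec.symm.trans er) : ℤ), -1, ?_, Or.inr rfl, ?_⟩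
  · rcases Int.units_eq_one_or (Perm.sign (ec.symm.trans er)) with h | h
    · left; rw [h]; rfl
    · right; rw [h]; rfl
  intro R _ B
  rw [gm_sign]
  have h0 : assemble er ec B = ((fromBlocks (blockDiagonal B) 0 0
      (1 : Matrix (Fin c) (Fin c) R)).submatrix ec.symm ec.symm).submatrix
        (er.symm.trans ec) id := by
    unfold assemble
    rw [Matrix.submatrix_submatrix]
    congr 1
    ext x
    simp
  rw [h0, Matrix.det_permute, Matrix.det_submatrix_equiv_self, Matrix.det_fromBlocks_zero₂₁,
    Matrix.det_one, mul_one, Matrix.det_blockDiagonal]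
  have h1 : (Perm.sign (er.symm.trans ec) : ℤ) = (Perm.sign (ec.symm.trans er) : ℤ) := by
    have : (er.symm.trans ec : Perm (Fin n)) = (ec.symm.trans er)⁻¹ := by
      ext x; simp [Perm.inv_def]
    rw [this, Perm.sign_inv]
  congr 1
  · have h2 := congrArg (fun z : ℤ => (z : R)) h1
    simpa using h2
  · refine Finset.prod_congr rfl fun i _ => ?_
    rw [Matrix.det_fin_two]
    push_cast
    ring

end Pool.Agent.W943.Aff
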