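import Pool.Agent.W943.Aff5

/-! # Sums of programs which read affine forms -/

set_option autoImplicit false

namespace Pool.Agent.W943.Aff

open Matrix Finset Equiv

universe u

section

variable {K : Type u} [Field K] {n : ℕ}

lemma finrank_inf_ge (X : Submodule K (Matrix (Fin n) (Fin n) K))
    (Y : ℕ → Submodule K (Matrix (Fin n) (Fin n) K)) (c : ℕ → ℕ) (S : Finset ℕ)
    (hY : ∀ j ∈ S, n ^ 2 ≤ Module.finrank K (Y j) + c j) :
    Module.finrank K X ≤ Module.finrank K (X ⊓ S.inf Y : Submodule K (Matrix (Fin n) (Fin n) K))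
      + ∑ j ∈ S, c j := by
  classical
  induction S using Finset.induction_on with
  | empty => rw [Finset.inf_empty, inf_top_eq, Finset.sum_empty, add_zero]
  | insert j S hj ih =>
    have ih' := ih (fun i hi => hY i (Finset.mem_insert_of_mem hi))
    rw [Finset.inf_insert, Finset.sum_insert hj]
    have h1 := Submodule.finrank_sup_add_finrank_inf_eq (X ⊓ S.inf Y) (Y j)
    have h2 := Submodule.finrank_le ((X ⊓ S.inf Y) ⊔ Y j)
    rw [Module.finrank_matrix, Fintype.card_fin, Module.finrank_self, mul_one] at h2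
    have h3 := hY j (Finset.mem_insert_self _ _)
    have h4 : X ⊓ (Y j ⊓ S.inf Y) = X ⊓ S.inf Y ⊓ Y j := by
      rw [inf_assoc, inf_comm (Y j)]
    rw [h4]
    rw [sq] at h3
    omega

lemma geom (q : ℕ) (d : ℕ) : (∑ j ∈ Finset.range q, 2 ^ j * d) + d = 2 ^ q * d := by
  induction q with
  | zero => simp
  | succ q ih =>
    rw [Finset.sum_range_succ]
    have : 2 ^ (q + 1) * d = 2 ^ q * d + 2 ^ q * d := by ring
    omega

end

section bounds

variable {K : Type u} [Field K] (A : ValuationSubring K) {n : ℕ}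

variable [Infinite (IsLocalRing.ResidueField A)] (χ : Perm (Fin n) → ℤ) (hχ : BlockGood.{u} χ)

include hχ

theorem partS (s μ e : ℕ) (mm : Fin s → ℕ) (B : (q : Fin s) → AffProg K n (mm q))
    (f : Matrix (Fin n) (Fin n) K → K) (hf : Approx A (gm χ) f)
    (hsum : ∀ x, f x = ∑ q, (B q).value x)
    (hlen : ∀ q, (B q).length ≤ n ^ 2 + e) (h2 : 2 * (s * μ) ≤ n)
    (hdim : (2 ^ s - 1) * (4 * n * (s * μ) + e) + 4 * n * (s * μ) ≤ n ^ 2) :
    2 ^ μ ≤ ∑ q, (B q).width := by
  classical
  set D := 4 * n * (s * μ) with hD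
  let h : ℕ → ℕ := fun q => 2 ^ q * (D + e)
  let W0 : Fin s → Submodule K (Matrix (Fin n) (Fin n) K) := fun q =>
    LinearMap.ker (LinearMap.pi (fun i : Fin (h q) => (B q).form ((B q).read i)))
  let U0 : Fin s → Submodule K (Matrix (Fin n) (Fin n) K) := fun q =>
    LinearMap.ker (LinearMap.pi (fun i : Fin ((B q).length - h q) =>
      (B q).form ((B q).read (h q + i))))
  have hW0 : ∀ q, n ^ 2 ≤ Module.finrank K (W0 q) + h q := by
    intro q
    have := AffProg.finrank_ker_ge (K := K) (fun i : Fin (h q) => (B q).form ((B q).read i))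
    rwa [Fintype.card_fin] at this
  have hU0 : ∀ q, n ^ 2 ≤ Module.finrank K (U0 q) + ((B q).length - h q) := by
    intro q
    have := AffProg.finrank_ker_ge (K := K) (fun i : Fin ((B q).length - h q) =>
      (B q).form ((B q).read (h q + i)))
    rwa [Fintype.card_fin] at this
  let WW : ℕ → Submodule K (Matrix (Fin n) (Fin n) K) := fun q =>
    if hq : q < s then W0 ⟨q, hq⟩ else ⊤
  let US : ℕ → Submodule K (Matrix (Fin n) (Fin n) K) := fun q =>
    if hq : q < s then U0 ⟨q, hq⟩ ⊓ (Finset.range q).inf WW else ⊤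
  let WS : Submodule K (Matrix (Fin n) (Fin n) K) := (Finset.range s).inf WW
  have hWW : ∀ q < s, n ^ 2 ≤ Module.finrank K (WW q) + h q := by
    intro q hq
    have h3 : WW q = W0 ⟨q, hq⟩ := dif_pos hq
    rw [h3]
    exact hW0 ⟨q, hq⟩
  have hpow : ∀ q < s, h q ≤ (2 ^ s - 1) * (D + e) := by
    intro q hq
    simp only [h]
    apply Nat.mul_le_mul_right
    have h3 : 2 ^ (q + 1) ≤ 2 ^ s := Nat.pow_le_pow_right (by norm_num) hq
    have h4 : 1 ≤ 2 ^ q := Nat.one_le_two_pow
    rw [pow_succ] at h3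
    omega
  have hUS : ∀ q < s, D ≤ Module.finrank K (US q) := by
    intro q hq
    have h3 := finrank_inf_ge (U0 ⟨q, hq⟩) WW h (Finset.range q)
      (fun j hj => hWW j (lt_trans (Finset.mem_range.1 hj) hq))
    have h4 : US q = U0 ⟨q, hq⟩ ⊓ (Finset.range q).inf WW := dif_pos hq
    rw [h4]
    have h5 := geom q (D + e)
    have h6 := hU0 ⟨q, hq⟩
    have h7 := hlen ⟨q, hq⟩
    have h8 := hpow q hq
    have h9 : h q = 2 ^ q * (D + e) := rfl
    simp only at h6
    change _ ≤ _ + ∑ j ∈ Finset.range q, 2 ^ j * (D + e) at h3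
    rw [← h9] at h5
    omega
  have hWS : D ≤ Module.finrank K WS := by
    have h3 := finrank_inf_ge (⊤ : Submodule K (Matrix (Fin n) (Fin n) K)) WW h (Finset.range s)
      (fun j hj => hWW j (Finset.mem_range.1 hj))
    rw [top_inf_eq, finrank_top, Module.finrank_matrix, Fintype.card_fin, Module.finrank_self,
      mul_one, ← sq] at h3
    have h5 := geom s (D + e)
    change _ ≤ _ + ∑ j ∈ Finset.range s, 2 ^ j * (D + e) at h3
    have h6 : 1 ≤ 2 ^ s := Nat.one_le_two_pow
    have h7 : (2 ^ s - 1) * (D + e) + (D + e) = 2 ^ s * (D + e) := by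
      have : 2 ^ s = (2 ^ s - 1) + 1 := by omega
      conv_rhs => rw [this]
      ring
    change D ≤ Module.finrank K ((Finset.range s).inf WW : Submodule K _)
    omega
  have hlt : ∀ i < s * μ, 4 * n * i < D := by
    intro i hi
    have hn : 0 < 4 * n := by omega
    exact Nat.mul_lt_mul_of_pos_left hi hn
  obtain ⟨x, u, w, hu, hw, hdet⟩ := core' A χ hχ f hf (fun i => US (i / μ)) (fun _ => WS) (s * μ) h2
    (fun i hi => lt_of_lt_of_le (hlt i hi) (hUS _ (Nat.div_lt_of_lt_mul (by
      rw [mul_comm]; exact hi))))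
    (fun i hi => lt_of_lt_of_le (hlt i hi) hWS)
  -- reorganisation
  let u2 : Fin s → Fin μ → Matrix (Fin n) (Fin n) K := fun q k => u (finProdFinEquiv (q, k))
  have hu2 : ∀ (q : Fin s) k, u2 q k ∈ US q := by
    intro q k
    have h3 := hu (finProdFinEquiv (q, k))
    have h4 : ((finProdFinEquiv (q, k) : Fin (s * μ)) : ℕ) / μ = q := by
      rw [finProdFinEquiv_apply_val]
      simp only
      rw [Nat.add_mul_div_left _ _ (lt_of_le_of_lt (Nat.zero_le _) k.2),
        Nat.div_eq_of_lt k.2, zero_add]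
    rw [h4] at h3
    exact h3
  let S : (Fin μ → Bool) → Fin s → Matrix (Fin n) (Fin n) K := fun c q =>
    ∑ k, if c k then u2 q k else 0
  have hS : ∀ c (q : Fin s), S c q ∈ US q := by
    intro c q
    refine Submodule.sum_mem _ fun k _ => ?_
    split_ifs
    · exact hu2 q k
    · exact Submodule.zero_mem _
  have hSU : ∀ c q, S c q ∈ U0 q := by
    intro c q
    have h3 := hS c q
    have h4 : US q = U0 q ⊓ (Finset.range q).inf WW := dif_pos q.2
    rw [h4] at h3
    exact h3.1
  have hSW : ∀ c (q j : Fin s), j < q → S c q ∈ W0 j := by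
    intro c q j hj
    have h3 := hS c q
    have h6 : US q = U0 q ⊓ (Finset.range q).inf WW := dif_pos q.2
    rw [h6] at h3
    have h4 : (Finset.range (q : ℕ)).inf WW ≤ WW j := Finset.inf_le (Finset.mem_range.2 hj)
    have h5 := h4 h3.2
    have h7 : WW j = W0 j := dif_pos j.2
    rw [h7] at h5
    exact h5
  have hsplit : ∀ σ : Fin (s * μ) → Bool, (∑ i, if σ i then u i else 0)
      = ∑ q, S (fun k => σ (finProdFinEquiv (q, k))) q := by
    intro σ
    rw [← Equiv.sum_comp finProdFinEquiv, Fintype.sum_prod_type]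
  let wt' : (Fin (s * μ) → Bool) → Matrix (Fin n) (Fin n) K := fun τ =>
    ∑ i, if τ i then w i else 0
  have hwt : ∀ τ (q : Fin s), wt' τ ∈ W0 q := by
    intro τ q
    have h3 : wt' τ ∈ WS := by
      refine Submodule.sum_mem _ fun i _ => ?_
      split_ifs
      · exact hw i
      · exact Submodule.zero_mem _
    have h4 : (Finset.range s).inf WW ≤ WW q := Finset.inf_le (Finset.mem_range.2 q.2)
    have h5 := h4 h3
    have h7 : WW q = W0 q := dif_pos q.2
    rw [h7] at h5
    exact h5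
  let Ξ : Fin s → Type := fun q => {j : Fin s // j ≠ q} → (Fin μ → Bool)
  let Y : (q : Fin s) → Ξ q → Matrix (Fin n) (Fin n) K := fun q ρ =>
    x + ∑ j : {j : Fin s // j ≠ q}, if j.1 < q then S (ρ j) j.1 else 0
  let Z : (q : Fin s) → Ξ q → Matrix (Fin n) (Fin n) K := fun q ρ =>
    ∑ j : {j : Fin s // j ≠ q}, if j.1 < q then 0 else S (ρ j) j.1
  have hZ : ∀ q ρ, Z q ρ ∈ W0 q := by
    intro q ρ
    refine Submodule.sum_mem _ fun j _ => ?_
    split_ifs with hjq
    · exact Submodule.zero_mem _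
    · exact hSW _ _ _ (lt_of_le_of_ne (not_lt.1 hjq) (Ne.symm j.2))
  have htwo : ∀ (q : Fin s) (y : Matrix (Fin n) (Fin n) K),
      ∃ (a : U0 q → Fin (B q).width → K) (b : W0 q → Fin (B q).width → K),
        ∀ (y' : U0 q) (z : W0 q),
        (B q).value (y + (y' : Matrix (Fin n) (Fin n) K) + (z : Matrix (Fin n) (Fin n) K))
          = ∑ g, a y' g * b z g := by
    intro q y
    apply AffProg.value_two (B q) (U0 q) (W0 q) (h q)
    · intro i _ hi z hz
      exact congrFun (LinearMap.mem_ker.1 hz) ⟨i, hi⟩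
    · intro i hi hi2 z hz
      have h1 := congrFun (LinearMap.mem_ker.1 hz) ⟨i - h q, by omega⟩
      simp only [LinearMap.pi_apply, Pi.zero_apply] at h1
      rw [show h q + (i - h q) = i by omega] at h1
      exact h1
  choose a b hab using htwo
  let res : (q : Fin s) → (Fin (s * μ) → Bool) → Ξ q := fun q σ j k =>
    σ (finProdFinEquiv (j.1, k))
  let own : Fin s → (Fin (s * μ) → Bool) → (Fin μ → Bool) := fun q σ k =>
    σ (finProdFinEquiv (q, k))
  let P : Matrix (Fin (s * μ) → Bool) (Σ q : Fin s, Fin (B q).width × Ξ q) K :=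
    Matrix.of fun σ p => if p.2.2 = res p.1 σ then
      a p.1 (Y p.1 p.2.2) ⟨S (own p.1 σ) p.1, hSU _ _⟩ p.2.1 else 0
  let R : Matrix (Σ q : Fin s, Fin (B q).width × Ξ q) (Fin (s * μ) → Bool) K :=
    Matrix.of fun p τ => b p.1 (Y p.1 p.2.2)
      ⟨Z p.1 p.2.2 + wt' τ, (W0 p.1).add_mem (hZ _ _) (hwt _ _)⟩ p.2.1
  have hPR : (Matrix.of fun σ τ : Fin (s * μ) → Bool =>
      f (x + (∑ i, if σ i then u i else 0) + (∑ i, if τ i then w i else 0))) = P * R := by
    ext σ τ
    rw [Matrix.of_apply, Matrix.mul_apply, Fintype.sum_sigma, hsum]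
    refine Finset.sum_congr rfl fun q _ => ?_
    rw [Fintype.sum_prod_type]
    have h3 : ∀ g : Fin (B q).width, ∑ ρ : Ξ q, P σ ⟨q, (g, ρ)⟩ * R ⟨q, (g, ρ)⟩ τ
        = a q (Y q (res q σ)) ⟨S (own q σ) q, hSU _ _⟩ g *
          b q (Y q (res q σ)) ⟨Z q (res q σ) + wt' τ, (W0 q).add_mem (hZ _ _) (hwt _ _)⟩ g := by
      intro g
      rw [Finset.sum_eq_single (res q σ)]
      · simp only [P, R, Matrix.of_apply, if_true]
      · intro ρ _ hρ
        simp only [P, R, Matrix.of_apply, if_neg hρ, zero_mul]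
      · intro h4
        exact absurd (Finset.mem_univ _) h4
    rw [Finset.sum_congr rfl fun g _ => h3 g, ← hab]
    congr 1
    simp only
    rw [hsplit, Fintype.sum_eq_add_sum_subtype_ne _ q]
    have h5 : ∑ i : {i : Fin s // i ≠ q}, S (fun k => σ (finProdFinEquiv (i.1, k))) i.1
        = (∑ j : {j : Fin s // j ≠ q}, if j.1 < q then S (res q σ j) j.1 else 0)
          + ∑ j : {j : Fin s // j ≠ q}, if j.1 < q then 0 else S (res q σ j) j.1 := by
      rw [← Finset.sum_add_distrib]
      refine Finset.sum_congr rfl fun j _ => ?_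
      split_ifs
      · rw [add_zero]
      · rw [zero_add]
    rw [h5]
    simp only [Y, Z, own, wt']
    abel
  have hunit : IsUnit (Matrix.of fun σ τ : Fin (s * μ) → Bool =>
        f (x + (∑ i, if σ i then u i else 0) + (∑ i, if τ i then w i else 0))) := by
    rw [Matrix.isUnit_iff_isUnit_det, isUnit_iff_ne_zero]
    exact hdet
  have h1 := Matrix.rank_of_isUnit _ hunit
  rw [hPR] at h1
  have h3 := Matrix.rank_mul_le_left P R
  have h4 := Matrix.rank_le_card_width P
  have h5 : Fintype.card (Fin (s * μ) → Bool) = 2 ^ (s * μ) := by simp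
  have h6 : Fintype.card (Σ q : Fin s, Fin (B q).width × Ξ q)
      = (∑ q, (B q).width) * (2 ^ μ) ^ (s - 1) := by
    rw [Fintype.card_sigma, Finset.sum_mul]
    refine Finset.sum_congr rfl fun q _ => ?_
    rw [Fintype.card_prod, Fintype.card_fin]
    congr 1
    simp only [Ξ]
    rw [Fintype.card_fun, Fintype.card_fun, Fintype.card_bool, Fintype.card_fin]
    congr 1
    simp
  rw [h6] at h4
  have h7 : 2 ^ (s * μ) ≤ (∑ q, (B q).width) * (2 ^ μ) ^ (s - 1) := by omega
  rcases Nat.eq_zero_or_pos s with hs | hs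
  · subst hs
    simp at h7
  · have h8 : 2 ^ (s * μ) = 2 ^ μ * (2 ^ μ) ^ (s - 1) := by
      rw [← pow_succ', Nat.sub_add_cancel hs, ← pow_mul, mul_comm]
    rw [h8] at h7
    exact Nat.le_of_mul_le_mul_right h7 (by positivity)

end bounds

end Pool.Agent.W943.Aff
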